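import Pool.Agent.P.MP_08fd93_co.FZ.E0
import Pool.Agent.P.MP_08fd93_co.FN.N10
import Pool.Agent.P.MP_08fd93_co.FR.Fun

/-! Frames with one orbit of ears: the edges at the root. -/

set_option autoImplicit false

namespace Pool.Agent.P.MP_08fd93_co.FZ

open OV FN FE FB FR

variable {J : Type} {G : VD J} {v l r e g k x y : Vx J} {φ : Vx J → Vx J} {j : ℤ} {M : MU J}
  {d : DD (Vx J)}

/-- A frame whose stems are the translates of the ear `v`; `l` and `r` name the edges at the ends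
of the children of `v`. -/
structure ER (G : VD J) (v l r : Vx J) : Prop where
  sv : SV G
  eK : ∀ x, x ∈ G.K ↔ x.1 = v.1
  fv : G.f v = 1
  ear : G.ρ (G.xr v) = G.ρ (G.xl v) + 1
  hl : l ∈ G.L 1 ∧ G.an (G.nx l) = v ∧ G.an l ≠ v
  hr : r ∈ G.L 1 ∧ G.an r = v ∧ G.an (G.nx r) ≠ v
  n3 : ∀ j, 3 ≤ G.nn j

/-- `g` names an edge of a triangle under an end of the chord. -/
def Fan (G : VD J) (v g : Vx J) : Prop := g ∈ G.L (-1) ∧
  ((g = G.an (G.xl v) ∧ G.Γ.Adj (G.xl v) (G.nx g)) ∨ (G.nx g = G.an (G.xr v) ∧ G.Γ.Adj (G.xr v) g))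

theorem Rows.la_st {F : FD J} (h : Rows F) (hy : y ∈ F.LA) : y ∉ F.St j := fun k => by
  have := h.uw.ge _ _ k.1
  rcases eq_or_lt_of_le this with c | c
  · exact k.2 (Or.inl (c ▸ hy))
  · exact k.2 (Or.inr (h.uw.mono _ _ c (h.l_u hy)))

theorem Rows.nx_orb {F : FD J} (h : Rows F) (hx : x ∈ F.LA) (hy : y ∈ F.LA) :
    (F.nx x).1 = (F.nx y).1 ↔ x.1 = y.1 := by
  constructor
  · intro c
    obtain ⟨n1, n2, -⟩ := h.nx_mem hx
    obtain ⟨m1, m2, -⟩ := h.nx_mem hy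
    obtain ⟨κ, hκ⟩ := h.rho_tr ((F.nx x).2 - (F.nx y).2) (F.f y)
    have a := hκ _ m1
    have b := hκ _ hy
    rw [← orb_eq c] at a
    have lv := (h.uw.lf _ _ n1).symm.trans (h.uw.lf _ _ a.1)
    rw [h.inj hx (lv ▸ b.1) (by omega)]
    rfl
  · intro c
    rw [orb_eq c, h.nx_tr _ hy]
    rfl

section

variable (h : ER G v l r)
include h

theorem ER.rows : Rows G.toFD := h.sv.vf.toRows

theorem ER.vk : v ∈ G.K := (h.eK v).2 rfl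

theorem ER.xl0 : G.xl v ∈ G.L 0 ∧ G.Γ.Adj v (G.xl v) := by
  simpa [h.fv] using (h.sv.foot h.vk).1

theorem ER.xr0 : G.xr v ∈ G.L 0 ∧ G.Γ.Adj v (G.xr v) := by
  simpa [h.fv] using (h.sv.foot h.vk).2.1

theorem ER.nx_xl : G.nx (G.xl v) = G.xr v :=
  h.rows.inj (h.rows.nx_mem h.xl0.1).1 h.xr0.1 ((h.rows.nx_mem h.xl0.1).2.1.trans h.ear.symm)

theorem ER.k_tr (hk : k ∈ G.K) : ∃ a, k = tr a v := ⟨_, orb_eq ((h.eK k).1 hk)⟩

theorem ER.la_nk (hy : y ∈ G.LA) : y.1 ≠ v.1 := fun c => h.sv.vf.l_nk hy ((h.eK y).2 c)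

theorem ER.odd (hk : k ∈ G.K) : Odd (G.f k) := by
  obtain ⟨a, rfl⟩ := h.k_tr hk
  rw [h.rows.wp.per, h.fv]
  exact (h.rows.wp.ev a).one_add

theorem ER.par (hx : x ∈ G.L j) (hy : y ∈ G.L (j + 1)) : x.1 ≠ y.1 := fun c =>
  odd_orb h.rows ((h.rows.uw.lf _ _ hy).trans (by rw [h.rows.uw.lf _ _ hx])) c.symm

/-- on even rows the parents lie on the row below -/
theorem ER.an_nk (hx : x ∈ G.L j) (ev : Even j) : G.an x ∉ G.K := fun c =>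
  Int.not_even_iff_odd.2 (h.odd c) ((h.sv.vf.an_v hx (h.sv.pr x) c).2.symm ▸ ev)

theorem ER.isL (i : IsL G e) : ∃ a, e = tr a l ∧ G.an (G.nx e) = tr a v := by
  obtain ⟨a, ha⟩ := h.k_tr i.2.1
  have R := h.rows
  have V := h.sv.vf
  have f1 := (V.an_v (R.nx_mem i.1).1 (h.sv.pr _) i.2.1).2
  rw [ha, R.wp.per, h.fv] at f1
  have m : tr a l ∈ G.L (G.f e) := f1 ▸ (R.uw.ltr a 1 l).2 h.hl.1
  have e1 : G.an (G.nx (tr a l)) = tr a v := by rw [R.nx_tr a h.hl.1, V.atr, h.hl.2.1]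
  obtain ⟨n1, n2, -⟩ := R.nx_mem i.1
  obtain ⟨m1, m2, -⟩ := R.nx_mem m
  refine ⟨a, R.inj i.1 m ?_, ha⟩
  by_contra c
  rcases lt_or_gt_of_ne c with c | c
  · have := V.btw n1 (h.sv.pr _) m (h.sv.pr _) m1 (h.sv.pr _) (by omega) (by omega)
      (ha.trans e1.symm) i.2.1
    rw [ha, V.atr] at this
    exact h.hl.2.2 (tr_inj a this)
  · exact i.2.2 ((V.btw m1 (h.sv.pr _) i.1 (h.sv.pr _) n1 (h.sv.pr _) (by omega) (by omega)
      (e1.trans ha.symm) (e1.symm ▸ ha ▸ i.2.1)).trans (e1.trans ha.symm))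

theorem ER.isR (i : IsR G e) : ∃ a, e = tr a r ∧ G.an e = tr a v := by
  obtain ⟨a, ha⟩ := h.k_tr i.2.1
  have R := h.rows
  have V := h.sv.vf
  have f1 := (V.an_v i.1 (h.sv.pr _) i.2.1).2
  rw [ha, R.wp.per, h.fv] at f1
  have m : tr a r ∈ G.L (G.f e) := f1 ▸ (R.uw.ltr a 1 r).2 h.hr.1
  have e1 : G.an (tr a r) = tr a v := by rw [V.atr, h.hr.2.1]
  obtain ⟨n1, n2, -⟩ := R.nx_mem i.1
  obtain ⟨m1, m2, -⟩ := R.nx_mem m
  refine ⟨a, R.inj i.1 m ?_, ha⟩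
  by_contra c
  rcases lt_or_gt_of_ne c with c | c
  · exact i.2.2 (V.btw i.1 (h.sv.pr _) n1 (h.sv.pr _) m (h.sv.pr _) (by omega) (by omega)
      (ha.trans e1.symm) i.2.1)
  · have := V.btw m (h.sv.pr _) m1 (h.sv.pr _) i.1 (h.sv.pr _) (by omega) (by omega)
      (e1.trans ha.symm) (e1.symm ▸ ha ▸ i.2.1)
    rw [e1, R.nx_tr a h.hr.1, V.atr] at this
    exact h.hr.2.2 (tr_inj a this)

/-- the neighbours of a stem on the rows -/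
theorem ER.k_nb (hk : k ∈ G.K) (hy : y ∈ G.LA) (a : G.Γ.Adj k y) :
    y = G.xl k ∨ y = G.xr k ∨ G.f y = G.f k := by
  obtain ⟨f1, f2, f3⟩ := h.sv.foot hk
  rcases h.rows.att (h.sv.vf.kst k hk) a with c | c | c
  · exact absurd c (h.rows.la_st hy)
  · have := f3 y c a
    have := h.sv.sh k hk
    by_cases q : G.ρ y = G.ρ (G.xl k)
    exacts [Or.inl (h.rows.inj c f1.1 q), Or.inr (Or.inl (h.rows.inj c f2.1 (by omega)))]
  · exact Or.inr (Or.inr (h.rows.uw.lf _ _ c))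

theorem ER.und (hφ : FK.PH (FL G) G.Pr φ) (hg : g ∈ G.L (j - 1)) (he : e ∈ G.L j)
    (l1 : G.ρ (G.xl (G.an e)) ≤ G.ρ g) (l2 : G.ρ g < G.ρ (G.xl (G.an (G.nx e)))) : φ g = e := by
  have fg : G.f g + 1 = j := by rw [h.rows.uw.lf _ _ hg, sub_add_cancel]
  obtain ⟨n1, n2, -⟩ := h.rows.nx_mem he
  refine (hφ.uni g (h.rows.la hg) e ⟨fg ▸ he, h.sv.pr e, l1, fun t ht _ c => ?_⟩).symm
  have ht : t ∈ G.L j := fg ▸ ht
  have c : G.ρ e < G.ρ t := c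
  exact l2.trans_le (h.sv.vf.mono' n1 (h.sv.pr _) ht (h.sv.pr _) (by omega)).1

/-- the edge above `g` in terms of the feet -/
theorem ER.phi (hφ : FK.PH (FL G) G.Pr φ) (hg : g ∈ G.L j) : φ g ∈ G.L (j + 1) ∧
    G.ρ (G.xl (G.an (φ g))) ≤ G.ρ g ∧ G.ρ g < G.ρ (G.xl (G.an (G.nx (φ g)))) := by
  obtain ⟨a, -, b, c⟩ := hφ.und g (h.rows.la hg)
  obtain ⟨n1, n2, -⟩ := h.rows.nx_mem (F := G.toFD) a
  refine ⟨h.rows.uw.lf _ _ hg ▸ a, b, c _ n1 (h.sv.pr _) ?_⟩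
  show G.ρ _ < G.ρ _
  omega

/-- a row edge of a bottom path lies under its top edge and is not a chord -/
theorem ER.bt_phi (hφ : FK.PH (FL G) G.Pr φ) (he : e ∈ G.LA) (hg : g ∈ G.LA)
    (m : s(g, G.nx g) ∈ PE G.Γ (G.Bt e (G.nx e))) : φ g = e ∧ g.1 ≠ (G.xl v).1 := by
  have R := h.rows
  have V := h.sv.vf
  obtain ⟨n1, n2, -⟩ := R.nx_mem he
  obtain ⟨m1, m2, -⟩ := R.nx_mem hg
  obtain ⟨a1, a2, -⟩ := V.bt_line he (h.sv.pr _) n1 (h.sv.pr _) (by omega)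
    (PE.ends m (Sym2.mem_mk_left _ _)) (V.l_nk hg)
  obtain ⟨-, -, a3⟩ := V.bt_line he (h.sv.pr _) n1 (h.sv.pr _) (by omega)
    (PE.ends m (Sym2.mem_mk_right _ _)) (V.l_nk m1)
  have ft := (V.feet he (h.sv.pr _)).2.2
  refine ⟨h.und hφ a1 he (by omega) (by omega), fun c => ?_⟩
  obtain ⟨a, rfl⟩ : ∃ a, g = tr a (G.xl v) := ⟨_, orb_eq c⟩
  have f1 := R.uw.lf _ _ a1
  rw [R.wp.per, R.uw.lf _ _ h.xl0.1] at f1
  have q : tr a r ∈ G.L (G.f e) := (show 1 + G.η a = G.f e by omega) ▸ (R.uw.ltr a 1 r).2 h.hr.1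
  have e1 : G.an (tr a r) = tr a v := by rw [V.atr, h.hr.2.1]
  rw [R.nx_tr a h.xl0.1, h.nx_xl] at m2
  by_cases c : G.ρ (tr a r) ≤ G.ρ e
  · have := (V.mono' q (h.sv.pr _) he (h.sv.pr _) c).2
    rw [e1, (V.xtr a v).2.1] at this
    omega
  · have := (V.mono' n1 (h.sv.pr _) q (h.sv.pr _) (by omega)).1
    rw [e1, (V.xtr a v).1] at this
    rw [R.nx_tr a h.xl0.1, h.nx_xl] at a3
    omega

theorem ER.an0 (hx : x ∈ G.L 0) : G.an x ∈ G.L (-1) ∧ G.Γ.Adj x (G.an x) ∧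
    G.xl (G.an x) = G.an x :=
  ⟨by simpa using h.sv.vf.an_l hx (h.sv.pr x) (h.an_nk hx Even.zero), (h.sv.vf.aa 0 x hx (h.sv.pr x)).1,
    (h.sv.vf.xo _ (h.an_nk hx Even.zero)).1⟩

/-- the edges of the two fans lie under the chord -/
theorem ER.fan_phi (hφ : FK.PH (FL G) G.Pr φ) (hg : Fan G v g) : φ g = G.xl v := by
  obtain ⟨a1, a2, a3⟩ := h.an0 h.xl0.1
  obtain ⟨b1, b2, b3⟩ := h.an0 h.xr0.1
  obtain ⟨n1, n2, -⟩ := h.rows.nx_mem hg.1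
  have ear := h.ear
  refine h.und hφ (j := 0) (by simpa using hg.1) h.xl0.1 ?_ ?_
  · rw [a3]
    rcases hg.2 with c | c
    · rw [← c.1]
    · exact rm_dn h.rows (j := 0) (by norm_num) a1 h.xl0.1 a2 hg.1 h.xr0.1 c.2 (by omega)
  · rw [h.nx_xl, b3]
    rcases hg.2 with c | c
    · have := rm_dn h.rows (j := 0) (by norm_num) n1 h.xl0.1 c.2 b1 h.xr0.1 b2 (by omega)
      omega
    · rw [← c.1]
      omega

end

/-- an edge of a fan is separated from all other edges of the cell -/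
theorem fan_sep (h : SV G) (hd : VC G M d) (c : C1 (FL G) M e) (hg : g ∈ G.LA)
    (fr : (g = G.an e ∧ G.Γ.Adj e (G.nx g)) ∨ (G.nx g = G.an (G.nx e) ∧ G.Γ.Adj (G.nx e) g))
    (m : s(g, G.nx g) ∈ PE G.Γ d.X) {z : Sym2 (Vx J)} (hz : z = s(d.a', d.b') ∨
      ∃ g' ∈ G.LA, g' ≠ g ∧ z = s(g', G.nx g') ∧ z ∈ PE G.Γ d.X) :
    Sep G.Γ d s(g, G.nx g) z ∨ Sep G.Γ d z s(g, G.nx g) := by
  have R := h.vf.toRows
  have D := hd.mc.disc
  have rx : ∀ y ∈ G.LA, s(y, G.nx y) ∈ PE G.Γ d.X → y ∈ d.X ∧ G.nx y ∈ d.X ∧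
      d.ρ y = G.ρ y ∧ d.ρ (G.nx y) = G.ρ y + 1 ∧ y ∈ G.L (G.f M.s - 1) := fun y hy q => by
    have a := PE.ends q (Sym2.mem_mk_left _ _)
    have b := PE.ends q (Sym2.mem_mk_right _ _)
    exact ⟨a, b, hd.mc.rx y a (h.vf.l_nk hy), (hd.mc.rx _ b (h.vf.l_nk (R.nx_mem hy).1)).trans
      (R.nx_mem hy).2.1, (hd.mc.xb a (h.vf.l_nk hy)).1⟩
  obtain ⟨g1, g2, g3, g4, g5⟩ := rx g hg m
  rcases fr with ⟨q, a⟩ | ⟨q, a⟩
  · refine Or.inl ⟨_, g2, _, D.py.ha, by rw [hd.mc.ea', c.es]; exact a.symm,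
      mem2 (Or.inl ⟨g1, by omega⟩) (Or.inl ⟨g2, le_rfl⟩), ?_⟩
    rcases hz with rfl | ⟨y, hy, n, rfl, t⟩
    · exact mem2 (Or.inr ⟨D.py.ha, le_rfl⟩) (Or.inr ⟨D.py.hb, D.py.lo _ D.py.hb⟩)
    · obtain ⟨y1, y2, y3, y4, y5⟩ := rx y hy t
      have := D.px.lo y y1
      rw [hd.ea, c.es, ← q] at this
      have : G.ρ y ≠ G.ρ g := fun k => n (R.inj y5 g5 k)
      exact mem2 (Or.inl ⟨y1, by omega⟩) (Or.inl ⟨y2, by omega⟩)
  · refine Or.inr ⟨_, g1, _, D.py.hb, by rw [hd.mc.eb', c.es']; exact a.symm, ?_,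
      mem2 (Or.inl ⟨g1, le_rfl⟩) (Or.inl ⟨g2, by omega⟩)⟩
    rcases hz with rfl | ⟨y, hy, n, rfl, t⟩
    · exact mem2 (Or.inr ⟨D.py.ha, D.py.hi _ D.py.ha⟩) (Or.inr ⟨D.py.hb, le_rfl⟩)
    · obtain ⟨y1, y2, y3, y4, y5⟩ := rx y hy t
      have := D.px.hi _ y2
      rw [hd.eb, c.es', show G.an ((FL G).nx e) = G.nx g from q.symm] at this
      have : G.ρ y ≠ G.ρ g := fun k => n (R.inj y5 g5 k)
      exact mem2 (Or.inl ⟨y1, by omega⟩) (Or.inl ⟨y2, by omega⟩)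

/-- a static top edge is covered by its trivial unit -/
theorem spc_st {P Vs : Set (Vx J)} {pL pR : Prop} {p : PD J} (h : SV G)
    (hp : PS (FL G) (XL G) G.Pr p (PQ1 G P Vs pL pR)) (st : StC G p Vs pL pR) (he : e ∈ P)
    (hv : VisE G P Vs pL pR e) (k : ∀ M d, VC G M d → C1 (FL G) M e →
      SS G P pL pR e ⊆ PE G.Γ d.X →
      Sl (FL G) p ((PQ1 G P Vs pL pR).Ok (FL G)) M d (SS G P pL pR e) ∅) :
    Spc G p (PQ1 G P Vs pL pR) e := by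
  intro M d u hd hu o c
  have hF := h.lay
  obtain ⟨vu, e1, e2⟩ := one_ends hF hd.hM hu
  obtain rfl := hp.stat hF vu o (Or.inl ⟨he, fun q => q⟩) c
  have c1 : C1 (FL G) M e := ⟨hF.la c.1, hu, e1.symm, e2.symm⟩
  have o' : ∀ u ∈ M.us, (PQ1 G P Vs pL pR).Ok0 (FL G) u := fun u q => by
    rw [hu] at q
    exact q ▸ o
  refine hd.csol0 h hp st o' (fun u q y cy => ?_) ?_
  · rw [hu] at q
    subst q
    exact hF.tv_cov c1.la cy ▸ hv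
  · have := (hd.cel (P := P) h hp.pl st).sub
    rw [c1.su hF] at this ⊢
    exact k M d hd c1 this

end Pool.Agent.P.MP_08fd93_co.FZ
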