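import Pool.Agent.P.MP_08fd93_co.FK.K4

/-! Systems of flows on the rows with one extra arrival on the row one. -/

set_option autoImplicit false

namespace Pool.Agent.P.MP_08fd93_co.FZ

open OV

/-- Orbits of edges: sources, sinks, neutral pins, and pins that need no payment from above. -/
structure EJ (J : Type) where
  Sr : Set J
  Sk : Set J
  Ps : Set J
  Fr : Set J

variable {J : Type}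

/-- The pinned orbits. -/
def EJ.Pn (E : EJ J) : Set J := E.Sr ∪ E.Ps

/-- A system of flows: `g0` is the only pin of the row zero, the edge `t` of the row one carries
one more strict edge, for free if `fz` holds. -/
structure ES (F : FD J) (φ : Vx J → Vx J) (E : EJ J) (g0 t : Vx J) (fz : Prop) : Prop where
  dis : ∀ i ∈ E.Sr, i ∉ E.Sk ∧ i ∉ E.Ps
  ne : ∀ j, ∃ m ∈ F.L j, m.1 ∈ E.Sk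
  alt : ∀ j, ∀ s ∈ F.L j, ∀ s' ∈ F.L j, s.1 ∈ E.Sk → s'.1 ∈ E.Sk → F.ρ s < F.ρ s' →
    ∃ g ∈ F.L j, g.1 ∈ E.Sr ∧ F.ρ s < F.ρ g ∧ F.ρ g < F.ρ s'
  two : ∀ j, ∀ a ∈ F.L j, ∀ b ∈ F.L j, ∀ c ∈ F.L j, a.1 ∈ E.Pn → b.1 ∈ E.Pn → c.1 ∈ E.Pn →
    a.1 = b.1 ∨ a.1 = c.1 ∨ b.1 = c.1
  arr : ∀ g ∈ F.LA, g.1 ∈ E.Pn → g.1 ∉ E.Fr → (φ g).1 ∈ E.Sk ∨ (φ g).1 ∈ E.Ps
  mer : ∀ j, ∀ a ∈ F.L j, ∀ b ∈ F.L j, a.1 ∈ E.Pn → b.1 ∈ E.Pn → a.1 ∉ E.Fr → b.1 ∉ E.Fr →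
    a.1 ≠ b.1 → (φ a).1 = (φ b).1 → (φ a).1 ∈ E.Sk ∧ (φ a).1 ∈ E.Ps
  src : g0.1 ∈ E.Sr
  one : ∀ g ∈ F.L 0, g.1 ∈ E.Pn → g.1 = g0.1
  eps : (fz ∧ t.1 ∈ E.Pn ∧ (φ g0).1 ≠ t.1) ∨
    ((t.1 ∈ E.Sk ∨ t.1 ∈ E.Ps) ∧ ((φ g0).1 = t.1 → t.1 ∈ E.Sk ∧ t.1 ∈ E.Ps))

end Pool.Agent.P.MP_08fd93_co.FZ
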