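import Pool.Agent.P.MP_08fd93_co.FZ.W2
import Pool.Agent.P.MP_08fd93_co.FH.H1

/-! The frame of a long second root when the row zero lies under one edge: the three plans. -/

set_option autoImplicit false

namespace Pool.Agent.P.MP_08fd93_co.FZ

open OV FB FN FK FE FA FH

variable {J : Type} {G : VD J} {v z l r u f g s : Vx J} {pL pR : Prop} {φ : Vx J → Vx J}
  {M : MU J} {d : DD (Vx J)} {B C : Set (Sym2 (Vx J))} {P : Set (Vx J)}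

/-- The cell under `r` runs from `v` to the next translate of `z`; the inner vertex `u` sees `v`,
the right end of `r` and the vertex `f` of the row zero. -/
structure HZ (G : VD J) (v z l r u f : Vx J) : Prop where
  zr : ZR G v z l r
  eh : G.an (G.nx r) = tr G.w z
  uv : G.Γ.Adj u v
  uh : G.Γ.Adj u (G.nx r)
  us : u ∈ G.S 1
  f0 : f ∈ G.L 0
  uf : G.Γ.Adj u f
  l1 : G.ρ z < G.ρ f
  l2 : G.ρ f < G.ρ z + G.nn 0
  nf : ¬ G.Γ.Adj f (G.nx r)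

/-- The edge of the row that begins at `g`. -/
def ed (G : VD J) (g : Vx J) : Sym2 (Vx J) := s(g, G.nx g)

section

variable (h : HZ G v z l r u f)
include h

theorem HZ.wz {x : Vx J} (hx : x ∈ G.L 0) :
    tr G.w x ∈ G.L 0 ∧ G.ρ (tr G.w x) = G.ρ x + G.nn 0 := by
  have := h.zr.sw.lay.w_mem 1 hx
  rwa [one_mul, one_smul] at this

theorem HZ.xh : G.xl (G.an (G.nx r)) = tr G.w z := by
  rw [h.eh]
  exact (h.zr.sw.vf.xo _ (h.zr.sw.vf.l_nk (h.wz h.zr.z0.1).1)).1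

theorem HZ.h1 : G.nx r ∈ G.L 1 ∧ G.nx r ∈ G.Pr ∧ G.ρ (G.nx r) = G.ρ r + 1 :=
  let ⟨a, b, _⟩ := h.zr.rows.nx_mem h.zr.hr.1
  ⟨a, h.zr.pr a odd_one, b⟩

theorem HZ.bt (hs : s ∈ G.L 1) (e : G.an s = v) (hg : g ∈ G.L 0) (a : G.ρ z ≤ G.ρ g)
    (c : G.ρ g ≤ G.ρ z + G.nn 0) : g ∈ G.Bt s (G.nx r) :=
  h.zr.sw.bt_of hs (e ▸ h.zr.hr.2.2.symm) hg (by rwa [e, h.zr.xv])
    (by rwa [h.xh, (h.wz h.zr.z0.1).2])

theorem HZ.phi (hφ : PH (FL G) G.Pr φ) (hg : g ∈ G.L 0) :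
    φ g = r ↔ G.ρ z ≤ G.ρ g ∧ G.ρ g < G.ρ z + G.nn 0 := by
  have R := h.zr.rows
  have r1 := h.zr.hr.1
  have pr := h.zr.pr r1 odd_one
  obtain ⟨n1, n2, n3⟩ := R.nx_mem hg
  rw [← h.zr.sw.und_iff hφ (R.la r1) pr (R.la hg), h.zr.n2 r1 odd_one, mem_PE]
  refine ⟨fun ⟨a, c, _⟩ => ?_, fun k => ⟨h.bt r1 h.zr.hr.2.1 hg k.1 k.2.le,
    h.bt r1 h.zr.hr.2.1 n1 (by omega) (by omega), n3⟩⟩
  have le : G.ρ r ≤ G.ρ (G.nx r) := by have := h.h1.2.2; omega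
  have a1 := (h.zr.sw.line r1 pr h.h1.1 h.h1.2.1 le a (h.zr.sw.vf.l_nk hg)).2.1
  have a2 := (h.zr.sw.line r1 pr h.h1.1 h.h1.2.1 le c (h.zr.sw.vf.l_nk n1)).2.2
  rw [h.zr.hr.2.1, h.zr.xv] at a1
  rw [h.xh, (h.wz h.zr.z0.1).2] at a2
  omega

/-- every orbit of the row zero has an edge under `r` -/
theorem HZ.win (hφ : PH (FL G) G.Pr φ) (hg : g ∈ G.L 0) : ∃ x ∈ G.L 0, x.1 = g.1 ∧ φ x = r := by
  obtain ⟨k, a, c⟩ := window h.zr.sw.lay hg (G.ρ z)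
  have m := (h.zr.sw.lay.w_mem k hg).1
  exact ⟨_, m, rfl, (h.phi hφ m).2 ⟨a, c⟩⟩

theorem HZ.all (hφ : PH (FL G) G.Pr φ) : ∀ g ∈ G.L 0, (φ g).1 = r.1 := fun g hg => by
  obtain ⟨x, a, c, e⟩ := h.win hφ hg
  rw [← e]
  exact (hφ.fst (h.zr.rows.la a) c).symm

theorem HZ.inn (hs : s ∈ G.L 1) (e : G.an s = v) : u ∈ G.In s (G.nx r) := by
  have V := h.zr.sw.vf
  have := (V.cl_btw (j := 1) hs (h.zr.pr hs odd_one) h.h1.1 h.h1.2.1 (Or.inr rfl) (Or.inl rfl)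
    (x := f) (Or.inl ⟨h.f0, by rw [h.zr.sw.sh, e, h.zr.xv]; exact h.l1⟩)
    (Or.inl ⟨h.f0, by rw [h.xh, (h.wz h.zr.z0.1).2]; exact h.l2⟩) h.uf.symm).1 h.us
  unfold VD.In
  rwa [V.uw.lf _ _ hs]

theorem HZ.hu (hd : VC G M d) (hs : M.s ∈ G.L 1) (le : G.ρ M.s ≤ G.ρ r) (es : M.s' = G.nx r)
    (hB : ∀ e ∈ B, e = s(v, z) ∨ ∃ g ∈ G.L 0, G.ρ z ≤ G.ρ g ∧ G.ρ g < G.ρ f ∧ e = ed G g)
    (hC : ∀ e ∈ C, ∃ g ∈ G.L 0, G.ρ f ≤ G.ρ g ∧ G.ρ g < G.ρ z + G.nn 0 ∧ e = ed G g)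
    (tB : Tw B) : HU G.Γ d u v f ∅ B C := by
  have R := h.zr.rows
  have V := h.zr.sw.vf
  have D := hd.mc.disc
  have l1 := h.l1
  have l2 := h.l2
  have n0 := h.zr.n3 0
  have av : G.an M.s = v := by
    have r1 := h.zr.hr.1
    have := h.h1.2.2
    have := h.zr.sw.kin hs hd.hM.ps h.h1.1 h.h1.2.1 (es ▸ hd.nov) r1 (h.zr.pr r1 odd_one) le
      (by omega) (h.zr.hr.2.1.symm ▸ h.zr.vk)
    rw [h.zr.hr.2.1] at this
    exact (this.resolve_right h.zr.hr.2.2.symm).symm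
  have ea : d.a = v := hd.ea.trans av
  have eb : d.b' = G.nx r := hd.mc.eb'.trans es
  have mx : ∀ g ∈ G.L 0, G.ρ z ≤ G.ρ g → G.ρ g ≤ G.ρ z + G.nn 0 → g ∈ d.X ∧ d.ρ g = G.ρ g :=
    fun g hg a c =>
      have m : g ∈ d.X := by rw [hd.eX, es]; exact h.bt hs av hg a c
      ⟨m, hd.mc.rx g m (V.l_nk hg)⟩
  have mv : v ∈ d.X := ea ▸ D.px.ha
  have mf := mx f h.f0 l1.le l2.le
  have mz := mx z h.zr.z0.1 le_rfl (by omega)
  have lo : ∀ x ∈ d.X, d.ρ v ≤ d.ρ x := fun x hx => ea ▸ D.px.lo x hx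
  have me : ∀ g ∈ G.L 0, G.ρ z ≤ G.ρ g → G.ρ g < G.ρ z + G.nn 0 → ed G g ∈ PE G.Γ d.X ∧
      ∀ x ∈ ed G g, G.ρ g ≤ d.ρ x ∧ d.ρ x ≤ G.ρ g + 1 := fun g hg a c => by
    obtain ⟨n1, n2, n3⟩ := R.nx_mem hg
    have m1 := mx g hg a c.le
    have m2 := mx _ n1 (by omega) (by omega)
    refine ⟨mem_PE.2 ⟨m1.1, m2.1, n3⟩, fun x hx => ?_⟩
    rcases Sym2.mem_iff.1 hx with rfl | rfl <;> omega
  have sB : B ⊆ PE G.Γ d.X := fun e m => by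
    rcases hB e m with rfl | ⟨g, hg, a, c, rfl⟩
    exacts [mem_PE.2 ⟨mv, mz.1, h.zr.z0.2⟩, (me g hg a (by omega)).1]
  refine ⟨D, ?_, ea ▸ h.uv, eb ▸ h.uh, mv, mf.1, h.uv, h.uf, lo f mf.1, eb ▸ h.nf,
    Set.empty_subset _, sB, fun e m => ?_, ⟨s(v, z), s(v, z), Set.empty_subset _⟩, tB,
    fun _ m => m.elim, fun e m x hx => ⟨lo x (PE.ends (sB m) hx), ?_⟩, fun e m x hx => ?_⟩
  · rw [hd.eI, es]
    exact Or.inr (h.inn hs av)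
  · obtain ⟨g, hg, a, c, rfl⟩ := hC e m
    exact (me g hg (by omega) c).1
  · rcases hB e m with rfl | ⟨g, hg, a, c, rfl⟩
    · rcases Sym2.mem_iff.1 hx with rfl | rfl
      exacts [lo f mf.1, by omega]
    · have := (me g hg a (by omega)).2 x hx
      omega
  · obtain ⟨g, hg, a, c, rfl⟩ := hC e m
    have := (me g hg (by omega) c).2 x hx
    omega

/-- the strict edges under `r` -/
theorem HZ.ss (hφ : PH (FL G) G.Pr φ) {β : Prop} {x : Vx J} (hx : β → x ∈ G.L 0 ∧ φ x = r)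
    (hP : ∀ g ∈ G.L 0, g ∈ P → g.1 = (pv (FL G) z).1 ∨ g.1 = z.1 ∨ (β ∧ g.1 = x.1))
    {e : Sym2 (Vx J)} (m : e ∈ SS2 G P pL pR r) : (pR ∧ e = s(v, z)) ∨ e = ed G z ∨
      e = ed G (tr G.w (pv (FL G) z)) ∨ (β ∧ e = ed G x) := by
  have R := h.zr.rows
  have r1 := h.zr.hr.1
  have n0 := h.zr.n3 0
  obtain ⟨y0, y1, -⟩ := pv_mem h.zr.sw.lay h.zr.z0.1
  have y1 : G.ρ (pv (FL G) z) = G.ρ z - 1 := y1
  rcases (h.zr.sw.ss_iff hφ (R.la r1) (h.zr.pr r1 odd_one)).1 m with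
    ⟨g, g1, g2, g3, rfl⟩ | ⟨-, i, -⟩ | ⟨c, -, rfl⟩
  · have lv : G.f (φ g) = G.f g + 1 := hφ.lev h.zr.sw.lay g2
    rw [g3, R.uw.lf _ _ r1] at lv
    have g0 : g ∈ G.L 0 := (show G.f g = 0 by omega) ▸ g2
    have w := h.wz y0
    rcases hP g g0 g1 with c | c | c
    · rw [hφ.inj1 g2 (y' := tr G.w (pv (FL G) z)) c
        (g3.trans ((h.phi hφ w.1).2 (by omega)).symm)]
      exact Or.inr (Or.inr (Or.inl rfl))
    · rw [hφ.inj1 g2 c (g3.trans ((h.phi hφ h.zr.z0.1).2 (by omega)).symm)]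
      exact Or.inr (Or.inl rfl)
    · rw [hφ.inj1 g2 c.2 (g3.trans (hx c.1).2.symm)]
      exact Or.inr (Or.inr (Or.inr ⟨c.1, rfl⟩))
  · have := i.2.2.1
    rw [h.zr.n2 r1 odd_one, h.eh] at this
    exact absurd this (h.zr.sw.vf.l_nk (h.wz h.zr.z0.1).1)
  · exact Or.inl ⟨c, by rw [h.zr.hr.2.1, h.zr.xv]⟩

theorem HZ.last : ∃ g ∈ G.L 0, G.ρ f ≤ G.ρ g ∧ G.ρ g < G.ρ z + G.nn 0 ∧
    ed G (tr G.w (pv (FL G) z)) = ed G g := by
  obtain ⟨y0, y1, -⟩ := pv_mem h.zr.sw.lay h.zr.z0.1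
  have y1 : G.ρ (pv (FL G) z) = G.ρ z - 1 := y1
  have w := h.wz y0
  have := h.l2
  exact ⟨_, w.1, by omega, by omega, rfl⟩

/-- one flow: the three strict edges -/
theorem HZ.one (hφ : PH (FL G) G.Pr φ)
    (hP : ∀ g ∈ G.L 0, g ∈ P → g.1 = (pv (FL G) z).1 ∨ g.1 = z.1 ∨ (False ∧ g.1 = z.1))
    (hd : VC G M d) (hs : M.s ∈ G.L 1) (le : G.ρ M.s ≤ G.ρ r) (es : M.s' = G.nx r) :
    ∃ B C, HU G.Γ d u v f ∅ B C ∧ C.Subsingleton ∧ SS2 G P pL pR r ⊆ ∅ ∪ B ∪ C := by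
  refine ⟨{s(v, z), ed G z}, {ed G (tr G.w (pv (FL G) z))}, h.hu hd hs le es ?_ ?_ (tw_pair _ _),
    Set.subsingleton_singleton, fun e m => ?_⟩
  · rintro _ (rfl | rfl)
    exacts [Or.inl rfl, Or.inr ⟨z, h.zr.z0.1, le_rfl, h.l1, rfl⟩]
  · rintro _ rfl
    exact h.last
  · rcases h.ss hφ False.elim hP m with c | c | c | c
    exacts [Or.inl (Or.inr (Or.inl c.2)), Or.inl (Or.inr (Or.inr c)), Or.inr c, c.1.elim]

theorem HZ.col [Fintype J] (k : ¬ G.Γ.Adj u r ∨ l.1 ≠ (G.nx r).1) : ∃ c, Col1 G.Γ ∅ c := by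
  have Z := h.zr
  have hF := Z.sw.lay
  have R := Z.rows
  have hP := hF.fine.pl
  have T := all_T _ _ hP
  have r1 := Z.hr.1
  obtain ⟨φ, hφ⟩ := ph_ex hF Z.sw.vf.pne
  obtain ⟨b, H⟩ := lb_ex hF hφ Z.n3 R.wp.ev
  obtain ⟨m, hq⟩ : ∃ m : ℕ, G.η b = (m + 2 : ℕ) := by
    have : 2 ≤ G.η b := H.b2
    exact ⟨(G.η b - 2).toNat, by push_cast; omega⟩
  have rn : r.1 ≠ (G.nx r).1 := fun c => by
    obtain ⟨k, -, e⟩ := same_cls hF r1 h.h1.1 c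
    have e : G.ρ (G.nx r) = G.ρ r + k * G.nn 1 := e
    have := h.h1.2.2
    have := Z.n3 1
    rcases le_or_gt k 0 with c | c <;> nlinarith
  by_cases c : (φ^[m + 1] r).1 = (pv (FL G) z).1
  · obtain ⟨P, Src, Snk, S, a1, a2, -, -, a5⟩ := zt_ex H hq Z (h.all hφ) (β := False) (pL := False)
      (pR := True) h.h1.1 r1 rn.symm False.elim (Or.inr trivial) False.elim
    refine S.col Z hφ (Or.inr (Or.inr ⟨a2, S.sg a1, ⟨m + 1, ?_⟩, fun M d t hd ht cv es => ?_⟩))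
    · rw [orb_eq c]
      exact S.ig _ _ (S.sg S.z1)
    obtain ⟨vt, e1, e2⟩ := one_ends hF hd.hM ht
    have lv : G.f t.s = 1 := (R.uw.lf _ _ cv.1).symm.trans (R.uw.lf _ _ r1)
    have s1 : t.s ∈ G.L 1 := lv ▸ vt.hs
    obtain ⟨B, C, U, one, sub⟩ := h.one (pL := False) (pR := True) hφ
      (fun g a c => (a5 g a c).imp_right (Or.imp_right fun q => q.1.elim)) hd (e1 ▸ s1)
      (e1 ▸ cv.2.1) (e2 ▸ es)
    refine ⟨fun n => ?_, fun n => ?_⟩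
    · obtain ⟨X', Q, O⟩ := U.triv hP T (one_edge hF hd.hM ht hd.mc n) False (Or.inr ⟨id, one⟩)
      exact ⟨X', Q, (O.mono sub).imp' fun _ _ _ q => ⟨False.elim, Or.inr q⟩⟩
    · have cp := cap_of vt n
      refine (U.cap hP T (one_cap hF hd.hM ht hd.mc n) (fun a => ?_) (fun a => ?_) one).imp
        fun _ => Exists.imp fun _ O => O.mono sub
      · rw [hd.mc.ea', ← e1] at a
        have i := h.inn r1 Z.hr.2.1
        unfold VD.In at i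
        rw [R.uw.lf _ _ r1] at i
        refine (i.2 _ (cpv_nb a)).1 (Or.inr (Or.inl ⟨s1, ?_⟩))
        have l : G.ρ t.s + 1 < G.ρ t.s' := cp.lt
        have := h.h1.2.2
        rw [es] at l
        omega
      · have xu : t.x ∈ G.U (1 + 1) := lv ▸ cp.xu
        rcases R.att h.us.1 a with q | q | q
        exacts [q.2 (Or.inr xu), l_not_u' q (R.uw.mono _ _ (by omega) xu), q.2 xu]
  have c1 : ∀ {M : MU J}, C1 (FL G) M r → M.s ∈ G.L 1 ∧ G.ρ M.s ≤ G.ρ r := fun c =>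
    c.es.symm ▸ ⟨r1, le_rfl⟩
  rcases k with k | k
  · obtain ⟨P, Src, Snk, S, a1, -, -, -, a5⟩ := zt_ex H hq Z (h.all hφ) (β := False) (pL := False)
      (pR := True) r1 h.h1.1 rn False.elim (Or.inr trivial) False.elim
    refine S.col Z hφ (Or.inl ⟨S.sg a1, fun M d hd c => ?_⟩)
    obtain ⟨B, C, U, one, sub⟩ := h.one (pL := False) (pR := True) hφ
      (fun g a c => (a5 g a c).imp_right (Or.imp_right fun q => q.1.elim)) hd (c1 c).1 (c1 c).2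
      c.es'
    obtain ⟨X', Q, O⟩ := U.triv hP T (one_edge hF hd.hM c.us hd.mc rfl) False (Or.inr ⟨id, one⟩)
    exact ⟨X', Q, (O.mono sub).imp' fun _ _ _ _ =>
      ⟨False.elim, Or.inl (by rwa [hd.mc.ea', c.es])⟩⟩
  obtain ⟨P, Src, Snk, S, a1, -, a3, a4, a5⟩ := zt_ex H hq Z (h.all hφ) (β := True) (pL := True)
    (pR := False) h.h1.1 Z.hl.1 k.symm (fun _ => ⟨rn.symm, c⟩) (Or.inl trivial) fun _ => rfl
  have nl : ∀ k : ℕ, φ^[k] r ∈ G.L (k + 1 : ℕ) := fun k => by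
    induction k with
    | zero => exact r1
    | succ k ih =>
      rw [Function.iterate_succ_apply']
      exact H.up ih
  have x0 := (R.uw.ltr (-b) _ _).2 (nl (m + 1))
  rw [map_neg, hq, add_neg_cancel] at x0
  obtain ⟨x, x1, x2, x3⟩ := h.win hφ x0
  refine S.col Z hφ (Or.inr (Or.inl ⟨a3 trivial, fun q => ?_, a1, fun M d hd c => ?_⟩))
  · have := (R.nx_orb (R.la r1) (R.la Z.hl.1)).2 (a4 r r1 q)
    have e := Z.sw.vf.atr ((G.nx r).2 - (G.nx l).2) (G.nx l)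
    rw [← orb_eq this, h.eh, Z.hl.2.1] at e
    exact Z.la_nk (R.la Z.z0.1) (congrArg Prod.fst e :)
  have ss := fun e m => h.ss (pL := True) (pR := False) (e := e) hφ (fun _ => ⟨x1, x3⟩)
    (fun g a c => (a5 g a c).imp_right (Or.imp_right fun q => ⟨q.1, q.2.trans x2.symm⟩)) m
  obtain ⟨p1, p2⟩ := (h.phi hφ x1).1 x3
  have zb : ∃ g ∈ G.L 0, G.ρ z ≤ G.ρ g ∧ G.ρ g < G.ρ f ∧ ed G z = ed G g :=
    ⟨z, Z.z0.1, le_rfl, h.l1, rfl⟩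
  obtain ⟨B, C, U, two, sub⟩ : ∃ B C, HU G.Γ d u v f ∅ B C ∧ Tw C ∧
      SS2 G P True False r ⊆ ∅ ∪ B ∪ C := by
    by_cases q : G.ρ x < G.ρ f
    · refine ⟨{ed G z, ed G x}, {ed G (tr G.w (pv (FL G) z))},
        h.hu hd (c1 c).1 (c1 c).2 c.es' ?_ ?_ (tw_pair _ _), tw_one _, fun e m => ?_⟩
      · rintro _ (rfl | rfl)
        exacts [Or.inr zb, Or.inr ⟨x, x1, p1, q, rfl⟩]
      · rintro _ rfl
        exact h.last
      · rcases ss e m with c | c | c | c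
        exacts [c.1.elim, Or.inl (Or.inr (Or.inl c)), Or.inr c, Or.inl (Or.inr (Or.inr c.2))]
    · refine ⟨{ed G z}, {ed G (tr G.w (pv (FL G) z)), ed G x},
        h.hu hd (c1 c).1 (c1 c).2 c.es' ?_ ?_ (tw_one _), tw_pair _ _, fun e m => ?_⟩
      · rintro _ rfl
        exact Or.inr zb
      · rintro _ (rfl | rfl)
        exacts [h.last, ⟨x, x1, not_lt.1 q, p2, rfl⟩]
      · rcases ss e m with c | c | c | c
        exacts [c.1.elim, Or.inl (Or.inr c), Or.inr (Or.inl c), Or.inr (Or.inr c.2)]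
  obtain ⟨X', Q, O⟩ := U.triv hP T (one_edge hF hd.hM c.us hd.mc rfl) True (Or.inl ⟨trivial, two⟩)
  have eb : d.b' = G.nx r := hd.mc.eb'.trans c.es'
  exact ⟨X', Q, (O.mono sub).imp' fun _ _ _ q => ⟨fun _ => eb ▸ q, Or.inr (Or.inr (eb ▸ q))⟩⟩

end

end Pool.Agent.P.MP_08fd93_co.FZ
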