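import Pool.Agent.P.MP_08fd93_co.FZ.Caps

/-! The cell between two rungs under a family of caps is a disc. -/

set_option autoImplicit false

namespace Pool.Agent.P.MP_08fd93_co.FZ

open OV

variable {J : Type} {F : FD J} {Pr : Set (Vx J)} {j : ℤ} {O : Set (Un J)} {s s' : Vx J}
  {σ : Vx J → ℤ}

theorem Caps.fin (h : Caps F j O) {a b : ℤ} (ins : ∀ u ∈ O, a ≤ F.ρ u.s ∧ F.ρ u.s' ≤ b) :
    O.Finite := by
  refine Set.Finite.of_finite_image (f := fun u => F.ρ u.s)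
    ((Set.finite_Icc a b).subset ?_) fun u hu u' hu' e => ?_
  · rintro _ ⟨u, hu, rfl⟩
    have := ins u hu
    have := h.lt hu
    exact ⟨by beta_reduce; omega, by beta_reduce; omega⟩
  · by_contra hne
    have := h.sep u hu u' hu' hne
    have := h.lt hu
    have := h.lt hu'
    beta_reduce at e
    omega

theorem Caps.p_fin (h : Caps F j O) (hO : O.Finite) : (capP O).Finite :=
  (hO.biUnion fun u hu => (h.cap u hu).fin).subset fun _ ⟨_, hu, hv⟩ => Set.mem_biUnion hu hv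

theorem Caps.p_up (h : Caps F j O) (hR : Rows F) {v : Vx J} (hv : v ∈ capP O) :
    v ∈ F.L j ∨ v ∈ F.U (j + 1) := by
  obtain ⟨u, hu, hv⟩ := hv
  exact h.sub hR hu hv

theorem Caps.p_old (h : Caps F j O) (hR : Rows F)
    (ins : ∀ u ∈ O, F.ρ s ≤ F.ρ u.s ∧ F.ρ u.s' ≤ F.ρ s') {v : Vx J} (hv : v ∈ capP O)
    (hl : v ∈ F.L j) : F.ρ s < F.ρ v ∧ F.ρ v < F.ρ s' := by
  obtain ⟨u, hu, hv⟩ := hv
  have := (h.old hR hu hl).1 hv
  have := ins u hu
  omega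

theorem Rows.l_inf (hR : Rows F) (j : ℤ) : (F.L j).Infinite :=
  Set.infinite_of_injective_forall_mem (f := F.l j)
    (fun a b e => by rw [← hR.rho j a, e, hR.rho]) (hR.l_mem j)

theorem Rows.lu (hR : Rows F) {v : Vx J} (hv : v ∈ F.L j ∨ v ∈ F.U (j + 1)) : v ∈ F.U j :=
  hv.elim hR.l_u fun k => hR.uw.mono _ _ (by omega) k

/-- every pocket vertex is joined through pockets to the lower part -/
theorem Caps.p_lo (h : Caps F j O) (hR : Rows F) (hs : s ∈ F.L j) (hs' : s' ∈ F.L j)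
    (l : F.ρ s ≤ F.ρ s') (ins : ∀ u ∈ O, F.ρ s ≤ F.ρ u.s ∧ F.ρ u.s' ≤ F.ρ s') :
    capP O ⊆ capLo F j O := by
  intro v hv
  by_contra hc
  obtain ⟨σ, ho⟩ := h.ord hR
  have hv' : v ∈ capP O \ capLo F j O := ⟨hv, hc⟩
  have sE : {y | Conn F.Γ (capP O \ capLo F j O) v y} ⊆ capP O \ capLo F j O :=
    fun y hy => Conn.mem hy hv'
  refine no_hang hR.pl hR.nj (h.mT_pth hR ho hs hs' l ins)
    ((h.p_fin (h.fin ins)).subset fun y hy => (sE hy).1) ⟨v, Conn.rfl'⟩ (isConn_comp _ v) ?_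
    (capLo_conn hR) (Set.disjoint_right.2 fun y hy => (sE hy).2) (h.mT_lo hR hs).1
    (h.mT_lo hR hs).2
  rintro z ⟨hz, hz'⟩
  obtain ⟨y, hy, e⟩ := id hz
  have hy' := sE hy
  have yU := (h.p_up hR hy'.1).resolve_left fun k => hy'.2 (capLo_old hR k hy'.1)
  refine (h.p_nb hR hs ins hy'.1 e.symm (hR.u_nb yU e.symm)).resolve_left fun k => ?_
  exact hz' (comp_nb hv' hz ⟨k, fun k' => hy'.2 (capLo_step k' hy'.1 e)⟩)

theorem top_in (s s' : Vx J) (O : Set (Un J)) {v : Vx J} (hv : v ∈ F.Top s s') :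
    v ∈ mT F s s' O ∨ v ∈ capP O := by
  by_cases k : v ∈ capP O
  exacts [Or.inr k, Or.inl (Or.inl ⟨hv, k⟩)]

theorem Caps.mI_nb (h : Caps F j O) (hF : WFrm F Pr) (hs : s ∈ F.L j) (ps : s ∈ Pr)
    (hs' : s' ∈ F.L j) (ps' : s' ∈ Pr) (ins : ∀ u ∈ O, F.ρ s ≤ F.ρ u.s ∧ F.ρ u.s' ≤ F.ρ s')
    {v z : Vx J} (hv : v ∈ mI F s s' O) (e : F.Γ.Adj v z) :
    z ∈ F.Bot s s' ∪ mT F s s' O ∪ mI F s s' O := by
  have hR := hF.toRows
  rcases hv with hv | hv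
  · by_cases hz : z ∈ F.L j ∨ z ∈ F.U (j + 1)
    · rcases h.p_nb hR hs ins hv e hz with k | k
      exacts [Or.inr (Or.inl k), Or.inl (Or.inr k)]
    · have hL := (h.p_up hR hv).resolve_right fun k => hz (hR.u_nb k e)
      have ho := h.p_old hR ins hv hL
      have ht := hF.top hs ps hs' ps' hL ho.1 ho.2 e
      rcases hR.l_nb hL e with k | k | k
      exacts [Or.inl (Or.inl (ht.2 k)), Or.inr (Or.inr (ht.1 k)), absurd k hz]
  · rcases si_nb hv e with k | k | k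
    · exact Or.inr (Or.inr k)
    · exact Or.inl (Or.inl k)
    · rcases top_in s s' O k with k | k
      exacts [Or.inl (Or.inr k), Or.inr (Or.inl k)]

theorem Caps.mcell_I (h : Caps F j O) (hR : Rows F) (hs : s ∈ F.L j) (s' : Vx J) (σ : Vx J → ℤ) :
    (mcell F s s' O σ).I = mI F s s' O := by
  obtain rfl := hR.uw.lf j s hs
  ext v
  constructor
  · intro hv
    by_contra hc
    exact hv (by
      by_cases h1 : v ∈ F.Bot s s' ∪ mT F s s' O
      exacts [Or.inr h1, Or.inl fun h2 => h2.elim h1 hc])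
  · rintro hv (k | k | k)
    · exact k (Or.inr hv)
    · exact l_not_u' k.1 (hv.elim (fun c => hR.lu (h.p_up hR c)) fun c => c.1.1)
    · have := h.mT_up hR hs k
      exact hv.elim this.2 fun c => c.1.2 this.1

theorem Caps.sout_Z (h : Caps F j O) (hR : Rows F) (hs : s ∈ F.L j)
    (ins : ∀ u ∈ O, F.ρ s ≤ F.ρ u.s ∧ F.ρ u.s' ≤ F.ρ s') (σ : Vx J → ℤ) :
    sout F s s' = (mcell F s s' O σ).Z \ F.U (j + 1) := by
  obtain rfl := hR.uw.lf j s hs
  ext v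
  refine and_congr_left fun hU => ⟨?_, ?_⟩
  · rintro hv ((k | k | ⟨u, hu, rfl⟩) | k | k)
    · exact hv (Or.inl (Or.inl k))
    · exact hv (Or.inl (Or.inr k.1))
    · exact hU (h.xu hR hu)
    · have hL := (h.p_up hR k).resolve_right hU
      have := h.p_old hR ins k hL
      exact hv (Or.inl (Or.inr ⟨hL, this.1.le, this.2.le⟩))
    · exact hv (Or.inr k)
  · rintro hv ((k | k) | k)
    · exact hv (Or.inl (Or.inl k))
    · rcases top_in s s' O k with k | k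
      exacts [hv (Or.inl (Or.inr k)), hv (Or.inr (Or.inl k))]
    · exact hv (Or.inr (Or.inr k))

theorem Caps.mcell_zc (h : Caps F j O) (hF : WFrm F Pr) (hs : s ∈ F.L j) (ps : s ∈ Pr)
    (hs' : s' ∈ F.L j) (ps' : s' ∈ Pr) (l : F.ρ s ≤ F.ρ s')
    (ins : ∀ u ∈ O, F.ρ s ≤ F.ρ u.s ∧ F.ρ u.s' ≤ F.ρ s') (σ : Vx J → ℤ) :
    IsConn F.Γ (mcell F s s' O σ).Z := by
  have hR := hF.toRows
  have eZ := h.sout_Z hR hs ins σ
  obtain rfl := hR.uw.lf j s hs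
  refine isConn_base (sout_conn hF hs ps hs' ps') (fun v hv => by rw [eZ] at hv; exact hv.1)
    fun v hv => ?_
  by_contra hc
  obtain ⟨σ', ho⟩ := h.ord hR
  set E : Set (Vx J) := {y | Conn F.Γ (mcell F s s' O σ).Z v y} with hE
  have sE : E ⊆ (mcell F s s' O σ).Z := fun y hy => Conn.mem hy hv
  have uE : E ⊆ F.U (F.f s + 1) := fun y hy => by
    by_contra k
    exact hc ⟨y, eZ ▸ ⟨sE hy, k⟩, hy⟩
  have bE : Nb F.Γ E \ E ⊆ mT F s s' O := by
    rintro z ⟨hz, hz'⟩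
    obtain ⟨y, hy, e⟩ := id hz
    have k : z ∈ F.Bot s s' ∪ mT F s s' O ∪ mI F s s' O := by
      by_contra k
      exact hz' (comp_nb hv hz k)
    rcases k with (k | k) | k
    · exact absurd (hR.lu (hR.u_nb (uE hy) e.symm)) (l_not_u' k.1)
    · exact k
    · exact absurd (h.mI_nb hF hs ps hs' ps' ins k e) (sE hy)
  have hT := h.mT_pth hR ho hs hs' l ins
  refine no_hang hR.pl hR.nj hT (fin_of_bd hR.fine.oe (hT.fin.subset bE) (hR.l_inf (F.f s))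
    (Set.disjoint_left.2 fun y hy k => k.2 (uE hy))) ⟨v, Conn.rfl'⟩ (isConn_comp _ v) bE
    (capLo_conn hR) (Set.disjoint_left.2 fun y hy k => ?_) (h.mT_lo hR hs).1 (h.mT_lo hR hs).2
  exact (capLo_sub hy).elim (fun c => c (Or.inl (uE k))) fun c => sE k (Or.inr (Or.inl c))

/-- the bottom together with the interior is connected -/
theorem Caps.in_conn (h : Caps F j O) (hF : WFrm F Pr) (hs : s ∈ F.L j) (ps : s ∈ Pr)
    (hs' : s' ∈ F.L j) (ps' : s' ∈ Pr) (l : F.ρ s ≤ F.ρ s')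
    (ins : ∀ u ∈ O, F.ρ s ≤ F.ρ u.s ∧ F.ρ u.s' ≤ F.ρ s') :
    IsConn F.Γ (F.Bot s s' ∪ mI F s s' O) := by
  have hR := hF.toRows
  have hD := scell_disc hF hs ps hs' ps' l
  have hI := scell_I hR s s'
  obtain rfl := hR.uw.lf j s hs
  have g1 : ∀ v ∈ F.SI s s', ∃ y ∈ F.Bot s s', Conn F.Γ (F.Bot s s' ∪ mI F s s' O) v y := by
    intro v hv
    obtain ⟨y, c, z, hz, e⟩ := hD.toX hR.pl (x := v) (hI ▸ hv)
    rw [hI] at c
    exact ⟨z, hz, (c.up fun w hw => Or.inr (Or.inr hw)).snoc (Or.inr (Or.inr (c.mem hv)))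
      (Or.inl hz) e⟩
  have g2 : ∀ v ∈ capP O, v ∈ F.L (F.f s) →
      ∃ y ∈ F.Bot s s', Conn F.Γ (F.Bot s s' ∪ mI F s s' O) v y := by
    intro v hv hL
    have ho := h.p_old hR ins hv hL
    obtain ⟨y, e, k⟩ := hD.swap.side hR.pl (x := v) ⟨hL, ho.1.le, ho.2.le⟩
      (by rintro rfl; exact lt_irrefl _ ho.1) (by rintro rfl; exact lt_irrefl _ ho.2)
    rcases k with k | k
    · rw [DD.swap_I, hI] at k
      obtain ⟨z, hz, c⟩ := g1 y k
      exact ⟨z, hz, Conn.trans (y := y) (Conn.step (Or.inr (Or.inl hv)) (Or.inr (Or.inr k)) e) c⟩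
    · exact ⟨y, k, Conn.step (Or.inr (Or.inl hv)) (Or.inl k) e⟩
  refine isConn_base hD.px.conn Set.subset_union_left ?_
  rintro v (hv | hv | hv)
  · exact ⟨v, hv, Conn.rfl'⟩
  · obtain ⟨b, hb, c⟩ := h.p_lo hR hs hs' l ins hv
    refine (c.ind (p := fun z => z ∈ BL F.Γ F.f (F.f s) ∨
      ∃ y ∈ F.Bot s s', Conn F.Γ (F.Bot s s' ∪ mI F s s' O) z y) (Or.inl hb) ?_).resolve_left
      fun k => k (h.p_up hR hv).symm
    rintro a b ha (hb | hb) e ih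
    · exact Or.inl hb
    · rcases h.p_up hR hb with k | k
      · exact Or.inr (g2 b hb k)
      · have na : a ∉ BL F.Γ F.f (F.f s) := fun c => c (hR.u_nb k e.symm).symm
        obtain ⟨y, hy, c⟩ := ih.resolve_left na
        exact Or.inr ⟨y, hy, Conn.trans (y := a) (Conn.step (Or.inr (Or.inl hb))
          (Or.inr (Or.inl (ha.resolve_left na))) e.symm) c⟩
  · exact g1 v hv

/-- the cell between two rungs under a family of caps is a disc -/
theorem Caps.mcell_disc (h : Caps F j O) (hF : WFrm F Pr) (ho : COrd F j O σ) (hs : s ∈ F.L j)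
    (ps : s ∈ Pr) (hs' : s' ∈ F.L j) (ps' : s' ∈ Pr) (l : F.ρ s ≤ F.ρ s')
    (ins : ∀ u ∈ O, F.ρ s ≤ F.ρ u.s ∧ F.ρ u.s' ≤ F.ρ s') : Disc F.Γ (mcell F s s' O σ) := by
  have hR := hF.toRows
  have hI := h.mcell_I hR hs s' σ
  have eZ := h.sout_Z hR hs ins σ
  have cZ := h.mcell_zc hF hs ps hs' ps' l ins σ
  have cA := h.in_conn hF hs ps hs' ps' l ins
  have hT := h.mT_pth hR ho hs hs' l ins
  have hD := scell_disc hF hs ps hs' ps' l
  obtain rfl := hR.uw.lf j s hs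
  have oZ : ∀ v ∈ sout F s s', v ∈ (mcell F s s' O σ).Z := fun v hv => by
    rw [eZ] at hv
    exact hv.1
  have dxy : Disjoint (F.Bot s s') (mT F s s' O) :=
    Set.disjoint_left.2 fun v hv k => l_not_u' hv.1 (hR.lu (h.mT_up hR hs k).1)
  refine ⟨hD.px.congr fun v hv => ho.l h hR fun k => l_not_u' hv.1 (hR.lu (Or.inr k)), hT, dxy,
    hD.ra, hD.rb, cZ, Set.disjoint_left.2 fun v hv k => hv (Or.inl k), ?_, ?_,
    hI ▸ (h.p_fin (h.fin ins)).union (hF.fin hs s'), hR.nj.mono (Set.subset_univ _)⟩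
  · rintro v ⟨z, hz, e⟩
    by_contra k
    exact hz (h.mI_nb hF hs ps hs' ps' ins (hI ▸ k) e)
  · obtain ⟨⟨z1, hz1, n1, e1⟩, ⟨z2, hz2, n2, e2⟩⟩ := ray_nb hR hs hs'
    have o1 := oZ _ (sout_hi hR hz1 n1)
    have o2 := oZ _ (sout_hi hR hz2 n2)
    rintro x (hx | hx)
    · obtain ⟨b, hb, e⟩ := hF.tch _ hx.1
      exact ⟨b, oZ _ (sout_bl hR hb), e⟩
    · by_cases ha : x = s
      · exact ⟨z1, o1, ha ▸ e1⟩
      by_cases hb : x = s'
      · exact ⟨z2, o2, hb ▸ e2⟩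
      have hx : x ∈ mT F s s' O := hx
      obtain ⟨u, hu, lu, eu, -⟩ := hT.pred hx ha
      obtain ⟨v, hv, lv, ev, -⟩ := hT.succ hx hb
      have tA : ∀ w ∈ mT F s s' O, w ∉ F.Bot s s' ∪ mI F s s' O := fun w hw k =>
        k.elim (Set.disjoint_right.1 dxy hw) fun k => (hI ▸ k : w ∈ DD.I _) (Or.inr (Or.inr hw))
      have sub : ∀ w ∈ mT F s s' O, w ≠ x → w ∈ ((F.Bot s s' ∪ mI F s s' O) ∪ {x})ᶜ :=
        fun w hw hne k => k.elim (tA w hw) hne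
      have c1 : IsConn F.Γ {w | w ∈ mT F s s' O ∧ σ w < σ x} :=
        hT.seg_conn (fun _ hw => hw.1) fun _ _ _ hy _ hw _ l => ⟨hw, lt_trans l hy.2⟩
      have c2 : IsConn F.Γ {w | w ∈ mT F s s' O ∧ σ x < σ w} :=
        hT.seg_conn (fun _ hw => hw.1) fun _ hy _ _ _ hw l _ => ⟨hw, lt_trans hy.2 l⟩
      have s1 : {w | w ∈ mT F s s' O ∧ σ w < σ x} ⊆ ((F.Bot s s' ∪ mI F s s' O) ∪ {x})ᶜ :=
        fun w hw => sub w hw.1 (by rintro rfl; exact lt_irrefl _ hw.2)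
      have s2 : {w | w ∈ mT F s s' O ∧ σ x < σ w} ⊆ ((F.Bot s s' ∪ mI F s s' O) ∪ {x})ᶜ :=
        fun w hw => sub w hw.1 (by rintro rfl; exact lt_irrefl _ hw.2)
      have s3 : (mcell F s s' O σ).Z ⊆ ((F.Bot s s' ∪ mI F s s' O) ∪ {x})ᶜ := by
        rintro w hw ((k | k) | rfl)
        exacts [hw (Or.inl (Or.inl k)), hw (Or.inr k), hw (Or.inl (Or.inr hx))]
      have a1 : s ∈ {w | w ∈ mT F s s' O ∧ σ w < σ x} := ⟨hT.ha, hT.lo_lt hx ha⟩
      have a2 : s' ∈ {w | w ∈ mT F s s' O ∧ σ x < σ w} := ⟨hT.hb, hT.lt_hi hx hb⟩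
      have hc : Conn F.Γ ((F.Bot s s' ∪ mI F s s' O) ∪ {x})ᶜ u v :=
        (((((c1 u ⟨hu, lu⟩ _ a1).up s1).snoc (s1 a1) (s3 o1) e1).trans
          ((cZ _ o1 _ o2).up s3)).snoc (s3 o2) (s2 a2) e2.symm).trans
          ((c2 _ a2 v ⟨hv, lv⟩).up s2)
      obtain ⟨z, hz, e⟩ := (tim hR.pl (Set.disjoint_right.2 (by rintro _ rfl; exact tA _ hx)) cA
        (isConn_single x) (Set.finite_singleton x) ⟨x, rfl, eu⟩ ⟨x, rfl, ev.symm⟩
        (s1 ⟨hu, lu⟩) hc).first (by rintro rfl; omega)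
      obtain ⟨_, rfl, ez⟩ := hz.1
      refine ⟨z, ?_, ez.symm⟩
      rintro ((k | k) | k)
      exacts [hz.2 (Or.inl (Or.inl k)), hT.no_tri hu k hx e ez eu, hz.2 (Or.inl (Or.inr k))]

end Pool.Agent.P.MP_08fd93_co.FZ
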