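import Pool.Agent.P.MP_08fd93_co.FZ.Bridge
import Pool.Agent.P.MP_08fd93_co.FK.K4
import Pool.Agent.P.MP_08fd93_co.FR.Root2
import Pool.Agent.P.MP_08fd93_co.FW.T1

/-! The four remaining cases and the assembly. -/

set_option autoImplicit false

namespace Pool.Agent.P.MP_08fd93_co.FZ

open OV FR

/-- Depth one with a root of a given kind. -/
def S_One (P : ∀ {J : Type}, SimpleGraph (Vx J) → (ℤ × ℤ →+ ℤ) → Vx J → Prop) : Prop :=
  ∀ (J : Type) [Fintype J] (Γ : SimpleGraph (Vx J)) (η : ℤ × ℤ →+ ℤ) (v : Vx J) (f : Vx J → ℤ),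
    Nonempty J → Good Γ → NJ Γ Set.univ → (∀ a, Even (η a)) → IsH Γ η {v} (fun _ => 0) f →
    RH Γ η v f → P Γ η v → ∃ c, Col1 Γ ∅ c

/-- A root with one incoming edge. -/
def S_Spike : Prop := S_One fun Γ η v => Spike Γ η v

/-- A long root when there are no spikes. -/
def S_Long : Prop := S_One fun Γ η v => FR.Long Γ η v ∧ NoSpike Γ η

/-- An ear among ears. -/
def S_Ear : Prop := S_One fun Γ η v => Ear Γ η v ∧ AllEar Γ η

/-- Depth two. -/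
def S_Pit : Prop :=
  ∀ (J : Type) [Fintype J] (Γ : SimpleGraph (Vx J)) (η : ℤ × ℤ →+ ℤ) (c1 c2 : ℤ × ℤ)
    (l1 l2 : ℤ → Vx J), Nonempty J → Good Γ → NJ Γ Set.univ → FW.Rt Γ η c1 c2 l1 l2 →
    ∃ c, Col1 Γ ∅ c

theorem core_of_cases (h1 : S_Spike) (h2 : S_Long) (h3 : S_Ear) (h4 : S_Pit) : S_Core := by
  intro J _ Γ hJ hG hN
  obtain ⟨η, ev, ⟨k, c, -, hc, -, e⟩ | ⟨k, c, -, hc, -, e⟩ | ⟨c1, c2, l1, l2, k⟩⟩ := FW.root6 hJ hG
  · exact FK.zero hJ hG hN ev k hc e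
  · obtain ⟨θ, v, f, a1, a2, a3, a | a | a⟩ := root1' hJ hG ev k hc e
    exacts [h1 J Γ θ v f hJ hG hN a1 a2 a3 a, h2 J Γ θ v f hJ hG hN a1 a2 a3 a,
      h3 J Γ θ v f hJ hG hN a1 a2 a3 a]
  · exact h4 J Γ η c1 c2 l1 l2 hJ hG hN k

end Pool.Agent.P.MP_08fd93_co.FZ
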