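import Pool.Agent.P.MP_08fd93_co.FZ.E2
import Pool.Agent.P.MP_08fd93_co.FA.F1

/-! Frames with one orbit of ears: the two plans. -/

set_option autoImplicit false

namespace Pool.Agent.P.MP_08fd93_co.FZ

open OV FN FE FB FK FR

variable {J : Type} {G : VD J} {v l r g : Vx J} {φ : Vx J → Vx J}

theorem er_of {Γ : SimpleGraph (Vx J)} {η : ℤ × ℤ →+ ℤ} {f : Vx J → ℤ} {an : Vx J → Vx J}
    (hG : Good Γ) (H : Fr1 Γ η f v an G) (R : RH Γ η v f) (E : Ear Γ η v) (l1 : l ∈ G.L 1)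
    (kid : G.an (G.nx l) = v) (nk : G.an l ≠ v) : ∃ r, ER G v l r := by
  have h := sv_of H R (Or.inr E)
  obtain ⟨r, r1, r2, r3⟩ := (h.side_ex H.vk).1
  rw [H.fv R] at r1
  exact ⟨r, h, H.eK, H.fv R, (H.ear R E H.vk).1, ⟨l1, kid, nk⟩, ⟨r1, r3, r3 ▸ r2.2.2⟩,
    rows_three (H.eΓ ▸ hG) H.vf.toRows⟩

/-- One flow: the left edge at the root is free. -/
theorem ER.colA [Fintype J] (h : ER G v l r) (hφ : PH (FL G) G.Pr φ) (a : G.Γ.Adj v l)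
    (e : G.an l = G.xl v) (k : ((∃ b, G.η b = 2) ∧ (φ l).1 ≠ (G.xr v).1) ∨
      ((∀ b, G.η b ≠ 2) ∧ ∃ g ∈ G.L (-1), ∃ g' ∈ G.L (-1), g.1 ≠ g'.1 ∧ (φ g).1 ≠ (G.xr v).1 ∧
        (φ g').1 ≠ (G.xr v).1)) : ∃ c, Col1 G.Γ ∅ c := by
  have V := h.sv.vf
  obtain ⟨b, B⟩ := FA.lb_ex h.sv.lay hφ h.n3 h.rows.wp.ev
  have ne : (φ (G.xr v)).1 ≠ l.1 := fun c => by
    obtain ⟨-, a1, a2⟩ := h.phi hφ h.xr0.1
    rw [orb_eq c] at a1 a2
    rw [h.rows.nx_tr _ h.hl.1, V.atr, h.hl.2.1] at a2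
    rw [V.atr, e, (V.xtr _ _).1, (V.xo _ (V.l_nk h.xl0.1)).1] at a1
    rw [(V.xtr _ _).1] at a2
    omega
  obtain ⟨E, e1, e2, e3⟩ := B.planA ∅ h.xr0.1 h.hl.1 ne
    (fun c => (k.resolve_right fun m => m.1 b c).2) fun c => (k.resolve_left fun m => by
      obtain ⟨b', hb⟩ := m.1
      have := Int.le_of_dvd (by rw [show (FL G).η b' = 2 from hb]; omega) (B.bd b')
      rw [show (FL G).η b' = 2 from hb] at this
      exact c (le_antisymm this B.b2)).2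
  exact h.col hφ e2 (fun _ => a.symm) (Or.inl e3) fun i m => (e1 ▸ m : i ∈ (∅ : Set J)).elim

/-- Two flows: an edge of a fan is free and nothing else lies under the source. -/
theorem ER.colB [Fintype J] (h : ER G v l r) (hφ : PH (FL G) G.Pr φ) (hg : Fan G v g)
    (em : ∀ y ∈ G.L (-1), (φ y).1 ≠ (G.xr v).1) : ∃ c, Col1 G.Γ ∅ c := by
  have V := h.sv.vf
  have R := h.rows
  obtain ⟨b, B⟩ := FA.lb_ex h.sv.lay hφ h.n3 R.wp.ev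
  suffices ne : r.1 ≠ l.1 ∨ (φ (G.xr v)).1 = l.1 by
    obtain ⟨E, e1, e2, e3⟩ := B.planB (A := {g.1}) h.xr0.1 h.hl.1 h.hr.1 ne hg.1 rfl
      (fun y hy _ => em y hy) False
    exact h.col hφ e2 False.elim e3 fun i m => ⟨g, hg, (e1 ▸ m : i ∈ ({g.1} : Set J))⟩
  refine or_iff_not_imp_left.2 fun c => ?_
  have c : r.1 = l.1 := not_not.1 c
  have fr := R.uw.lf _ _ h.hr.1
  have iR : IsR G r := ⟨R.la h.hr.1, h.hr.2.1.symm ▸ h.vk, h.hr.2.1.symm ▸ h.hr.2.2⟩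
  have iL : IsL G l := ⟨R.la h.hl.1, h.hl.2.1.symm ▸ h.vk, h.hl.2.1.symm ▸ h.hl.2.2⟩
  have ear := h.ear
  have a1 := h.sv.isR_phi hφ iR (g := G.xr v) (by simpa [fr] using h.xr0.1)
    (by rw [h.hr.2.1]; omega)
  obtain ⟨w1, w2⟩ := R.rho_lw 1 h.hl.1
  have a2 := h.sv.isL_phi hφ (h.sv.isL_tr ((1 : ℤ) • G.w) iL) (g := G.xr v)
    (by rw [R.uw.lf _ _ w1]; exact h.xr0.1) (by
      rw [R.nx_tr _ h.hl.1, V.atr, h.hl.2.1, (V.xtr _ _).1, (R.rho_lw 1 h.xl0.1).2]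
      have := h.n3 0
      omega)
  have a3 := (h.sv.isL_le iL iR.1 (h.hr.2.1.trans h.hl.2.1.symm)).2
  obtain ⟨m, -, a4⟩ := same_cls h.sv.lay h.hl.1 h.hr.1 c.symm
  have a4 : G.ρ r = G.ρ l + m * G.nn 1 := a4
  have n3 := h.n3 1
  have m1 : 1 ≤ m := by
    by_contra q
    nlinarith
  rw [R.inj (h.phi hφ h.xr0.1).1 w1 (by nlinarith)]
  rfl

end Pool.Agent.P.MP_08fd93_co.FZ
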