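import Pool.Agent.P.MP_08fd93_co.FZ.U1
import Pool.Agent.P.MP_08fd93_co.FA.Sp1
import Pool.Agent.P.MP_08fd93_co.FD.G3

/-! Spikes with a funnel: the cases. -/

set_option autoImplicit false

namespace Pool.Agent.P.MP_08fd93_co.FZ

open OV FN FE FB FK FA FR

variable {J : Type} {G : VD J} {v l r e g x y p : Vx J} {φ : Vx J → Vx J} {j : ℤ} {E : EJ J}
  {b : ℤ × ℤ}

section

variable (H : LB (FL G) (XL G) G.Pr φ b) {q : ℕ} (hq : G.η b = q) (h : SR G v l r) (u : Funnel G)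
include H hq h u

theorem fun_even (ev : Even (G.nn 1)) : ∃ E m0 pL pR, SK G φ v E m0 pL pR :=
  let ⟨_, a, c, d⟩ := cand H hq h 2 (φ l)
  planX H hq h u h.l1 a c (fun e => d (e ▸ rfl)) (Or.inl ⟨ev, rfl⟩)

/-- two edges of the row one under one edge -/
theorem fun_y (e : (φ l).1 = (φ (G.nx l)).1) (pe : Per φ l)
    (lg : q = 2 → Lg G v (φ (G.nx l)) ∧ Lg G v (G.nx (φ (G.nx l)))) :
    ∃ E m0 pL pR, SK G φ v E m0 pL pR := by
  have R := h.rows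
  have n1 := (R.nx_mem h.l1).1
  have t2 : φ (G.nx l) ∈ G.L 2 := H.up (k := 1) n1
  rcases Int.even_or_odd (G.nn 2) with c | c
  · exact planY H hq h u n1 t2 (nx_ne h h.l1) e (fun k => (lg k).1) (Or.inl ⟨c, rfl⟩)
  refine planY H hq h u n1 (R.nx_mem t2).1 (nx_ne h h.l1) e (fun k => (lg k).2)
    (Or.inr ⟨nx_ne h t2, fun E a a' => Or.inr ⟨by rwa [R.uw.lf _ _ t2],
      (vis_pin (R.la (R.nx_mem t2).1) a').1, ?_⟩⟩)
  obtain ⟨n, n0, k⟩ := pe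
  obtain ⟨m, rfl⟩ := Nat.exists_eq_succ_of_ne_zero n0.ne'
  refine Or.inl ⟨m, st0_pin ?_⟩
  rw [PH.it_fst H.lay H.ph (R.la t2) e.symm m, ← Function.iterate_succ_apply, k]
  exact a

theorem fun_odd (od : Odd (G.nn 1)) (fr : q = 2 → ∀ g, Lg G v g) :
    ∃ E m0 pL pR, SK G φ v E m0 pL pR := by
  have R := h.rows
  have n1 := (R.nx_mem h.l1).1
  have mg : ∀ E : EJ J, (G.nx l).1 ∈ E.Pn → NW G φ E l → Mg G φ E l := fun E a c =>
    Or.inr ⟨by rwa [R.uw.lf _ _ h.l1], (vis_pin (R.la n1) a).1, c⟩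
  by_cases e : (φ l).1 = (φ (G.nx l)).1
  swap
  · exact planX H hq h u n1 (H.up (k := 1) h.l1) e (fun k => fr k _)
      (Or.inr ⟨nx_ne h h.l1, fun E a a' => mg E a (Or.inl ⟨1, st0_pin a'⟩)⟩)
  by_cases pe : Per φ l
  · exact fun_y H hq h u e pe fun k => ⟨fr k _, fr k _⟩
  obtain ⟨y, a, c, d⟩ := cand H hq h 2 (φ (G.nx l))
  exact planX H hq h u n1 a c (fun e => d (e ▸ rfl))
    (Or.inr ⟨nx_ne h h.l1, fun E a _ => mg E a (Or.inr pe)⟩)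

/-- a parent of the foot is an outer child -/
theorem fun_st (k : (G.an (G.xl v)).1 = (G.nx l).1 ∨ (G.an (G.xl v)).1 = l.1) :
    ∃ E m0 pL pR, SK G φ v E m0 pL pR := by
  have R := h.rows
  have vu : ∀ E : EJ J, G.an (G.xl v) ∈ Vis G (P0 E) := fun E => h.vis_an h.vis_u fun c =>
    Int.not_even_iff_odd.2 (h.odd c) ((h.sv.vf.an_v h.u0.1 (h.sv.pr _) c).2.symm ▸ Even.zero)
  rcases k with k | k
  · obtain ⟨p1, -, p2⟩ := pv_mem H.lay h.l1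
    obtain ⟨y, a, c, d⟩ := cand H hq h 2 (φ (pv (FL G) l))
    exact planX H hq h u p1 a c (fun e => d (e ▸ rfl)) (Or.inr ⟨pv_ne h h.l1, fun E a _ =>
      Or.inl (Or.inr ⟨p2 ▸ (vis_pin (R.la p1) a).2, h.vis_orb (vu E) k.symm⟩)⟩)
  · have n1 := (R.nx_mem h.l1).1
    obtain ⟨y, a, c, d⟩ := cand H hq h 2 (φ (G.nx l))
    exact planX H hq h u n1 a c (fun e => d (e ▸ rfl)) (Or.inr ⟨nx_ne h h.l1, fun E a _ =>
      Or.inl (Or.inr ⟨h.vis_orb (vu E) k.symm, (vis_pin (R.la n1) a).1⟩)⟩)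

/-- three children: the left neighbour of the foot has another parent -/
theorem fun_three (q2 : q = 2) (n : G.nn 1 = 3) (c : ℤ × ℤ)
    (e : G.an (G.xl v) = tr c (G.nx (G.nx l)))
    (lt : G.ρ (G.an (pv (FL G) (G.xl v))) < G.ρ (G.an (G.xl v))) :
    ∃ E m0 pL pR, SK G φ v E m0 pL pR := by
  subst q2
  have R := h.rows
  have V := h.sv.vf
  have hF := H.lay
  obtain ⟨x0, -, xu⟩ := pv_mem hF h.u0.1
  have xu : G.nx (pv (FL G) (G.xl v)) = G.xl v := xu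
  set x := pv (FL G) (G.xl v) with hx
  have nk : ∀ z ∈ G.L 0, G.an z ∉ G.K := fun z hz c =>
    Int.not_even_iff_odd.2 (h.odd c) ((V.an_v hz (h.sv.pr _) c).2.symm ▸ Even.zero)
  have al : ∀ z ∈ G.L 0, G.an z ∈ G.L (-1) := fun z hz => by
    simpa using V.an_l hz (h.sv.pr _) (nk z hz)
  obtain ⟨n1, n2, -⟩ := R.nx_mem h.l1
  obtain ⟨m1, m2, -⟩ := R.nx_mem n1
  obtain ⟨κ, hκ⟩ := R.rho_tr c 1
  have lv : 1 + G.η c = -1 := (R.uw.lf _ _ (hκ _ m1).1).symm.trans (e ▸ R.uw.lf _ _ (al _ h.u0.1))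
  rw [lv] at hκ
  have r0 : G.ρ _ = G.ρ _ + κ := (hκ _ h.l1).2
  have r1 : G.ρ _ = G.ρ _ + κ := (hκ _ n1).2
  have r2 : G.ρ _ = G.ρ _ + κ := (hκ _ m1).2
  rw [← e] at r2
  by_cases k : G.ρ (G.an x) + 1 = G.ρ (G.an (G.xl v))
  · obtain ⟨p1, p3, p2⟩ := pv_mem hF h.l1
    have p3 : G.ρ (pv (FL G) l) = G.ρ l - 1 := p3
    have x2 : tr b x ∈ G.L 2 := by
      have := (R.uw.ltr b _ _).2 x0
      rwa [zero_add, hq] at this
    refine planX H hq h u p1 x2 (fun o => ?_) (fun _ => Or.inr (Or.inl rfl))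
      (Or.inr ⟨pv_ne h h.l1, fun E a a' => Or.inl (Or.inr ⟨p2 ▸ (vis_pin (R.la p1) a).2,
        h.vis_orb (h.vis_an (vis_pin (R.la x0) a').1 (nk x x0)) ?_⟩)⟩)
    · have o1 : (G.an (G.xl v)).1 = (pv (FL G) l).1 := by
        obtain ⟨w1, w2⟩ := hF.w_mem 1 p1
        have w2 : G.ρ (tr ((1 : ℤ) • G.w) (pv (FL G) l)) = G.ρ (pv (FL G) l) + 1 * G.nn 1 := w2
        rw [e, R.inj m1 w1 (by show _ = G.ρ (tr ((1 : ℤ) • G.w) (pv (FL G) l)); omega)]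
        rfl
      obtain ⟨a1, a2, a3⟩ := sv_phi h.sv H.ph (al _ h.u0.1)
      obtain ⟨m, a4, -⟩ := same_cls hF x0 a1
        (o.trans (H.ph.fst (R.la (al _ h.u0.1)) o1).symm)
      have a4 : φ (G.an (G.xl v)) = tr (m • G.w) x := a4
      rw [a4] at a2 a3
      rw [R.nx_tr _ x0, xu] at a3
      rw [V.atr, (V.xtr _ _).1, (V.xo _ (nk _ x0)).1] at a2
      rw [V.atr, (V.xtr _ _).1, (V.xo _ (nk _ h.u0.1)).1] at a3
      have b1 : G.ρ (tr (m • G.w) (G.an x)) = G.ρ _ + m * G.nn (-1) := (hF.w_mem m (al _ x0)).2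
      have b2 : G.ρ (tr (m • G.w) (G.an (G.xl v))) = G.ρ _ + m * G.nn (-1) :=
        (hF.w_mem m (al _ h.u0.1)).2
      have := h.n3 (-1)
      rcases le_or_gt m 0 with o | o <;> nlinarith
    · rw [R.inj (al x x0) (hκ _ n1).1 (by omega)]
      rfl
  have un : ∀ g ∈ G.L 1, G.ρ l ≤ G.ρ g → G.ρ g ≤ G.ρ l + 1 → (φ g).1 = x.1 := fun g hg a a' => by
    have r3 : G.ρ _ = G.ρ _ + κ := (hκ _ hg).2
    rw [← sv_und h.sv H.ph (j := 0) (g := tr c g) (hκ _ hg).1 x0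
      (by rw [(V.xo _ (nk _ x0)).1]; omega) (by rw [xu, (V.xo _ (nk _ h.u0.1)).1]; omega),
      H.ph.eqv _ _ (R.la hg)]
    rfl
  have e0 := un l h.l1 le_rfl (by omega)
  have e1 := un _ n1 (by omega) (by omega)
  refine fun_y H hq h u (e0.trans e1.symm) ⟨2, two_pos, ?_⟩ fun _ =>
    ⟨Or.inr (Or.inl e1), Or.inl (Or.inl ?_)⟩
  · exact (H.ph.fst (H.ph.la hF (R.la h.l1)) e0).trans (fu_phi h H.ph u x0)
  · rw [← xu]
    exact (R.nx_orb (H.ph.la hF (R.la n1)) (R.la x0)).2 e1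

end

variable {Γ : SimpleGraph (Vx J)} {η : ℤ × ℤ →+ ℤ} {f : Vx J → ℤ} {an : Vx J → Vx J}

theorem sr_lb (h : SR G v l r) : ∃ φ b, ∃ q : ℕ, LB (FL G) (XL G) G.Pr φ b ∧ G.η b = q := by
  obtain ⟨φ, hφ⟩ := ph_ex h.sv.lay fun j => ⟨_, h.rows.l_mem j 0, h.sv.pr _⟩
  obtain ⟨b, H⟩ := lb_ex h.sv.lay hφ h.n3 h.rows.wp.ev
  have : 2 ≤ G.η b := H.b2
  exact ⟨φ, b, (G.η b).toNat, H, by omega⟩

theorem funF : S_FunF := by
  intro J _ Γ η f v an G D ⟨u, k⟩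
  obtain ⟨l, r, h⟩ := D.sr
  obtain ⟨φ, b, q, H, hq⟩ := sr_lb h
  rw [← D.H.eΓ]
  obtain ⟨E, m0, pL, pR, S⟩ := (Int.even_or_odd (G.nn 1)).elim (fun_even H hq h u) fun o =>
    fun_odd H hq h u o fun _ _ => k.imp Or.inr Or.inr
  exact S.col h H.ph

/-- another parent for a vertex of the row zero -/
theorem sr_upa [Fintype J] (D : SD1 Γ η f v an G) (h : SR G v l r) (u : Funnel G)
    (hx : x ∈ G.L 0) (hp : p ∈ G.L (-1)) (a : Γ.Adj x p) :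
    SR (chg G (upa an x p)) v l r ∧ Funnel (chg G (upa an x p)) := by
  have R := h.rows
  have A := an1_upa D.R D.A a (by rw [← D.H.ef, R.uw.lf _ _ hx, R.uw.lf _ _ hp]; rfl)
  obtain ⟨l', r', h'⟩ := (D.chg A).sr
  have e : ∀ y ∈ G.L 1, (chg G (upa an x p)).an y = G.an y := fun y hy =>
    (upa_ne (odd_orb R (by rw [R.uw.lf _ _ hx, R.uw.lf _ _ hy]; rfl))).trans (by rw [D.H.ea])
  have e1 := e _ (R.nx_mem h.l1).1
  have e2 := e _ (R.nx_mem h.r1).1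
  refine ⟨⟨h'.sv, h'.eK, h'.fv, h'.sp, ⟨⟨h.hl.1.1, e1.symm ▸ h.hl.1.2.1, fun k => h.hl.1.2.2
      ((e l h.l1).symm.trans (k.trans e1))⟩, e1.trans h.hl.2⟩,
    ⟨⟨h.hr.1.1, (e r h.r1).symm ▸ h.hr.1.2.1, fun k => h.hr.1.2.2
      (e2.symm.trans (k.trans (e r h.r1)))⟩, (e r h.r1).trans h.hr.2⟩, h'.n3, h'.acy⟩,
    fun y hy => (e y hy).symm ▸ u y hy⟩

theorem fun_two [Fintype J] (fr : S_Free) (D : SD1 Γ η f v an G) (u : Funnel G) :
    (∃ c, Col1 Γ ∅ c) ∨ ∀ x ∈ G.L 0, G.ρ x = G.ρ (G.xl v) ∨ G.ρ x + 1 = G.ρ (G.xl v) →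
      ∀ p ∈ G.L (-1), Γ.Adj x p → p = an (G.xl v) := by
  obtain ⟨l, r, h⟩ := D.sr
  have R := h.rows
  have V := h.sv.vf
  have hF := h.sv.lay
  obtain ⟨φ, b, q, H, hq⟩ := sr_lb h
  have col : (∃ E m0 pL pR, SK G φ v E m0 pL pR) → ∃ c, Col1 Γ ∅ c := fun ⟨_, _, _, _, S⟩ =>
    D.H.eΓ ▸ S.col h H.ph
  rcases Int.even_or_odd (G.nn 1) with od | od
  · exact Or.inl (col (fun_even H hq h u od))
  by_cases q2 : q = 2
  swap
  · exact Or.inl (col (fun_odd H hq h u od fun k => absurd k q2))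
  by_cases c : ∃ p ∈ G.L (-1), Γ.Adj (G.xl v) p ∧ (p.1 = (G.nx l).1 ∨ p.1 = l.1)
  · obtain ⟨p, hp, a, k⟩ := c
    obtain ⟨h', u'⟩ := sr_upa D h u h.u0.1 hp a
    obtain ⟨φ', b', q', H', hq'⟩ := sr_lb h'
    obtain ⟨_, _, _, _, S⟩ := fun_st H' hq' h' u' (by
      rwa [show (chg G (upa an (G.xl v) p)).an ((chg G (upa an (G.xl v) p)).xl v) = p
        from upa_self])
    exact Or.inl (D.H.eΓ ▸ (S.col h' H'.ph :))
  have nk : G.an (G.xl v) ∉ G.K := fun c =>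
    Int.not_even_iff_odd.2 (h.odd c) ((V.an_v h.u0.1 (h.sv.pr _) c).2.symm ▸ Even.zero)
  have al : G.an (G.xl v) ∈ G.L (-1) := by simpa using V.an_l h.u0.1 (h.sv.pr _) nk
  have au : Γ.Adj (G.xl v) (G.an (G.xl v)) := D.H.eΓ ▸ (V.aa _ _ h.u0.1 (h.sv.pr _)).1
  obtain ⟨n1, n2, -⟩ := R.nx_mem h.l1
  have rl : G.ρ r = G.ρ l + G.nn 1 := by
    obtain ⟨a, ha, z, hz, k0, k1, k2⟩ := D.H.kids D.H.vk
    rw [h.fv] at ha hz k1 k2
    have := ((k2 _ h.r1).1 h.hr.2).2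
    have := (k2 _ n1).1 h.hl.2
    have lt := (side_lev h.sv h.hl.1 h.hr.1 h.hl.2 h.hr.2).2.2
    obtain ⟨k, -, e⟩ := same_cls hF h.l1 h.r1 (fu_lr h u).symm
    have e : G.ρ r = G.ρ l + k * G.nn 1 := e
    have := h.n3 1
    rcases lt_trichotomy k 1 with o | o | o
    · nlinarith
    · rw [e, o, one_mul]
    · have := (h.sv.isL_le h.hl.1 (R.la ha) (((k2 a ha).2 ⟨le_rfl, k0⟩).trans h.hl.2.symm)).2
      have : 2 * G.nn 1 ≤ k * G.nn 1 := by nlinarith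
      omega
  have mid : ∀ p ∈ G.L (-1), Γ.Adj (G.xl v) p → ∃ a y, p = tr a y ∧ η a = -2 ∧
      FD.Mid G v (G.nx l) y r := by
    intro p hp a
    have p1 : tr b p ∈ G.L 1 := by
      have := (R.uw.ltr b _ _).2 hp
      rwa [hq, q2] at this
    obtain ⟨m, m1, m2⟩ := window hF p1 (G.ρ l + 1)
    obtain ⟨w1, -⟩ := hF.w_mem m p1
    have m1 : G.ρ l + 1 ≤ G.ρ (tr (m • G.w) (tr b p)) := m1
    have m2 : G.ρ (tr (m • G.w) (tr b p)) < G.ρ l + 1 + G.nn 1 := m2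
    have o1 : G.ρ (tr (m • G.w) (tr b p)) ≠ G.ρ (G.nx l) := fun o =>
      c ⟨p, hp, a, Or.inl (by rw [← R.inj w1 n1 o]; rfl)⟩
    have o2 : G.ρ (tr (m • G.w) (tr b p)) ≠ G.ρ r := fun o =>
      c ⟨p, hp, a, Or.inr (by rw [← fu_lr h u, ← R.inj w1 h.r1 o]; rfl)⟩
    refine ⟨-(b + m • G.w), tr (m • G.w) (tr b p), by rw [tr_tr (m • G.w), add_comm, tr_neg], ?_,
      n1, w1, h.r1, by omega, by omega, h.hl.2, h.hr.2⟩
    rw [← D.H.eη, map_neg, map_add, R.eta_w, hq, q2]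
    rfl
  obtain ⟨a, y, ey, ea, M⟩ := mid _ al au
  by_cases n : G.nn 1 = 3
  swap
  · have su := (D.H.foot0 D.R).1
    have fy : f y = 1 := (D.H.nk (V.l_nk M.hy)).symm.trans (R.uw.lf _ _ M.hy)
    have ad := D.R.d1.fine.inv (-a) _ _ au.symm
    rw [ey, tr_neg] at ad
    have s : Sg Γ η v y := D.R.sg_of_anc (M.kid D.H D.R D.A M.hy M.l1.le M.l2.le).1.symm fy su
      (b := -a) (Relation.ReflTransGen.single ⟨ad, by
        rw [D.R.per, D.R.inn su, map_neg, ea, fy]; rfl, by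
        rw [D.R.per, D.R.inn su]
        exact D.R.uu_tr _ (D.R.root_uu su).2⟩)
    obtain ⟨g, -, R'⟩ := FD.exists_rh D.R.d1 y
    obtain ⟨an', G', D'⟩ := sd1_ex D.hJ D.hG D.hN D.ev R' (FD.fwd_spike D.H D.R D.A M s)
    have := h.n3 1
    exact Or.inl (fr J Γ η g y an' G' D' (FD.fwd_free D.H D.R D.A M u (by omega) s R' D'.H))
  obtain ⟨m1, m2, -⟩ := R.nx_mem n1
  have yy : ∀ y, FD.Mid G v (G.nx l) y r → y = G.nx (G.nx l) := fun y M =>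
    R.inj M.hy m1 (by have := M.l1; have := M.l2; omega)
  obtain rfl := yy y M
  refine or_iff_not_imp_right.2 fun k => ?_
  simp only [not_forall] at k
  obtain ⟨x, hx, k, p, hp, e, ne⟩ := k
  rw [← D.H.ea] at ne
  rcases k with k | k
  · obtain rfl := R.inj hx h.u0.1 k
    obtain ⟨a', y', ey', -, M'⟩ := mid p hp e
    exact absurd (D.R.d1.nb_orb e au (by rw [ey', ey, yy y' M']; rfl)) ne
  obtain ⟨x0, x1, -⟩ := pv_mem hF h.u0.1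
  have x1 : G.ρ (pv (FL G) (G.xl v)) = G.ρ (G.xl v) - 1 := x1
  obtain rfl := R.inj hx x0 (by omega)
  have le := rm_dn R (j := 0) (by norm_num) hp hx (D.H.eΓ ▸ e) al h.u0.1 (D.H.eΓ ▸ au) (by omega)
  obtain ⟨h', u'⟩ := sr_upa D h u hx hp e
  obtain ⟨φ', b', q', H', hq'⟩ := sr_lb h'
  have e1 : upa an (pv (FL G) (G.xl v)) p (G.xl v) = G.an (G.xl v) :=
    (upa_ne (pv_ne h h.u0.1).symm).trans (by rw [D.H.ea])
  obtain ⟨_, _, _, _, S⟩ := fun_three H' hq' h' u' (by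
      have d1 : G.η b' ∣ G.η b := H'.bd b
      have d2 : 2 ≤ G.η b' := H'.b2
      have d3 : G.η b' = q' := hq'
      have := Int.le_of_dvd (by omega) d1
      omega) n a (e1.trans ey) (by
    show G.ρ (upa an _ p (pv (FL G) (G.xl v))) < G.ρ (upa an _ p (G.xl v))
    rw [e1, upa_self]
    exact lt_of_le_of_ne le fun o => ne (R.inj hp al o))
  exact D.H.eΓ ▸ (S.col h' H'.ph :)

theorem fun_of (fr : S_Free) : S_Fun := by
  intro J _ Γ η f v an G D u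
  refine (fun_two fr D u).elim id fun k1 => (fun_two fr D.mir u).elim id fun k2 => ?_
  obtain ⟨l, r, h⟩ := D.sr
  have R := h.rows
  have e : (mir G).xl v = G.xl v := h.sp
  rw [e] at k2
  have su := (D.H.foot0 D.R).1
  have B : FD.Back G (G.xl v) (an (G.xl v)) := ⟨fun y hy a =>
    (D.H.pure_iff D.A hy).1 (u y hy) _ h.u0.1 (D.H.eΓ ▸ a.symm), fun x hx a t ht c => by
      rcases a with rfl | a
      · exact k1 _ hx (Or.inl rfl) t ht (D.H.eΓ ▸ c)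
      rcases (R.adj_iff h.u0.1 hx).1 a with a | a
      · exact k2 x hx (Or.inr (by show -G.ρ x + 1 = -G.ρ _; omega)) t ht (D.H.eΓ ▸ c)
      · exact k1 x hx (Or.inr a.symm) t ht (D.H.eΓ ▸ c)⟩
  obtain ⟨g, -, R'⟩ := FD.exists_rh D.R.d1 (G.xl v)
  obtain ⟨an', G', D'⟩ := sd1_ex D.hJ D.hG D.hN D.ev R' (FD.back_spike D.H D.R su B)
  exact fr J Γ η g _ an' G' D' (Or.inl (FD.back_free D.H D.R su B R' D'.H).1)

end Pool.Agent.P.MP_08fd93_co.FZ
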