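import Pool.Agent.P.MP_08fd93_co.FZ.R1

/-! Depth one: facts on the raised frame; the frame of a long root. -/

set_option autoImplicit false

namespace Pool.Agent.P.MP_08fd93_co.FZ

open OV FR

variable {J : Type} {Γ : SimpleGraph (Vx J)} {η : ℤ × ℤ →+ ℤ} {f : Vx J → ℤ}
  {v x y z x0 s s' : Vx J} {w : ℤ × ℤ} {an : Vx J → Vx J} {G : VD J} {j : ℤ}

/-- no stem lies inside a cell if every stem has a child that is not inside -/
theorem VFrm.nov' (h : VFrm G) (hs : s ∈ G.L j) (ps : s ∈ G.Pr) (hs' : s' ∈ G.L j)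
    (ps' : s' ∈ G.Pr) (hc : ∀ u ∈ G.V, G.f u = j → ∃ t ∈ G.L j, t ∈ G.Pr ∧ G.an t = u ∧
      (G.ρ t ≤ G.ρ s ∨ G.ρ s' ≤ G.ρ t)) : G.NoV s s' := by
  refine h.nov hs hs' fun t ht pt hK l1 l2 => ?_
  obtain ⟨hV, e⟩ := h.an_v ht pt hK
  obtain ⟨r, hr, pr, er, k | k⟩ := hc _ hV e
  · exact Or.inl ((h.btw hr pr hs ps ht pt k l1.le er (er ▸ hK)).trans er).symm
  · exact Or.inr (h.btw ht pt hs' ps' hr pr l2.le k er.symm hK).symm

/-- two translates of the root have no common neighbour -/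
theorem k_uniq (R : RH Γ η v f) {p q : Vx J} (hp : p.1 = v.1) (hq : q.1 = v.1) (a : Γ.Adj x p)
    (b : Γ.Adj x q) : p = q := by
  by_contra c
  have e : q = tr (q.2 - p.2) p := orb_eq (hq.trans hp.symm)
  have h1 := R.d1.g3 p (q.2 - p.2) fun k => c (by rw [e, k, tr_zero])
  have h2 := R.d1.tri p b
  rw [← e] at h1
  rw [dist_adj a.symm] at h2
  omega

section

variable (H : Fr1 Γ η f v an G) (R : RH Γ η v f)
include H

theorem Fr1.pr (x : Vx J) : x ∈ G.Pr := H.eP ▸ trivial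

theorem Fr1.vk : v ∈ G.K := (H.eK v).2 rfl

theorem Fr1.nk (hx : x ∉ G.K) : G.f x = f x := by
  rw [H.ef, rais_n fun k => hx ((H.eK x).2 k)]

theorem Fr1.feet {u : Vx J} (hu : u ∈ G.K) :
    (G.xl u ∈ G.L (G.f u - 1) ∧ Γ.Adj u (G.xl u)) ∧ (G.xr u ∈ G.L (G.f u - 1) ∧ Γ.Adj u (G.xr u)) ∧
      ∀ z ∈ G.L (G.f u - 1), Γ.Adj u z → G.ρ (G.xl u) ≤ G.ρ z ∧ G.ρ z ≤ G.ρ (G.xr u) := by
  have a := H.vf.vl u (H.eV u hu)
  have b := H.vf.vr u (H.eV u hu)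
  rw [H.eb, H.eΓ] at a b
  exact ⟨a, b, fun z hz e => (H.vf.vx u (H.eV u hu) u (t_self hu) z hz (H.eΓ ▸ e)).2⟩

theorem Fr1.k_tr {u : Vx J} (hu : u ∈ G.K) : ∃ a, u = tr a v := ⟨_, orb_eq ((H.eK u).1 hu)⟩

include R

theorem Fr1.fv : G.f v = 1 := by
  rw [H.ef, rais_k rfl, R.root]
  rfl

theorem Fr1.vst : v ∈ G.St 1 := H.vf.k_st H.vk (H.fv R)

/-- the flat neighbours of the root are its neighbours on the line zero -/
theorem Fr1.flat : Sg Γ η z v ↔ z ∈ G.L 0 ∧ Γ.Adj v z := by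
  constructor
  · intro s
    have nk : z ∉ G.K := fun k => (k_nb R rfl s.1.symm).1 ((H.eK z).1 k)
    have := H.vf.uw.lan 1 v (H.vst R).1 z (H.eΓ ▸ s.1.symm) (by rw [H.nk nk, R.inn s]; omega)
    exact ⟨by simpa using this, s.1.symm⟩
  · rintro ⟨h1, h2⟩
    exact R.sg0 h2 ((H.nk (H.vf.l_nk h1)).symm.trans (H.vf.uw.lf 0 z h1))

theorem Fr1.foot0 : Sg Γ η (G.xl v) v ∧ Sg Γ η (G.xr v) v ∧
    ∀ z, Sg Γ η z v → G.ρ (G.xl v) ≤ G.ρ z ∧ G.ρ z ≤ G.ρ (G.xr v) := by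
  have a := H.feet H.vk
  rw [H.fv R, show (1 : ℤ) - 1 = 0 from rfl] at a
  exact ⟨(H.flat R).2 a.1, (H.flat R).2 a.2.1, fun z s =>
    a.2.2 z ((H.flat R).1 s).1 ((H.flat R).1 s).2⟩

theorem Fr1.spike (E : Spike Γ η v) {u : Vx J} (hu : u ∈ G.K) : G.xl u = G.xr u := by
  obtain ⟨a, rfl⟩ := H.k_tr hu
  rw [(H.vf.xtr a v).1, (H.vf.xtr a v).2.1, E.eq (H.foot0 R).2.1 (H.foot0 R).1]

theorem Fr1.ear (E : Ear Γ η v) {u : Vx J} (hu : u ∈ G.K) :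
    G.ρ (G.xr u) = G.ρ (G.xl u) + 1 ∧ Γ.Adj (G.xl u) (G.xr u) := by
  obtain ⟨a1, a2, a3⟩ := H.foot0 R
  have ad : Γ.Adj (G.xl v) (G.xr v) := by
    refine (E.adj a1 a2).resolve_left fun e => ?_
    obtain ⟨p, p', e', k⟩ := E
    have b1 := (k p).2 (Or.inl rfl)
    have b2 := (k p').2 (Or.inr rfl)
    have c1 := a3 p b1
    have c2 := a3 p' b2
    rw [e] at c1 c2
    exact e'.ne (H.vf.toRows.inj ((H.flat R).1 b1).1 ((H.flat R).1 b2).1 (by omega))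
  have ad' : Γ.Adj (G.xl u) (G.xr u) := by
    obtain ⟨a, rfl⟩ := H.k_tr hu
    rw [(H.vf.xtr a v).1, (H.vf.xtr a v).2.1]
    exact R.d1.fine.inv a _ _ ad
  obtain ⟨b1, b2, b3⟩ := H.feet hu
  have := (H.vf.toRows.adj_iff b1.1 b2.1).1 (H.eΓ ▸ ad')
  have := b3 _ b1.1 b1.2
  exact ⟨by omega, ad'⟩

theorem Fr1.long (E : Long Γ η v) : G.ρ (G.xl v) + 1 < G.ρ (G.xr v) := by
  obtain ⟨a1, a2, a3⟩ := H.foot0 R
  have l1 := ((H.flat R).1 a1).1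
  have l2 := ((H.flat R).1 a2).1
  by_contra c
  have two : ∀ z, Sg Γ η z v → z = G.xl v ∨ z = G.xr v := fun z s => by
    have := a3 z s
    by_cases e : G.ρ z = G.ρ (G.xl v)
    exacts [Or.inl (H.vf.toRows.inj ((H.flat R).1 s).1 l1 e),
      Or.inr (H.vf.toRows.inj ((H.flat R).1 s).1 l2 (by omega))]
  by_cases e : G.xl v = G.xr v
  · exact E.2.1 ⟨G.xl v, fun z => ⟨fun s => (two z s).elim id fun k => k.trans e.symm,
      fun k => k ▸ a1⟩⟩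
  · have := a3 _ a1
    have n : G.ρ (G.xl v) ≠ G.ρ (G.xr v) := fun k => e (H.vf.toRows.inj l1 l2 k)
    refine E.2.2 ⟨G.xl v, G.xr v, H.eΓ ▸ (H.vf.toRows.adj_iff l1 l2).2 (by omega),
      fun z => ⟨two z, ?_⟩⟩
    rintro (rfl | rfl)
    exacts [a1, a2]

omit R in
/-- the cut at a level vertex passes a root exactly if the vertex has no lower neighbour -/
theorem Fr1.pure_iff (A : An1 Γ f v an) (hx : x ∈ G.L j) :
    G.an x ∈ G.K ↔ ∀ z ∈ G.L (j - 1), ¬ Γ.Adj x z := by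
  have fx := H.vf.uw.lf j x hx
  constructor
  · intro k z hz e
    have f1 := (H.vf.an_v hx (H.pr x) k).2
    have f2 := H.vf.uw.lf _ z hz
    rw [H.ef] at fx f1 f2
    rw [H.ea] at f1
    exact ((A.alt x).resolve_left (by omega)).1 ⟨z, e, by omega⟩
  · intro k
    by_contra c
    exact k _ (H.vf.an_l hx (H.pr x) c) (H.ea ▸ A.adj x)

/-- the children of a translate of the root -/
theorem Fr1.child (A : An1 Γ f v an) (hx : x ∈ G.L j) {u : Vx J} (hu : u ∈ G.K) :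
    G.an x = u ↔ Γ.Adj x u ∧ ∀ z ∈ G.L (j - 1), ¬ Γ.Adj x z := by
  constructor
  · rintro rfl
    exact ⟨H.ea ▸ A.adj x, (H.pure_iff A hx).1 hu⟩
  · rintro ⟨e, k⟩
    exact k_uniq R ((H.eK _).1 ((H.pure_iff A hx).2 k)) ((H.eK _).1 hu) (H.ea ▸ A.adj x) e

omit R in
/-- between two neighbours of a root on the line above there are only children -/
theorem Fr1.link_btw {u a b : Vx J} (hu : u ∈ G.K) (e : G.f u = j) (ha : a ∈ G.L j)
    (hb : b ∈ G.L j) (ea : Γ.Adj a u) (eb : Γ.Adj b u) (hx : x ∈ G.L j) (l1 : G.ρ a < G.ρ x)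
    (l2 : G.ρ x < G.ρ b) : G.an x = u := by
  by_contra c
  refine ((H.vf.brg hx (H.pr x) (Or.inl rfl)).nc H.vf.toRows (E := {u})
    (by rintro _ rfl; exact H.vf.k_st hu e) (Set.finite_singleton _) (isConn_single _)
    (Set.disjoint_singleton_left.2 fun k => c ?_) (Or.inr ⟨ha, l1⟩) (Or.inr ⟨hb, l2⟩)).2
    ⟨⟨u, rfl, H.eΓ ▸ ea⟩, ⟨u, rfl, H.eΓ ▸ eb⟩⟩
  rw [H.eT _ k.2.1] at k
  exact k.symm

omit R in
/-- the children of a root form an interval shorter than a period -/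
theorem Fr1.kids {u : Vx J} (hu : u ∈ G.K) : ∃ a ∈ G.L (G.f u), ∃ b ∈ G.L (G.f u),
    G.ρ a ≤ G.ρ b ∧ G.ρ b < G.ρ a + G.nn (G.f u) ∧
      ∀ x ∈ G.L (G.f u), G.an x = u ↔ G.ρ a ≤ G.ρ x ∧ G.ρ x ≤ G.ρ b := by
  have h := H.vf
  have fin : {x | x ∈ G.L (G.f u) ∧ G.an x = u}.Finite := (h.wp.fine.lf u).subset fun x hx =>
    hx.2 ▸ (h.aa _ x hx.1 (H.pr x)).1.symm
  have ne : {x | x ∈ G.L (G.f u) ∧ G.an x = u}.Nonempty := ⟨_, (h.kc u hu).1, (H.eV u hu).2⟩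
  obtain ⟨a, ha, ma⟩ := Set.exists_min_image _ G.ρ fin ne
  obtain ⟨b, hb, mb⟩ := Set.exists_max_image _ G.ρ fin ne
  have key : ∀ x ∈ G.L (G.f u), G.an x = u ↔ G.ρ a ≤ G.ρ x ∧ G.ρ x ≤ G.ρ b := fun x hx =>
    ⟨fun k => ⟨ma x ⟨hx, k⟩, mb x ⟨hx, k⟩⟩, fun k => (h.btw ha.1 (H.pr a) hx (H.pr x) hb.1 (H.pr b)
      k.1 k.2 (ha.2.trans hb.2.symm) (ha.2.symm ▸ hu)).trans ha.2⟩
  refine ⟨a, ha.1, b, hb.1, ma b hb, ?_, key⟩
  by_contra c
  obtain ⟨h1, -, h3, -⟩ := h.shift ha.1 (H.pr a) 1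
  have n2 := h.n2 (G.f u)
  have := (key _ h1).2 (by omega)
  rw [h.atr, ha.2, one_smul] at this
  exact h.wp.w0 (tr_eq_self this)

omit R in
/-- a vertex with a child in the upper part lies on its level line -/
theorem Fr1.row_of_up {a b : Vx J} (e : Up1 Γ f a b) (ha : a ∉ G.K) : a ∈ G.L (f a) := by
  have hb : b ∈ G.U (f b) := by
    show b ∈ UU G.Γ G.f _
    rw [H.eΓ, H.ef]
    exact uu_rais e.2.2
  have := H.vf.uw.lan _ b hb a (H.eΓ ▸ e.1.symm) (by rw [H.nk ha, e.2.1]; omega)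
  rwa [e.2.1, add_sub_cancel_right] at this

/-- the outgoing edges of the root end on the line one -/
theorem Fr1.out_row (s : Sg Γ η v y) : y ∈ G.L 1 := by
  obtain ⟨x, b, sx, hb, a⟩ := R.out_anc s
  have fy := R.out s
  rcases a.cases_head with e | ⟨c, e, -⟩
  · have := R.per b x
    rw [← e, fy, R.inn sx] at this
    omega
  · exact fy ▸ H.row_of_up e fun k => (k_nb R rfl s.1).1 ((H.eK y).1 k)

end

/-! ### The long root -/

theorem wp_root (R : RH Γ η v f) (s : Sg Γ η x0 v) (ev : ∀ a, Even (η a)) : ∃ w, WP Γ η f w := by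
  obtain ⟨⟨w, w0, hw⟩, gen⟩ := ker_ex R s
  refine ⟨w, R.d1.fine, ev, R.per, R.lip, w0, hw, gen, fun x => ?_⟩
  by_cases e : x.1 = v.1
  · obtain ⟨p, a, hp, n⟩ := k_flat R s e
    obtain ⟨y, a', hy⟩ := n_par R n
    exact ⟨y, by omega, (Conn.step (A := {z | f z ≤ f x}) (le_refl (f x)) hp.le a).snoc hp.le
      (by show f y ≤ _; omega) a'⟩
  · obtain ⟨y, a, hy⟩ := n_par R e
    exact ⟨y, by omega, Conn.step (le_refl (f x)) (by show f y ≤ _; omega) a⟩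

theorem lw_tr (hP : WP Γ η f w) (hU : UW Γ η f w) (a : ℤ × ℤ) (hx : x ∈ LW Γ f j) :
    tr a x ∈ LW Γ f (j + η a) := by
  obtain ⟨y, hy, c⟩ := hx
  refine ⟨tr a y, by rw [hP.per]; omega,
    hP.fine.conn_tr a (A := BL Γ f j) (B := BL Γ f (j + η a)) (fun z hz k => hz ?_) c⟩
  rcases k with k | k
  · rw [add_right_comm] at k
    exact Or.inl ((hU.utr a _ z).1 k)
  · exact Or.inr ((hU.ltr a _ z).1 k)

theorem root_row (R : RH Γ η v f) (s : Sg Γ η x0 v) (hU : UW Γ η f w) : v ∈ LL Γ f 0 := by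
  obtain ⟨y, hy⟩ := s.out R.d1
  have := hU.lan 1 y (R.out_uu hy) v hy.1.symm (by rw [R.root]; omega)
  simpa using this

/-- a long root touches the lower part -/
theorem long_tch (R : RH Γ η v f) (E : Long Γ η v) (hP : WP Γ η f w) (hU : UW Γ η f w)
    (hN : NJ Γ Set.univ) : v ∈ Nb Γ (LW Γ f 0) := by
  classical
  by_contra hc
  obtain ⟨x1, s1⟩ := E.1
  have vL := root_row R s1 hU
  have nl : ∀ x ∈ LL Γ f 0, x ∉ LW Γ f 0 := fun x hx k => hU.lw_bl 0 k (Or.inr hx)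
  have row : ∀ x ∈ LL Γ f 0, x.1 ≠ v.1 → x ∈ Nb Γ (LW Γ f 0) := fun x hx n =>
    tch_of_hp hU hx (n_par R n)
  have fl : ∀ x, Sg Γ η x v → x ∈ LL Γ f 0 ∧ x ∈ Nb Γ (LW Γ f 0) := by
    intro x s
    have n := (k_nb R rfl s.1.symm).1
    have hx : x ∈ LL Γ f 0 := by
      by_contra k
      obtain ⟨y, a, hy⟩ := n_par R n
      rw [R.inn s] at hy
      refine hc ⟨x, hU.lw_step (low_lw (x := y) (by omega)) ?_ a.symm, s.1.symm⟩
      rintro (c | c)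
      · have := hU.ge _ _ c
        rw [R.inn s] at this
        omega
      · exact k c
    exact ⟨hx, row x hx n⟩
  have three : ∀ D : Set (Vx J), IsConn Γ D → (∀ u ∈ D, u.1 = v.1 ∧ u ∈ LL Γ f 0 ∨
      u ∈ BL Γ f 0 ∧ u ∉ LW Γ f 0) → ∀ a b e : Vx J, (∀ x, x = a ∨ x = b ∨ x = e →
      x ∈ LL Γ f 0 ∧ x.1 ≠ v.1 ∧ x ∈ Nb Γ D) → a = b ∨ a = e ∨ b = e := by
    intro D cD hD a b e hx
    refine no_three hP hU (j := 0) cD (Set.disjoint_left.2 fun u hu k => ?_)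
      (Set.disjoint_left.2 fun u hu k => ?_) fun x k => ⟨(hx x k).1, row x (hx x k).1 (hx x k).2.1,
        fun c => ?_, (hx x k).2.2⟩
    · exact (hD u hu).elim (fun c => c.2.2 k) fun c => c.1 (Or.inl k)
    · exact (hD u hu).elim (fun c => nl u c.2 k) fun c => c.2 k
    · exact (hD x c).elim (fun c => (hx x k).2.1 c.1) fun c => c.1 (Or.inr (hx x k).1)
  have sg : ∀ (D : Set (Vx J)) x, v ∈ D → Sg Γ η x v → x ∈ LL Γ f 0 ∧ x.1 ≠ v.1 ∧ x ∈ Nb Γ D :=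
    fun D x hv s => ⟨(fl x s).1, (k_nb R rfl s.1.symm).1, v, hv, s.1⟩
  obtain ⟨x2, s2, n12⟩ : ∃ x2, Sg Γ η x2 v ∧ x1 ≠ x2 := by
    by_contra c
    exact E.2.1 ⟨x1, fun y => ⟨fun s => by
      by_contra k
      exact c ⟨y, s, Ne.symm k⟩, fun k => k ▸ s1⟩⟩
  have two : ∀ x, Sg Γ η x v → x = x1 ∨ x = x2 := fun x s => by
    rcases three {v} (isConn_single v) (by rintro _ rfl; exact Or.inl ⟨rfl, vL⟩) x1 x2 x (by
      rintro _ (rfl | rfl | rfl)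
      exacts [sg _ _ rfl s1, sg _ _ rfl s2, sg _ _ rfl s]) with k | k | k
    exacts [absurd k n12, Or.inl k.symm, Or.inr k.symm]
  have na : ¬ Γ.Adj x1 x2 := fun a => E.2.2 ⟨x1, x2, a, fun y => ⟨two y, by
    rintro (rfl | rfl)
    exacts [s1, s2]⟩⟩
  have o : ∀ x, Sg Γ η x v → x ∉ UU Γ f (0 + 1) ∪ {v} := fun x s k =>
    k.elim (fl x s).1.2 s.1.ne
  have oL : LW Γ f 0 ⊆ (UU Γ f (0 + 1) ∪ {v})ᶜ := by
    rintro x hx (k | rfl)
    exacts [hU.lw_bl 0 hx (Or.inl k), nl _ vL hx]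
  obtain ⟨b1, hb1, e1⟩ := (fl x1 s1).2
  obtain ⟨b2, hb2, e2⟩ := (fl x2 s2).2
  obtain ⟨z, ⟨⟨v', hv', zv⟩, hz⟩, ez⟩ := (tim hP.fine.pl (Set.disjoint_singleton_right.2 vL.2)
    (hU.conn _) (isConn_single v) (Set.finite_singleton v) ⟨v, rfl, s1.1⟩ ⟨v, rfl, s2.1⟩ (o x1 s1)
    (((Conn.step (o x1 s1) (oL hb1) e1).trans ((hU.lw_conn 0 _ hb1 _ hb2).up oL)).snoc (oL hb2)
      (o x2 s2) e2.symm)).first n12
  rw [Set.mem_singleton_iff.1 hv'] at zv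
  have zB : z ∈ BL Γ f 0 := by
    rintro (k | k)
    · exact hz (Or.inl k)
    · rcases two z (R.sg0 zv.symm (hU.lf 0 z k)) with rfl | rfl
      exacts [ez.ne rfl, na ez]
  set D : Set (Vx J) := {y | Conn Γ (BL Γ f 0) z y} with hD
  have sD : ∀ u ∈ D, u ∈ BL Γ f 0 ∧ u ∉ LW Γ f 0 := fun u hu => ⟨Conn.mem hu zB,
    fun ⟨y, hy, c⟩ => hc ⟨z, ⟨y, hy, c.trans (Conn.symm hu)⟩, zv.symm⟩⟩
  have cD : IsConn Γ (D ∪ {v}) := (isConn_comp _ z).union_nb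
    (by rintro _ rfl; exact ⟨z, Conn.rfl', zv.symm⟩)
  have bD : Nb Γ D \ D ⊆ {x1, v} ∪ {x2} := by
    rintro r ⟨hr, hr'⟩
    obtain ⟨y, hy, e⟩ := id hr
    have rL := (bl_nb (sD y hy).1 e.symm).resolve_left fun k => hr' (comp_nb zB hr k)
    by_cases c : r.1 = v.1
    · refine Or.inl (Or.inr ?_)
      by_contra n
      obtain ⟨a, rfl⟩ : ∃ a, r = tr a v := ⟨_, orb_eq c⟩
      have a0 : η a = 0 := by
        have := hU.lf 0 _ rL
        rwa [R.per, R.root, zero_add] at this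
      have ad := R.d1.fine.inv a _ _ s1.1
      have m : tr a x1 ∈ LL Γ f 0 := by
        have := (hU.ltr a 0 x1).2 (fl x1 s1).1
        rwa [a0, add_zero] at this
      have nx : ∀ x, Sg Γ η x v → x ≠ tr a x1 := fun x s k =>
        n (k_uniq R c rfl (k ▸ ad) s.1)
      rcases three (D ∪ {v} ∪ {tr a v}) (cD.union_nb (by
        rintro _ rfl; exact ⟨y, Or.inl hy, e⟩)) (by
          rintro u ((k | rfl) | rfl)
          exacts [Or.inr (sD u k), Or.inl ⟨rfl, vL⟩, Or.inl ⟨rfl, rL⟩]) x1 x2 (tr a x1) (by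
        rintro _ (rfl | rfl | rfl)
        exacts [sg _ _ (Or.inl (Or.inr rfl)) s1, sg _ _ (Or.inl (Or.inr rfl)) s2,
          ⟨m, (k_nb R rfl s1.1.symm).1, _, Or.inr rfl, ad⟩]) with k | k | k
      exacts [n12 k, nx _ s1 k, nx _ s2 k]
    · rcases three (D ∪ {v}) cD (by
          rintro u (k | rfl)
          exacts [Or.inr (sD u k), Or.inl ⟨rfl, vL⟩]) x1 x2 r (by
        rintro _ (rfl | rfl | rfl)
        exacts [sg _ _ (Or.inr rfl) s1, sg _ _ (Or.inr rfl) s2,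
          ⟨rL, c, y, Or.inl hy, e⟩]) with k | k | k
      exacts [absurd k n12, Or.inl (Or.inl k.symm), Or.inr k.symm]
  have hT : Pth Γ ({x1, v} ∪ {x2}) (fun u => if u = x1 then 0 else if u = v then 1 else 2) x1 x2 := by
    refine (Pth.pair s1.1 ?_).join (Pth.single x2 _) (Or.inr ⟨?_, s2.1.symm⟩) ?_
    · rw [if_pos rfl, if_neg s1.1.ne', if_pos rfl]
      omega
    · rw [if_neg s1.1.ne', if_pos rfl, if_neg n12.symm, if_neg s2.1.ne]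
      omega
    · rintro x (rfl | rfl) _ rfl a
      exacts [absurd a na, Or.inl ⟨rfl, rfl⟩]
  have sT : ∀ u ∈ ({x1, v} ∪ {x2} : Set (Vx J)), u ∈ LL Γ f 0 := by
    rintro u ((rfl | rfl) | rfl)
    exacts [(fl _ s1).1, vL, (fl _ s2).1]
  have dU : Disjoint D (UU Γ f (0 + 1)) := Set.disjoint_left.2 fun u hu k => (sD u hu).1 (Or.inl k)
  exact no_hang hP.fine.pl hN hT (fin_of_bd hP.fine.oe (hT.fin.subset bD) (hU.u_inf _) dU)
    ⟨z, Conn.rfl'⟩ (isConn_comp _ z) bD (hU.conn _) dU.symm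
    (Set.disjoint_right.2 fun u hu => (sT u hu).2) fun u hu => (sT u hu).1

/-- a parent map off the orbit of the root -/
theorem exists_an0 (R : RH Γ η v f) : ∃ an : Vx J → Vx J, (∀ a x, an (tr a x) = tr a (an x)) ∧
    ∀ x : Vx J, x.1 ≠ v.1 → Γ.Adj x (an x) ∧ f (an x) = f x - 1 :=
  let ⟨an, h1, h2⟩ := exists_an R.d1.fine R.per
  ⟨an, h1, fun x hx => h2 x (n_par R hx)⟩

/-- The frame of a long root: the root lies on the line zero between two flat neighbours. -/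
theorem exists_frL [Fintype J] (hJ : Nonempty J) (hL : NL Γ) (hN : NJ Γ Set.univ)
    (ev : ∀ a, Even (η a)) (R : RH Γ η v f) (E : Long Γ η v)
    (atr : ∀ a x, an (tr a x) = tr a (an x))
    (aa : ∀ x : Vx J, x.1 ≠ v.1 → Γ.Adj x (an x) ∧ f (an x) = f x - 1) :
    ∃ w l ρ nn, WFrm ⟨Γ, η, f, an, w, l, ρ, nn⟩ {x | x.1 ≠ v.1} ∧ v ∈ LL Γ f 0 ∧
      Sg Γ η (l 0 (ρ v - 1)) v ∧ Sg Γ η (l 0 (ρ v + 1)) v := by
  obtain ⟨x1, s1⟩ := E.1
  obtain ⟨w, hP⟩ := wp_root R s1 ev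
  have hU := hP.uw hJ
  have vL := root_row R s1 hU
  obtain ⟨l, ρ, nn, hR⟩ := exists_rows hP hU hL hN fun j x hx => by
    by_cases c : x.1 = v.1
    · obtain ⟨a, rfl⟩ : ∃ a, x = tr a v := ⟨_, orb_eq c⟩
      obtain ⟨b, hb, e⟩ := long_tch R E hP hU hN
      have := hU.lf j _ hx
      rw [R.per, R.root] at this
      exact ⟨tr a b, this ▸ lw_tr hP hU a hb, R.d1.fine.inv a _ _ e⟩
    · exact tch_of_hp hU hx (n_par R c)
  have hR := hR an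
  have sg : ∀ i, i = ρ v + 1 ∨ ρ v = i + 1 → Sg Γ η (l 0 i) v := fun i hi =>
    R.sg0 ((hR.adj_iff vL (hR.l_mem 0 i)).2 (by rwa [hR.rho])) (hR.f_l 0 i)
  refine ⟨w, l, ρ, nn, hR.wfrm atr (fun a x hx => hx) aa fun j => ?_, vL, sg _ (by omega),
    sg _ (by omega)⟩
  by_cases c : (l j 0).1 = v.1
  · exact ⟨l j 1, hR.l_mem j 1, (k_nb R c ((hR.adj j 0 1).2 (Or.inl rfl))).1⟩
  · exact ⟨l j 0, hR.l_mem j 0, c⟩

end Pool.Agent.P.MP_08fd93_co.FZ
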