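import Pool.Agent.P.MP_08fd93_co.FZ.VS
import Pool.Agent.P.MP_08fd93_co.FZ.VL
import Pool.Agent.P.MP_08fd93_co.FN.N5

/-! The disc of a large cell of a frame with stems. -/

set_option autoImplicit false

namespace Pool.Agent.P.MP_08fd93_co.FZ

open OV PkPrtP

variable {J : Type}

/-- the disc of a large cell from a static cell -/
theorem mc_top {F : FD J} {X : FN.XD J} {Pr : Set (Vx J)} {M : FN.MU J} {d : DD (Vx J)}
    (hR : Rows F) (hF : FN.Lay F X Pr) (hM : FN.MVal F X Pr M)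
    (hd : SCell F (F.f M.s) M.s M.s' d) : ∃ e : DD (Vx J), Disc F.Γ e ∧ e.Y = M.T ∧
      e.I = M.Pk ∪ d.I ∧ e.X = d.X ∧ e.a = d.a ∧ e.b = d.b ∧ e.a' = M.s ∧ e.b' = M.s' ∧
      (∀ v ∈ d.X, e.ρ v = d.ρ v) ∧ ∀ u ∈ M.us, e.ρ u.s = F.ρ u.s ∧ e.ρ u.s' = F.ρ u.s' ∧
        (u.x ≠ u.s → e.ρ u.x = F.ρ u.s + 1) := by
  have hC : Caps F (F.f M.s) {u | u ∈ M.us ∧ u.x ≠ u.s} :=
    ⟨fun u hu => (hM.val u hu.1).2.1.1, fun u hu => (hM.val u hu.1).2.2.1,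
      fun u hu => FN.cap_of (hM.val u hu.1).1 hu.2,
      fun u hu u' hu' hne => hM.ap hF hu.1 hu'.1 hne,
      fun u hu u' hu' => hM.nadj u hu.1 u' hu'.1 hu.2 hu'.2⟩
  obtain ⟨σ, ho⟩ := hC.ord hR
  have ins : ∀ u ∈ {u | u ∈ M.us ∧ u.x ≠ u.s}, F.ρ M.s ≤ F.ρ u.s ∧ F.ρ u.s' ≤ F.ρ M.s' :=
    fun u hu => ⟨(hM.val u hu.1).2.1.2.1, (hM.val u hu.1).2.2.2.2⟩
  have eP : capP {u | u ∈ M.us ∧ u.x ≠ u.s} = M.Pk := by
    ext v
    exact ⟨fun ⟨u, hu, h⟩ => ⟨u, hu.1, h⟩, fun ⟨u, hu, h⟩ =>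
      ⟨u, ⟨hu, FN.cap_ne (hM.val u hu).1 (capOf (hM.val u hu).1 h)⟩, h⟩⟩
  refine ⟨_, hC.ccell_disc hR hd ins ho, ?_, by rw [hC.ccell_I hR hd, eP], rfl, rfl, rfl, rfl, rfl,
    fun v hv => if_pos hv, fun u hu => ?_⟩
  · ext v
    show v ∈ mT F M.s M.s' _ ↔ _
    unfold mT
    rw [eP]
    constructor
    · rintro (⟨h1, h2⟩ | ⟨u, hu, rfl⟩)
      · exact (FN.top_mem hF hM h1).resolve_right h2
      · exact ⟨u, hu.1, Or.inr (Or.inl rfl)⟩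
    · intro h
      obtain ⟨u, hu, hT⟩ := id h
      obtain ⟨vu, t1, t2⟩ := hM.val u hu
      rcases tsub vu hT with e | e | ⟨e, c⟩
      · exact Or.inl ⟨e ▸ t1, fun k => hM.pkT hF k h⟩
      · exact Or.inl ⟨e ▸ t2, fun k => hM.pkT hF k h⟩
      · exact Or.inr ⟨u, ⟨hu, FN.cap_ne vu c⟩, e⟩
  · obtain ⟨-, t1, t2⟩ := hM.val u hu
    exact ⟨(if_neg (hd.nlo (Or.inl t1.1)).1).trans (ho.l hC hR (lU t1.1)),
      (if_neg (hd.nlo (Or.inl t2.1)).1).trans (ho.l hC hR (lU t2.1)),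
      fun n => (if_neg (hd.nlo (Or.inr (hC.xu hR ⟨hu, n⟩))).1).trans (ho.new u ⟨hu, n⟩)⟩

variable {G : VD J} {ft : Vx J → Vx J} {M : FN.MU J} {j : ℤ} {s s' : Vx J}

/-- The vertices of the bottom path that must stay visible. -/
def VD.Vis (G : VD J) (s s' : Vx J) : Set (Vx J) :=
  {v | v ∈ G.Bt s s' ∧ (v ∈ G.K ∨ (G.an s ∈ G.K ∧ v = G.xr (G.an s)) ∨
    (G.an s' ∈ G.K ∧ v = G.xl (G.an s')))}

/-- The part of the static cell for the feet `ft` that lies under a stem. -/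
def VD.R (G : VD J) (ft : Vx J → Vx J) (s s' : Vx J) : Set (Vx J) :=
  G.Cl (G.f s) (ft s) s (ft s') s' \ G.In s s'

theorem VFrm.r_sub (h : VFrm G) (hf : Fts G ft) (hs : s ∈ G.L j) (ps : s ∈ G.Pr)
    (hs' : s' ∈ G.L j) (ps' : s' ∈ G.Pr) {v : Vx J} (hv : v ∈ G.R ft s s') :
    (G.an s ∈ G.K ∧ ft s ≠ G.xr (G.an s) ∧ v ∈ G.Uv (G.an s)) ∨
      (G.an s' ∈ G.K ∧ ft s' ≠ G.xl (G.an s') ∧ v ∈ G.Uv (G.an s')) :=
  (h.split hs ps hs' ps' (hf.fo j s hs ps) (hf.fo j s' hs' ps')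
    (h.uw.lf j s hs ▸ hv.1)).resolve_left hv.2

theorem r_step {v z : Vx J} (hv : v ∈ G.R ft s s') (hz : z ∈ G.S (G.f s)) (e : G.Γ.Adj v z) :
    z ∈ G.R ft s s' := ⟨cl_step hv.1 hz e, fun k => hv.2 (cl_step k hv.1.1 e.symm)⟩

/-- the rest hangs on the bottom of one stem and the interval between its feet -/
theorem VFrm.r_nb (h : VFrm G) (hs : s ∈ G.L j) {b : Vx J} (fb : G.f b = j)
    (hb : G.R ft s s' ⊆ G.Uv b) : (G.R ft s s').Finite ∧ ∀ z ∈ Nb G.Γ (G.R ft s s'),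
      z ∈ G.R ft s s' ∨ z = G.bt b ∨
        (z ∈ G.L (j - 1) ∧ G.ρ (G.xl b) ≤ G.ρ z ∧ G.ρ z ≤ G.ρ (G.xr b)) := by
  refine ⟨(h.uv_fin b).subset hb, ?_⟩
  rintro z ⟨v, hv, e⟩
  subst fb
  exact (uv_nb (hb hv) e.symm).imp_left fun k => r_step hv (h.uw.lf _ s hs ▸ k.1) e.symm

/-- the rest for a stem whose feet are equal or adjacent hangs on a triangle -/
theorem VFrm.r_tri (h : VFrm G) (hs : s ∈ G.L j) {b : Vx J} (hb : b ∈ G.V) (fb : G.f b = j)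
    (sb : G.R ft s s' ⊆ G.Uv b) (l : G.ρ (G.xr b) ≤ G.ρ (G.xl b) + 1) :
    Nb G.Γ (G.R ft s s') ⊆ G.R ft s s' ∪ {G.bt b, G.xl b, G.xr b} := by
  intro z hz
  rcases (h.r_nb hs fb sb).2 z hz with k | k | k
  · exact Or.inl k
  · exact Or.inr (Or.inl k)
  · by_cases c : G.ρ z = G.ρ (G.xl b)
    · exact Or.inr (Or.inr (Or.inl (h.toRows.inj k.1 (fb ▸ (h.vl b hb).1) c)))
    · exact Or.inr (Or.inr (Or.inr (h.toRows.inj k.1 (fb ▸ (h.vr b hb).1) (by omega))))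

/-- nothing lies under a stem with one foot -/
theorem VFrm.uv_empty (h : VFrm G) {b : Vx J} (hb : b ∈ G.V) (e : G.xl b = G.xr b) :
    G.Uv b = ∅ := by
  by_contra c
  refine h.nj _ (Set.subset_univ _) (h.uv_fin b) (Set.nonempty_iff_ne_empty.2 c) _ _
    (Or.inr (h.vl b hb).2) ?_
  rintro z ⟨v, hv, a⟩
  rcases uv_nb hv a.symm with k | k | k
  · exact Or.inl k
  · exact Or.inr (Or.inl k)
  · exact Or.inr (Or.inr (h.toRows.inj k.1 (h.vl b hb).1 (by rw [← e] at k; omega)))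

/-- every large cell without a stem inside has a disc -/
theorem VFrm.mc (h : VFrm G) (hf : Fts G ft) (hM : FN.MVal (G.F ft) (G.X ft) G.Pr M)
    (hN : G.NoV M.s M.s') : ∃ d, FN.MC (G.F ft) (G.X ft) M d (G.Vis M.s M.s') (G.R ft M.s M.s') ∧
      d.X = G.Bt M.s M.s' ∧ d.a = G.an M.s ∧ d.b = G.an M.s' ∧ d.I = M.Pk ∪ G.In M.s M.s' ∧
      ∀ v ∈ d.X, d.ρ v = G.ord M.s M.s' v := by
  have hF := h.lay hf
  have hs : M.s ∈ G.L (G.f M.s) := hM.hs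
  have hs' : M.s' ∈ G.L (G.f M.s) := hM.hs'
  have ps := hM.ps
  have ps' := hM.ps'
  have lt : G.ρ M.s < G.ρ M.s' := hM.lt
  have c := h.scell hs ps hs' ps' lt hN
  obtain ⟨d, hd, eY, eI, eX, ea, eb, ea', eb', rx, ry⟩ := mc_top (h.rowsF ft) hF hM
    (d := vcell G M.s M.s') ⟨c.hs, c.hs', c.disc, c.eY, c.ea, c.eb, c.ry, c.lo, c.oc, c.top⟩
  rw [h.vcell_I hs ps hs' ps'] at eI
  have eX : d.X = G.Bt M.s M.s' := eX
  have ea : d.a = G.an M.s := ea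
  have eb : d.b = G.an M.s' := eb
  have f1 := hf.fo _ _ hs ps
  have f2 := hf.fo _ _ hs' ps'
  have line := fun v => h.bt_line hs ps hs' ps' lt.le (z := v)
  have nZ : ∀ v, v ∈ d.X ∨ v ∈ d.Y ∨ v ∈ d.I → v ∉ d.Z := by
    rintro v (k | k | k)
    exacts [hd.xz k, hd.yz k, fun c => k (Or.inl c)]
  refine ⟨d, ⟨hd, eY, fun v => ?_, fun v hv => ?_, fun v hv => ?_,
    fun v hv v' hv' n n' z hz l1 l2 => ?_, fun v hv n => (rx v (eX.subset hv)).trans (ord_old n),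
    fun v hv n n1 n2 => ?_, ea', eb', ry⟩, eX, ea, eb, eI, fun v hv => rx v (eX.subset hv)⟩
  · rw [eI]
    constructor
    · rintro (k | k)
      · exact Or.inl (Or.inl k)
      · by_cases c : v ∈ G.In M.s M.s'
        exacts [Or.inl (Or.inr c), Or.inr ⟨k, c⟩]
    · rintro ((k | k) | k)
      exacts [Or.inl k, Or.inr (h.in_sub hs ps hs' ps' f1 f2 k), Or.inr k.1]
  · have hS := hv.1.1
    have up : v ∉ M.T ∧ v ∉ M.Pk := by
      constructor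
      · rintro ⟨u, hu, hT⟩
        exact hS.1.2 (hM.lev hF hu ▸ tLU (hM.val u hu).1 hT)
      · rintro ⟨u, hu, hP⟩
        exact hS.1.2 (hM.lev hF hu ▸ (capOf (hM.val u hu).1 hP).sub hP)
    rcases d.cases v with k | k | k | k
    · exact k
    · exact ((h.bt_st hs ps hs' ps' (eX ▸ k)).elim (fun c => hS.2 c.1)
        fun c => l_not_u' c hS.1.1).elim
    · exact absurd (eY ▸ k) up.1
    · rw [eI] at k
      exact (k.elim up.2 hv.2).elim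
  · rw [eX] at hv
    by_cases k : v ∈ G.K
    · exact Or.inl ⟨k, ((h.bt_st hs ps hs' ps' hv).resolve_right fun c => h.l_nk c k).2.1⟩
    · have := line v hv k
      exact Or.inr ⟨this.1, (h.foot hs ps f1).2.2.1.trans this.2.1,
        this.2.2.trans (h.foot hs' ps' f2).2.1⟩
  · rw [eX] at hv hv' ⊢
    have a := line v hv n
    have a' := line v' hv' n'
    by_cases e : G.an M.s = G.an M.s'
    · rw [bt_single e] at hv hv' ⊢
      rw [hv, ← hv'] at l1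
      exact (h.toRows.inj hz a'.1 (le_antisymm l2 l1)).trans hv'
    · exact Or.inr ⟨e, Or.inr (Or.inr ⟨hz, a.2.1.trans l1, l2.trans a'.2.2⟩)⟩
  · rw [eX] at hv
    have nK : v ∉ G.K := fun k => n ⟨hv, Or.inl k⟩
    have a := line v hv nK
    have l1 : G.ρ (G.xr (G.an M.s)) < G.ρ v := lt_of_le_of_ne a.2.1 fun e => by
      have e' := h.toRows.inj a.1 (h.feet hs ps).2.1 e.symm
      by_cases k : G.an M.s ∈ G.K
      exacts [n ⟨hv, Or.inr (Or.inl ⟨k, e'⟩)⟩, n1 ((e'.trans (h.xo _ k).2).trans ea.symm)]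
    have l2 : G.ρ v < G.ρ (G.xl (G.an M.s')) := lt_of_le_of_ne a.2.2 fun e => by
      have e' := h.toRows.inj a.1 (h.feet hs' ps').1 e
      by_cases k : G.an M.s' ∈ G.K
      exacts [n ⟨hv, Or.inr (Or.inr ⟨k, e'⟩)⟩, n2 ((e'.trans (h.xo _ k).1).trans eb.symm)]
    refine ⟨nK, fun z ez hz => ?_⟩
    rcases hz with hz | hz
    · have h2 := (h.toRows.adj_iff a.1 hz).1 ez
      refine ⟨nZ z (Or.inl (eX ▸ Or.inr ⟨fun e => ?_, Or.inr (Or.inr ⟨hz, by omega, by omega⟩)⟩)),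
        h.l_nk hz⟩
      have := (h.feet hs ps).2.2
      rw [← e] at l2
      omega
    · obtain ⟨k1, k2⟩ := h.bot_nb hs ps hs' ps' hN a.1 l1 l2 ez hz
      refine ⟨nZ z ?_, k1⟩
      rcases k2 with k | k
      · exact Or.inr (Or.inr (eI ▸ Or.inr k))
      · rcases FN.top_mem hF hM k with k | k
        exacts [Or.inr (Or.inl (eY ▸ k)), Or.inr (Or.inr (eI ▸ Or.inl k))]

end Pool.Agent.P.MP_08fd93_co.FZ
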