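import Pool.Agent.P.MP_08fd93_co.FZ.Brg

/-! Two more planarity tools for a strip with a bridge. -/

set_option autoImplicit false

namespace Pool.Agent.P.MP_08fd93_co.FZ

open OV

variable {J : Type} {F : FD J} {j : ℤ}

/-- two parts of a strip have at most two common attachments that reach a line -/
theorem Brg.k33s (hF : Rows F) {p q : Vx J} {T0 : Set (Vx J)} (h : Brg F j p q T0)
    {A B C T E : Set (Vx J)} (fin : (A ∪ B ∪ C ∪ T ∪ E).Finite)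
    (sub : ∀ x ∈ A ∪ B ∪ C ∪ T ∪ E, x ∈ F.L (j - 1) ∨ x ∈ F.L j ∨ x ∈ F.St j)
    (cA : IsConn F.Γ A) (cB : IsConn F.Γ B) (cC : IsConn F.Γ C) (cT : IsConn F.Γ T)
    (cE : IsConn F.Γ E) (ab : Disjoint A B) (ac : Disjoint A C) (bc : Disjoint B C)
    (te : Disjoint T E) (dT : Disjoint T A ∧ Disjoint T B ∧ Disjoint T C)
    (dE : Disjoint E A ∧ Disjoint E B ∧ Disjoint E C)
    (tT : Touch F.Γ T A ∧ Touch F.Γ T B ∧ Touch F.Γ T C)
    (tE : Touch F.Γ E A ∧ Touch F.Γ E B ∧ Touch F.Γ E C)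
    (rA : ∃ x ∈ A, x ∈ F.L (j - 1) ∨ x ∈ F.L j) (rB : ∃ x ∈ B, x ∈ F.L (j - 1) ∨ x ∈ F.L j)
    (rC : ∃ x ∈ C, x ∈ F.L (j - 1) ∨ x ∈ F.L j) : False := by
  obtain ⟨K, hK2, hK⟩ := far hF (h.fin.union (Set.toFinite {p, q})) fin
  have d0 := hK K 0 (by omega)
  simp only [zero_smul, tr_zero, Set.image_id'] at d0
  have hb := h.mv hF K
  have sZ : Zn F j (fun i => i = F.ρ (tr (K • F.w) p)) (fun i => i = F.ρ (tr (K • F.w) q))
      (tr (K • F.w) '' T0) ⊆ tr (K • F.w) '' (T0 ∪ {p, q}) := by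
    rintro z (a | a | ⟨y, hy, rfl⟩)
    exacts [⟨p, Or.inr (Or.inl rfl), (hF.inj a.1 hb.hp a.2).symm⟩,
      ⟨q, Or.inr (Or.inr rfl), (hF.inj a.1 hb.hq a.2).symm⟩, ⟨y, Or.inl hy, rfl⟩]
  have dO : ∀ D : Set (Vx J), D ⊆ A ∪ B ∪ C ∪ T ∪ E →
      Disjoint ((BL F.Γ F.f (j - 1) ∪ F.U (j + 1)) ∪ Zn F j (fun i => i = F.ρ (tr (K • F.w) p))
        (fun i => i = F.ρ (tr (K • F.w) q)) (tr (K • F.w) '' T0)) D := by
    intro D hD
    refine Set.disjoint_union_left.2 ⟨(zn_out hF (P := fun _ => True) (Q := fun _ => True)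
      subset_rfl).mono_right fun z hz => ?_, d0.mono sZ hD⟩
    rcases sub z (hD hz) with a | a | a
    exacts [Or.inl ⟨a, trivial⟩, Or.inr (Or.inl ⟨a, trivial⟩), Or.inr (Or.inr a)]
  obtain ⟨a, ha, ha'⟩ := rA
  obtain ⟨b, hb', hb''⟩ := rB
  obtain ⟨c, hc, hc'⟩ := rC
  exact k33 hF.pl (out_conn hF hb) cT cE cA cB cC
    (dO _ fun z hz => Or.inl (Or.inr hz)) (dO _ fun z hz => Or.inr hz) te ab ac bc
    ⟨dO _ fun z hz => Or.inl (Or.inl (Or.inl (Or.inl hz))),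
      dO _ fun z hz => Or.inl (Or.inl (Or.inl (Or.inr hz))),
      dO _ fun z hz => Or.inl (Or.inl (Or.inr hz))⟩ dT dE
    ⟨out_touch hF ha' ha, out_touch hF hb'' hb', out_touch hF hc' hc⟩ tT tE

/-- an induced path across the strip is a bridge -/
theorem Brg.path {P : Set (Vx J)} {σ : Vx J → ℤ} {t u : Vx J} (hF : Rows F)
    (hP : Pth F.Γ P σ t u) (ht : t ∈ F.L j) (hu : u ∈ F.L (j - 1))
    (hin : ∀ x ∈ P, x ≠ t → x ≠ u → x ∈ F.St j) : Brg F j u t (P \ {t, u}) := by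
  have ne : u ≠ t := fun e => l_not_u' hu (e ▸ hF.l_u ht)
  have e : P \ {t, u} ∪ {t} = {x | x ∈ P ∧ σ x < σ u} := by
    ext x
    constructor
    · rintro (⟨a, b⟩ | rfl)
      exacts [⟨a, hP.lt_hi a fun k => b (Or.inr k)⟩, ⟨hP.ha, hP.lt_hi hP.ha ne.symm⟩]
    · rintro ⟨a, b⟩
      by_cases c : x = t
      · exact Or.inr c
      · refine Or.inl ⟨a, ?_⟩
        rintro (k | k)
        · exact c k
        · rw [Set.mem_singleton_iff.1 k] at b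
          omega
  refine ⟨hu, ht, fun x hx => hin x hx.1 (fun k => hx.2 (Or.inl k)) fun k => hx.2 (Or.inr k),
    hP.fin.subset fun x hx => hx.1, ?_, ?_⟩
  · rw [e]
    exact hP.seg_conn (fun _ hw => hw.1) fun _ _ _ hy _ hw _ l => ⟨hw, lt_trans l hy.2⟩
  · obtain ⟨v, hv, lv, ev, -⟩ := hP.pred hP.hb ne
    exact ⟨v, by rw [e]; exact ⟨hv, lv⟩, ev.symm⟩

/-- nothing hangs on an induced path across the strip -/
theorem hangP {P : Set (Vx J)} {σ : Vx J → ℤ} {t u : Vx J} (hF : Rows F)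
    (hP : Pth F.Γ P σ t u) (ht : t ∈ F.L j) (hu : u ∈ F.L (j - 1))
    (hin : ∀ x ∈ P, x ≠ t → x ≠ u → x ∈ F.St j) {C : Set (Vx J)} (hC : C ⊆ F.St j)
    (fC : C.Finite) (cC : IsConn F.Γ C) (ne : C.Nonempty) (d : Disjoint C P)
    (hn : ∀ z ∈ Nb F.Γ C, z ∈ C ∨ z ∈ P) : False := by
  have nj := hF.nj C (Set.subset_univ _) fC ne
  have sD : Nb F.Γ C \ C ⊆ P := fun z hz => (hn z hz.1).resolve_left hz.2
  have nD : (Nb F.Γ C \ C).Nonempty := by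
    obtain ⟨b, hb, hb'⟩ := Set.not_subset.1 (nj t t (Or.inl rfl))
    exact ⟨b, hb, fun k => hb' (Or.inl k)⟩
  obtain ⟨a, ha, ma⟩ := Set.exists_min_image _ σ (hP.fin.subset sD) nD
  obtain ⟨b, hb, mb⟩ := Set.exists_max_image _ σ (hP.fin.subset sD) nD
  have ends : ∀ z ∈ Nb F.Γ C \ C, ¬ (σ a < σ z ∧ σ z < σ b) → z = a ∨ z = b := by
    intro z hz k
    have := ma z hz
    have := mb z hz
    by_cases c : σ z = σ a
    exacts [Or.inl (hP.inj _ (sD hz) _ (sD ha) c), Or.inr (hP.inj _ (sD hz) _ (sD hb) (by omega))]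
  by_cases c : a = b ∨ F.Γ.Adj a b
  · refine nj a b c fun z hz => ?_
    by_cases k : z ∈ C
    · exact Or.inl k
    · refine Or.inr (ends z ⟨hz, k⟩ ?_)
      rcases c with rfl | c
      exacts [by omega, hP.nb (sD ha) (sD hb) c (sD ⟨hz, k⟩)]
  · push Not at c
    have br := Brg.path hF hP ht hu hin
    set A : Set (Vx J) := {x | x ∈ P ∧ σ a < σ x ∧ σ x < σ b} with hA
    have sA : A ⊆ F.St j := fun x hx => hin x hx.1
      (by rintro rfl; have := hP.lo _ (sD ha); have := hx.2.1; omega)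
      (by rintro rfl; have := hP.hi _ (sD hb); have := hx.2.2; omega)
    obtain ⟨K, hK2, hK⟩ := far hF br.fin ((hP.fin.subset fun x (hx : x ∈ A) => hx.1).union fC)
    have d0 := hK K 0 (by omega)
    simp only [zero_smul, tr_zero, Set.image_id'] at d0
    have sub : Zn F j (fun _ => True) (fun _ => True) (tr (K • F.w) '' (P \ {t, u})) ⊆
        (A ∪ C)ᶜ := by
      rintro z (a | a | a) k
      · exact l_not_u' a.1 (k.elim (fun k => (sA k).1) fun k => (hC k).1)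
      · exact k.elim (fun k => (sA k).2 (Or.inl a.1)) fun k => (hC k).2 (Or.inl a.1)
      · exact Set.disjoint_left.1 d0 a k
    have s1 : {x | x ∈ P ∧ σ x ≤ σ a} ⊆ (A ∪ C)ᶜ := by
      rintro x hx (k | k)
      exacts [by have := k.2.1; have := hx.2; omega, Set.disjoint_left.1 d k hx.1]
    have s2 : {x | x ∈ P ∧ σ b ≤ σ x} ⊆ (A ∪ C)ᶜ := by
      rintro x hx (k | k)
      exacts [by have := k.2.2; have := hx.2; omega, Set.disjoint_left.1 d k hx.1]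
    have c1 : IsConn F.Γ {x | x ∈ P ∧ σ x ≤ σ a} :=
      hP.seg_conn (fun _ hw => hw.1) fun _ _ _ hy _ hw _ l => ⟨hw, l.le.trans hy.2⟩
    have c2 : IsConn F.Γ {x | x ∈ P ∧ σ b ≤ σ x} :=
      hP.seg_conn (fun _ hw => hw.1) fun _ hy _ _ _ hw l _ => ⟨hw, hy.2.trans l.le⟩
    have c3 := (zn_conn hF (br.mv hF K) (P := fun _ => True) (Q := fun _ => True)
      (fun _ _ _ _ _ _ _ => trivial) (fun _ _ _ _ _ _ _ => trivial) trivial trivial t
      (Or.inr (Or.inl ⟨ht, trivial⟩)) u (Or.inl ⟨hu, trivial⟩)).up sub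
    obtain ⟨z, hz, e⟩ := (tim hF.pl (Set.disjoint_left.2 fun x (hx : x ∈ A) k =>
        Set.disjoint_left.1 d k hx.1)
      (hP.seg_conn (fun _ hw => hw.1) fun _ hx _ hy _ hw l l' =>
        ⟨hw, lt_trans hx.2.1 l, lt_trans l' hy.2.2⟩) cC fC ha.1 hb.1 (s1 ⟨sD ha, le_rfl⟩)
      ((((c1 a ⟨sD ha, le_rfl⟩ t ⟨hP.ha, hP.lo _ (sD ha)⟩).up s1).trans c3).trans
        ((c2 u ⟨hP.hb, hP.hi _ (sD hb)⟩ b ⟨sD hb, le_rfl⟩).up s2))).first c.1
    have hz' : z ∈ Nb F.Γ C \ C := ⟨hz.1, fun k => hz.2 (Or.inr k)⟩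
    rcases ends z hz' fun k => hz.2 (Or.inl ⟨sD hz', k⟩) with rfl | rfl
    exacts [e.ne rfl, c.2 e]

end Pool.Agent.P.MP_08fd93_co.FZ
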