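import Pool.Agent.P.MP_08fd93_co.FZ.Cell

/-! Caps over an abstract static cell. -/

set_option autoImplicit false

namespace Pool.Agent.P.MP_08fd93_co.FZ

open OV

variable {J : Type} {F : FD J} {j : ℤ} {O : Set (Un J)} {s s' : Vx J} {σ : Vx J → ℤ}
  {d : DD (Vx J)}

/-- A static cell under the interval from `s` to `s'` of the line `j`. -/
structure SCell (F : FD J) (j : ℤ) (s s' : Vx J) (d : DD (Vx J)) : Prop where
  hs : s ∈ F.L j
  hs' : s' ∈ F.L j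
  disc : Disc F.Γ d
  eY : d.Y = F.Top s s'
  ea : d.a' = s
  eb : d.b' = s'
  ry : ∀ v ∈ F.L j, d.ρ v = F.ρ v
  lo : ∀ v, v ∈ d.X ∨ v ∈ d.I → v ∈ BL F.Γ F.f j
  oc : IsConn F.Γ (d.Z \ F.U (j + 1))
  top : ∀ x ∈ F.L j, F.ρ s < F.ρ x → F.ρ x < F.ρ s' → ∀ z, F.Γ.Adj x z →
    (z ∈ F.L j ∨ z ∈ F.U (j + 1)) ∨ z ∈ d.X ∨ z ∈ d.I

open Classical in
/-- The cell under the caps `O`. -/
noncomputable def ccell (F : FD J) (s s' : Vx J) (d : DD (Vx J)) (O : Set (Un J))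
    (σ : Vx J → ℤ) : DD (Vx J) :=
  ⟨(d.X ∪ mT F s s' O ∪ (capP O ∪ d.I))ᶜ, d.X, mT F s s' O,
    fun v => if v ∈ d.X then d.ρ v else σ v, d.a, d.b, s, s'⟩

theorem SCell.le (h : SCell F j s s' d) : F.ρ s ≤ F.ρ s' := by
  have := h.disc.py.ha
  rw [h.eY, h.ea] at this
  exact this.2.2

theorem SCell.nlo (h : SCell F j s s' d) {v : Vx J} (hv : v ∈ F.L j ∨ v ∈ F.U (j + 1)) :
    v ∉ d.X ∧ v ∉ d.I :=
  ⟨fun k => h.lo v (Or.inl k) hv.symm, fun k => h.lo v (Or.inr k) hv.symm⟩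

theorem SCell.i_nb (h : SCell F j s s' d) {v z : Vx J} (hv : v ∈ d.I) (e : F.Γ.Adj v z) :
    z ∈ d.I ∨ z ∈ d.X ∨ z ∈ F.Top s s' := by
  rcases d.cases z with k | k | k | k
  exacts [absurd k (h.disc.iz hv e), Or.inr (Or.inl k), Or.inr (Or.inr (h.eY ▸ k)), Or.inl k]

section

variable (h : Caps F j O) (hR : Rows F) (hd : SCell F j s s' d)
  (ins : ∀ u ∈ O, F.ρ s ≤ F.ρ u.s ∧ F.ρ u.s' ≤ F.ρ s')
include h hR hd

theorem Caps.ccell_I (σ : Vx J → ℤ) : (ccell F s s' d O σ).I = capP O ∪ d.I := by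
  ext v
  constructor
  · intro hv
    by_contra hc
    exact hv (by
      by_cases h1 : v ∈ d.X ∪ mT F s s' O
      exacts [Or.inr h1, Or.inl fun h2 => h2.elim h1 hc])
  · rintro hv (k | k | k)
    · exact k (Or.inr hv)
    · exact hv.elim (fun c => (hd.nlo (h.p_up hR c)).1 k) fun c => c (Or.inr (Or.inl k))
    · have := h.mT_up hR hd.hs k
      exact hv.elim this.2 (hd.nlo this.1).2

include ins

theorem Caps.cI_nb {v z : Vx J} (hv : v ∈ capP O ∪ d.I) (e : F.Γ.Adj v z) :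
    z ∈ d.X ∪ mT F s s' O ∪ (capP O ∪ d.I) := by
  rcases hv with hv | hv
  · by_cases hz : z ∈ F.L j ∨ z ∈ F.U (j + 1)
    · rcases h.p_nb hR hd.hs ins hv e hz with k | k
      exacts [Or.inr (Or.inl k), Or.inl (Or.inr k)]
    · have hL := (h.p_up hR hv).resolve_right fun k => hz (hR.u_nb k e)
      have ho := h.p_old hR ins hv hL
      rcases (hd.top v hL ho.1 ho.2 z e).resolve_left hz with k | k
      exacts [Or.inl (Or.inl k), Or.inr (Or.inr k)]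
  · rcases hd.i_nb hv e with k | k | k
    · exact Or.inr (Or.inr k)
    · exact Or.inl (Or.inl k)
    · rcases top_in s s' O k with k | k
      exacts [Or.inl (Or.inr k), Or.inr (Or.inl k)]

theorem Caps.cout_Z (σ : Vx J → ℤ) :
    d.Z \ F.U (j + 1) = (ccell F s s' d O σ).Z \ F.U (j + 1) := by
  have ef := hR.uw.lf j s hd.hs
  ext v
  refine and_congr_left fun hU => ⟨?_, ?_⟩
  · rintro hv ((k | k | ⟨u, hu, rfl⟩) | k | k)
    · exact hd.disc.xz k hv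
    · exact hd.disc.yz (hd.eY ▸ k.1) hv
    · exact hU (h.xu hR hu)
    · have hL := (h.p_up hR k).resolve_right hU
      have := h.p_old hR ins k hL
      exact hd.disc.yz (hd.eY ▸ ⟨ef ▸ hL, this.1.le, this.2.le⟩) hv
    · exact k (Or.inl hv)
  · intro hv
    rcases d.cases v with k | k | k | k
    · exact k
    · exact absurd (Or.inl (Or.inl k)) hv
    · rcases top_in s s' O (hd.eY ▸ k) with k | k
      exacts [absurd (Or.inl (Or.inr k)) hv, absurd (Or.inr (Or.inl k)) hv]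
    · exact absurd (Or.inr (Or.inr k)) hv

theorem Caps.ccell_zc (σ : Vx J → ℤ) : IsConn F.Γ (ccell F s s' d O σ).Z := by
  have eZ := h.cout_Z hR hd ins σ
  have hs := hd.hs
  refine isConn_base hd.oc (fun v hv => by rw [eZ] at hv; exact hv.1) fun v hv => ?_
  by_contra hc
  obtain ⟨σ', ho⟩ := h.ord hR
  set E : Set (Vx J) := {y | Conn F.Γ (ccell F s s' d O σ).Z v y} with hE
  have sE : E ⊆ (ccell F s s' d O σ).Z := fun y hy => Conn.mem hy hv
  have uE : E ⊆ F.U (j + 1) := fun y hy => by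
    by_contra k
    exact hc ⟨y, eZ ▸ ⟨sE hy, k⟩, hy⟩
  have bE : Nb F.Γ E \ E ⊆ mT F s s' O := by
    rintro z ⟨hz, hz'⟩
    obtain ⟨y, hy, e⟩ := id hz
    have k : z ∈ d.X ∪ mT F s s' O ∪ (capP O ∪ d.I) := by
      by_contra k
      exact hz' (comp_nb hv hz k)
    rcases k with (k | k) | k
    · exact absurd k (hd.nlo (hR.u_nb (uE hy) e.symm)).1
    · exact k
    · exact absurd (h.cI_nb hR hd ins k e) (sE hy)
  have hT := h.mT_pth hR ho hs hd.hs' hd.le ins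
  refine no_hang hR.pl hR.nj hT (fin_of_bd hR.fine.oe (hT.fin.subset bE) (hR.l_inf j)
    (Set.disjoint_left.2 fun y hy k => k.2 (uE hy))) ⟨v, Conn.rfl'⟩ (isConn_comp _ v) bE
    (capLo_conn hR) (Set.disjoint_left.2 fun y hy k => ?_) (h.mT_lo hR hs).1 (h.mT_lo hR hs).2
  exact (capLo_sub hy).elim (fun c => c (Or.inl (uE k))) fun c => sE k (Or.inr (Or.inl c))

/-- the bottom together with the interior is connected -/
theorem Caps.cin_conn : IsConn F.Γ (d.X ∪ (capP O ∪ d.I)) := by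
  have hD := hd.disc
  have ef := hR.uw.lf j s hd.hs
  have g1 : ∀ v ∈ d.I, ∃ y ∈ d.X, Conn F.Γ (d.X ∪ (capP O ∪ d.I)) v y := by
    intro v hv
    obtain ⟨y, c, z, hz, e⟩ := hD.toX hR.pl hv
    exact ⟨z, hz, (c.up fun w hw => Or.inr (Or.inr hw)).snoc (Or.inr (Or.inr (c.mem hv)))
      (Or.inl hz) e⟩
  have g2 : ∀ v ∈ capP O, v ∈ F.L j → ∃ y ∈ d.X, Conn F.Γ (d.X ∪ (capP O ∪ d.I)) v y := by
    intro v hv hL
    have ho := h.p_old hR ins hv hL
    obtain ⟨y, e, k⟩ := hD.swap.side hR.pl (x := v)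
      (show v ∈ d.Y from hd.eY ▸ ⟨ef ▸ hL, ho.1.le, ho.2.le⟩)
      (fun c => by rw [c, show d.swap.a = s from hd.ea] at ho; exact lt_irrefl _ ho.1)
      (fun c => by rw [c, show d.swap.b = s' from hd.eb] at ho; exact lt_irrefl _ ho.2)
    rcases k with k | k
    · rw [DD.swap_I] at k
      obtain ⟨z, hz, c⟩ := g1 y k
      exact ⟨z, hz, Conn.trans (y := y) (Conn.step (Or.inr (Or.inl hv)) (Or.inr (Or.inr k)) e) c⟩
    · exact ⟨y, k, Conn.step (Or.inr (Or.inl hv)) (Or.inl k) e⟩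
  refine isConn_base hD.px.conn Set.subset_union_left ?_
  rintro v (hv | hv | hv)
  · exact ⟨v, hv, Conn.rfl'⟩
  · obtain ⟨b, hb, c⟩ := h.p_lo hR hd.hs hd.hs' hd.le ins hv
    refine (c.ind (p := fun z => z ∈ BL F.Γ F.f j ∨
      ∃ y ∈ d.X, Conn F.Γ (d.X ∪ (capP O ∪ d.I)) z y) (Or.inl hb) ?_).resolve_left
      fun k => k (h.p_up hR hv).symm
    rintro a b ha (hb | hb) e ih
    · exact Or.inl hb
    · rcases h.p_up hR hb with k | k
      · exact Or.inr (g2 b hb k)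
      · have na : a ∉ BL F.Γ F.f j := fun c => c (hR.u_nb k e.symm).symm
        obtain ⟨y, hy, c⟩ := ih.resolve_left na
        exact Or.inr ⟨y, hy, Conn.trans (y := a) (Conn.step (Or.inr (Or.inl hb))
          (Or.inr (Or.inl (ha.resolve_left na))) e.symm) c⟩
  · exact g1 v hv

/-- a static cell under a family of caps is a disc -/
theorem Caps.ccell_disc (ho : COrd F j O σ) : Disc F.Γ (ccell F s s' d O σ) := by
  have hI := h.ccell_I hR hd σ
  have eZ := h.cout_Z hR hd ins σ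
  have cZ := h.ccell_zc hR hd ins σ
  have cA := h.cin_conn hR hd ins
  have hs := hd.hs
  have hs' := hd.hs'
  have hT0 := h.mT_pth hR ho hs hs' hd.le ins
  have hD := hd.disc
  have dxy : Disjoint d.X (mT F s s' O) :=
    Set.disjoint_right.2 fun v k => (hd.nlo (h.mT_up hR hs k).1).1
  have hT : Pth F.Γ (mT F s s' O) (ccell F s s' d O σ).ρ s s' :=
    hT0.congr fun v hv => if_neg (Set.disjoint_right.1 dxy hv)
  obtain rfl := hR.uw.lf j s hs
  have oZ : ∀ v ∈ d.Z, v ∉ F.U (F.f s + 1) → v ∈ (ccell F s s' d O σ).Z := fun v hv k =>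
    (eZ.subset ⟨hv, k⟩).1
  have hi : ∀ v ∈ F.L (F.f s), v ∉ F.Top s s' → v ∈ (ccell F s s' d O σ).Z := fun v hv k => by
    refine oZ v ?_ hv.2
    rcases d.cases v with c | c | c | c
    exacts [c, absurd c (hd.nlo (Or.inl hv)).1, absurd (hd.eY ▸ c) k,
      absurd c (hd.nlo (Or.inl hv)).2]
  refine ⟨hD.px.congr fun v hv => if_pos hv, hT, dxy, hd.ea ▸ hD.ra, hd.eb ▸ hD.rb, cZ,
    Set.disjoint_left.2 fun v hv k => hv (Or.inl k), ?_, ?_,
    hI ▸ (h.p_fin (h.fin ins)).union hD.fin, hR.nj.mono (Set.subset_univ _)⟩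
  · rintro v ⟨z, hz, e⟩
    by_contra k
    exact hz (h.cI_nb hR hd ins (hI ▸ k) e)
  · obtain ⟨⟨z1, hz1, n1, e1⟩, ⟨z2, hz2, n2, e2⟩⟩ := ray_nb hR hs hs'
    have o1 := hi _ hz1 n1
    have o2 := hi _ hz2 n2
    rintro x (hx | hx)
    · obtain ⟨b, hb, e⟩ := hD.tz (Or.inl hx)
      exact ⟨b, oZ b hb fun k => (hd.nlo (hR.u_nb k e.symm)).1 hx, e⟩
    · by_cases ha : x = s
      · exact ⟨z1, o1, ha ▸ e1⟩
      by_cases hb : x = s'
      · exact ⟨z2, o2, hb ▸ e2⟩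
      have hx : x ∈ mT F s s' O := hx
      clear hT
      have hT := hT0
      obtain ⟨u, hu, lu, eu, -⟩ := hT.pred hx ha
      obtain ⟨v, hv, lv, ev, -⟩ := hT.succ hx hb
      have tA : ∀ w ∈ mT F s s' O, w ∉ d.X ∪ (capP O ∪ d.I) := fun w hw k =>
        k.elim (Set.disjoint_right.1 dxy hw) fun k => (hI ▸ k : w ∈ DD.I _) (Or.inr (Or.inr hw))
      have sub : ∀ w ∈ mT F s s' O, w ≠ x → w ∈ ((d.X ∪ (capP O ∪ d.I)) ∪ {x})ᶜ :=
        fun w hw hne k => k.elim (tA w hw) hne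
      have c1 : IsConn F.Γ {w | w ∈ mT F s s' O ∧ σ w < σ x} :=
        hT.seg_conn (fun _ hw => hw.1) fun _ _ _ hy _ hw _ l => ⟨hw, lt_trans l hy.2⟩
      have c2 : IsConn F.Γ {w | w ∈ mT F s s' O ∧ σ x < σ w} :=
        hT.seg_conn (fun _ hw => hw.1) fun _ hy _ _ _ hw l _ => ⟨hw, lt_trans hy.2 l⟩
      have s1 : {w | w ∈ mT F s s' O ∧ σ w < σ x} ⊆ ((d.X ∪ (capP O ∪ d.I)) ∪ {x})ᶜ :=
        fun w hw => sub w hw.1 (by rintro rfl; exact lt_irrefl _ hw.2)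
      have s2 : {w | w ∈ mT F s s' O ∧ σ x < σ w} ⊆ ((d.X ∪ (capP O ∪ d.I)) ∪ {x})ᶜ :=
        fun w hw => sub w hw.1 (by rintro rfl; exact lt_irrefl _ hw.2)
      have s3 : (ccell F s s' d O σ).Z ⊆ ((d.X ∪ (capP O ∪ d.I)) ∪ {x})ᶜ := by
        rintro w hw ((k | k) | rfl)
        exacts [hw (Or.inl (Or.inl k)), hw (Or.inr k), hw (Or.inl (Or.inr hx))]
      have a1 : s ∈ {w | w ∈ mT F s s' O ∧ σ w < σ x} := ⟨hT.ha, hT.lo_lt hx ha⟩
      have a2 : s' ∈ {w | w ∈ mT F s s' O ∧ σ x < σ w} := ⟨hT.hb, hT.lt_hi hx hb⟩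
      have hc : Conn F.Γ ((d.X ∪ (capP O ∪ d.I)) ∪ {x})ᶜ u v :=
        (((((c1 u ⟨hu, lu⟩ _ a1).up s1).snoc (s1 a1) (s3 o1) e1).trans
          ((cZ _ o1 _ o2).up s3)).snoc (s3 o2) (s2 a2) e2.symm).trans
          ((c2 _ a2 v ⟨hv, lv⟩).up s2)
      obtain ⟨z, hz, e⟩ := (tim hR.pl (Set.disjoint_right.2 (by rintro _ rfl; exact tA _ hx)) cA
        (isConn_single x) (Set.finite_singleton x) ⟨x, rfl, eu⟩ ⟨x, rfl, ev.symm⟩
        (s1 ⟨hu, lu⟩) hc).first (by rintro rfl; omega)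
      obtain ⟨_, rfl, ez⟩ := hz.1
      refine ⟨z, ?_, ez.symm⟩
      rintro ((k | k) | k)
      exacts [hz.2 (Or.inl (Or.inl k)), hT.no_tri hu k hx e ez eu, hz.2 (Or.inl (Or.inr k))]

end

end Pool.Agent.P.MP_08fd93_co.FZ
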