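import Pool.Agent.P.MP_08fd93_co.FZ.VI
import Pool.Agent.P.MP_08fd93_co.FZ.Cell2

/-! The boundary of a static cell of a frame with stems. -/

set_option autoImplicit false

namespace Pool.Agent.P.MP_08fd93_co.FZ

open OV

/-- an induced path between two connected regions touches the outer one everywhere -/
theorem path_touch {W : Type} {H : SimpleGraph W} (hP : Pl H Set.univ) {P A Z : Set W}
    {σ : W → ℤ} {t p : W} (hT : Pth H P σ t p) (cA : IsConn H A) (cZ : IsConn H Z)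
    (dA : Disjoint A P) (dZ : Disjoint Z (A ∪ P)) (cov : ∀ x, x ∉ Z → x ∈ A ∨ x ∈ P)
    (ht : t ∈ Nb H Z) (hp : p ∈ Nb H Z) {x : W} (hx : x ∈ P) : x ∈ Nb H Z := by
  by_cases ha : x = t
  · exact ha ▸ ht
  by_cases hb : x = p
  · exact hb ▸ hp
  obtain ⟨z1, o1, e1⟩ := ht
  obtain ⟨z2, o2, e2⟩ := hp
  obtain ⟨u, hu, lu, eu, -⟩ := hT.pred hx ha
  obtain ⟨v, hv, lv, ev, -⟩ := hT.succ hx hb
  have sub : ∀ w ∈ P, w ≠ x → w ∈ (A ∪ {x})ᶜ :=
    fun w hw hne k => k.elim (Set.disjoint_right.1 dA hw) hne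
  have c1 : IsConn H {w | w ∈ P ∧ σ w < σ x} :=
    hT.seg_conn (fun _ hw => hw.1) fun _ _ _ hy _ hw _ l => ⟨hw, lt_trans l hy.2⟩
  have c2 : IsConn H {w | w ∈ P ∧ σ x < σ w} :=
    hT.seg_conn (fun _ hw => hw.1) fun _ hy _ _ _ hw l _ => ⟨hw, lt_trans hy.2 l⟩
  have s1 : {w | w ∈ P ∧ σ w < σ x} ⊆ (A ∪ {x})ᶜ :=
    fun w hw => sub w hw.1 (by rintro rfl; exact lt_irrefl _ hw.2)
  have s2 : {w | w ∈ P ∧ σ x < σ w} ⊆ (A ∪ {x})ᶜ :=
    fun w hw => sub w hw.1 (by rintro rfl; exact lt_irrefl _ hw.2)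
  have s3 : Z ⊆ (A ∪ {x})ᶜ := by
    rintro w hw (k | rfl)
    exacts [Set.disjoint_left.1 dZ hw (Or.inl k), Set.disjoint_left.1 dZ hw (Or.inr hx)]
  have a1 : t ∈ {w | w ∈ P ∧ σ w < σ x} := ⟨hT.ha, hT.lo_lt hx ha⟩
  have a2 : p ∈ {w | w ∈ P ∧ σ x < σ w} := ⟨hT.hb, hT.lt_hi hx hb⟩
  have hc : Conn H (A ∪ {x})ᶜ u v :=
    (((((c1 u ⟨hu, lu⟩ _ a1).up s1).snoc (s1 a1) (s3 o1) e1).trans
      ((cZ _ o1 _ o2).up s3)).snoc (s3 o2) (s2 a2) e2.symm).trans ((c2 _ a2 v ⟨hv, lv⟩).up s2)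
  obtain ⟨z, hz, e⟩ := (tim hP (Set.disjoint_singleton_right.2 (Set.disjoint_right.1 dA hx)) cA
    (isConn_single x) (Set.finite_singleton x) ⟨x, rfl, eu⟩ ⟨x, rfl, ev.symm⟩
    (s1 ⟨hu, lu⟩) hc).first (by rintro rfl; omega)
  obtain ⟨_, rfl, ez⟩ := hz.1
  refine ⟨z, ?_, ez.symm⟩
  by_contra k
  rcases cov z k with k | k
  exacts [hz.2 (Or.inl k), hT.no_tri hu k hx e ez eu]

variable {J : Type} {G : VD J} {j : ℤ} {s s' : Vx J}

/-- the lower part of a cut -/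
theorem VFrm.loP (h : VFrm G) (hs : s ∈ G.L j) (ps : s ∈ G.Pr) (hv : G.an s ∈ G.K) :
    IsConn G.Γ (G.T (G.an s) \ {G.an s}) ∧
      (∀ u ∈ G.T (G.an s) \ {G.an s}, G.bt (G.an s) ∈ G.T (G.an s) \ {G.an s}) ∧
      IsConn G.Γ (G.T (G.an s) \ {G.an s} ∪ {G.xl (G.an s)}) ∧
      G.an s ∈ Nb G.Γ (G.T (G.an s) \ {G.an s} ∪ {G.xl (G.an s)}) := by
  have hV := (h.an_v hs ps hv).1
  have hT := h.kp _ hV
  have c : IsConn G.Γ (G.T (G.an s) \ {G.an s}) :=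
    hT.seg_conn (fun _ hw => hw.1) fun y hy _ _ x hx l _ => ⟨hx, by
      rintro rfl
      have := hT.lo y hy.1
      omega⟩
  have b : ∀ u ∈ G.T (G.an s) \ {G.an s}, G.bt (G.an s) ∈ G.T (G.an s) \ {G.an s} := by
    refine fun u hu => ⟨hT.hb, fun k => ?_⟩
    have := hT.lo_lt hu.1 hu.2
    have := hT.hi u hu.1
    rw [Set.mem_singleton_iff.1 k] at this
    omega
  refine ⟨c, b, ?_⟩
  by_cases e : G.an s = G.bt (G.an s)
  · refine ⟨?_, _, Or.inr rfl, by have := (h.vl _ hV).2; rwa [← e] at this⟩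
    rw [Set.eq_empty_of_forall_notMem fun u hu => (b u hu).2 e.symm, Set.empty_union]
    exact isConn_single _
  · refine ⟨c.union_nb (by rintro _ rfl; exact ⟨_, ⟨hT.hb, Ne.symm e⟩, (h.vl _ hV).2.symm⟩), ?_⟩
    obtain ⟨u, hu, -, eu, -⟩ := hT.succ hT.ha e
    exact ⟨u, Or.inl ⟨hu, eu.ne'⟩, eu⟩

section

variable (h : VFrm G) (hs : s ∈ G.L j) (ps : s ∈ G.Pr) (hs' : s' ∈ G.L j) (ps' : s' ∈ G.Pr)
include h hs ps

theorem VFrm.mid (hN : G.NoV s s') {z : Vx J}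
    (hz : z ∈ G.L (j - 1) ∨ z ∈ G.L j ∨ (z ∈ G.K ∧ G.f z = j))
    (h1 : ¬ G.Lf j (G.xr (G.an s)) s z) (h2 : ¬ G.Rg j (G.xl (G.an s')) s' z) :
    z ∈ G.Bt s s' ∨ z ∈ G.Top s s' ∨ (G.an s = G.an s' ∧ G.an s ∈ G.K ∧
      z ∈ G.T (G.an s) \ {G.an s} ∪ {G.xl (G.an s)}) := by
  have hR := h.toRows
  have fs := h.uw.lf j s hs
  rcases hz with k | k | k
  · have a1 := not_lt.1 fun c => h1 (Or.inl ⟨k, c⟩)
    have a2 := not_lt.1 fun c => h2 (Or.inl ⟨k, c⟩)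
    by_cases e : G.an s = G.an s'
    · have ft := h.feet hs ps
      rw [← e] at a2
      have e1 : z = G.xl (G.an s) := hR.inj k ft.1 (by omega)
      by_cases hv : G.an s ∈ G.K
      exacts [Or.inr (Or.inr ⟨e, hv, Or.inr e1⟩), Or.inl (Or.inl (e1.trans (h.xo _ hv).1))]
    · exact Or.inl (Or.inr ⟨e, Or.inr (Or.inr ⟨fs ▸ k, a1, a2⟩)⟩)
  · exact Or.inr (Or.inl ⟨fs ▸ k, not_lt.1 fun c => h1 (Or.inr (Or.inl ⟨k, c⟩)),
      not_lt.1 fun c => h2 (Or.inr (Or.inl ⟨k, c⟩))⟩)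
  · have m : z ∈ G.T (G.an s) ∨ z ∈ G.T (G.an s') := by
      by_contra c
      push Not at c
      exact (hN z k.1 ⟨by rw [fs, ← k.2]; exact (h.kc z k.1).1,
        not_lt.1 fun c' => h1 (Or.inr (Or.inr ⟨k.1, k.2, c.1, c'⟩)),
        not_lt.1 fun c' => h2 (Or.inr (Or.inr ⟨k.1, k.2, c.2, c'⟩))⟩).elim c.1 c.2
    by_cases e : G.an s = G.an s'
    · rw [← e, or_self] at m
      by_cases c : z = G.an s
      exacts [Or.inl (Or.inl c), Or.inr (Or.inr ⟨e, m.2.1, Or.inl ⟨m, c⟩⟩)]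
    · exact Or.inl (Or.inr ⟨e, m.imp_right Or.inl⟩)

include hs' ps'

/-- between two children of the top of a stem nothing reaches the rest of the cut -/
theorem VFrm.fan_x (e : G.an s = G.an s') (hv : G.an s ∈ G.K) {x : Vx J} (hx : x ∈ G.L j)
    (l1 : G.ρ s < G.ρ x) (l2 : G.ρ x < G.ρ s') {B : Set (Vx J)} (hB : B ⊆ G.S j) (fB : B.Finite)
    (cB : IsConn G.Γ (B ∪ {x})) {z : Vx J} (hz : z ∈ G.T (G.an s) \ {G.an s} ∪ {G.xl (G.an s)}) :
    z ∉ Nb G.Γ (B ∪ {x}) := by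
  intro nz
  obtain ⟨c, b, -⟩ := h.loP hs ps hv
  have hV := h.an_v hs ps hv
  have key : ∀ T, Brg G.toFD j (G.xl (G.an s)) x T → G.an s ∉ T → False := fun T br n =>
    (br.nc h.toRows (E := {G.an s}) (by rintro _ rfl; exact h.k_st hv hV.2)
      (Set.finite_singleton _) (isConn_single _) (Set.disjoint_singleton_left.2 n)
      (Or.inr ⟨hs, l1⟩) (Or.inr ⟨hs', l2⟩)).2
      ⟨⟨_, rfl, (h.aa j s hs ps).1⟩, ⟨_, rfl, e ▸ (h.aa j s' hs' ps').1⟩⟩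
  have ft := (h.feet hs ps).1
  rcases hz with hz | rfl
  · refine key (B ∪ (G.T (G.an s) \ {G.an s})) ⟨ft, hx, Set.union_subset (fun u hu => (hB hu).1)
      fun u hu => h.an_st hs ps hu.1, fB.union ((h.t_fc _).1.subset fun u hu => hu.1), ?_,
      _, Or.inl (Or.inr (b z hz)), (h.vl _ hV.1).2.symm⟩
      fun k => k.elim (fun k => (hB k).2 hv) fun k => k.2 rfl
    rw [Set.union_right_comm]
    obtain ⟨a, ha, ea⟩ := nz
    exact cB.union c ⟨a, ha, z, hz, ea.symm⟩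
  · exact key B ⟨ft, hx, fun u hu => (hB hu).1, fB, cB, nz⟩ fun k => (hB k).2 hv

/-- the attachments of the interior of a cell -/
theorem VFrm.in_nb (hN : G.NoV s s') {v z : Vx J} (hv : v ∈ G.In s s')
    (hz : z ∈ Nb G.Γ (G.Cp j v)) : z ∈ G.Cp j v ∨ z ∈ G.Bt s s' ∨ z ∈ G.Top s s' := by
  have hR := h.toRows
  have fs := h.uw.lf j s hs
  rw [VD.In, fs] at hv
  have M := fun z (hz : z ∈ Nb G.Γ (G.Cp j v)) =>
    (h.cp_nb hv.1 hz).imp_right fun k => h.mid hs ps hN k (hv.2 z hz).1 (hv.2 z hz).2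
  rcases M z hz with k | k | k | ⟨k1, hK, hD⟩
  · exact Or.inl k
  · exact Or.inr (Or.inl k)
  · exact Or.inr (Or.inr k)
  exfalso
  have hV := h.an_v hs ps hK
  have hu := (h.feet hs ps).1
  have fC := h.cp_fin hv.1
  have sC := cpv_sub hv.1
  have sT := h.an_st hs ps
  obtain ⟨-, -, cD, nD⟩ := h.loP hs ps hK
  have M' : ∀ x ∈ Nb G.Γ (G.Cp j v), x ∈ G.Cp j v ∨ (x = s ∨ x = s') ∨ x ∈ G.T (G.an s) ∨
      x = G.xl (G.an s) := by
    intro x hx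
    rcases M x hx with k | (k | k) | k | k
    · exact Or.inl k
    · exact Or.inr (Or.inr (Or.inl (by rw [k]; exact t_self hK)))
    · exact absurd k1 k.1
    · have xL : x ∈ G.L j := fs ▸ k.1
      have a1 := k.2.1
      have a2 := k.2.2
      have : ¬ (G.ρ s < G.ρ x ∧ G.ρ x < G.ρ s') := fun c =>
        h.fan_x hs ps hs' ps' k1 hK xL c.1 c.2 sC fC
          ((cpv_conn v).union_nb (by rintro _ rfl; exact hx)) hD
          (let ⟨a, ha, e⟩ := hz; ⟨a, Or.inl ha, e⟩)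
      by_cases c : G.ρ x = G.ρ s
      exacts [Or.inr (Or.inl (Or.inl (hR.inj xL hs c))),
        Or.inr (Or.inl (Or.inr (hR.inj xL hs' (by omega))))]
    · exact Or.inr (Or.inr (k.2.2.imp And.left id))
  have fin : ∀ t ∈ G.L j, t ∈ G.Pr → G.an t = G.an s →
      (∀ x ∈ Nb G.Γ (G.Cp j v), x = s ∨ x = s' → x = t) → False := fun t ht pt et hh =>
    h.hang ht pt (Or.inl rfl) hv.1 fun x hx => by
      rw [et]
      exact (M' x hx).imp_right (Or.imp_left (hh x hx))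
  by_cases t1 : s ∈ Nb G.Γ (G.Cp j v)
  · by_cases t2 : s' ∈ Nb G.Γ (G.Cp j v) ∧ s' ≠ s
    · have tt : ∀ {A : Set (Vx J)} {p}, p ∈ Nb G.Γ A → Touch G.Γ A {p} :=
        fun ⟨a, ha, e⟩ => ⟨a, ha, _, rfl, e.symm⟩
      have nD' : ∀ x ∈ G.L j, x ∉ G.T (G.an s) \ {G.an s} ∪ {G.xl (G.an s)} := by
        rintro x hx (k | rfl)
        exacts [h.l_nk hx k.1.1, l_not_u' hu (hR.l_u hx)]
      have nC : ∀ x ∈ G.L j, Disjoint (G.Cp j v) {x} := fun x hx =>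
        Set.disjoint_singleton_right.2 fun k => (sC k).1.2 (Or.inl hx)
      have nv : ∀ x ∈ G.L j, Disjoint {G.an s} ({x} : Set (Vx J)) := fun x hx =>
        Set.disjoint_singleton.2 fun k => h.l_nk hx (k ▸ hK)
      refine (h.brg hs ps (Or.inl rfl)).k33s hR (A := {s}) (B := {s'})
        (C := G.T (G.an s) \ {G.an s} ∪ {G.xl (G.an s)}) (T := G.Cp j v) (E := {G.an s})
        (((((Set.finite_singleton _).union (Set.finite_singleton _)).union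
          (((h.t_fc _).1.subset fun u hu => hu.1).union (Set.finite_singleton _))).union fC).union
          (Set.finite_singleton _)) ?_ (isConn_single _) (isConn_single _) cD (cpv_conn v)
        (isConn_single _) (Set.disjoint_singleton.2 t2.2.symm)
        (Set.disjoint_singleton_left.2 (nD' s hs)) (Set.disjoint_singleton_left.2 (nD' s' hs'))
        (Set.disjoint_singleton_right.2 fun k => (sC k).2 hK)
        ⟨nC s hs, nC s' hs', Set.disjoint_right.2 ?_⟩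
        ⟨nv s hs, nv s' hs', Set.disjoint_singleton_left.2 ?_⟩
        ⟨tt t1, tt t2.1, let ⟨a, ha, e⟩ := hz; ⟨a, ha, z, hD, e.symm⟩⟩
        ⟨tt ⟨_, rfl, (h.aa j s hs ps).1⟩, tt ⟨_, rfl, k1 ▸ (h.aa j s' hs' ps').1⟩,
          let ⟨a, ha, e⟩ := nD; ⟨_, rfl, a, ha, e⟩⟩
        ⟨s, rfl, Or.inr hs⟩ ⟨s', rfl, Or.inr hs'⟩ ⟨_, Or.inr rfl, Or.inl hu⟩
      · rintro u ((((rfl | rfl) | k | rfl) | k) | rfl)
        exacts [Or.inr (Or.inl hs), Or.inr (Or.inl hs'), Or.inr (Or.inr (sT k.1)), Or.inl hu,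
          Or.inr (Or.inr (sC k).1), Or.inr (Or.inr (sT (t_self hK)))]
      · rintro u (k | rfl) c
        exacts [(sC c).2 k.1.1, l_not_u' hu (sC c).1.1]
      · rintro (k | k)
        exacts [k.2 rfl, h.l_nk hu (Set.mem_singleton_iff.1 k ▸ hK)]
    · refine fin s hs ps rfl fun x hx k => k.elim id fun k => ?_
      by_contra c
      exact t2 ⟨k ▸ hx, k ▸ c⟩
  · exact fin s' hs' ps' k1.symm fun x hx k => k.resolve_left fun k => t1 (k ▸ hx)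

theorem VFrm.in_adj (hN : G.NoV s s') {v z : Vx J} (hv : v ∈ G.In s s') (e : G.Γ.Adj v z) :
    z ∈ G.In s s' ∨ z ∈ G.Bt s s' ∨ z ∈ G.Top s s' :=
  (h.in_nb hs ps hs' ps' hN hv (cpv_nb e)).imp_left fun k => cl_cp hv (h.uw.lf j s hs ▸ k)

/-- the lower neighbours of an inner vertex of the top -/
theorem VFrm.top_nb (hN : G.NoV s s') {x z : Vx J} (hx : x ∈ G.L j) (l1 : G.ρ s < G.ρ x)
    (l2 : G.ρ x < G.ρ s') (e : G.Γ.Adj x z) :
    (z ∈ G.L j ∨ z ∈ G.U (j + 1)) ∨ z ∈ G.Bt s s' ∨ z ∈ G.In s s' := by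
  obtain ⟨h0, h1, h2⟩ := h.cl_btw hs ps hs' ps' (Or.inr rfl) (Or.inl rfl)
    (Or.inr (Or.inl ⟨hx, l1⟩)) (Or.inr (Or.inl ⟨hx, l2⟩)) e
  have key : z ∈ G.L (j - 1) ∨ z ∈ G.L j ∨ (z ∈ G.K ∧ G.f z = j) →
      (z ∈ G.L j ∨ z ∈ G.U (j + 1)) ∨ z ∈ G.Bt s s' ∨ z ∈ G.In s s' := fun k => by
    rcases h.mid hs ps hN k h1 h2 with c | c | c
    · exact Or.inr (Or.inl c)
    · exact Or.inl (Or.inl (h.uw.lf j s hs ▸ c.1))
    · exact absurd ⟨x, Or.inr rfl, e.symm⟩ (h.fan_x hs ps hs' ps' c.1 c.2.1 hx l1 l2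
        (Set.empty_subset _) Set.finite_empty (by simpa using isConn_single x) c.2.2)
  rcases h.toRows.l_nb hx e with k | k | k
  · exact key (Or.inl k)
  · by_cases c : z ∈ G.K
    · exact key (Or.inr (Or.inr ⟨c, h.toRows.st_lev (h.kst z c) k⟩))
    · refine Or.inr (Or.inr ?_)
      rw [VD.In, h.uw.lf j s hs]
      exact h0 ⟨k, c⟩
  · exact Or.inl k

/-- the upper neighbours of an inner vertex of the bottom interval -/
theorem VFrm.bot_nb (hN : G.NoV s s') {x z : Vx J} (hx : x ∈ G.L (j - 1))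
    (l1 : G.ρ (G.xr (G.an s)) < G.ρ x) (l2 : G.ρ x < G.ρ (G.xl (G.an s'))) (e : G.Γ.Adj x z)
    (hz : z ∈ G.U j) : z ∉ G.K ∧ (z ∈ G.In s s' ∨ z ∈ G.Top s s') := by
  obtain ⟨h0, h1, h2⟩ := h.cl_btw hs ps hs' ps' (Or.inr rfl) (Or.inl rfl)
    (Or.inl ⟨hx, l1⟩) (Or.inl ⟨hx, l2⟩) e
  have a0 := (h.feet hs ps).2.2
  have a0' := (h.feet hs' ps').2.2
  have nU : z ∉ G.U (j + 1) := fun k => by
    rcases h.toRows.u_nb k e.symm with c | c
    exacts [l_not_u' hx (h.toRows.l_u c), l_not_u' hx (h.uw.mono _ _ (by omega) c)]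
  have st : z ∉ G.L j → z ∈ G.St j := fun k => ⟨hz, fun c => c.elim k nU⟩
  have vx : ∀ t ∈ G.L j, t ∈ G.Pr → z ∈ G.T (G.an t) →
      G.ρ (G.xl (G.an t)) ≤ G.ρ x ∧ G.ρ x ≤ G.ρ (G.xr (G.an t)) := fun t ht pt k =>
    (h.vx _ (h.an_v ht pt k.2.1).1 z k x ((h.an_v ht pt k.2.1).2 ▸ hx) e.symm).2
  have nK : z ∉ G.K := by
    intro k
    rcases h.mid hs ps hN (Or.inr (Or.inr ⟨k, h.toRows.st_lev (h.kst z k)
      (st fun c => h.l_nk c k)⟩)) h1 h2 with (c | ⟨-, c | c | c⟩) | c | c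
    · have := vx s hs ps (c ▸ t_self (c ▸ k))
      omega
    · have := vx s hs ps c
      omega
    · have := vx s' hs' ps' c
      omega
    · exact h.l_nk c.1 k
    · exact h.l_nk c.1 k
    · rw [← c.1] at l2
      omega
  refine ⟨nK, ?_⟩
  by_cases c : z ∈ G.L j
  · exact Or.inr ⟨h.uw.lf j s hs ▸ c, not_lt.1 fun k => h1 (Or.inr (Or.inl ⟨c, k⟩)),
      not_lt.1 fun k => h2 (Or.inr (Or.inl ⟨c, k⟩))⟩
  · refine Or.inl ?_
    rw [VD.In, h.uw.lf j s hs]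
    exact h0 ⟨st c, nK⟩

/-- the sides of a cell miss its boundary -/
theorem VFrm.side_out (l : G.ρ s ≤ G.ρ s') {z : Vx J}
    (hz : G.Lf j (G.xr (G.an s)) s z ∨ G.Rg j (G.xl (G.an s')) s' z) :
    z ∉ G.Bt s s' ∧ z ∉ G.Top s s' := by
  have hR := h.toRows
  have fs := h.uw.lf j s hs
  have a1 := h.mono' hs ps hs' ps' l
  have nT : ∀ {p t}, G.Lf j p t z ∨ G.Rg j p t z → z ∉ G.T (G.an t) := by
    rintro p t ((a | a | a) | a | a | a) k
    exacts [h.l_nk a.1 k.1, h.l_nk a.1 k.1, a.2.2.1 k, h.l_nk a.1 k.1, h.l_nk a.1 k.1, a.2.2.1 k]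
  have n1 : z ∉ G.T (G.an s) :=
    hz.elim (fun k => nT (Or.inl k)) fun k => nT (Or.inr (h.rg_mono hs ps hs' ps' l le_rfl k))
  have n2 : z ∉ G.T (G.an s') :=
    hz.elim (fun k => nT (Or.inl (h.lf_mono hs ps hs' ps' l le_rfl k))) fun k => nT (Or.inr k)
  have lo : z ∈ G.L (j - 1) → G.ρ z < G.ρ (G.xr (G.an s)) ∨ G.ρ (G.xl (G.an s')) < G.ρ z := by
    intro k
    rcases hz with (a | a | a) | a | a | a
    exacts [Or.inl a.2, absurd (hR.l_u a.1) (l_not_u' k), absurd a.1 (h.l_nk k), Or.inr a.2,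
      absurd (hR.l_u a.1) (l_not_u' k), absurd a.1 (h.l_nk k)]
  constructor
  · rintro (rfl | ⟨-, k | k | k⟩)
    · have nK : G.an s ∉ G.K := fun k => n1 (t_self k)
      have := lo (h.an_l hs ps nK)
      rw [(h.xo _ nK).1] at a1
      rw [(h.xo _ nK).2] at this
      omega
    · exact n1 k
    · exact n2 k
    · have := lo (fs ▸ k.1)
      omega
  · rintro ⟨k, b1, b2⟩
    rw [fs] at k
    rcases hz with (a | a | a) | a | a | a
    exacts [l_not_u' a.1 (hR.l_u k), by omega, h.l_nk k a.1, l_not_u' a.1 (hR.l_u k), by omega,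
      h.l_nk k a.1]

end

end Pool.Agent.P.MP_08fd93_co.FZ
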