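import Pool.Agent.P.MP_08fd93_co.FZ.Stat

/-! The cell between two rungs under a family of caps is a disc. -/

set_option autoImplicit false

namespace Pool.Agent.P.MP_08fd93_co.FZ

open OV

/-- a finite connected part does not hang on a path that is touched by a connected set -/
theorem no_hang {W : Type} {H : SimpleGraph W} (hP : Pl H Set.univ) (hN : NJ H Set.univ)
    {T E Z : Set W} {σ : W → ℤ} {a b : W} (hT : Pth H T σ a b) (hf : E.Finite) (hne : E.Nonempty)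
    (hE : IsConn H E) (hb : Nb H E \ E ⊆ T) (hZ : IsConn H Z) (hZE : Disjoint Z E)
    (hZT : Disjoint Z T) (ht : T ⊆ Nb H Z) : False := by
  obtain ⟨h1, h2⟩ := att2 hP hN (Set.subset_univ _) hf hne hE hZ hZE (hZT.mono_right hb)
    (hb.trans ht)
  obtain ⟨r, hr, hm⟩ := Set.exists_max_image _ σ (hT.fin.subset hb) h1
  obtain ⟨y, hy, z, hz, hne, e1, e2⟩ := h2 r hr
  have l1 := hm y hy
  have l2 := hm z hz
  have l3 := hT.lt_or (hb hr) (hb hy) e1.ne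
  have l4 := hT.lt_or (hb hr) (hb hz) e2.ne
  exact hne (hT.dn_eq (hb hr) (hb hy) (hb hz) e1 e2 (by omega) (by omega))

variable {J : Type} {F : FD J} {Pr : Set (Vx J)} {j : ℤ} {O : Set (Un J)}

/-- A family of caps on the level line `j`. -/
structure Caps (F : FD J) (j : ℤ) (O : Set (Un J)) : Prop where
  hs : ∀ u ∈ O, u.s ∈ F.L j
  hs' : ∀ u ∈ O, u.s' ∈ F.L j
  cap : ∀ u ∈ O, Cap F ∅ u
  sep : ∀ u ∈ O, ∀ u' ∈ O, u ≠ u' → F.ρ u.s' ≤ F.ρ u'.s ∨ F.ρ u'.s' ≤ F.ρ u.s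
  nadj : ∀ u ∈ O, ∀ u' ∈ O, ¬ F.Γ.Adj u.x u'.x

/-- The pockets of a family of caps. -/
def capP (O : Set (Un J)) : Set (Vx J) := {v | ∃ u ∈ O, v ∈ u.pk}

/-- The apexes of a family of caps. -/
def capX (O : Set (Un J)) : Set (Vx J) := {v | ∃ u ∈ O, v = u.x}

theorem Caps.mono (h : Caps F j O) {O' : Set (Un J)} (hs : O' ⊆ O) : Caps F j O' :=
  ⟨fun u hu => h.hs u (hs hu), fun u hu => h.hs' u (hs hu), fun u hu => h.cap u (hs hu),
    fun u hu u' hu' => h.sep u (hs hu) u' (hs hu'), fun u hu u' hu' => h.nadj u (hs hu) u' (hs hu')⟩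

section One

variable {u u' : Un J}

theorem Caps.lt (h : Caps F j O) (hu : u ∈ O) : F.ρ u.s + 1 < F.ρ u.s' := (h.cap u hu).lt

theorem Caps.xu (h : Caps F j O) (hR : Rows F) (hu : u ∈ O) : u.x ∈ F.U (j + 1) := by
  have := (h.cap u hu).xu
  rwa [hR.uw.lf j _ (h.hs u hu)] at this

theorem Caps.xl (h : Caps F j O) (hR : Rows F) (hu : u ∈ O) : u.x ∉ F.L j :=
  fun k => k.2 (h.xu hR hu)

theorem Caps.xn (h : Caps F j O) (hR : Rows F) (hu : u ∈ O) {z : Vx J} (hz : z ∈ F.L j)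
    (e : F.Γ.Adj u.x z) : F.ρ u.s ≤ F.ρ z ∧ F.ρ z ≤ F.ρ u.s' :=
  ((h.cap u hu).xn z (by rwa [hR.uw.lf j _ (h.hs u hu)]) e).2

theorem Caps.old (h : Caps F j O) (hR : Rows F) (hu : u ∈ O) {z : Vx J} (hz : z ∈ F.L j) :
    z ∈ u.pk ↔ F.ρ u.s < F.ρ z ∧ F.ρ z < F.ρ u.s' :=
  (h.cap u hu).old z (by rwa [hR.uw.lf j _ (h.hs u hu)])

theorem Caps.sub (h : Caps F j O) (hR : Rows F) (hu : u ∈ O) {z : Vx J} (hz : z ∈ u.pk) :
    z ∈ F.L j ∨ z ∈ F.U (j + 1) := by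
  have := (h.cap u hu).sub hz
  rwa [hR.uw.lf j _ (h.hs u hu)] at this

theorem Caps.cl (h : Caps F j O) (hR : Rows F) (hu : u ∈ O) {v z : Vx J} (hv : v ∈ u.pk)
    (e : F.Γ.Adj v z) (hz : z ∈ F.L j ∨ z ∈ F.U (j + 1)) :
    z ∈ u.pk ∨ z = u.s ∨ z = u.x ∨ z = u.s' :=
  (h.cap u hu).cl v hv z e (by rwa [hR.uw.lf j _ (h.hs u hu)])

theorem Caps.x_inj (h : Caps F j O) (hR : Rows F) (hu : u ∈ O) (hu' : u' ∈ O) (e : u.x = u'.x) :
    u = u' := by
  by_contra hne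
  have a1 := h.sep u hu u' hu' hne
  have a2 := h.xn hR hu (h.hs u' hu') (e ▸ (h.cap u' hu').sx.symm)
  have a3 := h.xn hR hu (h.hs' u' hu') (e ▸ (h.cap u' hu').xs)
  have a4 := h.lt hu
  have a5 := h.lt hu'
  omega

theorem Caps.s_np (h : Caps F j O) (hR : Rows F) (hu : u ∈ O) :
    u.s ∉ capP O ∧ u.s' ∉ capP O := by
  have a4 := h.lt hu
  constructor
  all_goals
    rintro ⟨u', hu', k⟩
    first
      | have a1 := (h.old hR hu' (h.hs u hu)).1 k
      | have a1 := (h.old hR hu' (h.hs' u hu)).1 k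
    by_cases e : u = u'
    · subst e
      omega
    · have := h.sep u hu u' hu' e
      omega

theorem Caps.x_np (h : Caps F j O) (hR : Rows F) (hu : u ∈ O) : u.x ∉ capP O := by
  rintro ⟨u', hu', k⟩
  by_cases e : u = u'
  · subst e
    exact (h.cap u hu).xp k
  · have a1 := h.sep u hu u' hu' e
    have a4 := h.lt hu
    have a5 := h.lt hu'
    have key : ∀ z ∈ F.L j, F.Γ.Adj u.x z → F.ρ u'.s ≤ F.ρ z ∧ F.ρ z ≤ F.ρ u'.s' := by
      intro z hz ez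
      rcases h.cl hR hu' k ez (Or.inl hz) with c | c | c | c
      · have := (h.old hR hu' hz).1 c
        omega
      · rw [c]; omega
      · exact absurd (c ▸ hz) (h.xl hR hu')
      · rw [c]; omega
    have b1 := key _ (h.hs u hu) (h.cap u hu).sx.symm
    have b2 := key _ (h.hs' u hu) (h.cap u hu).xs
    omega

/-- different caps have disjoint pockets -/
theorem Caps.pk_dis (h : Caps F j O) (hR : Rows F) (hu : u ∈ O) (hu' : u' ∈ O) (hne : u ≠ u') :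
    Disjoint u.pk u'.pk := by
  have key : ∀ u ∈ O, ∀ u' ∈ O, u ≠ u' → F.ρ u.s' ≤ F.ρ u'.s → Disjoint u.pk u'.pk := by
    intro u hu u' hu' hne l
    have a4 := h.lt hu
    have a5 := h.lt hu'
    by_contra hc
    refine hR.nj (u.pk ∩ u'.pk) (Set.subset_univ _) ((h.cap u hu).fin.inter_of_left _)
      (Set.not_disjoint_iff_nonempty_inter.1 hc) u.s' u.s' (Or.inl rfl) ?_
    rintro z ⟨v, ⟨h1, h2⟩, e⟩
    have hv : v ∈ F.U (j + 1) := (h.sub hR hu h1).resolve_left fun k => by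
      have := (h.old hR hu k).1 h1
      have := (h.old hR hu' k).1 h2
      omega
    have hz := hR.u_nb hv e.symm
    rcases h.cl hR hu h1 e.symm hz with c | c | c | c
    · rcases h.cl hR hu' h2 e.symm hz with c' | c' | c' | c'
      · exact Or.inl ⟨c, c'⟩
      · exact absurd ⟨u, hu, c' ▸ c⟩ (h.s_np hR hu').1
      · exact absurd ⟨u, hu, c' ▸ c⟩ (h.x_np hR hu')
      · exact absurd ⟨u, hu, c' ▸ c⟩ (h.s_np hR hu').2
    · rcases h.cl hR hu' h2 e.symm hz with c' | c' | c' | c'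
      · exact absurd ⟨u', hu', c ▸ c'⟩ (h.s_np hR hu).1
      · rw [← c, c'] at a4; omega
      · exact absurd (c' ▸ c ▸ h.hs u hu) (h.xl hR hu')
      · rw [← c, c'] at a4; omega
    · rcases h.cl hR hu' h2 e.symm hz with c' | c' | c' | c'
      · exact absurd ⟨u', hu', c ▸ c'⟩ (h.x_np hR hu)
      · exact absurd (c ▸ c' ▸ h.hs u' hu') (h.xl hR hu)
      · exact absurd (h.x_inj hR hu hu' (c.symm.trans c')) hne
      · exact absurd (c ▸ c' ▸ h.hs' u' hu') (h.xl hR hu)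
    · exact Or.inr (Or.inl c)
  rcases h.sep u hu u' hu' hne with l | l
  exacts [key u hu u' hu' hne l, (key u' hu' u hu hne.symm l).symm]

end One

/-- The part below the skeleton: the lower part and what it reaches through the pockets. -/
def capLo (F : FD J) (j : ℤ) (O : Set (Un J)) : Set (Vx J) :=
  {v | ∃ b ∈ BL F.Γ F.f j, Conn F.Γ (BL F.Γ F.f j ∪ capP O) b v}

theorem capLo_conn (hR : Rows F) : IsConn F.Γ (capLo F j O) := by
  refine isConn_base (hR.blc j) (fun v hv => ⟨v, hv, Conn.rfl'⟩) ?_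
  rintro v ⟨b, hb, c⟩
  exact ⟨b, hb, (c.sub (S := capLo F j O) fun z hz => ⟨b, hb, hz⟩).symm⟩

theorem capLo_sub : capLo F j O ⊆ BL F.Γ F.f j ∪ capP O :=
  fun _ ⟨_, hb, c⟩ => c.mem (Or.inl hb)

theorem capLo_step {v z : Vx J} (hv : v ∈ capLo F j O) (hz : z ∈ capP O) (e : F.Γ.Adj v z) :
    z ∈ capLo F j O := by
  obtain ⟨b, hb, c⟩ := hv
  exact ⟨b, hb, c.snoc (c.mem (Or.inl hb)) (Or.inr hz) e⟩

theorem capLo_old (hR : Rows F) {v : Vx J} (hv : v ∈ F.L j) (hp : v ∈ capP O) :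
    v ∈ capLo F j O := by
  obtain ⟨b, hb, e⟩ := hR.tch j hv
  exact capLo_step ⟨b, hb, Conn.rfl'⟩ hp e.symm

/-- an apex touches the part of its pocket that contains the hidden level vertices -/
theorem Caps.x_lo (h : Caps F j O) (hR : Rows F) {u : Un J} (hu : u ∈ O) :
    ∃ z ∈ u.pk, z ∈ capLo F j O ∧ F.Γ.Adj u.x z := by
  by_contra hc
  have a4 := h.lt hu
  have hs := h.hs u hu
  have hs' := h.hs' u hu
  have mem : ∀ i, F.ρ u.s < i → i < F.ρ u.s' → F.l j i ∈ u.pk := fun i h1 h2 =>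
    (h.old hR hu (hR.l_mem j i)).2 (by rw [hR.rho]; exact ⟨h1, h2⟩)
  have m0 := mem (F.ρ u.s + 1) (by omega) a4
  set B : Set (Vx J) := {y | Conn F.Γ u.pk (F.l j (F.ρ u.s + 1)) y} with hB
  have sB : B ⊆ u.pk := fun y hy => Conn.mem hy m0
  have lB : B ⊆ capLo F j O := fun y hy => Conn.ind (p := fun z => z ∈ capLo F j O) hy
    (capLo_old hR (hR.l_mem _ _) ⟨u, hu, m0⟩) fun a b _ hb e ha => capLo_step ha ⟨u, hu, hb⟩ e
  have nb : ∀ z, z ∈ F.L j ∨ z ∈ F.U (j + 1) → z ∉ BL F.Γ F.f j := fun z hz k => k hz.symm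
  have m1 : F.l j (F.ρ u.s' - 1) ∈ B := by
    refine (hR.seg_conn j (p := fun i => F.ρ u.s < i ∧ i < F.ρ u.s')
      (fun _ _ _ _ _ _ _ => by omega) _ ⟨hR.l_mem _ _, by rw [hR.rho]; omega⟩ _
      ⟨hR.l_mem _ _, by rw [hR.rho]; omega⟩).up fun z hz => (h.old hR hu hz.1).2 hz.2
  have o1 : u.s ∉ BL F.Γ F.f j ∪ B := fun k =>
    k.elim (nb _ (Or.inl hs)) fun k => (h.s_np hR hu).1 ⟨u, hu, sB k⟩
  have o2 : u.s' ∉ BL F.Γ F.f j ∪ B := fun k =>
    k.elim (nb _ (Or.inl hs')) fun k => (h.s_np hR hu).2 ⟨u, hu, sB k⟩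
  have o3 : u.x ∉ BL F.Γ F.f j ∪ B := fun k =>
    k.elim (nb _ (Or.inr (h.xu hR hu))) fun k => (h.cap u hu).xp (sB k)
  have c := tim hR.pl (Set.disjoint_right.2 fun z hz => nb z (h.sub hR hu (sB hz))) (hR.blc j)
    (isConn_comp _ _) ((h.cap u hu).fin.subset sB)
    ⟨_, Conn.rfl', (hR.adj_iff hs (hR.l_mem _ _)).2 (by rw [hR.rho]; omega)⟩
    ⟨_, m1, (hR.adj_iff hs' (hR.l_mem _ _)).2 (by rw [hR.rho]; omega)⟩ o1
    ((Conn.step o1 o3 (h.cap u hu).sx).snoc o3 o2 (h.cap u hu).xs)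
  obtain ⟨z, ⟨⟨y, hy, ey⟩, hz⟩, e⟩ := c.first (by rintro k; rw [k] at a4; omega)
  have hz1 : z ∈ F.L j ∨ z ∈ F.U (j + 1) := by
    by_contra k
    exact hz (Or.inl fun k' => k k'.symm)
  rcases h.cl hR hu (sB hy) ey.symm hz1 with k | k | k | k
  · exact hz (Or.inr (Conn.snoc hy (sB hy) k ey.symm))
  · exact e.ne k.symm
  · exact hc ⟨y, sB hy, lB hy, k ▸ ey⟩
  · rw [k, hR.adj_iff hs hs'] at e
    omega

/-- The top path of the cell. -/
def mT (F : FD J) (s s' : Vx J) (O : Set (Un J)) : Set (Vx J) := (F.Top s s' \ capP O) ∪ capX O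

/-- The interior of the cell. -/
def mI (F : FD J) (s s' : Vx J) (O : Set (Un J)) : Set (Vx J) := capP O ∪ F.SI s s'

/-- The cell between the rungs at `s` and `s'` under the caps `O`, ordered by `σ`. -/
def mcell (F : FD J) (s s' : Vx J) (O : Set (Un J)) (σ : Vx J → ℤ) : DD (Vx J) :=
  ⟨(F.Bot s s' ∪ mT F s s' O ∪ mI F s s' O)ᶜ, F.Bot s s', mT F s s' O, σ, F.an s, F.an s', s, s'⟩

/-- The order of the cell. -/
structure COrd (F : FD J) (j : ℤ) (O : Set (Un J)) (σ : Vx J → ℤ) : Prop where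
  old : ∀ v, v ∉ capX O → σ v = F.ρ v
  new : ∀ u ∈ O, σ u.x = F.ρ u.s + 1

theorem Caps.ord (h : Caps F j O) (hR : Rows F) : ∃ σ, COrd F j O σ := by
  classical
  refine ⟨fun v => if k : v ∈ capX O then F.ρ k.choose.s + 1 else F.ρ v, fun v hv => dif_neg hv,
    fun u hu => ?_⟩
  have k : u.x ∈ capX O := ⟨u, hu, rfl⟩
  rw [dif_pos k, ← h.x_inj hR hu k.choose_spec.1 k.choose_spec.2]

variable {s s' : Vx J} {σ : Vx J → ℤ}

theorem COrd.l (ho : COrd F j O σ) (h : Caps F j O) (hR : Rows F) {v : Vx J}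
    (hv : v ∉ F.U (j + 1)) : σ v = F.ρ v :=
  ho.old v fun ⟨_, hu, e⟩ => hv (e ▸ h.xu hR hu)

theorem Caps.mT_s (h : Caps F j O) (hR : Rows F) (hs : s ∈ F.L j)
    (ins : ∀ u ∈ O, F.ρ s ≤ F.ρ u.s ∧ F.ρ u.s' ≤ F.ρ s') {u : Un J} (hu : u ∈ O) :
    u.s ∈ mT F s s' O ∧ u.x ∈ mT F s s' O ∧ u.s' ∈ mT F s s' O := by
  have a := h.lt hu
  have b := ins u hu
  have e := hR.uw.lf j s hs
  exact ⟨Or.inl ⟨⟨e ▸ h.hs u hu, by omega, by omega⟩, (h.s_np hR hu).1⟩, Or.inr ⟨u, hu, rfl⟩,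
    Or.inl ⟨⟨e ▸ h.hs' u hu, by omega, by omega⟩, (h.s_np hR hu).2⟩⟩

theorem Caps.mT_pth (h : Caps F j O) (hR : Rows F) (ho : COrd F j O σ) (hs : s ∈ F.L j)
    (hs' : s' ∈ F.L j) (l : F.ρ s ≤ F.ρ s')
    (ins : ∀ u ∈ O, F.ρ s ≤ F.ρ u.s ∧ F.ρ u.s' ≤ F.ρ s') : Pth F.Γ (mT F s s' O) σ s s' := by
  have ef := hR.uw.lf j s hs
  have val : ∀ v ∈ mT F s s' O, (v ∈ F.L j ∧ σ v = F.ρ v ∧ F.ρ s ≤ F.ρ v ∧ F.ρ v ≤ F.ρ s' ∧
      ∀ u ∈ O, F.ρ v ≤ F.ρ u.s ∨ F.ρ u.s' ≤ F.ρ v) ∨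
      ∃ u ∈ O, v = u.x ∧ σ v = F.ρ u.s + 1 := by
    rintro v (⟨h1, h2⟩ | ⟨u, hu, rfl⟩)
    · have hv : v ∈ F.L j := ef ▸ h1.1
      refine Or.inl ⟨hv, ho.l h hR hv.2, h1.2.1, h1.2.2, fun u hu => ?_⟩
      have := mt (h.old hR hu hv).2 fun k => h2 ⟨u, hu, k⟩
      omega
    · exact Or.inr ⟨u, hu, rfl, ho.new u hu⟩
  have r1 := ho.l h hR hs.2
  have r2 := ho.l h hR hs'.2
  have vis : ∀ v ∈ F.L j, F.ρ s ≤ F.ρ v → F.ρ v ≤ F.ρ s' → v ∉ capP O → v ∈ mT F s s' O :=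
    fun v hv l1 l2 k => Or.inl ⟨⟨ef ▸ hv, l1, l2⟩, k⟩
  have fO : O.Finite := by
    refine Set.Finite.of_finite_image (f := fun u => F.ρ u.s)
      ((Set.finite_Icc (F.ρ s) (F.ρ s')).subset ?_) fun u hu u' hu' e => ?_
    · rintro _ ⟨u, hu, rfl⟩
      have := ins u hu
      have := h.lt hu
      exact ⟨by beta_reduce; omega, by beta_reduce; omega⟩
    · by_contra hne
      have := h.sep u hu u' hu' hne
      have := h.lt hu
      have := h.lt hu'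
      beta_reduce at e
      omega
  refine ⟨((hR.seg_fin _ _ _).subset fun v hv => hv.1).union ((fO.image Un.x).subset ?_),
    vis s hs le_rfl l ?_, vis s' hs' l le_rfl ?_, fun v hv => ?_, fun v hv => ?_,
    fun v hv v' hv' e => ?_, fun v hv v' hv' lt => ?_⟩
  · rintro _ ⟨u, hu, rfl⟩
    exact ⟨u, hu, rfl⟩
  · rintro ⟨u, hu, k⟩
    have := (h.old hR hu hs).1 k
    have := ins u hu
    omega
  · rintro ⟨u, hu, k⟩
    have := (h.old hR hu hs').1 k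
    have := ins u hu
    omega
  · rcases val v hv with k | ⟨u, hu, -, k⟩
    · omega
    · have := ins u hu
      omega
  · rcases val v hv with k | ⟨u, hu, -, k⟩
    · omega
    · have := ins u hu
      have := h.lt hu
      omega
  · rcases val v hv with k | ⟨u, hu, e1, k⟩ <;> rcases val v' hv' with k' | ⟨u', hu', e1', k'⟩
    · exact hR.inj k.1 k'.1 (by omega)
    · have := k.2.2.2.2 u' hu'
      have := h.lt hu'
      omega
    · have := k'.2.2.2.2 u hu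
      have := h.lt hu
      omega
    · by_contra hne
      have := h.sep u hu u' hu' (by rintro rfl; exact hne (e1.trans e1'.symm))
      have := h.lt hu
      have := h.lt hu'
      omega
  · rcases val v hv with k | ⟨u, hu, e1, k⟩ <;> rcases val v' hv' with k' | ⟨u', hu', e1', k'⟩
    · rw [hR.adj_iff k.1 k'.1]
      refine ⟨fun e x _ => by omega, fun e => ?_⟩
      by_contra hc
      by_cases c : F.l j (F.ρ v + 1) ∈ capP O
      · obtain ⟨u, hu, c⟩ := c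
        have a1 := (h.old hR hu (hR.l_mem _ _)).1 c
        rw [hR.rho] at a1
        have a2 := k.2.2.2.2 u hu
        have a3 := e _ (h.mT_s hR hs ins hu).2.1
        rw [ho.new u hu] at a3
        omega
      · have a3 := e _ (vis _ (hR.l_mem j (F.ρ v + 1)) (by rw [hR.rho]; omega)
          (by rw [hR.rho]; omega) c)
        rw [ho.l h hR (hR.l_mem _ _).2, hR.rho] at a3
        omega
    · refine ⟨fun e x _ => ?_, fun e => ?_⟩
      · have := h.xn hR hu' k.1 (e1' ▸ e.symm)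
        omega
      · have a3 := e _ (h.mT_s hR hs ins hu').1
        rw [ho.l h hR (h.hs u' hu').2] at a3
        rw [hR.inj k.1 (h.hs u' hu') (by omega), e1']
        exact (h.cap u' hu').sx
    · have a1 := k'.2.2.2.2 u hu
      have a2 := h.lt hu
      refine ⟨fun e x hx => ?_, fun e => ?_⟩
      · have := h.xn hR hu k'.1 (e1 ▸ e)
        rcases val x hx with c | ⟨u', hu', -, c⟩
        · have := c.2.2.2.2 u hu
          omega
        · by_cases c' : u = u'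
          · subst c'
            omega
          · have := h.sep u hu u' hu' c'
            have := h.lt hu'
            omega
      · have a3 := e _ (h.mT_s hR hs ins hu).2.2
        rw [ho.l h hR (h.hs' u hu).2] at a3
        rw [hR.inj k'.1 (h.hs' u hu) (by omega), e1]
        exact (h.cap u hu).xs
    · refine ⟨fun e => absurd (e1 ▸ e1' ▸ e) (h.nadj u hu u' hu'), fun e => ?_⟩
      have a3 := e _ (h.mT_s hR hs ins hu).2.2
      rw [ho.l h hR (h.hs' u hu).2] at a3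
      have := h.sep u hu u' hu' (by rintro rfl; omega)
      have := h.lt hu
      have := h.lt hu'
      omega

theorem Caps.mT_up (h : Caps F j O) (hR : Rows F) (hs : s ∈ F.L j) {v : Vx J}
    (hv : v ∈ mT F s s' O) : (v ∈ F.L j ∨ v ∈ F.U (j + 1)) ∧ v ∉ capP O := by
  rcases hv with ⟨h1, h2⟩ | ⟨u, hu, rfl⟩
  · exact ⟨Or.inl (hR.uw.lf j s hs ▸ h1.1), h2⟩
  · exact ⟨Or.inr (h.xu hR hu), h.x_np hR hu⟩

theorem Caps.mT_lo (h : Caps F j O) (hR : Rows F) (hs : s ∈ F.L j) :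
    Disjoint (capLo F j O) (mT F s s' O) ∧ mT F s s' O ⊆ Nb F.Γ (capLo F j O) := by
  refine ⟨Set.disjoint_left.2 fun v hv k => ?_, ?_⟩
  · have := h.mT_up hR hs k
    exact (capLo_sub hv).elim (fun c => c this.1.symm) this.2
  · rintro v (⟨h1, -⟩ | ⟨u, hu, rfl⟩)
    · obtain ⟨b, hb, e⟩ := hR.tch j (hR.uw.lf j s hs ▸ h1.1)
      exact ⟨b, ⟨b, hb, Conn.rfl'⟩, e⟩
    · obtain ⟨z, -, hz, e⟩ := h.x_lo hR hu
      exact ⟨z, hz, e⟩

/-- neighbours of pocket vertices on or above the line -/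
theorem Caps.p_nb (h : Caps F j O) (hR : Rows F) (hs : s ∈ F.L j)
    (ins : ∀ u ∈ O, F.ρ s ≤ F.ρ u.s ∧ F.ρ u.s' ≤ F.ρ s') {v z : Vx J} (hv : v ∈ capP O)
    (e : F.Γ.Adj v z) (hz : z ∈ F.L j ∨ z ∈ F.U (j + 1)) : z ∈ capP O ∨ z ∈ mT F s s' O := by
  obtain ⟨u, hu, hv⟩ := hv
  have t := h.mT_s hR hs ins hu
  rcases h.cl hR hu hv e hz with k | rfl | rfl | rfl
  exacts [Or.inl ⟨u, hu, k⟩, Or.inr t.1, Or.inr t.2.1, Or.inr t.2.2]

end Pool.Agent.P.MP_08fd93_co.FZ
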