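import Pool.Agent.P.MP_08fd93_co.FZ.VI
import Pool.Agent.P.MP_08fd93_co.FZ.Caps
import Pool.Agent.P.MP_08fd93_co.FR.Sig
import Pool.Agent.P.MP_08fd93_co.OV.PkKer

/-! Depth one: the frame with the raised root and the frame of a long root. -/

set_option autoImplicit false

namespace Pool.Agent.P.MP_08fd93_co.FZ

open OV FR

variable {J : Type} {Γ : SimpleGraph (Vx J)} {η : ℤ × ℤ →+ ℤ} {f : Vx J → ℤ} {v x y x0 : Vx J}
  {w : ℤ × ℤ} {an : Vx J → Vx J}

theorem orb_eq (e : x.1 = v.1) : x = tr (x.2 - v.2) v := by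
  obtain ⟨a, b⟩ := x
  obtain ⟨c, d⟩ := v
  simp only [tr] at e ⊢
  simp [e]

theorem orb_neg (e : x.1 = v.1) : tr (-(x.2 - v.2)) x = v := by
  obtain ⟨a, b⟩ := x
  obtain ⟨c, d⟩ := v
  simp only [tr] at e ⊢
  simp [e]

theorem tr_sub (a : ℤ × ℤ) (x v y : Vx J) : tr ((tr a x).2 - v.2) y = tr a (tr (x.2 - v.2) y) := by
  rw [tr_tr, tr_snd]
  congr 1
  abel

open Classical in
/-- The height with the translates of `v` raised by one. -/
noncomputable def rais (f : Vx J → ℤ) (v : Vx J) (x : Vx J) : ℤ :=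
  if x.1 = v.1 then f x + 1 else f x

theorem rais_k (e : x.1 = v.1) : rais f v x = f x + 1 := if_pos e

theorem rais_n (e : x.1 ≠ v.1) : rais f v x = f x := if_neg e

theorem rais_ge (x : Vx J) : f x ≤ rais f v x := by
  unfold rais
  split_ifs <;> omega

theorem uu_rais {j : ℤ} (hx : x ∈ UU Γ f j) : x ∈ UU Γ (rais f v) j := fun t =>
  let ⟨y, hy, c⟩ := hx t
  ⟨y, hy.trans (rais_ge y), c.up fun u hu => le_trans hu (rais_ge u)⟩

/-- the neighbours of a translate of the root -/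
theorem k_nb (R : RH Γ η v f) (e : x.1 = v.1) (a : Γ.Adj x y) :
    y.1 ≠ v.1 ∧ (f y = f x ∨ f y = f x + 1) := by
  have e1 := orb_eq e
  have a1 := R.d1.fine.inv (-(x.2 - v.2)) _ _ a
  rw [orb_neg e] at a1
  have h1 := R.per (-(x.2 - v.2)) y
  have h2 := R.per (x.2 - v.2) v
  rw [← e1, R.root] at h2
  rw [map_neg] at h1
  refine ⟨fun k => R.ntr a1 _ (orb_eq k), ?_⟩
  rcases R.nb a1 with k | k <;> omega

/-- a translate of the root has a flat neighbour with a parent -/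
theorem k_flat (R : RH Γ η v f) (s : Sg Γ η x0 v) (e : x.1 = v.1) :
    ∃ y, Γ.Adj x y ∧ f y = f x ∧ y.1 ≠ v.1 := by
  have a := R.d1.fine.inv (x.2 - v.2) _ _ s.1.symm
  have h2 := R.per (x.2 - v.2) v
  rw [← orb_eq e] at a h2
  exact ⟨_, a, by rw [R.per, R.inn s, h2, R.root], (k_nb R e a).1⟩

theorem n_par (R : RH Γ η v f) (e : x.1 ≠ v.1) : Hp Γ f x :=
  (R.par x).resolve_right fun ⟨_, k⟩ => e (k ▸ rfl)

theorem rais_per (R : RH Γ η v f) (a : ℤ × ℤ) (x : Vx J) :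
    rais f v (tr a x) = rais f v x + η a := by
  by_cases e : x.1 = v.1
  · rw [rais_k e, rais_k (x := tr a x) e, R.per]
    ring
  · rw [rais_n e, rais_n (x := tr a x) e, R.per]

theorem k_hp (R : RH Γ η v f) (s : Sg Γ η x0 v) (e : x.1 = v.1) : Hp Γ (rais f v) x := by
  obtain ⟨y, a, h1, h2⟩ := k_flat R s e
  exact ⟨y, a, by rw [rais_n h2, rais_k e]; omega⟩

/-- a vertex without a parent in the raised height is a child of a translate of the root -/
theorem pure_nb (R : RH Γ η v f) (s : Sg Γ η x0 v) (h : ¬ Hp Γ (rais f v) x) :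
    x.1 ≠ v.1 ∧ ∃ p, Γ.Adj x p ∧ p.1 = v.1 ∧ rais f v p = rais f v x := by
  have e : x.1 ≠ v.1 := fun k => h (k_hp R s k)
  obtain ⟨p, a, hp⟩ := n_par R e
  by_cases c : p.1 = v.1
  · exact ⟨e, p, a, c, by rw [rais_k c, rais_n e]; omega⟩
  · exact absurd ⟨p, a, by rw [rais_n c, rais_n e, hp]⟩ h

theorem ker_ex (R : RH Γ η v f) (s : Sg Γ η x0 v) :
    (∃ w : ℤ × ℤ, w ≠ 0 ∧ ∀ a, η a = 0 ↔ ∃ k : ℤ, a = k • w) ∧ ∃ b, 0 < η b ∧ ∀ a, η b ∣ η a := by
  obtain ⟨e, b, hb⟩ := s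
  exact pk_Ker η ⟨b, by have := (R.d1.wit e hb).2; omega⟩

theorem wp_rais (R : RH Γ η v f) (s : Sg Γ η x0 v) (ev : ∀ a, Even (η a)) :
    ∃ w, WP Γ η (rais f v) w := by
  obtain ⟨⟨w, w0, hw⟩, gen⟩ := ker_ex R s
  refine ⟨w, R.d1.fine, ev, rais_per R, fun x y a => ?_, w0, hw, gen, fun x => ?_⟩
  · by_cases e : y.1 = v.1
    · have := k_nb R e a.symm
      rw [rais_k e, rais_n this.1]
      omega
    · have := R.lip x y a
      have := rais_ge (f := f) (v := v) x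
      rw [rais_n e]
      omega
  · by_cases h : Hp Γ (rais f v) x
    · obtain ⟨y, a, hy⟩ := h
      exact ⟨y, by omega, Conn.step (le_refl (rais f v x)) (by show rais f v y ≤ _; omega) a⟩
    · obtain ⟨-, p, a, e, hp⟩ := pure_nb R s h
      obtain ⟨y, a', hy⟩ := k_hp R s e
      exact ⟨y, by omega, (Conn.step (A := {z | rais f v z ≤ rais f v x}) (le_refl (rais f v x))
        hp.le a).snoc hp.le (by show rais f v y ≤ _; omega) a'⟩

/-- a raised root is not on a level line -/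
theorem k_nl (R : RH Γ η v f) (hU : UW Γ η (rais f v) w) (e : x.1 = v.1) (j : ℤ) :
    x ∉ LL Γ (rais f v) j := by
  intro h
  have h1 := hU.lf j x h
  obtain ⟨y, hy, a⟩ := h.1
  have h2 := hU.ge _ _ hy
  have h3 := k_nb R e a
  rw [rais_k e] at h1
  rw [rais_n h3.1] at h2
  omega

theorem tch_rais (R : RH Γ η v f) (s : Sg Γ η x0 v) (hU : UW Γ η (rais f v) w) :
    Tch Γ (rais f v) := by
  intro j x hx
  by_cases h : Hp Γ (rais f v) x
  · exact tch_of_hp hU hx h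
  · obtain ⟨-, p, a, e, hp⟩ := pure_nb R s h
    obtain ⟨y, a', hy⟩ := k_hp R s e
    have h1 := hU.lf j x hx
    refine ⟨p, hU.lw_step (low_lw (x := y) (by omega)) ?_ a'.symm, a⟩
    rintro (k | k)
    · have := hU.ge _ _ k
      omega
    · exact k_nl R hU e j k

/-- Parent maps for the raised height. -/
structure An1 (Γ : SimpleGraph (Vx J)) (f : Vx J → ℤ) (v : Vx J) (an : Vx J → Vx J) : Prop where
  atr : ∀ a x, an (tr a x) = tr a (an x)
  adj : ∀ x, Γ.Adj x (an x)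
  alt : ∀ x, rais f v (an x) = rais f v x - 1 ∨
    (¬ Hp Γ (rais f v) x ∧ (an x).1 = v.1 ∧ rais f v (an x) = rais f v x)

theorem exists_an1 (R : RH Γ η v f) (s : Sg Γ η x0 v) : ∃ an, An1 Γ f v an := by
  obtain ⟨an, h1, h2⟩ := eqv_choice (fun x y => Γ.Adj x y ∧ (rais f v y = rais f v x - 1 ∨
    (¬ Hp Γ (rais f v) x ∧ y.1 = v.1 ∧ rais f v y = rais f v x))) fun a x y hh =>
    ⟨R.d1.fine.inv a _ _ hh.1, by
      rw [rais_per R, rais_per R, Hp.tr R.d1.fine (rais_per R)]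
      exact hh.2.imp (fun k => by omega) fun k => ⟨k.1, k.2.1, by omega⟩⟩
  have ex : ∀ x, ∃ y, Γ.Adj x y ∧ (rais f v y = rais f v x - 1 ∨
      (¬ Hp Γ (rais f v) x ∧ y.1 = v.1 ∧ rais f v y = rais f v x)) := by
    intro x
    by_cases h : Hp Γ (rais f v) x
    · obtain ⟨y, a, hy⟩ := h
      exact ⟨y, a, Or.inl hy⟩
    · obtain ⟨-, p, a, e, hp⟩ := pure_nb R s h
      exact ⟨p, a, Or.inr ⟨h, e, hp⟩⟩
  exact ⟨an, h1, fun x => (h2 x (ex x)).1, fun x => (h2 x (ex x)).2⟩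

/-- the root has a child without parent on the line above -/
theorem child_ex [Fintype J] (R : RH Γ η v f) (hU : UW Γ η (rais f v) w) (A : An1 Γ f v an) :
    ∃ y ∈ LL Γ (rais f v) 1, an y = v := by
  obtain ⟨x, hx⟩ := hU.lne 0
  obtain ⟨n, -, h1, h2⟩ := chain_end (Pr := {x | rais f v (an x) = rais f v x - 1}) (an := an)
    R.d1.fine (rais_per R) (fun x a ha => by have := R.d1.sl x a ha; omega)
    (fun x hx => ⟨A.adj x, hx⟩) x
  have key : ∀ i, i ≤ n → ∃ j, an^[i] x ∈ LL Γ (rais f v) j := by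
    intro i
    induction i with
    | zero => exact fun _ => ⟨0, hx⟩
    | succ i ih =>
      intro hi
      obtain ⟨j, hj⟩ := ih (by omega)
      rw [Function.iterate_succ_apply']
      have e : rais f v (an _) = _ := h1 i (by omega)
      exact ⟨j - 1, hU.lan j _ (hU.lu j hj) _ (A.adj _) (by have := hU.lf j _ hj; omega)⟩
  obtain ⟨j, hj⟩ := key n le_rfl
  obtain ⟨-, e, e'⟩ := (A.alt (an^[n] x)).resolve_left h2
  set z := an^[n] x
  have e1 : an (tr (-((an z).2 - v.2)) z) = v := by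
    rw [A.atr, orb_neg e]
  refine ⟨_, ?_, e1⟩
  have h3 := (hU.ltr (-((an z).2 - v.2)) j z).2 hj
  have h4 := rais_per R (-((an z).2 - v.2)) (an z)
  rw [← A.atr, e1, rais_k rfl, R.root, e', hU.lf j z hj] at h4
  rwa [← h4] at h3

/-- The frame with the raised root `v`. -/
structure Fr1 (Γ : SimpleGraph (Vx J)) (η : ℤ × ℤ →+ ℤ) (f : Vx J → ℤ) (v : Vx J)
    (an : Vx J → Vx J) (G : VD J) : Prop where
  vf : VFrm G
  eΓ : G.Γ = Γ
  eη : G.η = η
  ef : G.f = rais f v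
  ea : G.an = an
  eP : G.Pr = Set.univ
  eK : ∀ x, x ∈ G.K ↔ x.1 = v.1
  eT : ∀ u ∈ G.K, G.T u = {u}
  eV : ∀ u ∈ G.K, u ∈ G.V
  eb : ∀ u, G.bt u = u

theorem exists_fr1 [Fintype J] (hJ : Nonempty J) (hL : NL Γ) (hN : NJ Γ Set.univ)
    (ev : ∀ a, Even (η a)) (R : RH Γ η v f) (s : Sg Γ η x0 v) (A : An1 Γ f v an) :
    ∃ G, Fr1 Γ η f v an G := by
  classical
  obtain ⟨w, hP⟩ := wp_rais R s ev
  have hU := hP.uw hJ
  obtain ⟨l, ρ, nn, hR⟩ := exists_rows hP hU hL hN (tch_rais R s hU)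
  have hR := hR an
  obtain ⟨y, hy, ay⟩ := child_ex R hU A
  have fv : rais f v v = 1 := by rw [rais_k rfl, R.root]; rfl
  have fk : ∀ u : Vx J, u.1 = v.1 → rais f v u = 1 + η (u.2 - v.2) := fun u hu => by
    conv_lhs => rw [orb_eq hu]
    rw [rais_per R, fv]
  have vU : v ∈ UU Γ (rais f v) 1 := hU.cl 1 y (hU.lu 1 hy) v (ay ▸ A.adj y) fv.ge
  have x0L : x0 ∈ LL Γ (rais f v) 0 := by
    have := hU.lan 1 v vU x0 s.1.symm (by rw [rais_n (k_nb R rfl s.1.symm).1, R.inn s]; omega)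
    simpa using this
  have fin : {z | z ∈ LL Γ (rais f v) 0 ∧ Γ.Adj v z}.Finite :=
    (R.d1.fine.lf v).subset fun z hz => hz.2
  obtain ⟨p, hp, mp⟩ := Set.exists_min_image _ ρ fin ⟨x0, x0L, s.1.symm⟩
  obtain ⟨q, hq, mq⟩ := Set.exists_max_image _ ρ fin ⟨x0, x0L, s.1.symm⟩
  set G : VD J := ⟨⟨Γ, η, rais f v, an, w, l, ρ, nn⟩, Set.univ, {x | x.1 = v.1},
    fun x => tr (x.2 - v.2) y, id, fun x => if x.1 = v.1 then tr (x.2 - v.2) p else x,
    fun x => if x.1 = v.1 then tr (x.2 - v.2) q else x, fun _ => 0⟩ with hG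
  have ac : ∀ u : Vx J, u.1 = v.1 → an (tr (u.2 - v.2) y) = u := fun u hu => by
    rw [A.atr, ay, ← orb_eq hu]
  have eT : ∀ u ∈ G.K, G.T u = {u} := by
    intro u hu
    ext z
    refine ⟨fun k => ?_, by rintro rfl; exact t_self hu⟩
    have := congrArg an k.2.2
    rwa [show G.ch z = tr (z.2 - v.2) y from rfl, show G.ch u = tr (u.2 - v.2) y from rfl,
      ac z k.1, ac u hu] at this
  have ft : ∀ u : Vx J, u.1 = v.1 → ∀ r, r ∈ LL Γ (rais f v) 0 ∧ Γ.Adj v r →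
      tr (u.2 - v.2) r ∈ LL Γ (rais f v) (rais f v u - 1) ∧ Γ.Adj u (tr (u.2 - v.2) r) := by
    intro u hu r hr
    refine ⟨?_, ?_⟩
    · have := (hU.ltr (u.2 - v.2) 0 r).2 hr.1
      rwa [fk u hu, show 1 + η (u.2 - v.2) - 1 = 0 + η (u.2 - v.2) by ring]
    · have := R.d1.fine.inv (u.2 - v.2) _ _ hr.2
      rwa [← orb_eq hu] at this
  have eq : ∀ (r : Vx J) a (x : Vx J), (if (tr a x).1 = v.1 then tr ((tr a x).2 - v.2) r
      else tr a x) = tr a (if x.1 = v.1 then tr (x.2 - v.2) r else x) := by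
    intro r a x
    by_cases c : x.1 = v.1
    · rw [if_pos c, if_pos (show (tr a x).1 = v.1 from c), tr_sub]
    · rw [if_neg c, if_neg (show ¬ (tr a x).1 = v.1 from c)]
  refine ⟨G, ⟨hR, A.atr, fun _ _ _ => trivial, fun a u hu => hu,
    fun a x => ⟨eq p a x, eq q a x, tr_sub a x v y⟩, fun u hu => ?_,
    fun u hu u' hu' a => absurd hu' (k_nb R hu a).1, fun u hu => ⟨?_, trivial, ?_⟩,
    fun u hu => ?_, fun u hu => ⟨if_neg hu, if_neg hu⟩, fun u hu => ?_, fun u hu => ?_,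
    fun u hu u' hu' z hz a => ?_, fun j x hx _ => ⟨A.adj x, ?_⟩, fun j x hx _ hK => ?_,
    fun j => ⟨_, hR.l_mem j 0, trivial⟩⟩, rfl, rfl, rfl, rfl, rfl, fun _ => Iff.rfl, eT,
    fun u hu => ⟨hu, ac u hu⟩, fun _ => rfl⟩
  · refine ⟨?_, ?_⟩
    · have := (hU.utr (u.2 - v.2) 1 v).2 vU
      rwa [← orb_eq hu, ← fk u hu] at this
    · rintro (k | k)
      · exact k_nl R hU hu _ k
      · have := hU.ge _ _ k
        exact absurd this (by show ¬ rais f v u + 1 ≤ _; omega)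
  · have := (hU.ltr (u.2 - v.2) 1 y).2 hy
    rwa [← fk u hu] at this
  · show an (tr (u.2 - v.2) y) ∈ G.T u
    rw [ac u hu]
    exact t_self hu
  · rw [eT u hu.1]
    exact Pth.single _ _
  · show (if _ then _ else _) ∈ _ ∧ Γ.Adj u (if _ then _ else _)
    rw [if_pos (show u.1 = v.1 from hu.1)]
    exact ft u hu.1 p hp
  · show (if _ then _ else _) ∈ _ ∧ Γ.Adj u (if _ then _ else _)
    rw [if_pos (show u.1 = v.1 from hu.1)]
    exact ft u hu.1 q hq
  · rw [eT u hu.1] at hu'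
    obtain rfl : u' = u := hu'
    have e : u'.1 = v.1 := hu.1
    refine ⟨rfl, ?_⟩
    show ρ (if _ then _ else _) ≤ ρ z ∧ ρ z ≤ ρ (if _ then _ else _)
    rw [if_pos e, if_pos e]
    obtain ⟨κ, hκ⟩ := hR.rho_tr (u'.2 - v.2) 0
    have hz' : z ∈ LL Γ (rais f v) (rais f v u' - 1) := hz
    have m : tr (-(u'.2 - v.2)) z ∈ LL Γ (rais f v) 0 ∧ Γ.Adj v (tr (-(u'.2 - v.2)) z) := by
      constructor
      · rw [← hU.ltr (u'.2 - v.2), tr_neg']
        rwa [fk u' e, show 1 + η (u'.2 - v.2) - 1 = 0 + η (u'.2 - v.2) by ring] at hz'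
      · have := R.d1.fine.inv (-(u'.2 - v.2)) _ _ a
        rwa [orb_neg e] at this
    have a1 := mp _ m
    have a2 := mq _ m
    have a3 : ρ _ = ρ _ + κ := (hκ _ m.1).2
    have a4 : ρ _ = ρ _ + κ := (hκ _ hp.1).2
    have a5 : ρ _ = ρ _ + κ := (hκ _ hq.1).2
    rw [tr_neg'] at a3
    omega
  · have h1 := hU.lf j x hx
    rcases A.alt x with k | k
    · exact Or.inl (hU.lan j x (hU.lu j hx) (an x) (A.adj x) (by omega))
    · exact Or.inr ⟨⟨k.2.1, ac _ k.2.1⟩, k.2.2.trans h1⟩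
  · have h1 := hU.lf j x hx
    have hK : (an x).1 = v.1 := hK
    obtain ⟨n, -, e⟩ := (A.alt x).resolve_left fun k =>
      k_nl R hU hK _ (hU.lan j x (hU.lu j hx) _ (A.adj x) (by omega))
    have no : ∀ r, r ∈ LL Γ (rais f v) 0 ∧ Γ.Adj v r → ¬ Γ.Adj x (tr ((an x).2 - v.2) r) :=
      fun r hr a => n ⟨_, a, by rw [hU.lf _ _ (ft _ hK r hr).1, e]⟩
    refine ⟨?_, ?_, fun u hu _ => by rwa [eT _ hK] at hu⟩
    · show ¬ Γ.Adj x (if _ then _ else _)
      rw [if_pos (show (G.an x).1 = v.1 from hK)]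
      exact no p hp
    · show ¬ Γ.Adj x (if _ then _ else _)
      rw [if_pos (show (G.an x).1 = v.1 from hK)]
      exact no q hq

end Pool.Agent.P.MP_08fd93_co.FZ
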