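import Pool.Agent.P.MP_08fd93_co.OV.Base2

/-! Heights measured from a finite set of roots; parents and parent chains. -/

set_option autoImplicit false

namespace Pool.Agent.P.MP_08fd93_co.FZ

open OV

variable {J : Type} {Γ : SimpleGraph (Vx J)} {η : ℤ × ℤ →+ ℤ} {R : Set (Vx J)} {h f : Vx J → ℤ}

/-- The values whose least element is the height. -/
def Wit (Γ : SimpleGraph (Vx J)) (η : ℤ × ℤ →+ ℤ) (R : Set (Vx J)) (h : Vx J → ℤ) (x : Vx J)
    (z : ℤ) : Prop := ∃ r ∈ R, ∃ a, z = h r + η a + Γ.dist (tr a r) x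

/-- `f` is the height function of the roots `R` with start values `h`. -/
def IsH (Γ : SimpleGraph (Vx J)) (η : ℤ × ℤ →+ ℤ) (R : Set (Vx J)) (h f : Vx J → ℤ) : Prop :=
  ∀ x, Wit Γ η R h x (f x) ∧ ∀ z, Wit Γ η R h x z → f x ≤ z

/-- `x` has a parent. -/
def Hp (Γ : SimpleGraph (Vx J)) (f : Vx J → ℤ) (x : Vx J) : Prop :=
  ∃ y, Γ.Adj x y ∧ f y = f x - 1

theorem exists_h (hF : Fine Γ) (hle : ∀ x a, η a ≤ (Γ.dist x (tr a x) : ℤ)) (hR : R.Finite)
    (hne : R.Nonempty) (h : Vx J → ℤ) : ∃ f, IsH Γ η R h f := by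
  have key : ∀ x, ∃ b : ℤ, Wit Γ η R h x b ∧ ∀ z, Wit Γ η R h x z → b ≤ z := by
    intro x
    obtain ⟨B, hB⟩ := (hR.image fun r => h r - (Γ.dist x r : ℤ)).bddBelow
    obtain ⟨r0, hr0⟩ := hne
    refine Int.exists_least_of_bdd ⟨B, ?_⟩ ⟨_, r0, hr0, 0, rfl⟩
    rintro z ⟨r, hr, a, rfl⟩
    have h1 : B ≤ h r - (Γ.dist x r : ℤ) := hB ⟨r, hr, rfl⟩
    have h2 := hle (tr a r) (-a)
    rw [tr_neg, map_neg] at h2
    have h3 := dist_tri hF.pl (tr a r) x r
    omega
  choose f hf using key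
  exact ⟨f, hf⟩

theorem IsH.le (hf : IsH Γ η R h f) {r : Vx J} (hr : r ∈ R) (a : ℤ × ℤ) (x : Vx J) :
    f x ≤ h r + η a + Γ.dist (tr a r) x := (hf x).2 _ ⟨r, hr, a, rfl⟩

theorem IsH.root (hf : IsH Γ η R h f) {r : Vx J} (hr : r ∈ R) : f r ≤ h r := by
  have := hf.le hr 0 r
  rw [tr_zero, SimpleGraph.dist_self, map_zero] at this
  simpa using this

theorem IsH.per (hF : Fine Γ) (hf : IsH Γ η R h f) (b : ℤ × ℤ) (x : Vx J) :
    f (tr b x) = f x + η b := by
  have key : ∀ b x, f (tr b x) ≤ f x + η b := by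
    intro b x
    obtain ⟨r, hr, a, e⟩ := (hf x).1
    have := hf.le hr (a + b) (tr b x)
    rw [← tr_tr, hF.dist_tr, map_add] at this
    omega
  refine le_antisymm (key b x) ?_
  have := key (-b) (tr b x)
  rw [tr_neg, map_neg] at this
  omega

theorem IsH.lip (hF : Fine Γ) (hf : IsH Γ η R h f) (x y : Vx J) (e : Γ.Adj x y) :
    f y ≤ f x + 1 := by
  obtain ⟨r, hr, a, e1⟩ := (hf x).1
  have h1 := hf.le hr a y
  have h2 := dist_tri hF.pl (tr a r) x y
  rw [dist_adj e] at h2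
  omega

/-- one step towards the root of a witness -/
theorem IsH.step (hF : Fine Γ) (hf : IsH Γ η R h f) {r x : Vx J} (hr : r ∈ R) {a : ℤ × ℤ} {m : ℕ}
    (hd : Γ.dist (tr a r) x = m + 1) (e : f x = h r + η a + (m + 1 : ℕ)) :
    ∃ y, Γ.Adj x y ∧ f y = f x - 1 ∧ Γ.dist (tr a r) y = m := by
  obtain ⟨y, ey, hy⟩ := dist_step hF.pl hd
  have h1 := hf.le hr a y
  have h2 := hf.lip hF y x ey
  rw [hy] at h1
  push_cast at e
  exact ⟨y, ey.symm, by omega, hy⟩

/-- a vertex without a parent is a translate of a root -/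
theorem IsH.par (hF : Fine Γ) (hf : IsH Γ η R h f) (x : Vx J) :
    Hp Γ f x ∨ ∃ r ∈ R, ∃ a, x = tr a r ∧ f r = h r := by
  obtain ⟨r, hr, a, e⟩ := (hf x).1
  rcases hd : Γ.dist (tr a r) x with _ | m
  · have h1 := dist_zero hF.pl hd
    rw [hd] at e
    refine Or.inr ⟨r, hr, a, h1.symm, ?_⟩
    rw [← h1, hf.per hF] at e
    simpa using e
  · rw [hd] at e
    obtain ⟨y, h1, h2, -⟩ := hf.step hF hr hd e
    exact Or.inl ⟨y, h1, h2⟩

/-- a root whose start value is beaten by no other witness has no parent -/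
theorem IsH.strict (hF : Fine Γ) (hf : IsH Γ η R h f) {r : Vx J} (hr : r ∈ R)
    (hs : ∀ r' ∈ R, ∀ a, tr a r' ≠ r → h r < h r' + η a + Γ.dist (tr a r') r)
    (hs' : ∀ r' ∈ R, ∀ a, tr a r' = r → h r ≤ h r' + η a) : f r = h r ∧ ¬ Hp Γ f r := by
  have h0 : f r = h r := by
    refine le_antisymm (hf.root hr) ?_
    obtain ⟨r', hr', a, e⟩ := (hf r).1
    by_cases c : tr a r' = r
    · have := hs' r' hr' a c
      omega
    · have := hs r' hr' a c
      omega
  refine ⟨h0, ?_⟩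
  rintro ⟨y, ey, hy⟩
  obtain ⟨r', hr', a, e⟩ := (hf y).1
  have h2 := dist_tri hF.pl (tr a r') y r
  rw [dist_adj ey.symm] at h2
  by_cases c : tr a r' = r
  · have := hs' r' hr' a c
    omega
  · have := hs r' hr' a c
    omega

theorem Hp.tr (hF : Fine Γ) (per : ∀ a x, f (tr a x) = f x + η a) (a : ℤ × ℤ) (x : Vx J) :
    Hp Γ f (tr a x) ↔ Hp Γ f x := by
  have key : ∀ a x, Hp Γ f x → Hp Γ f (Pool.Agent.P.MP_08fd93_co.tr a x) := by
    rintro a x ⟨y, e, hy⟩
    exact ⟨_, hF.inv a _ _ e, by rw [per, per, hy]; ring⟩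
  refine ⟨fun hx => ?_, key a x⟩
  have := key (-a) _ hx
  rwa [tr_neg] at this

/-- equivariant choice for a translation invariant relation -/
theorem eqv_choice (P : Vx J → Vx J → Prop) (hP : ∀ a x y, P x y → P (tr a x) (tr a y)) :
    ∃ an : Vx J → Vx J, (∀ a x, an (tr a x) = tr a (an x)) ∧ ∀ x, (∃ y, P x y) → P x (an x) := by
  classical
  have ex : ∀ u : J, ∃ y, (∃ y, P (u, 0) y) → P (u, 0) y := by
    intro u
    by_cases c : ∃ y, P (u, 0) y
    · obtain ⟨y, hy⟩ := c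
      exact ⟨y, fun _ => hy⟩
    · exact ⟨(u, 0), fun h => absurd h c⟩
  choose g hg using ex
  refine ⟨fun x => tr x.2 (g x.1), fun a x => ?_, ?_⟩
  · show tr (x.2 + a) (g x.1) = tr a (tr x.2 (g x.1))
    rw [tr_tr]
  · rintro x ⟨y, hy⟩
    have e : tr x.2 ((x.1, 0) : Vx J) = x := by simp [tr]
    have e' : tr (-x.2) x = ((x.1, 0) : Vx J) := by simp [tr]
    have h1 := hP (-x.2) _ _ hy
    rw [e'] at h1
    have h2 := hP x.2 _ _ (hg x.1 ⟨_, h1⟩)
    rwa [e] at h2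

/-- an equivariant parent map -/
theorem exists_an (hF : Fine Γ) (per : ∀ a x, f (tr a x) = f x + η a) :
    ∃ an : Vx J → Vx J, (∀ a x, an (tr a x) = tr a (an x)) ∧
      ∀ x, Hp Γ f x → Γ.Adj x (an x) ∧ f (an x) = f x - 1 :=
  eqv_choice (fun x y => Γ.Adj x y ∧ f y = f x - 1) fun a x y hh =>
    ⟨hF.inv a _ _ hh.1, by rw [per, per, hh.2]; ring⟩

/-- if no closed walk is tight, every descending walk is shorter than the number of orbits -/
theorem desc_short [Fintype J] (hF : Fine Γ) (per : ∀ a x, f (tr a x) = f x + η a)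
    (hlt : ∀ x a, a ≠ 0 → η a < (Γ.dist x (tr a x) : ℤ)) (p : ℕ → Vx J) (n : ℕ)
    (hp : ∀ i, i < n → Γ.Adj (p i) (p (i + 1)) ∧ f (p (i + 1)) = f (p i) - 1) :
    n < Fintype.card J := by
  by_contra hc
  have key : ∀ i k, i + k ≤ n → f (p (i + k)) = f (p i) - k ∧ Γ.dist (p (i + k)) (p i) ≤ k := by
    intro i k
    induction k with
    | zero => intro _; simp
    | succ k ih =>
      intro hk
      obtain ⟨h1, h2⟩ := ih (by omega)
      obtain ⟨h3, h4⟩ := hp (i + k) (by omega)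
      have h5 := dist_tri hF.pl (p (i + k + 1)) (p (i + k)) (p i)
      rw [dist_adj h3.symm] at h5
      rw [← add_assoc]
      exact ⟨by push_cast; omega, by omega⟩
  have ne : ∀ i k, i < k → k ≤ n → (p k).1 ≠ (p i).1 := by
    intro i k hik hk e
    obtain ⟨m, rfl⟩ := Nat.exists_eq_add_of_lt hik
    obtain ⟨h1, h2⟩ := key i (m + 1) (by omega)
    rw [← add_assoc] at h1 h2
    have e1 := eq_tr e
    have e2 := per ((p i).2 - (p (i + m + 1)).2) (p (i + m + 1))
    rw [← e1] at e2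
    have h3 := hlt (p (i + m + 1)) ((p i).2 - (p (i + m + 1)).2) (fun h0 => by
      rw [h0, map_zero] at e2
      push_cast at h1
      omega)
    rw [← e1] at h3
    push_cast at h1
    omega
  obtain ⟨i, k, hik, e⟩ := Fintype.exists_ne_map_eq_of_card_lt
    (fun i : Fin (n + 1) => (p i).1) (by rw [Fintype.card_fin]; omega)
  rcases lt_or_gt_of_ne (fun h => hik (Fin.ext h)) with l | l
  · exact ne i k l (by omega) e.symm
  · exact ne k i l (by omega) e

/-- every parent chain ends at a vertex outside `Pr` -/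
theorem chain_end [Fintype J] (hF : Fine Γ) (per : ∀ a x, f (tr a x) = f x + η a)
    (hlt : ∀ x a, a ≠ 0 → η a < (Γ.dist x (tr a x) : ℤ)) {Pr : Set (Vx J)} {an : Vx J → Vx J}
    (han : ∀ x ∈ Pr, Γ.Adj x (an x) ∧ f (an x) = f x - 1) (x : Vx J) :
    ∃ n, n < Fintype.card J ∧ (∀ i, i < n → an^[i] x ∈ Pr) ∧ an^[n] x ∉ Pr := by
  classical
  have short : ∀ n, (∀ i, i < n → an^[i] x ∈ Pr) → n < Fintype.card J := fun n hn =>
    desc_short hF per hlt (fun i => an^[i] x) n fun i hi => by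
      simp only [Function.iterate_succ_apply']
      exact han _ (hn i hi)
  have ex : ∃ n, an^[n] x ∉ Pr := by
    by_contra hc
    push Not at hc
    exact lt_irrefl _ (short _ fun i _ => hc i)
  have h1 : ∀ i, i < Nat.find ex → an^[i] x ∈ Pr := fun i hi => not_not.1 (Nat.find_min ex hi)
  exact ⟨Nat.find ex, short _ h1, h1, Nat.find_spec ex⟩

end Pool.Agent.P.MP_08fd93_co.FZ
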