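import Pool.Agent.P.MP_08fd93_co.FZ.Strip

/-! Bridges across a strip: nothing crosses a bridge. -/

set_option autoImplicit false

namespace Pool.Agent.P.MP_08fd93_co.FZ

open OV

variable {J : Type} {F : FD J} {j : ℤ}

/-- The finite part `T` of the strip `j` (possibly empty) joins `p` on the lower line to `q` on
the upper line. -/
structure Brg (F : FD J) (j : ℤ) (p q : Vx J) (T : Set (Vx J)) : Prop where
  hp : p ∈ F.L (j - 1)
  hq : q ∈ F.L j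
  sub : T ⊆ F.St j
  fin : T.Finite
  conn : IsConn F.Γ (T ∪ {q})
  tp : p ∈ Nb F.Γ (T ∪ {q})

theorem Brg.rung {p q : Vx J} (hp : p ∈ F.L (j - 1)) (hq : q ∈ F.L j) (e : F.Γ.Adj p q) :
    Brg F j p q ∅ :=
  ⟨hp, hq, Set.empty_subset _, Set.finite_empty, by simpa using isConn_single q,
    ⟨q, Or.inr rfl, e⟩⟩

theorem Brg.of {p q : Vx J} {T : Set (Vx J)} (hp : p ∈ F.L (j - 1)) (hq : q ∈ F.L j)
    (sub : T ⊆ F.St j) (fin : T.Finite) (c : IsConn F.Γ T) (tp : p ∈ Nb F.Γ T)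
    (tq : q ∈ Nb F.Γ T) : Brg F j p q T :=
  ⟨hp, hq, sub, fin, c.union_nb (by rintro _ rfl; exact tq),
    let ⟨y, hy, e⟩ := tp; ⟨y, Or.inl hy, e⟩⟩

theorem Brg.mv (hF : Rows F) {p q : Vx J} {T : Set (Vx J)} (h : Brg F j p q T) (k : ℤ) :
    Brg F j (tr (k • F.w) p) (tr (k • F.w) q) (tr (k • F.w) '' T) := by
  refine ⟨(hF.rho_lw k h.hp).1, (hF.rho_lw k h.hq).1, ?_, h.fin.image _, ?_, ?_⟩
  · rintro _ ⟨x, hx, rfl⟩
    exact (hF.utr0 (hF.eta_w k) j x).2.2.2 (h.sub hx)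
  · have := hF.fine.isConn_tr (k • F.w) h.conn
    rwa [Set.image_union, Set.image_singleton] at this
  · obtain ⟨y, hy, e⟩ := h.tp
    refine ⟨_, ?_, hF.fine.inv (k • F.w) _ _ e⟩
    rcases hy with hy | rfl
    exacts [Or.inl ⟨y, hy, rfl⟩, Or.inr rfl]

/-- far translates of a finite set miss another finite set -/
theorem far (hF : Rows F) {T E : Set (Vx J)} (hT : T.Finite) (hE : E.Finite) :
    ∃ K : ℤ, 2 ≤ K ∧ ∀ k k' : ℤ, K ≤ k - k' ∨ K ≤ k' - k →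
      Disjoint (tr (k • F.w) '' T) (tr (k' • F.w) '' E) := by
  obtain ⟨B, hB⟩ := ((finite_meet hF.wp.w0 hT hE).image fun k => |k|).bddAbove
  refine ⟨max 2 (B + 1), le_max_left _ _, fun k k' hk => Set.disjoint_left.2 ?_⟩
  rintro _ ⟨x, hx, rfl⟩ ⟨y, hy, e⟩
  have e1 : tr ((k - k') • F.w) x = y := by
    apply tr_inj (k' • F.w)
    rw [tr_tr, e, ← add_smul, sub_add_cancel]
  have : |k - k'| ≤ B := hB ⟨k - k', ⟨x, hx, e1 ▸ hy⟩, rfl⟩
  have h1 := le_max_right 2 (B + 1)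
  rw [abs_le] at this
  omega

/-- A zone: positions `P` on the lower line, `Q` on the upper line, and a part `S` of the strip. -/
def Zn (F : FD J) (j : ℤ) (P Q : ℤ → Prop) (S : Set (Vx J)) : Set (Vx J) :=
  {x | (x ∈ F.L (j - 1) ∧ P (F.ρ x)) ∨ (x ∈ F.L j ∧ Q (F.ρ x)) ∨ x ∈ S}

theorem zn_dis (hF : Rows F) {P Q P' Q' : ℤ → Prop} {S S' : Set (Vx J)} (hS : S ⊆ F.St j)
    (hS' : S' ⊆ F.St j) (h1 : ∀ i, P i → ¬ P' i) (h2 : ∀ i, Q i → ¬ Q' i) (h3 : Disjoint S S') :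
    Disjoint (Zn F j P Q S) (Zn F j P' Q' S') := by
  refine Set.disjoint_left.2 ?_
  rintro x (a | a | a) (b | b | b)
  exacts [h1 _ a.2 b.2, l_not_u' a.1 (hF.l_u b.1), l_not_u' a.1 (hS' b).1,
    l_not_u' b.1 (hF.l_u a.1), h2 _ a.2 b.2, (hS' b).2 (Or.inl a.1), l_not_u' b.1 (hS a).1,
    (hS a).2 (Or.inl b.1), Set.disjoint_left.1 h3 a b]

theorem zn_out (hF : Rows F) {P Q : ℤ → Prop} {S : Set (Vx J)} (hS : S ⊆ F.St j) :
    Disjoint (BL F.Γ F.f (j - 1) ∪ F.U (j + 1)) (Zn F j P Q S) := by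
  refine Set.disjoint_left.2 ?_
  rintro x (a | a) (b | b | b)
  exacts [a (Or.inr b.1), u_not_bl (hF.l_u b.1) a, u_not_bl (hS b).1 a,
    l_not_u' b.1 (hF.uw.mono _ _ (by omega) a), b.1.2 a, (hS b).2 (Or.inr a)]

theorem zn_conn (hF : Rows F) {P Q : ℤ → Prop} {p q : Vx J} {T : Set (Vx J)} (h : Brg F j p q T)
    (cP : ∀ a b c, P a → P c → a ≤ b → b ≤ c → P b)
    (cQ : ∀ a b c, Q a → Q c → a ≤ b → b ≤ c → Q b) (hp : P (F.ρ p)) (hq : Q (F.ρ q)) :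
    IsConn F.Γ (Zn F j P Q T) := by
  have s0 : T ∪ {q} ⊆ Zn F j P Q T := by
    rintro x (hx | rfl)
    exacts [Or.inr (Or.inr hx), Or.inr (Or.inl ⟨h.hq, hq⟩)]
  refine isConn_base h.conn s0 ?_
  rintro x (a | a | a)
  · obtain ⟨y, hy, e⟩ := h.tp
    exact ⟨y, hy, ((hF.seg_conn _ cP x a p ⟨h.hp, hp⟩).up fun z hz => Or.inl hz).snoc
      (Or.inl ⟨h.hp, hp⟩) (s0 hy) e⟩
  · exact ⟨q, Or.inr rfl, (hF.seg_conn _ cQ x a q ⟨h.hq, hq⟩).up fun z hz => Or.inr (Or.inl hz)⟩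
  · exact ⟨x, Or.inl a, Conn.rfl'⟩

/-- the outside of a strip, closed up by a bridge -/
theorem out_conn (hF : Rows F) {p q : Vx J} {T : Set (Vx J)} (h : Brg F j p q T) :
    IsConn F.Γ ((BL F.Γ F.f (j - 1) ∪ F.U (j + 1)) ∪
      Zn F j (fun i => i = F.ρ p) (fun i => i = F.ρ q) T) := by
  have c := zn_conn hF h (P := fun i => i = F.ρ p) (Q := fun i => i = F.ρ q)
    (fun _ _ _ _ _ _ _ => by omega) (fun _ _ _ _ _ _ _ => by omega) rfl rfl
  obtain ⟨b, hb, eb⟩ := hF.tch _ h.hp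
  obtain ⟨u, hu, eu⟩ := h.hq.1
  rw [Set.union_right_comm]
  exact ((hF.blc _).union c ⟨b, hb, p, Or.inl ⟨h.hp, rfl⟩, eb.symm⟩).union (hF.uw.conn _)
    ⟨q, Or.inr (Or.inr (Or.inl ⟨h.hq, rfl⟩)), u, hu, eu⟩

theorem out_touch (hF : Rows F) {A B : Set (Vx J)} {x : Vx J} (hx : x ∈ F.L (j - 1) ∨ x ∈ F.L j)
    (hB : x ∈ B) : Touch F.Γ ((BL F.Γ F.f (j - 1) ∪ F.U (j + 1)) ∪ A) B := by
  rcases hx with hx | hx
  · obtain ⟨b, hb, e⟩ := hF.tch _ hx
    exact ⟨b, Or.inl (Or.inl hb), x, hB, e.symm⟩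
  · obtain ⟨b, hb, e⟩ := hx.1
    exact ⟨b, Or.inl (Or.inr hb), x, hB, e.symm⟩

/-- nothing crosses a bridge -/
theorem Brg.nc (hF : Rows F) {p q : Vx J} {T : Set (Vx J)} (h : Brg F j p q T) {E : Set (Vx J)}
    (hE : E ⊆ F.St j) (fE : E.Finite) (cE : IsConn F.Γ E) (dE : Disjoint E T) {x y : Vx J}
    (hx : (x ∈ F.L (j - 1) ∧ F.ρ x < F.ρ p) ∨ (x ∈ F.L j ∧ F.ρ x < F.ρ q))
    (hy : (y ∈ F.L (j - 1) ∧ F.ρ p < F.ρ y) ∨ (y ∈ F.L j ∧ F.ρ q < F.ρ y)) :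
    ¬ F.Γ.Adj x y ∧ ¬ (x ∈ Nb F.Γ E ∧ y ∈ Nb F.Γ E) := by
  obtain ⟨K, hK2, hK⟩ := far hF h.fin (h.fin.union fE)
  have n0 := hF.n2 (j - 1)
  have n1 := hF.n2 j
  obtain ⟨m, hm1, hm2, hm3⟩ : ∃ m : ℤ, 2 * K ≤ m ∧ F.ρ p - F.ρ x < m ∧ F.ρ q - F.ρ x < m :=
    ⟨2 * K + (F.ρ p - F.ρ x).natAbs + (F.ρ q - F.ρ x).natAbs + 1, by omega, by omega, by omega⟩
  have r1 := fun k => (hF.rho_lw k h.hp).2
  have r2 := fun k => (hF.rho_lw k h.hq).2
  have a1 : m ≤ m * F.nn (j - 1) := by nlinarith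
  have a2 : m ≤ m * F.nn j := by nlinarith
  have a3 : K * F.nn (j - 1) < m * F.nn (j - 1) := by nlinarith
  have a4 : K * F.nn j < m * F.nn j := by nlinarith
  have a5 : 0 < K * F.nn (j - 1) := by nlinarith
  have a6 : 0 < K * F.nn j := by nlinarith
  have s := fun k => (h.mv hF k).sub
  have dT : ∀ k k' : ℤ, K ≤ k - k' ∨ K ≤ k' - k →
      Disjoint (tr (k • F.w) '' T) (tr (k' • F.w) '' T) := fun k k' hk =>
    (hK k k' hk).mono_right (Set.image_mono Set.subset_union_left)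
  have d0 : ∀ k : ℤ, K ≤ k ∨ K ≤ -k → Disjoint (tr (k • F.w) '' T) (T ∪ E) := fun k hk => by
    have := hK k 0 (by omega)
    simpa only [zero_smul, tr_zero, Set.image_id'] using this
  set PL : ℤ → Prop := fun i => F.ρ p - m * F.nn (j - 1) < i ∧ i < F.ρ p with hPL
  set QL : ℤ → Prop := fun i => F.ρ q - m * F.nn j < i ∧ i < F.ρ q with hQL
  have cL := zn_conn hF (h.mv hF (-K)) (P := PL) (Q := QL) (fun _ _ _ _ _ _ _ => by omega)
    (fun _ _ _ _ _ _ _ => by omega) (by rw [r1]; simp only [hPL, neg_mul]; omega)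
    (by rw [r2]; simp only [hQL, neg_mul]; omega)
  have cR := zn_conn hF (h.mv hF K) (P := fun i => F.ρ p < i) (Q := fun i => F.ρ q < i)
    (fun _ _ _ _ _ _ _ => by omega) (fun _ _ _ _ _ _ _ => by omega) (by rw [r1]; omega)
    (by rw [r2]; omega)
  have xL : ∀ S, x ∈ Zn F j PL QL S := fun S =>
    hx.elim (fun a => Or.inl ⟨a.1, by simp only [hPL]; omega⟩)
      fun a => Or.inr (Or.inl ⟨a.1, by simp only [hQL]; omega⟩)
  have yR : y ∈ Zn F j (fun i => F.ρ p < i) (fun i => F.ρ q < i) (tr (K • F.w) '' T) :=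
    hy.imp_right Or.inl
  have main : ∀ E' : Set (Vx J), E' ⊆ E → IsConn F.Γ (Zn F j PL QL (tr (-K • F.w) '' T ∪ E')) →
      Touch F.Γ (Zn F j PL QL (tr (-K • F.w) '' T ∪ E'))
        (Zn F j (fun i => F.ρ p < i) (fun i => F.ρ q < i) (tr (K • F.w) '' T)) → False := by
    intro E' hE' c t
    have sL : tr (-K • F.w) '' T ∪ E' ⊆ F.St j := Set.union_subset (s _) (hE'.trans hE)
    have e1 : ({p} : Set (Vx J)) = Zn F j (fun i => i = F.ρ p) (fun _ => False) ∅ := by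
      ext z
      refine ⟨by rintro rfl; exact Or.inl ⟨h.hp, rfl⟩, ?_⟩
      rintro (a | a | a)
      exacts [hF.inj a.1 h.hp a.2, a.2.elim, a.elim]
    have e2 : T ∪ {q} = Zn F j (fun _ => False) (fun i => i = F.ρ q) T := by
      ext z
      constructor
      · rintro (a | rfl)
        exacts [Or.inr (Or.inr a), Or.inr (Or.inl ⟨h.hq, rfl⟩)]
      · rintro (a | a | a)
        exacts [a.2.elim, Or.inr (hF.inj a.1 h.hq a.2), Or.inl a]
    have es := Set.empty_subset (F.St j)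
    have lp := hF.l_rho h.hp
    have lq := hF.l_rho h.hq
    have ad : ∀ {i : ℤ} {z : Vx J} (k : ℤ), z ∈ F.L i → (k = F.ρ z + 1 ∨ F.ρ z = k + 1) →
        F.Γ.Adj z (F.l i k) := fun k hz hk => (hF.adj_iff hz (hF.l_mem _ _)).2 (by rwa [hF.rho])
    refine k5 hF.pl (out_conn hF (h.mv hF (-m))) (isConn_single p) h.conn c cR
      ⟨?_, out_touch hF (Or.inl h.hp) rfl⟩ ⟨?_, out_touch hF (Or.inr h.hq) (Or.inr rfl)⟩
      ⟨?_, out_touch hF (hx.imp And.left And.left) (xL _)⟩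
      ⟨?_, out_touch hF (hy.imp And.left And.left) yR⟩ ⟨?_, ?_⟩ ⟨?_, ?_⟩ ⟨?_, ?_⟩ ⟨?_, ?_⟩
      ⟨?_, ?_⟩ ⟨?_, t⟩
    · rw [e1]
      exact Set.disjoint_union_left.2 ⟨zn_out hF es, zn_dis hF (s _) es
        (fun i a b => by rw [r1, neg_mul] at a; omega) (fun _ _ b => b) (Set.disjoint_empty _)⟩
    · rw [e2]
      exact Set.disjoint_union_left.2 ⟨zn_out hF h.sub, zn_dis hF (s _) h.sub (fun _ _ b => b)
        (fun i a b => by rw [r2, neg_mul] at a; omega)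
        ((d0 _ (by omega)).mono_right Set.subset_union_left)⟩
    · exact Set.disjoint_union_left.2 ⟨zn_out hF sL, zn_dis hF (s _) sL
        (fun i a b => by rw [r1, neg_mul] at a; simp only [hPL] at b; omega)
        (fun i a b => by rw [r2, neg_mul] at a; simp only [hQL] at b; omega)
        (Set.disjoint_union_right.2 ⟨dT _ _ (by omega),
          (d0 _ (by omega)).mono_right (hE'.trans Set.subset_union_right)⟩)⟩
    · exact Set.disjoint_union_left.2 ⟨zn_out hF (s _), zn_dis hF (s _) (s _)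
        (fun i a b => by rw [r1, neg_mul] at a; omega)
        (fun i a b => by rw [r2, neg_mul] at a; omega) (dT _ _ (by omega))⟩
    · rw [e1, e2]
      exact zn_dis hF es h.sub (fun _ _ b => b) (fun _ a => a.elim) (Set.empty_disjoint _)
    · obtain ⟨z, hz, e⟩ := h.tp
      exact ⟨p, rfl, z, hz, e⟩
    · rw [e1]
      exact zn_dis hF es sL (fun i a b => by simp only [hPL] at b; omega) (fun _ a => a.elim)
        (Set.empty_disjoint _)
    · exact ⟨p, rfl, _, Or.inl ⟨hF.l_mem _ (F.ρ p - 1), by rw [hF.rho]; simp only [hPL]; omega⟩,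
        ad _ h.hp (by omega)⟩
    · rw [e1]
      exact zn_dis hF es (s _) (fun i a b => by omega) (fun _ a => a.elim) (Set.empty_disjoint _)
    · exact ⟨p, rfl, _, Or.inl ⟨hF.l_mem _ (F.ρ p + 1), by rw [hF.rho]; omega⟩,
        ad _ h.hp (by omega)⟩
    · rw [e2]
      exact zn_dis hF h.sub sL (fun _ a => a.elim) (fun i a b => by simp only [hQL] at b; omega)
        (Set.disjoint_union_right.2 ⟨((d0 _ (by omega)).mono_right Set.subset_union_left).symm,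
          (dE.mono_left hE').symm⟩)
    · exact ⟨q, Or.inr rfl, _, Or.inr (Or.inl ⟨hF.l_mem _ (F.ρ q - 1), by
        rw [hF.rho]; simp only [hQL]; omega⟩), ad _ h.hq (by omega)⟩
    · rw [e2]
      exact zn_dis hF h.sub (s _) (fun _ a => a.elim) (fun i a b => by omega)
        ((d0 _ (by omega)).mono_right Set.subset_union_left).symm
    · exact ⟨q, Or.inr rfl, _, Or.inr (Or.inl ⟨hF.l_mem _ (F.ρ q + 1), by rw [hF.rho]; omega⟩),
        ad _ h.hq (by omega)⟩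
    · exact zn_dis hF sL (s _) (fun i a b => by simp only [hPL] at a; omega)
        (fun i a b => by simp only [hQL] at a; omega)
        (Set.disjoint_union_left.2 ⟨dT _ _ (by omega),
          ((d0 _ (by omega)).mono_right (hE'.trans Set.subset_union_right)).symm⟩)
  constructor
  · intro e
    exact main ∅ (Set.empty_subset _) (by rwa [Set.union_empty]) ⟨x, xL _, y, yR, e⟩
  · rintro ⟨⟨a, ha, ea⟩, ⟨b, hb, eb⟩⟩
    refine main E subset_rfl ?_ ⟨b, Or.inr (Or.inr (Or.inr hb)), y, yR, eb.symm⟩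
    have e : Zn F j PL QL (tr (-K • F.w) '' T ∪ E) = Zn F j PL QL (tr (-K • F.w) '' T) ∪ E := by
      ext z
      simp only [Zn, Set.mem_ofPred_eq, Set.mem_union, or_assoc]
    rw [e]
    exact cL.union cE ⟨x, xL _, a, ha, ea⟩

/-- two disjoint bridges between the same ends have no further common attachment -/
theorem Brg.three (hF : Rows F) {p q r : Vx J} {T E : Set (Vx J)} (hp : p ∈ F.L (j - 1))
    (hq : q ∈ F.L j) (hr : r ∈ F.L (j - 1) ∨ r ∈ F.L j) (rp : r ≠ p) (rq : r ≠ q)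
    (hT : T ⊆ F.St j) (fT : T.Finite) (cT : IsConn F.Γ T) (hE : E ⊆ F.St j) (fE : E.Finite)
    (cE : IsConn F.Γ E) (d : Disjoint T E)
    (tT : p ∈ Nb F.Γ T ∧ q ∈ Nb F.Γ T ∧ r ∈ Nb F.Γ T)
    (tE : p ∈ Nb F.Γ E ∧ q ∈ Nb F.Γ E ∧ r ∈ Nb F.Γ E) : False := by
  have h := Brg.of hp hq hT fT cT tT.1 tT.2.1
  obtain ⟨K, hK2, hK⟩ := far hF (fT.union (Set.toFinite {p, q}))
    ((fT.union fE).union (Set.toFinite {p, q, r}))
  have d0 := hK K 0 (by omega)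
  simp only [zero_smul, tr_zero, Set.image_id'] at d0
  have hb := h.mv hF K
  have sZ : Zn F j (fun i => i = F.ρ (tr (K • F.w) p)) (fun i => i = F.ρ (tr (K • F.w) q))
      (tr (K • F.w) '' T) ⊆ tr (K • F.w) '' (T ∪ {p, q}) := by
    rintro z (a | a | ⟨y, hy, rfl⟩)
    exacts [⟨p, Or.inr (Or.inl rfl), (hF.inj a.1 hb.hp a.2).symm⟩,
      ⟨q, Or.inr (Or.inr rfl), (hF.inj a.1 hb.hq a.2).symm⟩, ⟨y, Or.inl hy, rfl⟩]
  have dO : ∀ A : Set (Vx J), A ⊆ (T ∪ E) ∪ {p, q, r} →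
      Disjoint ((BL F.Γ F.f (j - 1) ∪ F.U (j + 1)) ∪ Zn F j (fun i => i = F.ρ (tr (K • F.w) p))
        (fun i => i = F.ρ (tr (K • F.w) q)) (tr (K • F.w) '' T)) A := by
    intro A hA
    refine Set.disjoint_union_left.2 ⟨(zn_out hF (P := fun _ => True) (Q := fun _ => True)
      (Set.union_subset hT hE)).mono_right (hA.trans ?_), d0.mono sZ hA⟩
    rintro z (a | rfl | rfl | rfl)
    exacts [Or.inr (Or.inr a), Or.inl ⟨hp, trivial⟩, Or.inr (Or.inl ⟨hq, trivial⟩),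
      hr.elim (fun a => Or.inl ⟨a, trivial⟩) fun a => Or.inr (Or.inl ⟨a, trivial⟩)]
  have t : ∀ (A : Set (Vx J)) x, x ∈ Nb F.Γ A → Touch F.Γ A {x} :=
    fun A x ⟨y, hy, e⟩ => ⟨y, hy, x, rfl, e.symm⟩
  have ns : ∀ {A : Set (Vx J)} {x}, A ⊆ F.St j → x ∈ F.L (j - 1) ∨ x ∈ F.L j → Disjoint A {x} :=
    fun hA hx => Set.disjoint_singleton_right.2 fun k =>
      hx.elim (fun a => l_not_u' a (hA k).1) fun a => (hA k).2 (Or.inl a)
  have pq : p ≠ q := fun e => l_not_u' hp (e ▸ hF.l_u hq)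
  exact k33 hF.pl (out_conn hF hb) cT cE (isConn_single p) (isConn_single q) (isConn_single r)
    (dO _ fun z hz => Or.inl (Or.inl hz)) (dO _ fun z hz => Or.inl (Or.inr hz)) d
    (Set.disjoint_singleton.2 pq) (Set.disjoint_singleton.2 rp.symm)
    (Set.disjoint_singleton.2 rq.symm)
    ⟨dO _ (by rintro _ rfl; exact Or.inr (Or.inl rfl)),
      dO _ (by rintro _ rfl; exact Or.inr (Or.inr (Or.inl rfl))),
      dO _ (by rintro _ rfl; exact Or.inr (Or.inr (Or.inr rfl)))⟩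
    ⟨ns hT (Or.inl hp), ns hT (Or.inr hq), ns hT hr⟩
    ⟨ns hE (Or.inl hp), ns hE (Or.inr hq), ns hE hr⟩
    ⟨out_touch hF (Or.inl hp) rfl, out_touch hF (Or.inr hq) rfl, out_touch hF hr rfl⟩
    ⟨t _ _ tT.1, t _ _ tT.2.1, t _ _ tT.2.2⟩ ⟨t _ _ tE.1, t _ _ tE.2.1, t _ _ tE.2.2⟩

end Pool.Agent.P.MP_08fd93_co.FZ
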