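import Pool.Agent.P.MP_08fd93_co.FZ.Jk

/-! From periodic triangulations without hanging parts to all toroidal graphs. -/

set_option autoImplicit false

namespace Pool.Agent.P.MP_08fd93_co.FZ

open OV

/-- The periodic statement for simple quotients without hanging parts. -/
def S_Core : Prop := ∀ (J : Type) [Fintype J] (Γ : SimpleGraph (Vx J)), Nonempty J → Good Γ →
  NJ Γ Set.univ → ∃ c, Col1 Γ ∅ c

/-- The periodic statement for simple quotients. -/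
def S_Core' : Prop := ∀ (J : Type) [Fintype J] (Γ : SimpleGraph (Vx J)), Nonempty J → Good Γ →
  ∃ c, Col1 Γ ∅ c

/-- A shortest closed walk of a nonzero class unrolls to a geodesic line. -/
theorem geo_of_good {J : Type} [Fintype J] {Γ : SimpleGraph (Vx J)} (hJ : Nonempty J)
    (hG : Good Γ) {c : ℤ × ℤ} (hc : c ≠ 0) {x : Vx J}
    (hx : Γ.dist x (tr c x) = OV.DL Γ c) :
    ∃ l, Geo Γ l ∧ l 0 = x ∧ ∀ i, l (i + OV.DL Γ c) = tr c (l i) := by
  obtain ⟨hF, hN⟩ := all_Nrm J Γ hJ hG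
  have h3 := hN.ge c hc
  obtain ⟨l, hl0, hadj, hper, hd⟩ := pk_Per J Γ hF x c _ hx (by omega)
  exact ⟨l, ⟨hadj, PkCon1P.geod hF hN (by omega) hper hd⟩, hl0, hper⟩

theorem Ret.good {J : Type} {Γ : SimpleGraph (Vx J)} {A : J → Prop} (hG : Good Γ)
    (h : Ret Γ A) : Good (sub Γ A) := by
  refine ⟨h.fine.pl, h.fine.oe, h.fine.inv, fun x y e h' => ?_, fun x y z e e' h' => ?_⟩
  · exact hG.nl _ _ e (congrArg Subtype.val h')
  · have := hG.simp _ _ _ e e' (congrArg Subtype.val h')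
    exact Prod.ext h' (congrArg (fun v : Vx J => v.2) this)

theorem core_of (h : S_Core) : S_Core' := by
  intro J _ Γ hJ hG
  have := jk_ind (fun J Γ M => Nonempty J ∧ Good Γ ∧ M = ∅) ?_ ?_ ?_ J Γ ∅ ⟨hJ, hG, rfl⟩
  · exact ⟨_, this.choose_spec.1⟩
  · rintro J _ Γ _ ⟨hJ, hG, rfl⟩
    obtain ⟨x, hx⟩ := PkCon1P.DL_ex Γ hJ (1, 0)
    obtain ⟨l, hl, -⟩ := geo_of_good hJ hG (c := (1, 0)) (by simp) hx
    exact ⟨(all_Nrm J Γ hJ hG).1, l, hl, fun u hu => hu.elim⟩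
  · rintro J _ Γ _ ⟨hJ, hG, rfl⟩ A - hA hR
    obtain ⟨x, hx⟩ := PkCon1P.DL_ex Γ hJ (1, 0)
    obtain ⟨l, hl, -⟩ := geo_of_good hJ hG (c := (1, 0)) (by simp) hx
    exact ⟨⟨⟨_, hA l hl 0⟩⟩, hR.good hG, rfl⟩
  · rintro J _ Γ _ ⟨hJ, hG, rfl⟩ hNJ
    obtain ⟨c, hc⟩ := h J Γ hJ hG hNJ
    exact ⟨c, hc, fun x y hx => hx.elim⟩

open PkFinP in
/-- Pull-back of the periodic colouring. -/
theorem full_of (h : S_Core') (V : Type) [Fintype V] (G : SimpleGraph V) (hT : Tor G) :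
    ∃ c : V → Fin 4, ∀ v w₁ w₂ : V,
      G.Adj v w₁ → G.Adj v w₂ → c w₁ = c v → c w₂ = c v → w₁ = w₂ := by
  obtain ⟨J, _, Γ, hne, hgood, ι, hadj, hinj⟩ := all_Base V G hT
  obtain ⟨c, hc⟩ := h J Γ hne hgood
  refine ⟨fun v => num (c (ι v)), fun v a b ea eb ca cb => ?_⟩
  obtain ⟨p, hp⟩ := lift hgood (hadj _ _ ea)
  obtain ⟨q, hq⟩ := lift hgood (hadj _ _ eb)
  have := hc (ι v, 0) (ι a, p) (ι b, q) (fun h => h) (fun h => h) (fun h => h)
    hp hq (num_inj _ _ ca) (num_inj _ _ cb)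
  exact hinj a b v v ea.symm eb.symm (congrArg Prod.fst this)

/-- The text of the frozen statement from the periodic statement. -/
theorem frozen_of (h : S_Core') :
    ∀ (V : Type) [Fintype V] (G : SimpleGraph V),
      (∃ (p : V → AddCircle (1:ℝ) × AddCircle (1:ℝ))
          (γ : ∀ u v : V, G.Adj u v → Path (p u) (p v)),
        Function.Injective p ∧
        (∀ (u v : V) (h : G.Adj u v), Function.Injective ⇑(γ u v h)) ∧
        (∀ (u v : V) (h : G.Adj u v) (w : V) (t : unitInterval),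
          0 < (t : ℝ) → (t : ℝ) < 1 → γ u v h t ≠ p w) ∧
        (∀ (u v : V) (h : G.Adj u v) (u' v' : V) (h' : G.Adj u' v')
            (s t : unitInterval),
          Sym2.mk (u, v) ≠ Sym2.mk (u', v') →
          0 < (s : ℝ) → (s : ℝ) < 1 → 0 < (t : ℝ) → (t : ℝ) < 1 →
          γ u v h s ≠ γ u' v' h' t)) →
      ∃ c : V → Fin 4, ∀ v w₁ w₂ : V,
        G.Adj v w₁ → G.Adj v w₂ → c w₁ = c v → c w₂ = c v → w₁ = w₂ := by
  rintro V _ G ⟨p, γ, h1, h2, h3, h4⟩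
  refine full_of h V G ⟨p, γ, h1, h2, h3, fun u v e u' v' e' s t hne => h4 u v e u' v' e' s t ?_⟩
  intro he
  have h5 := congrFun he (u, v)
  rw [Sym2.eq_iff] at h5
  apply hne
  rcases h5 with ⟨h6, -⟩ | ⟨-, h6⟩
  · cases h6; rfl
  · cases h6; rfl

end Pool.Agent.P.MP_08fd93_co.FZ
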