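import Pool.Agent.P.MP_08fd93_co.FZ.E1
import Pool.Agent.P.MP_08fd93_co.FN.N11

/-! Frames with one orbit of ears: a system of flows gives the colouring. -/

set_option autoImplicit false

namespace Pool.Agent.P.MP_08fd93_co.FZ

open OV FN FE FB FK

variable {J : Type} {G : VD J} {v l r e g k x y : Vx J} {φ : Vx J → Vx J} {j : ℤ} {E : EJ J}
  {fz : Prop}

theorem ER.nx_ne (h : ER G v l r) (hy : y ∈ G.LA) : (G.nx y).1 ≠ y.1 := fun c => by
  obtain ⟨n1, n2, -⟩ := h.rows.nx_mem hy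
  obtain ⟨m, -, a⟩ := same_cls h.sv.lay hy n1 c.symm
  have a : G.ρ (G.nx y) = G.ρ y + m * G.nn (G.f y) := a
  have := h.n3 (G.f y)
  rcases le_or_gt m 0 with c | c <;> nlinarith

/-- The plan: the right foot is monochromatic with the root, or the root pays for it. -/
theorem ER.plan (h : ER G v l r) {D : ED J} (hE : EOk (FL G) D) (src : G.xr v ∈ D.Src) :
    ∃ p p0 : PD J, RP (FL G) D p0.c p0.o p0.dn ∧ Plan0 (FL G) (XL G) p ∧ p.dn = p0.dn ∧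
      (∀ x ∈ G.LA, p.c x.1 = p0.c x.1) ∧ (∀ x ∈ G.LA, x.1 ≠ (G.xr v).1 → p.o x = p0.o x) ∧
      (∀ k ∈ G.K, (p.c k.1).1 = p.cls (G.f k - 1)) ∧
      ∀ e, IsR G e → PayK p e (G.an e) (G.xr (G.an e)) := by
  classical
  have hF := h.sv.lay
  have R := h.rows
  have V := h.sv.vf
  obtain ⟨c0, o0, dn, hR⟩ := rp_ex hF R.wp.ev hE
  set u := G.xr v with hu
  let m : Prop := c0 u.1 = c0 (G.xl v).1
  let c : J → Col := fun i =>
    if i = v.1 then (if m then ((c0 u.1).1, !(c0 u.1).2) else c0 u.1) else c0 i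
  let o : Vx J → Vx J := fun x => if x.1 = v.1 then (if m then x else tr (x.2 - v.2) u) else
    if x.1 = u.1 ∧ ¬ m then tr (x.2 - u.2) v else o0 x
  let p0 : PD J := ⟨c0, o0, dn, fun _ => c0 u.1, fun j => decide (Even j), id⟩
  let p1 : PD J := ⟨c, o, dn, fun _ => c0 u.1, fun j => decide (Even j), fun x => tr (x.2 - v.2) r⟩
  let p : PD J := { p1 with cx := cxS (FL G) p1 }
  replace hR : RP (FL G) D p0.c p0.o p0.dn := hR
  have ul := R.la h.xr0.1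
  have xl := R.la h.xl0.1
  have ec : ∀ x ∈ G.LA, p.c x.1 = c0 x.1 := fun x hx => if_neg (h.la_nk hx)
  have eo : ∀ x ∈ G.LA, x.1 ≠ u.1 ∨ m → p.o x = o0 x := fun x hx a =>
    (if_neg (h.la_nk hx)).trans (if_neg fun b => a.elim (fun a => a b.1) b.2)
  have cv : p.c v.1 = if m then ((c0 u.1).1, !(c0 u.1).2) else c0 u.1 := if_pos rfl
  have sub : ∀ (a : ℤ × ℤ) (x : Vx J), (tr a x).2 - x.2 = a := fun a x => by simp [tr]
  have kc : ∀ k ∈ G.K, (p.c k.1).1 = decide (Even (G.f k - 1)) := fun k hk => by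
    have e1 : (c0 u.1).1 = decide (Even (G.f u)) := hR.cl u ul
    rw [R.uw.lf _ _ h.xr0.1] at e1
    rw [(h.eK k).1 hk, cv, decide_eq_true ((h.odd hk).sub_odd odd_one)]
    split_ifs <;> simpa using e1
  refine ⟨p, p0, hR, ⟨fun j => ?_, fun x hx => (congrArg Prod.fst (ec x hx)).trans (hR.cl x hx),
    fun a x hx => ?_, fun a x _ => tr_sub a x v r, fun k hk y hy a e => ?_, fun y hy e => ?_,
    fun _ => rfl⟩, rfl, ec, fun x hx n => eo x hx (Or.inl n), kc, fun e i => ?_⟩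
  · simp only [p, p1, ne_eq, decide_eq_decide, Int.even_add_one]
    tauto
  · show o (tr a x) = tr a (o x)
    by_cases k1 : x.1 = v.1
    · simp only [o, if_pos k1, if_pos (show (tr a x).1 = v.1 from k1)]
      split_ifs
      exacts [rfl, tr_sub a x v u]
    simp only [o, if_neg k1, if_neg (show ¬ (tr a x).1 = v.1 from k1)]
    by_cases k2 : x.1 = u.1 ∧ ¬ m
    · rw [if_pos k2, if_pos (show (tr a x).1 = u.1 ∧ ¬ m from k2)]
      exact tr_sub a x u v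
    · rw [if_neg k2, if_neg (show ¬ ((tr a x).1 = u.1 ∧ ¬ m) from k2)]
      exact hR.otr hF hE a (hx.resolve_right fun k => k1 ((h.eK x).1 k))
  · have hk : k ∈ G.K := hk
    have hy : y ∈ G.LA := hy.resolve_right fun b =>
      a.ne (h.sv.t_mem ⟨hk, b, V.kn k hk y b a⟩)
    have c1 := kc k hk
    obtain ⟨b, rfl⟩ := h.k_tr hk
    have e : c0 y.1 = p.c v.1 := (ec y hy).symm.trans e
    rw [cv] at e
    rcases h.k_nb hk hy a with q | q | q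
    · rw [q, (V.xtr b v).1] at e
      by_cases hm : m
      · rw [if_pos hm] at e
        exact absurd (e.symm.trans hm.symm) (flip_ne _)
      · rw [if_neg hm] at e
        exact absurd e.symm hm
    · rw [(V.xtr b v).2.1] at q
      subst q
      have hm : ¬ m := fun hm => by
        rw [if_pos hm] at e
        exact flip_ne _ e.symm
      refine ⟨(if_pos rfl).trans ((if_neg hm).trans ?_),
        (if_neg (h.la_nk hy)).trans ((if_pos ⟨rfl, hm⟩).trans ?_)⟩ <;> rw [sub]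
    · have c2 : (c0 y.1).1 = decide (Even (G.f y)) := hR.cl y hy
      rw [← cv] at e
      rw [e, show p.c v.1 = p.c (tr b v).1 from rfl, c1, q, decide_eq_decide, Int.even_sub_one] at c2
      tauto
  · have hy : y ∈ G.LA := hy
    have n := nx_la hF hy
    have e : c0 (G.nx y).1 = c0 y.1 := (ec _ n).symm.trans (e.trans (ec y hy))
    obtain ⟨a1, a2⟩ := hR.mono hF hE hy e
    refine ⟨(eo y hy (Or.inl fun q => ?_)).trans a1, (eo _ n ?_).trans a2⟩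
    · exact hE.dis y (orb_eq q ▸ hE.isrc _ _ src) (hR.mono_snk hE hy e)
    · refine or_iff_not_imp_left.2 fun q => ?_
      have q : (G.nx y).1 = u.1 := not_not.1 q
      have q' := (R.nx_orb hy xl).1 (q.trans (by rw [h.nx_xl]))
      rwa [q, q'] at e
  · obtain ⟨a, rfl, ha⟩ := h.isR i
    rw [ha, (V.xtr a v).2.1]
    by_cases hm : m
    · exact Or.inr (Or.inl ⟨(if_pos rfl).trans (if_pos hm), by
        show tr ((tr a v).2 - v.2) r = _
        rw [sub]⟩)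
    · exact Or.inl (cv.trans ((if_neg hm).trans (ec u ul).symm))

/-- The colouring from a system of flows whose source on the row zero begins at the right foot. -/
theorem ER.col [Fintype J] (h : ER G v l r) (hφ : PH (FL G) G.Pr φ)
    (H : ES (FL G) φ E (G.xr v) l fz) (hz : fz → G.Γ.Adj l v)
    (kid : l.1 ∈ E.Pn ∨ r.1 ∈ E.Pn) (fr : ∀ i ∈ E.Fr, ∃ g, Fan G v g ∧ i = g.1) :
    ∃ c, Col1 G.Γ ∅ c := by
  classical
  have hF := h.sv.lay
  have R := h.rows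
  have V := h.sv.vf
  have ul := R.la h.xr0.1
  have xl := R.la h.xl0.1
  obtain ⟨W, rk, N, hw⟩ := pw_ex (A := (FL G).LA)
    (G := {y | y.1 ∈ E.Pn ∨ y.1 = (G.xl v).1}) (φ := φ) (fun a x k => (hF.la_tr a x).2 k)
    (fun _ _ k => k) hφ.eqv
  let D : ED J := ⟨{y | y.1 ∈ E.Sr}, {y | y.1 ∈ E.Sk}, {y | y.1 ∈ E.Sk}, ∅,
    {y | y.1 ∈ E.Pn ∨ y ∈ W}, Set.univ⟩
  have hE : EOk (FL G) D := ⟨fun _ _ k => k, fun _ _ k => k, fun _ _ k => k, fun _ _ k => k,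
    fun a x k => k.imp_right (hw.inv a x).2, fun _ _ k => k, fun x k => (H.dis _ k).1,
    fun _ k => k, fun _ k => k.elim, H.ne, H.alt⟩
  obtain ⟨p, p0, hR, pl, e1, e2, e3, kc, pay⟩ := h.plan hE H.src
  let P : Set (Vx J) := {y | (y.1 ∈ E.Pn ∨ y.1 = (G.xl v).1) ∨ y ∈ W}
  let Vs : Set (Vx J) := {x | ∃ g ∈ P, g ∈ G.LA ∧ (x = g ∨ x = G.nx g)}
  have tR : ∀ y ∈ G.LA, y.1 ∉ E.Sr → p0.R (FL G) y → p.R (FL G) y := fun y hy n a =>
    (e3 y hy fun q => n (q ▸ H.src)).trans a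
  have tL : ∀ y ∈ G.LA, y.1 ≠ (G.xl v).1 → p0.Lt (FL G) (G.nx y) → p.Lt (FL G) (G.nx y) :=
    fun y hy n a => by
      have := e3 _ (nx_la hF hy) fun q => n ((R.nx_orb hy xl).1 (q.trans (by rw [h.nx_xl])))
      unfold PD.Lt at a ⊢
      rwa [show p.o (G.nx y) = _ from this]
  have tD : ∀ y ∈ G.LA, y.1 ∉ E.Sr → y.1 ≠ (G.xl v).1 → (p0.R (FL G) y ∧ y.1 ∈ p0.dn) ∨
      (p0.Lt (FL G) (G.nx y) ∧ (G.nx y).1 ∈ p0.dn) → p.Dn (FL G) y := fun y hy a b k =>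
    Or.inr (k.imp (fun k => ⟨tR y hy a k.1, e1 ▸ k.2⟩) fun k => ⟨tL y hy b k.1, e1 ▸ k.2⟩)
  have ip : ∀ a x, tr a x ∈ P ↔ x ∈ P := fun a x => or_congr_right (hw.inv a x)
  have hp : PS (FL G) (XL G) G.Pr p (PQ1 G P Vs True False) := by
    refine h.sv.ps1 pl ip (inv_iff ?_) (fun y hy n => Or.inr ?_) (fun _ k _ => Or.inl k) fun j => ?_
    · rintro a x ⟨g, g1, g2, k⟩
      refine ⟨_, (ip a g).2 g1, (hF.la_tr a g).2 g2, ?_⟩
      rw [R.nx_tr a g2]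
      exact k.imp (congrArg _) (congrArg _)
    · have a : y.1 ∉ E.Sr := fun k => n (Or.inl (Or.inl (Or.inl k)))
      exact (hR.up hF hE hy a fun k => n (k.imp_left Or.inl)).imp
        (fun k => ⟨tR y hy a k.1, e1 ▸ k.2⟩)
        fun k => ⟨tL y hy (fun q => n (Or.inl (Or.inr q))) k.1, e1 ▸ k.2⟩
    · obtain ⟨s, hs, k⟩ := H.ne j
      obtain ⟨w1, w2⟩ := hF.w_mem 1 hs
      obtain ⟨g, g1, g2, -⟩ := H.alt j s hs _ w1 k k (by have := hF.n2 j; omega)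
      exact ⟨g, g1, g, Or.inl (Or.inl (Or.inl g2)), hF.la g1, Or.inl rfl⟩
  have st : StC G p Vs True False := by
    refine ⟨fun k hk => ?_, kc, fun e i => Or.inr (pay e i), fun _ _ => Or.inl trivial⟩
    obtain ⟨a, rfl⟩ := h.k_tr hk
    have l1 := (hF.la_tr a l).2 (R.la h.hl.1)
    have r1 := (hF.la_tr a r).2 (R.la h.hr.1)
    rcases kid with k | k
    · exact ⟨_, nx_la hF l1, ⟨tr a l, Or.inl (Or.inl k), l1, Or.inr rfl⟩, by
        rw [show (FL G).nx (tr a l) = _ from R.nx_tr a h.hl.1, V.atr, h.hl.2.1]⟩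
    · exact ⟨_, r1, ⟨tr a r, Or.inl (Or.inl k), r1, Or.inl rfl⟩, by rw [V.atr, h.hr.2.1]⟩
  have hv : ∀ e, VisE G P Vs True False e := fun e => ⟨fun i => by
    obtain ⟨a, -, ha⟩ := h.isR i
    rw [ha, (V.xtr a v).2.1]
    exact Or.inr (Or.inl (Or.inl (Or.inl (Or.inl H.src)))), fun _ => Or.inl trivial⟩
  refine h.sv.master hp st hφ (fun y hy => ?_) fun e he => ?_
  · induction hn : rk y using Nat.strong_induction_on generalizing y with
    | _ n ih =>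
      by_cases k : y ∈ P
      · exact ⟨0, st1.2 (Or.inl k)⟩
      · obtain ⟨m, hm⟩ := ih _ (hn ▸ hw.lt y hy (fun g => k (Or.inl g)) fun g => k (Or.inr g)) _
          (hφ.la hF hy) rfl
        exact ⟨m + 1, hm⟩
  have sp : ∀ {e}, Spc G p (PQ1 G P Vs True False) e →
      ∃ a, Spc G p (PQ1 G P Vs True False) (tr a e) := fun k => ⟨0, (tr_zero _).symm ▸ k⟩
  let ε := s(G.an (G.nx e), G.xl (G.an (G.nx e)))
  let Rl : Set (Sym2 (Vx J)) :=
    {z | (∃ g ∈ G.LA, φ g = e ∧ g.1 ∈ E.Pn ∧ z = s(g, G.nx g)) ∨ (IsL G e ∧ z = ε)}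
  have ss : ∀ z ∈ SS G P True False e, z ∈ Rl ∨ ∃ g ∈ W, φ g = e ∧ z = s(g, G.nx g) := by
    rintro z ⟨m, ⟨g, g1, g2, rfl⟩ | ⟨-, k, rfl⟩ | ⟨k, -⟩⟩
    · obtain ⟨a, b⟩ := h.bt_phi hφ he g2 m
      exact g1.imp (fun k => Or.inl ⟨g, g2, a, k.resolve_right b, rfl⟩) fun k => ⟨g, k, a, rfl⟩
    · exact Or.inl (Or.inr ⟨⟨he, k, bt_ne (PE.ends m (Sym2.mem_mk_left _ _))
        (PE.ends m (Sym2.mem_mk_right _ _)) (h.sv.foot k).1.2.ne⟩, rfl⟩)
    · exact k.elim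
  have nw : e ∉ W → SS G P True False e ⊆ Rl := fun n z m =>
    (ss z m).resolve_right fun ⟨g, a, b, _⟩ => n (b ▸ hw.up g a)
  have lev : ∀ g ∈ G.LA, φ g = e → g ∈ G.L (G.f e - 1) := fun g hg a => by
    have : G.f (φ g) = G.f g + 1 := hφ.lev hF hg
    rwa [← a, this, add_sub_cancel_right]
  have same : ∀ g ∈ G.LA, ∀ g' ∈ G.LA, φ g = e → φ g' = e → g.1 = g'.1 → g = g' :=
    fun g a g' _ b b' c => hφ.inj1 a c (b.trans b'.symm)
  have mer : ∀ g ∈ G.LA, ∀ g' ∈ G.LA, φ g = e → φ g' = e → g.1 ∈ E.Pn → g'.1 ∈ E.Pn →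
      g.1 ∉ E.Fr → g'.1 ∉ E.Fr → g = g' ∨ (e.1 ∈ E.Sk ∧ e.1 ∈ E.Ps) :=
    fun g a g' a' b b' c c' n n' => or_iff_not_imp_left.2 fun q => b ▸ H.mer _ g (lev g a b) g'
      (lev g' a' b') c c' n n' (fun k => q (same g a g' a' b b' k)) (by rw [b, b'])
  have fan : ∀ g ∈ G.LA, φ g = e → g.1 ∈ E.Fr → e.1 = (G.xl v).1 ∧
      ((g = G.an e ∧ G.Γ.Adj e (G.nx g)) ∨ (G.nx g = G.an (G.nx e) ∧ G.Γ.Adj (G.nx e) g)) := by
    intro g _ b c
    obtain ⟨g1, f1, k⟩ := fr _ c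
    obtain ⟨a, rfl⟩ : ∃ a, g = tr a g1 := ⟨_, orb_eq k⟩
    rw [hφ.eqv a g1 (R.la f1.1), h.fan_phi hφ f1] at b
    rw [← b, R.nx_tr a f1.1, R.nx_tr a h.xl0.1, h.nx_xl, V.atr, V.atr]
    exact ⟨rfl, f1.2.imp (fun k => ⟨congrArg _ k.1, R.fine.inv a _ _ k.2⟩)
      fun k => ⟨congrArg _ k.1, R.fine.inv a _ _ k.2⟩⟩
  by_cases ch : e.1 = (G.xl v).1
  · refine Or.inr (sp (spc_st h.sv hp st (Or.inl (Or.inr ch)) (hv e) fun M d hd c s => ?_))
    have pn : ∀ z ∈ SS G P True False e, ∃ g ∈ G.LA, φ g = e ∧ g.1 ∈ E.Pn ∧ z = s(g, G.nx g) :=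
      fun z m => (nw (fun k => hw.ng e k (Or.inr ch)) m).resolve_right fun k => by
        obtain ⟨a, q, -⟩ := h.isL k.1
        exact h.par h.xl0.1 h.hl.1 (ch.symm.trans (by rw [q]; rfl))
    have sep : ∀ g ∈ G.LA, φ g = e → g.1 ∈ E.Fr → s(g, G.nx g) ∈ SS G P True False e →
        ∀ z ∈ insert s(d.a', d.b') (SS G P True False e), z ≠ s(g, G.nx g) →
        Sep G.Γ d s(g, G.nx g) z ∨ Sep G.Γ d z s(g, G.nx g) := fun g a b f m z mz n =>
      fan_sep h.sv hd c a (fan g a b f).2 (s m) (mz.imp_right fun k =>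
        let ⟨y, y1, _, _, y2⟩ := pn z k
        ⟨y, y1, fun q => n (q ▸ y2), y2, s k⟩)
    by_cases all : ∀ g ∈ G.LA, φ g = e → g.1 ∈ E.Pn → g.1 ∈ E.Fr
    · refine sl_adm hF hd.hM hd.mc c.us rfl s (FU.Adm.admP ⟨?_, fun z mz z' mz' n => ?_⟩)
      · rintro z (rfl | k)
        exacts [Or.inr (mem_PE.2 ⟨hd.mc.disc.py.ha, hd.mc.disc.py.hb,
          one_edge hF hd.hM c.us hd.mc rfl⟩), Or.inl (s k)]
      · rcases id mz with q | k
        · have k := mz'.resolve_left fun k => n (q.trans k.symm)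
          obtain ⟨g, a, b, f, rfl⟩ := pn z' k
          exact (sep g a b (all g a b f) k z mz n).symm
        · obtain ⟨g, a, b, f, rfl⟩ := pn z k
          exact sep g a b (all g a b f) k z' mz' n.symm
    · simp only [not_forall] at all
      obtain ⟨g0, a0, b0, c0, n0⟩ := all
      have nP : e.1 ∉ E.Pn := fun k => h.nx_ne xl (by
        rw [h.nx_xl]
        exact (H.one _ h.xl0.1 (ch ▸ k)).symm)
      have sk : e.1 ∈ E.Sk := (b0 ▸ H.arr g0 a0 c0 n0).resolve_right fun k => nP (Or.inr k)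
      refine sl_adm1 hF hd.hM hd.mc c.us s (FU.Adm.admP ⟨fun z k => Or.inl (s k),
        fun z mz z' mz' n => ?_⟩) fun _ => c.t1 hF (Or.inr (Or.inl ⟨tR e he
          (fun k => nP (Or.inl k)) (hR.snk hF hE he sk).1,
          e1 ▸ (hR.snk_dn hF hE he sk).1.2 (Or.inr trivial)⟩))
      obtain ⟨g, a, b, f, rfl⟩ := pn z mz
      obtain ⟨g', a', b', f', rfl⟩ := pn z' mz'
      by_cases k : g.1 ∈ E.Fr
      · exact sep g a b k mz _ (Or.inr mz') n.symm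
      by_cases k' : g'.1 ∈ E.Fr
      · exact (sep g' a' b' k' mz' _ (Or.inr mz) n).symm
      rcases mer g a g' a' b b' f f' k k' with q | q
      exacts [absurd (by rw [q]) n, absurd (Or.inr q.2) nP]
  have nf : ∀ g ∈ G.LA, φ g = e → g.1 ∉ E.Fr := fun g a b k => ch (fan g a b k).1
  have row0 : IsL G e → e.1 = l.1 ∧ ∀ g ∈ G.LA, φ g = e → g.1 ∈ E.Pn →
      g.1 = (G.xr v).1 ∧ (φ (G.xr v)).1 = l.1 := fun i => by
    obtain ⟨a, q, -⟩ := h.isL i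
    have q1 : e.1 = l.1 := by rw [q]; rfl
    refine ⟨q1, fun g g1 g2 g3 => ?_⟩
    have := (R.uw.ltr (-a) _ g).2 (lev g g1 g2)
    rw [q, R.wp.per, R.uw.lf _ _ h.hl.1, map_neg,
      show 1 + G.η a - 1 + -G.η a = 0 by ring] at this
    have k := H.one _ this g3
    exact ⟨k, (hφ.fst g1 k).symm.trans (g2 ▸ q1)⟩
  by_cases z0 : IsL G e ∧ fz ∧ l.1 ∈ E.Pn ∧ (φ (G.xr v)).1 ≠ l.1
  · obtain ⟨i, z1, z2, z3⟩ := z0
    obtain ⟨q1, q2⟩ := row0 i
    refine Or.inr (sp (spc_st h.sv hp st (Or.inl (Or.inl (q1 ▸ z2))) (hv e) fun M d hd c s => ?_))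
    have sub : SS G P True False e ⊆ {ε} := fun z m =>
      ((nw (fun k => hw.ng e k (Or.inl (q1 ▸ z2))) m).resolve_left
        fun ⟨g, a, b, f, _⟩ => z3 (q2 g a b f).2).2
    have m := s (h.sv.ssL i trivial)
    have eb : d.b = G.an (G.nx e) := hd.eb.trans (congrArg _ c.es')
    refine (sl_sep hF hd.hM hd.mc c.us rfl m hd.mc.disc.px.hb ?_ fun x k =>
      hd.mc.disc.px.hi x (PE.ends m k)).mono sub (Set.empty_subset _)
    obtain ⟨a, q, q'⟩ := h.isL i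
    rw [c.es, eb, q', q]
    exact R.fine.inv a _ _ (hz z1)
  have ep : IsL G e → (e.1 ∈ E.Sk ∨ e.1 ∈ E.Ps) ∧ ∀ g ∈ G.LA, φ g = e → g.1 ∈ E.Pn →
      e.1 ∈ E.Sk ∧ e.1 ∈ E.Ps := fun i => by
    obtain ⟨q1, q2⟩ := row0 i
    obtain ⟨a, b⟩ := H.eps.resolve_left fun k => z0 ⟨i, k⟩
    rw [q1]
    exact ⟨a, fun g g1 g2 g3 => b (q2 g g1 g2 g3).2⟩
  have r1 : ∀ z ∈ Rl, e.1 ∈ E.Sk ∨ e.1 ∈ E.Ps := by
    rintro z (⟨g, a, b, f, -⟩ | ⟨i, -⟩)
    exacts [b ▸ H.arr g a f (nf g a b), (ep i).1]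
  have r2 : ¬ (e.1 ∈ E.Sk ∧ e.1 ∈ E.Ps) → Rl.Subsingleton := by
    rintro n z (⟨g, a, b, f, rfl⟩ | ⟨i, rfl⟩) z' (⟨g', a', b', f', rfl⟩ | ⟨i', rfl⟩)
    exacts [by rw [(mer g a g' a' b b' f f' (nf g a b) (nf g' a' b')).resolve_right n],
      absurd ((ep i').2 g a b f) n, absurd ((ep i).2 g' a' b' f') n, rfl]
  have r3 : ∃ a b, Rl ⊆ {a, b} := by
    by_cases ex : ∃ g ∈ G.LA, φ g = e ∧ g.1 ∈ E.Pn
    swap
    · exact ⟨ε, ε, fun z m => Or.inl (m.resolve_left fun ⟨g, a, b, f, _⟩ => ex ⟨g, a, b, f⟩).2⟩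
    obtain ⟨g, a, b, f⟩ := ex
    by_cases ex : ∃ g' ∈ G.LA, φ g' = e ∧ g'.1 ∈ E.Pn ∧ g' ≠ g
    · obtain ⟨g', a', b', f', n⟩ := ex
      refine ⟨s(g, G.nx g), s(g', G.nx g'), ?_⟩
      rintro z (⟨y, y1, y2, y3, rfl⟩ | ⟨i, -⟩)
      · rcases H.two _ g (lev g a b) g' (lev g' a' b') y (lev y y1 y2) f f' y3 with k | k | k
        exacts [absurd (same g a g' a' b b' k).symm n, Or.inl (by rw [same g a y y1 b y2 k]),
          Or.inr (by rw [same g' a' y y1 b' y2 k]; rfl)]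
      · exact absurd (same g' a' g a b' b (((row0 i).2 g' a' b' f').1.trans
          ((row0 i).2 g a b f).1.symm)) n
    · refine ⟨s(g, G.nx g), ε, ?_⟩
      rintro z (⟨y, y1, y2, y3, rfl⟩ | ⟨-, rfl⟩)
      exacts [Or.inl (by rw [not_not.1 fun n => ex ⟨y, y1, y2, y3, n⟩]), Or.inr rfl]
  have ww : ∀ g ∈ W, ∀ g' ∈ W, φ g = e → φ g' = e → g = g' := fun g a g' a' b b' =>
    hw.inj g a g' a' (b.trans b'.symm)
  by_cases t2 : e.1 ∈ E.Sk ∧ (e.1 ∈ E.Ps ∨ e ∈ W)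
  · have pin : e ∈ D.Pin := t2.2.imp_left Or.inr
    have ns : e.1 ∉ E.Sr := fun k => (H.dis _ k).1 t2.1
    refine Or.inr (sp (spc_st h.sv hp st (pin.imp_left Or.inl) (hv e) fun M d hd c s =>
      c.eb hF hd.hM hd.mc s ?_ (Or.inr ⟨tR e he ns (hR.snk hF hE he t2.1).1,
        e1 ▸ (hR.snk_dn hF hE he t2.1).1.2 (Or.inl pin), tL e he ch (hR.snk hF hE he t2.1).2,
        e1 ▸ (hR.snk_dn hF hE he t2.1).2.2 (Or.inl pin)⟩)))
    by_cases k : e ∈ W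
    · obtain ⟨w, w1, w2⟩ := hw.dn e k
      obtain ⟨a, ha⟩ : ∃ a, Rl ⊆ {a} := by
        rcases (r2 fun q => hw.ng e k (Or.inl (Or.inr q.2))).eq_empty_or_singleton with q | ⟨a, q⟩
        exacts [⟨ε, q ▸ Set.empty_subset _⟩, ⟨a, q.subset⟩]
      exact ⟨a, s(w, G.nx w), fun z m => (ss z m).imp (fun q => ha q)
        fun ⟨y, y1, y2, y3⟩ => ww y y1 w w1 y2 w2 ▸ y3⟩
    · obtain ⟨a, b, q⟩ := r3
      exact ⟨a, b, (nw k).trans q⟩
  refine Or.inl ⟨?_, hv e⟩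
  by_cases k : e ∈ W
  · have nP := fun q => hw.ng e k (Or.inl q)
    obtain ⟨w, w1, w2⟩ := hw.dn e k
    refine od1_one (f := s(w, G.nx w)) (fun z m => (ss z m).elim (fun q => ?_)
      fun ⟨y, y1, y2, y3⟩ => ww y y1 w w1 y2 w2 ▸ y3) (tD e he (fun q => nP (Or.inl q)) ch
        (hR.down hF he (fun q => nP (Or.inl q)) (Or.inr k)))
    exact ((r1 z q).elim (fun a => t2 ⟨a, Or.inr k⟩) fun a => nP (Or.inr a)).elim
  rcases (r2 fun q => t2 ⟨q.1, Or.inl q.2⟩).eq_empty_or_singleton with q | ⟨a, q⟩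
  · exact od1_none (q ▸ nw k)
  have ns : e.1 ∉ E.Sr := fun s => (r1 a (q ▸ rfl)).elim (H.dis _ s).1 (H.dis _ s).2
  refine od1_one (q ▸ nw k) (tD e he ns ch ?_)
  exact (r1 a (q ▸ rfl)).elim (fun s => hR.snk_down hF hE he s)
    fun s => hR.down hF he ns (Or.inl (Or.inr s))

end Pool.Agent.P.MP_08fd93_co.FZ
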