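import Pool.Agent.P.MP_08fd93_co.OV.All

/-! Removal of hanging parts for every class of periodic graphs with a geodesic line. -/

set_option autoImplicit false

namespace Pool.Agent.P.MP_08fd93_co.FZ

open OV OV.H15

variable {J : Type}

/-- A geodesic line. -/
structure Geo (Γ : SimpleGraph (Vx J)) (l : ℤ → Vx J) : Prop where
  adj : ∀ i, Γ.Adj (l i) (l (i + 1))
  dist : ∀ i j, Γ.dist (l i) (l j) = (i - j).natAbs

/-- A periodic colouring with defect one in which the orbits in `M` have defect zero. -/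
def ColM (Γ : SimpleGraph (Vx J)) (M : Set J) : Prop :=
  ∃ c : J → Col, Col1 Γ ∅ c ∧ ∀ x y : Vx J, x.1 ∈ M → Γ.Adj x y → c y.1 ≠ c x.1

theorem Geo.tr {Γ : SimpleGraph (Vx J)} (hF : Fine Γ) {l : ℤ → Vx J} (h : Geo Γ l) (a : ℤ × ℤ) :
    Geo Γ fun i => tr a (l i) :=
  ⟨fun i => hF.inv a _ _ (h.adj i), fun i j => by rw [hF.dist_tr, h.dist]⟩

/-- A geodesic line avoids a hanging part. -/
theorem Geo.avoid {Γ : SimpleGraph (Vx J)} {l : ℤ → Vx J} (h : Geo Γ l) {D : Set (Vx J)}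
    {a b : Vx J} (hfin : D.Finite) (hab : a = b ∨ Γ.Adj a b) (hD : Nb Γ D ⊆ D ∪ {a, b}) :
    ∀ i, l i ∉ D := by
  intro i0 hi0
  have hinj : Function.Injective l := by
    intro i j e
    have h1 := h.dist i j
    rw [e, SimpleGraph.dist_self] at h1
    omega
  have hI : (l ⁻¹' D).Finite := hfin.preimage hinj.injOn
  obtain ⟨lo, hlo⟩ := hI.bddBelow
  obtain ⟨hi, hhi⟩ := hI.bddAbove
  obtain ⟨p, ⟨hp1, hp2⟩, hp3⟩ := Int.exists_greatest_of_bdd (P := fun i => i < i0 ∧ l i ∉ D)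
    ⟨i0, fun z hz => hz.1.le⟩ ⟨lo - 1, by
      have := hlo hi0
      exact ⟨by omega, fun h => by have := hlo h; omega⟩⟩
  obtain ⟨q, ⟨hq1, hq2⟩, hq3⟩ := Int.exists_least_of_bdd (P := fun i => i0 < i ∧ l i ∉ D)
    ⟨i0, fun z hz => hz.1.le⟩ ⟨hi + 1, by
      have := hhi hi0
      exact ⟨by omega, fun h => by have := hhi h; omega⟩⟩
  have hp4 : l (p + 1) ∈ D := by
    by_cases h : p + 1 = i0
    · rw [h]; exact hi0
    · by_contra h'
      have := hp3 (p + 1) ⟨by omega, h'⟩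
      omega
  have hq4 : l (q - 1) ∈ D := by
    by_cases h : q - 1 = i0
    · rw [h]; exact hi0
    · by_contra h'
      have := hq3 (q - 1) ⟨by omega, h'⟩
      omega
  have h1 : l p ∈ D ∪ {a, b} := hD ⟨l (p + 1), hp4, h.adj p⟩
  have h2 : l q ∈ D ∪ {a, b} := by
    refine hD ⟨l (q - 1), hq4, ?_⟩
    have := (h.adj (q - 1)).symm
    simpa using this
  have e := h.dist p q
  have hab1 : Γ.dist a b ≤ 1 ∧ Γ.dist b a ≤ 1 := by
    rcases hab with h | h
    · rw [h, SimpleGraph.dist_self]; omega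
    · rw [dist_adj h, dist_adj h.symm]; omega
  have haa : Γ.dist a a = 0 := SimpleGraph.dist_self
  have hbb : Γ.dist b b = 0 := SimpleGraph.dist_self
  rcases h1 with h1 | h1 | h1
  · exact hp2 h1
  all_goals
    rcases h2 with h2 | h2 | h2
    · exact hq2 h2
    all_goals
      try rw [Set.mem_singleton_iff] at h1
      try rw [Set.mem_singleton_iff] at h2
      rw [h1, h2] at e
      omega

open PkJk1P in
/-- Translates of a hanging part. -/
theorem jk_tr {Γ : SimpleGraph (Vx J)} (hF : Fine Γ) {l : ℤ → Vx J} (hl : Geo Γ l)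
    {D : Set (Vx J)} {a b : Vx J} (hfin : D.Finite) (hconn : IsConn Γ D) (ha : a ∉ D)
    (hb : b ∉ D) (hab : a = b ∨ Γ.Adj a b) (hD : Nb Γ D ⊆ D ∪ {a, b}) (c : ℤ × ℤ) :
    tr c a ∉ D ∧ tr c b ∉ D ∧ (c ≠ 0 → ∀ x ∈ D, tr c x ∉ D) := by
  classical
  set S : Set (Vx J) := {x | ∃ i c, x = tr c (l i)} with hS
  have hS1 : ∀ c, ∀ x ∈ S, tr c x ∈ S := by
    rintro c x ⟨i, e, rfl⟩
    exact ⟨i, e + c, H15.tr_tr _ _ _⟩
  have hS2 : ∀ x ∈ S, x ∉ D := by
    rintro x ⟨i, e, rfl⟩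
    exact (hl.tr hF e).avoid hfin hab hD i
  have hex : ∀ x, ∃ n, x ∈ R Γ S n := by
    intro x
    refine cclosed (K := {x | ∃ n, x ∈ R Γ S n}) (a := l 0) ⟨0, 0, 0, (H15.tr_zero _).symm⟩ ?_
      (hF.pl.conn (l 0) trivial x trivial)
    rintro p ⟨n, hp⟩ q - e
    exact ⟨n + 1, Or.inr ⟨p, hp, e.symm⟩⟩
  set hh : Vx J → ℕ := fun x => Nat.find (hex x) with hhh
  have hle : ∀ c x, hh (tr c x) ≤ hh x := fun c x =>
    Nat.find_min' _ (R_tr hF.inv hS1 c _ x (Nat.find_spec (hex x)))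
  have h1 : ∀ c x, hh (tr c x) = hh x := by
    intro c x
    apply le_antisymm (hle c x)
    have := hle (-c) (tr c x)
    rwa [H15.tr_neg] at this
  have h2 : ∀ x ∈ D, hh a < hh x ∨ hh b < hh x := by
    intro x hx
    obtain ⟨m, hm, h | h⟩ := R_exit hS2 hD _ x hx (Nat.find_spec (hex x))
    · exact Or.inl (lt_of_le_of_lt (Nat.find_min' (hex a) h) hm)
    · exact Or.inr (lt_of_le_of_lt (Nat.find_min' (hex b) h) hm)
  have hA : ∀ c, tr c a ∉ D := ends hF.inv ha hab hD hh h1 h2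
  have hB : ∀ c, tr c b ∉ D := by
    refine ends hF.inv hb (a := b) (b := a) ?_ ?_ hh h1 (fun x hx => (h2 x hx).symm)
    · rcases hab with h | h
      · exact Or.inl h.symm
      · exact Or.inr h.symm
    · rwa [Set.pair_comm]
  refine ⟨hA c, hB c, ?_⟩
  intro hc x hx hx'
  have hsub : ∀ y ∈ D, tr c y ∈ D := by
    intro y hy
    have h3 : Conn Γ (tr c '' D) (tr c x) (tr c y) :=
      isConn_tr hF.inv c hconn _ (Set.mem_image_of_mem _ hx) _ (Set.mem_image_of_mem _ hy)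
    refine cclosed hx' ?_ h3
    intro p hp q hq hpq
    rcases hD ⟨p, hp, hpq.symm⟩ with h | h | h
    · exact h
    · rw [h] at hq
      exact absurd (mem_tr.1 hq) (hA _)
    · rw [Set.mem_singleton_iff] at h
      rw [h] at hq
      exact absurd (mem_tr.1 hq) (hB _)
  have hall : ∀ n : ℕ, tr ((n : ℤ) • c) x ∈ D := by
    intro n
    induction n with
    | zero => simpa [H15.tr_zero] using hx
    | succ n ih =>
      have := hsub _ ih
      rw [H15.tr_tr] at this
      have e : ((n + 1 : ℕ) : ℤ) • c = (n : ℤ) • c + c := by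
        push_cast
        rw [add_smul, one_smul]
      rwa [e]
  refine Set.infinite_of_injective_forall_mem (f := fun n : ℕ => tr ((n : ℤ) • c) x) ?_ hall hfin
  intro n m h
  have h4 := tr_left_inj h
  have h5 : ((n : ℤ) - m) • c = 0 := by rw [sub_smul, h4, sub_self]
  rcases smul_eq_zero.1 h5 with h6 | h6
  · omega
  · exact absurd h6 hc

/-- The inclusion of a union of orbits. -/
def inc (A : J → Prop) (x : Vx {u : J // A u}) : Vx J := (x.1.1, x.2)

/-- The graph on a union of orbits. -/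
def sub (Γ : SimpleGraph (Vx J)) (A : J → Prop) : SimpleGraph (Vx {u : J // A u}) :=
  Γ.comap (inc A)

/-- The graph on the orbits in `A` is an isometric periodic retract. -/
structure Ret (Γ : SimpleGraph (Vx J)) (A : J → Prop) : Prop where
  fine : Fine (sub Γ A)
  dist : ∀ x y, (sub Γ A).dist x y = Γ.dist (inc A x) (inc A y)
  ret : ∃ π : Vx J → Vx {u : J // A u}, (∀ x, π (inc A x) = x) ∧
    (∀ c x, π (tr c x) = tr c (π x)) ∧ ∀ x y, (sub Γ A).dist (π x) (π y) ≤ Γ.dist x y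

open PkJk2P in
/-- Removal of a hanging part. -/
theorem jk_rm {Γ : SimpleGraph (Vx J)} (hF : Fine Γ) {D : Set (Vx J)} {a b : Vx J}
    (hfin : D.Finite) (hconn : IsConn Γ D) (ha : a ∉ D)
    (hab : a = b ∨ Γ.Adj a b) (hD : Nb Γ D ⊆ D ∪ {a, b})
    (hJ : ∀ c, tr c a ∉ D ∧ tr c b ∉ D ∧ (c ≠ 0 → ∀ x ∈ D, tr c x ∉ D)) :
    Ret Γ fun u => ∀ x ∈ D, x.1 ≠ u := by
  classical
  obtain ⟨e, he1, he2⟩ : ∃ e, (e = a ∨ e = b) ∧ (D.Nonempty → e ∈ Nb Γ D) := by
    by_cases hne : D.Nonempty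
    · obtain ⟨x, hx⟩ := hne
      obtain ⟨p, hp, q, hq, -, hpq⟩ := cexit hx ha (hF.pl.conn x trivial a trivial)
      rcases hD ⟨p, hp, hpq.symm⟩ with h | h | h
      · exact absurd h hq
      · exact ⟨q, Or.inl h, fun _ => ⟨p, hp, hpq.symm⟩⟩
      · exact ⟨q, Or.inr h, fun _ => ⟨p, hp, hpq.symm⟩⟩
    · exact ⟨a, Or.inl rfl, fun h => absurd h hne⟩
  have hout : ∀ z, (z = a ∨ z = b) → ∀ x ∈ D, x.1 ≠ z.1 := by
    intro z hz x hx h
    have h1 := tr_of_fst h.symm
    rcases hz with rfl | rfl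
    · exact (hJ _).1 (h1 ▸ hx)
    · exact (hJ _).2.1 (h1 ▸ hx)
  have huniq : ∀ x ∈ D, ∀ y ∈ D, x.1 = y.1 → x = y := by
    intro x hx y hy h
    have h1 := tr_of_fst h
    by_cases h0 : y.2 - x.2 = 0
    · rw [h0, H15.tr_zero] at h1; exact h1
    · exact absurd (by rw [h1]; exact hy) ((hJ _).2.2 h0 x hx)
  have hrep : ∀ u : J, ∃ y : Vx J, (¬ ∀ x ∈ D, x.1 ≠ u) → y ∈ D ∧ y.1 = u := by
    intro u
    by_cases h : ∀ x ∈ D, x.1 ≠ u
    · exact ⟨a, fun h' => absurd h h'⟩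
    · push Not at h
      obtain ⟨y, hy, hyu⟩ := h
      exact ⟨y, fun _ => ⟨hy, hyu⟩⟩
  choose rep hrep using hrep
  set Γ' := sub Γ fun u => ∀ x ∈ D, x.1 ≠ u with hΓ'
  let π : Vx J → Vx {u : J // ∀ x ∈ D, x.1 ≠ u} := fun x =>
    if h : ∀ y ∈ D, y.1 ≠ x.1 then (⟨x.1, h⟩, x.2)
    else (⟨e.1, hout e he1⟩, e.2 + (x.2 - (rep x.1).2))
  let ι : Vx {u : J // ∀ x ∈ D, x.1 ≠ u} → Vx J := fun x => (x.1.1, x.2)
  have hπι : ∀ x, π (ι x) = x := by
    intro x
    have : ∀ y ∈ D, y.1 ≠ (ι x).1 := x.1.2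
    simp only [π, dif_pos this]
    rfl
  have hιπ : ∀ x : Vx J, (∀ y ∈ D, y.1 ≠ x.1) → ι (π x) = x := by
    intro x h
    simp only [π, dif_pos h]
    rfl
  have hπD : ∀ c, ∀ y ∈ D, ι (π (tr c y)) = tr c e := by
    intro c y hy
    have h : ¬ ∀ z ∈ D, z.1 ≠ (tr c y).1 := fun h => h y hy rfl
    have h1 := hrep _ h
    have h2 : rep (tr c y).1 = y := huniq _ h1.1 _ hy h1.2
    simp only [π, dif_neg h, h2]
    simp [ι, tr]
  have hιinj : Function.Injective ι := fun x y h => by rw [← hπι x, ← hπι y, h]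
  have hcase : ∀ x : Vx J, (∀ y ∈ D, y.1 ≠ x.1) ∨ ∃ c, ∃ y ∈ D, x = tr c y := by
    intro x
    by_cases h : ∀ y ∈ D, y.1 ≠ x.1
    · exact Or.inl h
    · push Not at h
      obtain ⟨y, hy, hyx⟩ := h
      exact Or.inr ⟨_, y, hy, (tr_of_fst hyx).symm⟩
  have hιtr : ∀ c x, ι (tr c x) = tr c (ι x) := fun c x => rfl
  have hπtr : ∀ c x, π (tr c x) = tr c (π x) := by
    intro c x
    apply hιinj
    rw [hιtr]
    rcases hcase x with h | ⟨k, y, hy, rfl⟩
    · rw [hιπ x h, hιπ (tr c x) h]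
    · rw [H15.tr_tr, hπD _ y hy, hπD _ y hy, H15.tr_tr]
  have hadj : ∀ x y, Γ'.Adj x y ↔ Γ.Adj (ι x) (ι y) := fun x y => Iff.rfl
  have hmain : ∀ (k : ℤ × ℤ) (p q : Vx J), p ∈ D → Γ.Adj (tr k p) q → π (tr k p) ≠ π q →
      Γ.Adj (ι (π (tr k p))) (ι (π q)) := by
    intro k p q hp hpq hne
    have hne' : ι (π (tr k p)) ≠ ι (π q) := fun h => hne (hιinj h)
    rw [hπD k p hp] at hne' ⊢
    rcases nb_tr hF.inv hD k hp hpq with ⟨y, hy, rfl⟩ | h
    · exact absurd (hπD k y hy).symm hne'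
    · have h1 : ι (π q) = q := by
        apply hιπ
        rcases h with rfl | rfl
        · exact hout a (Or.inl rfl)
        · exact hout b (Or.inr rfl)
      rw [h1] at hne' ⊢
      rcases hab with hab | hab
      · subst hab
        rcases he1 with rfl | rfl <;> rcases h with rfl | rfl <;> exact absurd rfl hne'
      · rcases he1 with rfl | rfl <;> rcases h with rfl | rfl
        · exact absurd rfl hne'
        · exact hF.inv _ _ _ hab
        · exact hF.inv _ _ _ hab.symm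
        · exact absurd rfl hne'
  obtain ⟨hF', hdist⟩ := all_PQ J _ Γ Γ' π hF (fun x => ⟨ι x, hπι x⟩) hπtr (by
    intro y
    have hfib : ∀ x, x ∈ π ⁻¹' {y} → x = ι y ∨ ∃ p ∈ D, x = tr (y.2 - e.2) p ∧
        ι y = tr (y.2 - e.2) e := by
      intro x hx
      have hx' : π x = y := hx
      rcases hcase x with h | ⟨k, p, hp, rfl⟩
      · left; rw [← hx', hιπ x h]
      · right
        have h1 := hπD k p hp
        rw [hx'] at h1
        have h2 : k = y.2 - e.2 := by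
          have := congrArg Prod.snd h1
          simp only [ι, tr] at this
          rw [this]; simp
        subst h2
        exact ⟨p, hp, rfl, h1⟩
    constructor
    · refine ((Set.finite_singleton (ι y)).union (hfin.image (tr (y.2 - e.2)))).subset ?_
      intro x hx
      rcases hfib x hx with h | ⟨p, hp, h, -⟩
      · exact Or.inl h
      · exact Or.inr ⟨p, hp, h.symm⟩
    · apply isConn_of_base (ι y)
      intro x hx
      rcases hfib x hx with h | ⟨p, hp, h, h'⟩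
      · rw [h]; exact Relation.ReflTransGen.refl
      · obtain ⟨q, hq, heq⟩ := he2 ⟨p, hp⟩
        have hin : ∀ z ∈ D, tr (y.2 - e.2) z ∈ π ⁻¹' {y} := by
          intro z hz
          apply hιinj
          rw [hπD _ z hz, h']
        rw [h]
        refine ctrans (cstep (hπι y) (hin q hq) ?_) (ctr hF.inv _ hin (hconn q hq p hp))
        rw [h']
        exact hF.inv _ _ _ heq) (by
    intro x y
    rw [hadj]
    constructor
    · intro h
      exact ⟨fun hxy => h.ne (by rw [hxy]), ι x, ι y, hπι x, hπι y, h⟩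
    · rintro ⟨hne, p, q, rfl, rfl, hpq⟩
      rcases hcase p with h | ⟨k, p', hp', rfl⟩
      · rcases hcase q with h' | ⟨k, q', hq', rfl⟩
        · rwa [hιπ p h, hιπ q h']
        · exact (hmain k q' p hq' hpq.symm (Ne.symm hne)).symm
      · exact hmain k p' q hp' hpq hne)
  refine ⟨hF', fun x y => le_antisymm ?_ ?_, π, hπι, hπtr, hdist⟩
  · have := hdist (ι x) (ι y)
    rwa [hπι, hπι] at this
  · exact dist_map hF'.pl hF.pl ι (fun u v h => Or.inr h) x y

open PkJk3P in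
/-- The induction over hanging parts for a class `Pr` of periodic graphs with a set of orbits that
lie on a geodesic line and must have defect zero. -/
theorem jk_ind (Pr : ∀ J : Type, SimpleGraph (Vx J) → Set J → Prop)
    (hG : ∀ (J : Type) [Fintype J] (Γ : SimpleGraph (Vx J)) (M : Set J), Pr J Γ M →
      Fine Γ ∧ ∃ l, Geo Γ l ∧ ∀ u ∈ M, ∃ i, (l i).1 = u)
    (hR : ∀ (J : Type) [Fintype J] (Γ : SimpleGraph (Vx J)) (M : Set J), Pr J Γ M →
      ∀ A : J → Prop, (∀ u ∈ M, A u) → (∀ l, Geo Γ l → ∀ i, A (l i).1) → Ret Γ A →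
      Pr {u : J // A u} (sub Γ A) {u | u.1 ∈ M})
    (h0 : ∀ (J : Type) [Fintype J] (Γ : SimpleGraph (Vx J)) (M : Set J), Pr J Γ M →
      NJ Γ Set.univ → ColM Γ M)
    (J : Type) [Fintype J] (Γ : SimpleGraph (Vx J)) (M : Set J) (hP : Pr J Γ M) : ColM Γ M := by
  classical
  have key : ∀ (n : ℕ) (J : Type) [Fintype J], Fintype.card J = n →
      ∀ (Γ : SimpleGraph (Vx J)) (M : Set J), Pr J Γ M → ColM Γ M := by
    intro n
    induction n using Nat.strong_induction_on with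
    | _ n ih =>
    intro J _ hn Γ M hP
    by_cases hNJ : NJ Γ Set.univ
    · exact h0 J Γ M hP hNJ
    obtain ⟨hF, l, hl, hM⟩ := hG J Γ M hP
    have : Nonempty J := ⟨(l 0).1⟩
    obtain ⟨D, a, b, hfin, hne, hconn, ha, hb, hab, hD, hmin⟩ := exists_min Γ hNJ
    have hJ := jk_tr hF hl hfin hconn ha hb hab hD
    have hline : ∀ l, Geo Γ l → ∀ i, ∀ x ∈ D, x.1 ≠ (l i).1 := by
      intro l hl i x hx e
      refine (hl.tr hF (x.2 - (l i).2)).avoid hfin hab hD i ?_
      show tr _ _ ∈ D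
      rw [tr_of_fst e.symm]
      exact hx
    have hMA : ∀ u ∈ M, ∀ x ∈ D, x.1 ≠ u := by
      intro u hu
      obtain ⟨i, rfl⟩ := hM u hu
      exact hline l hl i
    have hP' := hR J Γ M hP _ hMA hline (jk_rm hF hfin hconn ha hab hD hJ)
    have hcard : Fintype.card {u : J // ∀ x ∈ D, x.1 ≠ u} < n := by
      rw [← hn]
      obtain ⟨x, hx⟩ := hne
      exact Fintype.card_subtype_lt (x := x.1) (fun h => h x hx rfl)
    obtain ⟨c', hc', hcM⟩ := ih _ hcard _ rfl _ _ hP'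
    let c0 : J → Col := fun u => if h : ∀ x ∈ D, x.1 ≠ u then c' ⟨u, h⟩ else (true, true)
    have hdis : ∀ i i' : ℤ × ℤ, i ≠ i' → Disjoint (tr i '' D) (tr i' '' D) := by
      intro i i' hi
      rw [Set.disjoint_left]
      rintro _ ⟨x, hx, rfl⟩ h
      rw [mem_tr, H15.tr_tr] at h
      refine (hJ _).2.2 ?_ x hx h
      intro h0
      exact hi (by rwa [add_neg_eq_zero] at h0)
    obtain ⟨c'', h1, h2, h3⟩ := pk_PG J Γ (ℤ × ℤ) (fun a i => i + a) id Set.univ
      (fun i => tr i '' D) (fun _ => ∅) c0 hF.inv (fun i => add_zero i)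
      (fun a b i => add_assoc i b a) (fun a i => rfl) (fun _ _ _ => trivial)
      (by
        intro a i _ x
        simp only [mem_tr, H15.tr_tr]
        have : a + -(i + a) = -i := by abel
        rw [this])
      (fun a i _ x hx => hx.elim)
      (by
        intro i _ i' _ hi
        refine ⟨hdis i i' hi, ?_⟩
        rintro ⟨p, hp, q, hq, hpq⟩
        rcases nb_tr hF.inv hD i ⟨p, hp, hpq.symm⟩ with h | h | h
        · exact Set.disjoint_left.1 (hdis i i' hi) h hq
        · rw [h, mem_tr, H15.tr_tr] at hq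
          exact (hJ _).1 hq
        · rw [Set.mem_singleton_iff] at h
          rw [h, mem_tr, H15.tr_tr] at hq
          exact (hJ _).2.1 hq)
      (by
        intro i _
        refine all_E _ Γ hF.pl hF.oe (tr i '' D) (tr i a) (tr i b) (hfin.image _) ?_ ?_ ?_
          (nb_tr hF.inv hD i) ?_ _
        · rw [mem_tr, H15.tr_neg]; exact ha
        · rw [mem_tr, H15.tr_neg]; exact hb
        · rcases hab with h | h
          · exact Or.inl (by rw [h])
          · exact Or.inr (hF.inv _ _ _ h)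
        · intro I hI hI' D' hD' hf' hn' a' b' hab' hnb'
          have e1 := hmin D' ⟨hf', hn', a', b', hab', hnb'⟩
          have e2 : D'.ncard ≤ I.ncard := Set.ncard_le_ncard hD' ((hfin.image _).subset hI)
          have e3 : I.ncard < (tr i '' D).ncard :=
            Set.ncard_lt_ncard (Set.ssubset_iff_subset_ne.2 ⟨hI, hI'⟩) (hfin.image _)
          have e4 : (tr i '' D).ncard = D.ncard :=
            Set.ncard_image_of_injective D (H15.tr_inj i)
          omega)
    have hin : ∀ v : Vx J, (∀ i ∈ (Set.univ : Set (ℤ × ℤ)), v ∉ tr i '' D) →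
        ∀ p ∈ D, p.1 ≠ v.1 :=
      fun v hv p hp h => hv _ trivial ⟨p, hp, tr_of_fst h⟩
    have hcol : ∀ (v : Vx J) (hv : ∀ i ∈ (Set.univ : Set (ℤ × ℤ)), v ∉ tr i '' D),
        c'' v.1 = c' ⟨v.1, hin v hv⟩ := by
      intro v hv
      rw [h1 v hv]
      exact dif_pos (hin v hv)
    refine ⟨c'', ?_, ?_⟩
    · intro x y z hx hy hz hxy hxz e1 e2
      by_cases hxM : ∀ i ∈ (Set.univ : Set (ℤ × ℤ)), x ∉ tr i '' D
      · have hyM : ∀ i ∈ (Set.univ : Set (ℤ × ℤ)), y ∉ tr i '' D :=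
          fun i hi h => (h3 x hxM i hi).1 y h hxy e1
        have hzM : ∀ i ∈ (Set.univ : Set (ℤ × ℤ)), z ∉ tr i '' D :=
          fun i hi h => (h3 x hxM i hi).1 z h hxz e2
        have := hc' (⟨x.1, hin x hxM⟩, x.2) (⟨y.1, hin y hyM⟩, y.2) (⟨z.1, hin z hzM⟩, z.2)
          (fun h => h) (fun h => h) (fun h => h) hxy hxz
          (by rw [← hcol y hyM, ← hcol x hxM]; exact e1)
          (by rw [← hcol z hzM, ← hcol x hxM]; exact e2)
        exact congrArg (inc _) this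
      · push Not at hxM
        obtain ⟨i, hi, hxi⟩ := hxM
        exact h2 i hi x hxi y z hxy hxz e1 e2
    · intro x y hx hxy e1
      have hxM : ∀ i ∈ (Set.univ : Set (ℤ × ℤ)), x ∉ tr i '' D := by
        rintro i - ⟨p, hp, rfl⟩
        exact hMA _ hx p hp rfl
      have hyM : ∀ i ∈ (Set.univ : Set (ℤ × ℤ)), y ∉ tr i '' D :=
        fun i hi h => (h3 x hxM i hi).1 y h hxy e1
      exact hcM (⟨x.1, hin x hxM⟩, x.2) (⟨y.1, hin y hyM⟩, y.2) hx hxy
        (by rw [← hcol y hyM, ← hcol x hxM]; exact e1)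
  exact key _ J rfl Γ M hP

end Pool.Agent.P.MP_08fd93_co.FZ
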