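import Pool.Agent.P.MP_08fd93_co.FZ.WP
import Pool.Agent.P.MP_08fd93_co.OV.PkLin
import Pool.Agent.P.MP_08fd93_co.OV.PkFrm

/-! Level sets of a potential with weak parents are lines; weak frames. -/

set_option autoImplicit false

namespace Pool.Agent.P.MP_08fd93_co.FZ

open OV

variable {J : Type} {Γ : SimpleGraph (Vx J)} {η : ℤ × ℤ →+ ℤ} {f : Vx J → ℤ} {w : ℤ × ℤ}

/-- Everything below the level set `j`. -/
def BL (Γ : SimpleGraph (Vx J)) (f : Vx J → ℤ) (j : ℤ) : Set (Vx J) :=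
  (UU Γ f (j + 1) ∪ LL Γ f j)ᶜ

/-- The infinite part below the level set `j`. -/
def LW (Γ : SimpleGraph (Vx J)) (f : Vx J → ℤ) (j : ℤ) : Set (Vx J) :=
  {x | ∃ y, f y < j ∧ Conn Γ (BL Γ f j) y x}

/-- Every vertex of a level set touches the infinite part below it. -/
def Tch (Γ : SimpleGraph (Vx J)) (f : Vx J → ℤ) : Prop := ∀ j, LL Γ f j ⊆ Nb Γ (LW Γ f j)

theorem UW.low_bl (hU : UW Γ η f w) {j : ℤ} {x : Vx J} (hx : f x < j) : x ∈ BL Γ f j := by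
  rintro (h | h)
  · have := hU.ge _ _ h
    omega
  · have := hU.lf _ _ h
    omega

theorem low_lw {j : ℤ} {x : Vx J} (hx : f x < j) : x ∈ LW Γ f j := ⟨x, hx, Conn.rfl'⟩

theorem UW.lw_bl (hU : UW Γ η f w) (j : ℤ) : LW Γ f j ⊆ BL Γ f j :=
  fun _ ⟨_, hy, hc⟩ => hc.mem (hU.low_bl hy)

theorem UW.lw_step (hU : UW Γ η f w) {j : ℤ} {x y : Vx J} (hx : x ∈ LW Γ f j) (hy : y ∈ BL Γ f j)
    (e : Γ.Adj x y) : y ∈ LW Γ f j := by
  obtain ⟨z, hz, hc⟩ := hx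
  exact ⟨z, hz, hc.snoc (hc.mem (hU.low_bl hz)) hy e⟩

theorem UW.lw_conn (hU : UW Γ η f w) (j : ℤ) : IsConn Γ (LW Γ f j) := by
  refine isConn_base (hU.low (j - 1)) (fun x hx => low_lw (by
    have : f x ≤ j - 1 := hx
    omega)) ?_
  rintro x ⟨y, hy, hc⟩
  exact ⟨y, by show f y ≤ j - 1; omega, (hc.sub (S := LW Γ f j) fun z hz => ⟨y, hy, hz⟩).symm⟩

/-- the neighbours of the part below a level set -/
theorem bl_nb {j : ℤ} {x y : Vx J} (hx : x ∈ BL Γ f j) (e : Γ.Adj x y) :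
    y ∈ BL Γ f j ∨ y ∈ LL Γ f j := by
  by_cases h : y ∈ LL Γ f j
  · exact Or.inr h
  · refine Or.inl ?_
    rintro (h1 | h1)
    · exact hx (Or.inr ⟨⟨y, h1, e⟩, fun h2 => hx (Or.inl h2)⟩)
    · exact h h1

theorem UW.u_inf (hU : UW Γ η f w) (j : ℤ) : (UU Γ f j).Infinite := by
  intro hfin
  obtain ⟨B, hB⟩ := (hfin.image f).bddAbove
  obtain ⟨x, hx⟩ := hU.lne j
  obtain ⟨y, hy, hc⟩ := hU.lu j hx (B + 1)
  have := hB ⟨y, (PkUUP.u_lift (hU.lu j hx) hc).2, rfl⟩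
  omega

theorem UW.utrw (hP : WP Γ η f w) (hU : UW Γ η f w) (k j : ℤ) (x : Vx J) :
    tr (k • w) x ∈ UU Γ f j ↔ x ∈ UU Γ f j := by
  have := hU.utr (k • w) j x
  rwa [hP.eta_w, add_zero] at this

theorem rest_fin (hP : WP Γ η f w) (hU : UW Γ η f w) (j h : ℤ) (hj : j ≤ h)
    (B0 : Set (Vx J)) (hB : B0.Finite) :
    {v | v ∈ UU Γ f j ∧ ¬ ∃ y ∈ UU Γ f h, Conn Γ (UU Γ f j \ B0) v y}.Finite := by
  obtain ⟨M, -, hM⟩ := hU.big
  obtain ⟨F0, f1, f2⟩ := hU.band j (h + M)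
  obtain ⟨y0, hy0⟩ := hU.lne h
  have hy := hU.lu h hy0
  have hc : ∀ z, ∃ P : Set (Vx J), P.Finite ∧
      (z ∈ UU Γ f j → P ⊆ UU Γ f j ∧ Conn Γ P z y0) := by
    intro z
    by_cases hz : z ∈ UU Γ f j
    · obtain ⟨P, p2, p1, p3, p4, p5⟩ := (hU.conn j z hz y0 (hU.mono j h hj hy)).fin hz
      exact ⟨P, p1, fun _ => ⟨p2, p3 z p4 y0 p5⟩⟩
    · exact ⟨∅, Set.finite_empty, fun e => (hz e).elim⟩
  choose P p1 p2 using hc
  have hfin := f1.biUnion (t := fun z => (fun q : Vx J × Vx J => tr (q.2.2 - q.1.2) z) ''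
    (P z ×ˢ B0)) (fun z _ => ((p1 z).prod hB).image _)
  refine hfin.subset ?_
  rintro v ⟨hv, hn⟩
  have hf : f v ≤ h + M := by
    by_contra e
    exact hn ⟨v, hM h v (by omega), .refl⟩
  obtain ⟨k, hk⟩ := f2 v (hU.ge j v hv) hf
  have hz := (hU.utrw hP k j v).2 hv
  obtain ⟨q1, q2⟩ := p2 _ hz
  have ev : tr ((-k) • w) (tr (k • w) v) = v := by simp [tr]
  refine Set.mem_biUnion hk ?_
  by_contra e
  refine hn ⟨tr ((-k) • w) y0, (hU.utrw hP _ _ _).2 hy, ?_⟩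
  have := hP.fine.conn_tr (B := UU Γ f j \ B0) ((-k) • w) (fun p hp =>
    ⟨(hU.utrw hP _ _ _).2 (q1 hp), fun hb => e ⟨(p, tr ((-k) • w) p), ⟨hp, hb⟩, by
      simp [tr]⟩⟩) q2
  rwa [ev] at this

/-- level sets are connected -/
theorem lconn (hP : WP Γ η f w) (hU : UW Γ η f w) (j : ℤ) : IsConn Γ (LL Γ f j) := by
  intro x hx y hy
  obtain ⟨x', hx', ax⟩ := hx.1
  obtain ⟨y', hy', ay⟩ := hy.1
  obtain ⟨B0, b2, b1, b5, b3, b4⟩ := (hU.conn (j + 1) x' hx' y' hy').fin hx'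
  obtain ⟨m, hm⟩ := (b1.image f).bddAbove
  have hm' : ∀ b ∈ B0, f b ≤ m := fun b hb => hm ⟨b, hb, rfl⟩
  have hj : j + 1 ≤ m + 1 := by
    have := hm' x' b3
    have := hU.ge _ _ hx'
    omega
  set U := UU Γ f (j + 1) with hUd
  set A : Set (Vx J) := {v | v ∈ U \ B0 ∧ ∃ y ∈ UU Γ f (m + 1), Conn Γ (U \ B0) v y} with hA
  have s1 : UU Γ f (m + 1) ⊆ A := fun v hv =>
    ⟨⟨hU.mono _ _ hj hv, fun e => by
      have := hm' v e
      have := hU.ge _ _ hv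
      omega⟩, v, hv, .refl⟩
  have cA : IsConn Γ A := by
    refine isConn_base (hU.conn (m + 1)) s1 ?_
    rintro c ⟨hc0, z, hz, hc⟩
    exact ⟨z, hz, hc.sub fun u hu => ⟨hu.mem hc0, z, hz, hu.symm.trans hc⟩⟩
  have s2 : B0 ⊆ U \ A := fun v hv => ⟨b2 hv, fun e => e.1.2 hv⟩
  have cB : IsConn Γ (U \ A) := by
    refine isConn_of x' fun c hc => ?_
    have h0 : Conn Γ U c x' := hU.conn _ c hc.1 x' hx'
    induction h0 using Relation.ReflTransGen.head_induction_on with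
    | refl => exact .refl
    | @head p q h1 h2 ih =>
      by_cases e : p ∈ B0
      · exact (b5 p e x' b3).up s2
      · have hq : q ∈ U \ A := ⟨h1.2.1, fun ⟨e1, z, hz, e2⟩ =>
          hc.2 ⟨⟨h1.1, e⟩, z, hz, .head ⟨⟨h1.1, e⟩, e1, h1.2.2⟩ e2⟩⟩
        exact .head ⟨hc, hq, h1.2.2⟩ (ih hq)
  have fB : (U \ A).Finite := by
    refine (b1.union (rest_fin hP hU (j + 1) (m + 1) hj B0 b1)).subset ?_
    rintro v ⟨h1, h2⟩
    by_cases e : v ∈ B0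
    · exact Or.inl e
    · exact Or.inr ⟨h1, fun e' => h2 ⟨⟨h1, e⟩, e'⟩⟩
  have eU : A ∪ (U \ A) = U := Set.union_sdiff_cancel fun v hv => hv.1.1
  have := tim hP.fine.pl Set.disjoint_sdiff_right cA cB fB ⟨x', s2 b3, ax⟩ ⟨y', s2 b4, ay⟩
    (by rw [eU]; exact hx.2)
    (by
      rw [eU]
      refine (hU.low j x (hU.lf j x hx).le y (hU.lf j y hy).le).up fun v hv e => ?_
      have := hU.ge _ _ e
      have : f v ≤ j := hv
      omega)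
  rw [eU] at this
  refine this.up ?_
  rintro v ⟨⟨b, hb, a⟩, h2⟩
  exact ⟨⟨b, hb.1, a⟩, h2⟩

/-- a connected set off the upper and the lower part touches at most two vertices of the level -/
theorem no_three (hP : WP Γ η f w) (hU : UW Γ η f w) {j : ℤ} {D : Set (Vx J)} (hD : IsConn Γ D)
    (d1 : Disjoint D (UU Γ f (j + 1))) (d2 : Disjoint D (LW Γ f j)) {a b e : Vx J}
    (hn : ∀ x, x = a ∨ x = b ∨ x = e → x ∈ LL Γ f j ∧ x ∈ Nb Γ (LW Γ f j) ∧ x ∉ D ∧ x ∈ Nb Γ D) :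
    a = b ∨ a = e ∨ b = e := by
  by_contra hc
  push Not at hc
  have t : ∀ (A : Set (Vx J)) x, x ∈ Nb Γ A → Touch Γ A {x} :=
    fun A x ⟨y, hy, e⟩ => ⟨y, hy, x, rfl, e.symm⟩
  have na := hn a (Or.inl rfl)
  have nb := hn b (Or.inr (Or.inl rfl))
  have ne := hn e (Or.inr (Or.inr rfl))
  have nl : ∀ x ∈ LL Γ f j, x ∉ LW Γ f j := fun x hx h => hU.lw_bl j h (Or.inr hx)
  have ds : ∀ {A : Set (Vx J)} {x}, x ∉ A → Disjoint A {x} :=
    fun h => Set.disjoint_singleton_right.2 h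
  exact k33 hP.fine.pl hD (hU.conn (j + 1)) (hU.lw_conn j) (isConn_single a) (isConn_single b)
    (isConn_single e) d1 d2
    (Set.disjoint_left.2 fun x hx h => hU.lw_bl j h (Or.inl hx))
    (Set.disjoint_singleton.2 hc.1) (Set.disjoint_singleton.2 hc.2.1)
    (Set.disjoint_singleton.2 hc.2.2)
    ⟨ds na.2.2.1, ds nb.2.2.1, ds ne.2.2.1⟩ ⟨ds na.1.2, ds nb.1.2, ds ne.1.2⟩
    ⟨ds (nl _ na.1), ds (nl _ nb.1), ds (nl _ ne.1)⟩
    ⟨t _ _ na.2.2.2, t _ _ nb.2.2.2, t _ _ ne.2.2.2⟩ ⟨t _ _ na.1.1, t _ _ nb.1.1, t _ _ ne.1.1⟩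
    ⟨t _ _ na.2.1, t _ _ nb.2.1, t _ _ ne.2.1⟩

/-- a connected set with a finite boundary that misses an infinite set is finite -/
theorem fin_of_bd {W : Type} {H : SimpleGraph W} (hO : OE H) {D U : Set W}
    (hb : (Nb H D \ D).Finite) (hU : U.Infinite) (hd : Disjoint D U) : D.Finite := by
  obtain ⟨Z, cZ, fZ, dZ⟩ := hO _ hb
  refine fZ.subset fun x hx hxZ => hU (fZ.subset fun u hu huZ => ?_)
  obtain ⟨p, q, -, -, hp, e, hq, hq'⟩ := (cZ x hxZ u huZ).exit (R := D) hx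
    (Set.disjoint_right.1 hd hu)
  exact Set.disjoint_left.1 dZ hq ⟨⟨p, hp, e.symm⟩, hq'⟩

/-- a component below the level set `j` other than the infinite one has a boundary vertex that
does not touch the infinite one -/
theorem pocket (hP : WP Γ η f w) (hU : UW Γ η f w) (hN : NJ Γ Set.univ) {j : ℤ} {x : Vx J}
    (hx : x ∈ BL Γ f j) (hx' : x ∉ LW Γ f j) :
    ∃ y z, Conn Γ (BL Γ f j) x y ∧ Γ.Adj y z ∧ z ∈ LL Γ f j ∧ z ∉ Nb Γ (LW Γ f j) := by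
  by_contra hc
  set D : Set (Vx J) := {y | Conn Γ (BL Γ f j) x y} with hD
  have sD : D ⊆ BL Γ f j := fun y hy => Conn.mem hy hx
  have d1 : Disjoint D (UU Γ f (j + 1)) := Set.disjoint_left.2 fun y hy h => sD hy (Or.inl h)
  have d2 : Disjoint D (LW Γ f j) := Set.disjoint_left.2 fun y hy ⟨z, hz, h⟩ =>
    hx' ⟨z, hz, h.trans (Conn.symm hy)⟩
  have bL : ∀ z ∈ Nb Γ D \ D, z ∈ LL Γ f j ∧ z ∈ Nb Γ (LW Γ f j) ∧ z ∉ D ∧ z ∈ Nb Γ D := by
    rintro z ⟨hz, hz'⟩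
    obtain ⟨y, hy, e⟩ := id hz
    have hL := (bl_nb (sD hy) e.symm).resolve_left fun h => hz' (comp_nb hx hz h)
    refine ⟨hL, ?_, hz', hz⟩
    by_contra h
    exact hc ⟨y, z, hy, e.symm, hL, h⟩
  have three : ∀ a ∈ Nb Γ D \ D, ∀ b ∈ Nb Γ D \ D, ∀ e ∈ Nb Γ D \ D, a = b ∨ a = e ∨ b = e :=
    fun a ha b hb e he => no_three hP hU (isConn_comp _ x) d1 d2 (by
      rintro z (rfl | rfl | rfl)
      exacts [bL _ ha, bL _ hb, bL _ he])
  have fb : (Nb Γ D \ D).Finite := by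
    by_contra hi
    obtain ⟨a, ha⟩ := Set.Infinite.nonempty hi
    obtain ⟨b, hb, hb'⟩ := Set.Infinite.exists_notMem_finite hi (Set.finite_singleton a)
    obtain ⟨e, he, he'⟩ := Set.Infinite.exists_notMem_finite hi (Set.toFinite {a, b})
    rcases three a ha b hb e he with h | h | h
    exacts [hb' h.symm, he' (Or.inl h.symm), he' (Or.inr h.symm)]
  obtain ⟨⟨r, hr⟩, h2⟩ := att2 hP.fine.pl hN (Set.subset_univ _)
    (fin_of_bd hP.fine.oe fb (hU.u_inf (j + 1)) d1) ⟨x, Conn.rfl'⟩ (isConn_comp _ x)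
    (hU.conn (j + 1)) d1.symm (Set.disjoint_right.2 fun z hz => (bL z hz).1.2)
    fun z hz => (bL z hz).1.1
  obtain ⟨y, hy, z, hz, hne, e1, e2⟩ := h2 r hr
  rcases three r hr y hy z hz with h | h | h
  exacts [e1.ne h, e2.ne h, hne h]

theorem bl_eq (hP : WP Γ η f w) (hU : UW Γ η f w) (hN : NJ Γ Set.univ) {j : ℤ}
    (hT : LL Γ f j ⊆ Nb Γ (LW Γ f j)) : BL Γ f j = LW Γ f j := by
  refine Set.Subset.antisymm (fun x hx => ?_) (hU.lw_bl j)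
  by_contra hx'
  obtain ⟨y, z, -, -, h1, h2⟩ := pocket hP hU hN hx hx'
  exact h2 (hT h1)

theorem deg_two (hP : WP Γ η f w) (hU : UW Γ η f w) {j : ℤ} (hT : LL Γ f j ⊆ Nb Γ (LW Γ f j)) :
    ∀ x ∈ LL Γ f j, ∀ a ∈ LL Γ f j, ∀ b ∈ LL Γ f j, ∀ e ∈ LL Γ f j,
      Γ.Adj x a → Γ.Adj x b → Γ.Adj x e → a = b ∨ a = e ∨ b = e := by
  intro x hx a ha b hb e he xa xb xe
  refine no_three hP hU (isConn_single x) (Set.disjoint_singleton_left.2 hx.2)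
    (Set.disjoint_singleton_left.2 fun h => hU.lw_bl j h (Or.inr hx)) ?_
  rintro z (rfl | rfl | rfl)
  exacts [⟨ha, hT ha, xa.ne', x, rfl, xa.symm⟩, ⟨hb, hT hb, xb.ne', x, rfl, xb.symm⟩,
    ⟨he, hT he, xe.ne', x, rfl, xe.symm⟩]

/-- Parametrised level lines (the parent map of `F` is not used). -/
structure Rows (F : FD J) : Prop where
  wp : WP F.Γ F.η F.f F.w
  uw : UW F.Γ F.η F.f F.w
  nj : NJ F.Γ Set.univ
  mem : ∀ j x, x ∈ F.L j ↔ ∃ i, x = F.l j i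
  rho : ∀ j i, F.ρ (F.l j i) = i
  adj : ∀ j i i', F.Γ.Adj (F.l j i) (F.l j i') ↔ i' = i + 1 ∨ i = i' + 1
  lw : ∀ j i, tr F.w (F.l j i) = F.l j (i + F.nn j)
  n2 : ∀ j, 2 ≤ F.nn j
  ltr : ∀ a j, ∃ κ, ∀ i, tr a (F.l j i) = F.l (j + F.η a) (i + κ)
  blc : ∀ j, IsConn F.Γ (BL F.Γ F.f j)
  tch : ∀ j, F.L j ⊆ Nb F.Γ (BL F.Γ F.f j)

/-- A weak frame: only the level vertices in `Pr` have a parent on the line below. -/
structure WFrm (F : FD J) (Pr : Set (Vx J)) : Prop extends Rows F where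
  atr : ∀ a x, F.an (tr a x) = tr a (F.an x)
  ptr : ∀ a, ∀ x ∈ Pr, tr a x ∈ Pr
  aa : ∀ j, ∀ x ∈ F.L j, x ∈ Pr → F.Γ.Adj x (F.an x) ∧ F.an x ∈ F.L (j - 1)
  pne : ∀ j, ∃ x ∈ F.L j, x ∈ Pr

theorem exists_rows (hP : WP Γ η f w) (hU : UW Γ η f w) (hNL : NL Γ) (hNJ : NJ Γ Set.univ)
    (hT : Tch Γ f) : ∃ l ρ nn, ∀ an, Rows ⟨Γ, η, f, an, w, l, ρ, nn⟩ := by
  have hw : η w = 0 := (hP.ker w).mpr ⟨1, by simp⟩
  have hex : ∀ j, ∃ (l : ℤ → Vx J) (n : ℤ), 2 ≤ n ∧ (∀ x, x ∈ LL Γ f j ↔ ∃ i, x = l i) ∧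
      Function.Injective l ∧ (∀ i i', Γ.Adj (l i) (l i') ↔ i' = i + 1 ∨ i = i' + 1) ∧
      ∀ i, tr w (l i) = l (i + n) := by
    intro j
    refine pk_Lin J Γ (LL Γ f j) w hP.fine.inv hNL hP.w0 (hU.lne j) (lconn hP hU j) ?_
      (deg_two hP hU (hT j))
    intro x
    have := hU.ltr w j x
    rwa [hw, add_zero] at this
  choose l nn h2 hmem hinj hadj hlw using hex
  have hf : ∀ j i, f (l j i) = j := fun j i => hU.lf j _ ((hmem j _).mpr ⟨i, rfl⟩)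
  refine ⟨l, fun x => Function.invFun (l (f x)) x, nn, fun an =>
    ⟨hP, hU, hNJ, hmem, ?_, hadj, hlw, h2, ?_, fun j => ?_, fun j => ?_⟩⟩
  · intro j i
    show Function.invFun (l (f (l j i))) (l j i) = i
    rw [hf]
    exact Function.leftInverse_invFun (hinj j) i
  · intro a j
    have hg : ∀ i, ∃ i', tr a (l j i) = l (j + η a) i' := fun i =>
      (hmem _ _).mp ((hU.ltr a j _).mpr ((hmem j _).mpr ⟨i, rfl⟩))
    choose g hg using hg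
    refine ⟨g 0, fun i => ?_⟩
    show tr a (l j i) = l (j + η a) (i + g 0)
    rw [hg, PkFrmP.shift (g := g) (n := nn j) (n' := nn (j + η a)) ?_ ?_
      (by have := h2 j; omega) (by have := h2 (j + η a); omega) ?_ i]
    · intro i i' e
      have : tr a (l j i) = tr a (l j i') := by rw [hg, hg, e]
      exact hinj j (tr_inj a this)
    · intro i
      have h := hP.fine.inv a _ _ ((hadj j i (i + 1)).mpr (Or.inl rfl))
      rw [hg, hg] at h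
      exact (hadj _ _ _).mp h
    · apply hinj (j + η a)
      rw [← hg, ← hlw, ← hg, tr_comm, hlw, zero_add]
  · show IsConn Γ (BL Γ f j)
    rw [bl_eq hP hU hNJ (hT j)]
    exact hU.lw_conn j
  · show LL Γ f j ⊆ Nb Γ (BL Γ f j)
    rw [bl_eq hP hU hNJ (hT j)]
    exact hT j

/-- the weak frame whose rungs are parent edges -/
theorem Rows.wfrm {F : FD J} (h : Rows F) {Pr : Set (Vx J)}
    (atr : ∀ a x, F.an (tr a x) = tr a (F.an x)) (ptr : ∀ a, ∀ x ∈ Pr, tr a x ∈ Pr)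
    (aa : ∀ x ∈ Pr, F.Γ.Adj x (F.an x) ∧ F.f (F.an x) = F.f x - 1)
    (pne : ∀ j, ∃ x ∈ F.L j, x ∈ Pr) : WFrm F Pr :=
  ⟨h, atr, ptr, fun j x hx hp => ⟨(aa x hp).1, h.uw.lan j x (h.uw.lu j hx) _ (aa x hp).1 (by
    have := (aa x hp).2
    have := h.uw.lf j x hx
    omega)⟩, pne⟩

/-- a level vertex with a parent touches the lower part -/
theorem tch_of_hp (hU : UW Γ η f w) {j : ℤ} {x : Vx J} (hx : x ∈ LL Γ f j) (hp : Hp Γ f x) :
    x ∈ Nb Γ (LW Γ f j) := by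
  obtain ⟨y, e, hy⟩ := hp
  have := hU.lf j x hx
  exact ⟨y, low_lw (by omega), e⟩

end Pool.Agent.P.MP_08fd93_co.FZ
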