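import Pool.Agent.P.MP_08fd93_co.FZ.Strip
import Pool.Agent.P.MP_08fd93_co.OV.PkBri
import Pool.Agent.P.MP_08fd93_co.OV.PkSI

/-! Static cells of a weak frame. -/

set_option autoImplicit false

namespace Pool.Agent.P.MP_08fd93_co.FZ

open OV
open OV.PkSIP (Cp cp_sub cp_step cp_conn Lt Gt)

variable {J : Type} {F : FD J} {Pr : Set (Vx J)}

/-- connected parts of a strip with a rung are finite -/
theorem Rows.sf (hF : Rows F) {j : ℤ} {p0 q0 : Vx J} (hp0 : p0 ∈ F.L (j - 1)) (hq0 : q0 ∈ F.L j)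
    (hpq : F.Γ.Adj p0 q0) {E : Set (Vx J)} (hE : E ⊆ F.St j) (hEc : IsConn F.Γ E) : E.Finite := by
  by_contra hinf
  have hP := hF.wp
  have hU := hF.uw
  obtain ⟨M, hM0, hM⟩ := hU.big
  obtain ⟨F0, hF0, hband⟩ := hU.band j (j + 1 + M)
  have hk : ∀ x : Vx J, ∃ k : ℤ, x ∈ F.St j → tr (k • F.w) x ∈ F0 := by
    intro x
    by_cases hx : x ∈ F.St j
    · obtain ⟨k, hk⟩ := hband x (hU.ge j x hx.1) (by
        by_contra h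
        exact hx.2 (Or.inr (hM (j + 1) x (by omega))))
      exact ⟨k, fun _ => hk⟩
    · exact ⟨0, fun h => absurd h hx⟩
  choose k hk using hk
  obtain ⟨x, hx, x', hx', hne, heq⟩ := Set.Infinite.exists_ne_map_eq_of_mapsTo
    (f := fun x => tr (k x • F.w) x) hinf (fun x hx => hk x (hE hx)) hF0
  set g : ℤ × ℤ := (k x - k x') • F.w with hg
  have hgx : tr g x = x' := by
    have h1 : tr (k x • F.w) x = tr (k x' • F.w) x' := heq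
    have h2 := congrArg (tr (-(k x' • F.w))) h1
    rw [tr_neg, tr_tr] at h2
    rw [← h2, hg, sub_smul, sub_eq_add_neg]
  have hg0 : g ≠ 0 := by
    intro h
    rw [h, tr_zero] at hgx
    exact hne hgx
  have hη : F.η g = 0 := hP.eta_w _
  have hηn : F.η (-g) = 0 := by rw [map_neg, hη, neg_zero]
  set K : Set (Vx J) := {y | Conn F.Γ (F.St j) x y} with hK
  have hKs : K ⊆ F.St j := fun y hy => Conn.mem hy (hE hx)
  have hKc : IsConn F.Γ K := isConn_comp _ _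
  have hxx' : Conn F.Γ (F.St j) x x' := (hEc x hx x' hx').up hE
  have hKp : ∀ y, tr g y ∈ K ↔ y ∈ K := by
    intro y
    constructor
    · intro hy
      have h1 := hP.fine.conn_tr (-g) (fun y hy => (hF.utr0 hηn j y).2.2.2 hy)
        (hxx'.symm.trans hy)
      rw [← hgx, tr_neg, tr_neg] at h1
      exact h1
    · intro hy
      have h1 := hP.fine.conn_tr g (fun y hy => (hF.utr0 hη j y).2.2.2 hy) hy
      rw [hgx] at h1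
      exact hxx'.trans h1
  have hB : ∀ y, tr g y ∈ BL F.Γ F.f (j - 1) ↔ y ∈ BL F.Γ F.f (j - 1) := by
    intro y
    have := hF.bl_tr g (j - 1) y
    rwa [hη, add_zero] at this
  have up : ∀ v ∈ F.U (j + 1), v ∈ F.U j := fun v hv => hU.mono _ _ (by omega) hv
  obtain ⟨p, y, -, -, hp, hpy, -, hy⟩ := (hP.fine.pl.conn x trivial q0 trivial).exit (R := K)
    Conn.rfl' fun h => (hKs h).2 (Or.inl hq0)
  rcases hF.att (hKs hp) hpy with h | h | h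
  · exact hy (Conn.snoc hp (hKs hp) h hpy)
  · obtain ⟨P, hP1, hP2, hP3, hP4, hP5⟩ := (hF.line_conn (j - 1) y h _ hp0).fin h
    have hA : ∀ v ∈ F.U (j + 1) ∪ F.L j, v ∈ F.U j := fun v hv => hv.elim (up v) hF.l_u
    obtain ⟨b, hb, eb⟩ := hF.tch _ h
    exact pk_Bri J F.Γ hP.fine g hg0 K (F.U (j + 1) ∪ F.L j) (BL F.Γ F.f (j - 1)) P hKc
      ((hU.conn _).union_nb fun v hv => hv.1) (hF.blc _)
      (Set.disjoint_left.2 fun v hv hv' => (hKs hv).2 hv'.symm)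
      (Set.disjoint_left.2 fun v hv => u_not_bl (hKs hv).1)
      (Set.disjoint_left.2 fun v hv => u_not_bl (hA v hv)) hKp
      (fun v => or_congr (hF.utr0 hη _ v).1 (hF.utr0 hη _ v).2.1) hB hP2 hP3
      (Set.disjoint_left.2 fun v hv hv' => l_not_u' (hP1 hv) (hKs hv').1)
      (Set.disjoint_left.2 fun v hv hv' => l_not_u' (hP1 hv) (hA v hv'))
      (Set.disjoint_left.2 fun v hv hv' => hv' (Or.inr (hP1 hv)))
      ⟨y, hP4, p, hp, hpy.symm⟩ ⟨_, hP5, q0, Or.inr hq0, hpq⟩ ⟨y, hP4, b, hb, eb⟩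
  · obtain ⟨P, hP1, hP2, hP3, hP4, hP5⟩ := (hF.line_conn j y h _ hq0).fin h
    have hA : ∀ v ∈ F.U j, v ∉ BL F.Γ F.f (j - 1) ∪ F.L (j - 1) :=
      fun v hv h => h.elim (u_not_bl hv) fun h => l_not_u' h hv
    obtain ⟨b, hb, eb⟩ := h.1
    exact pk_Bri J F.Γ hP.fine g hg0 K (F.U (j + 1)) (BL F.Γ F.f (j - 1) ∪ F.L (j - 1)) P hKc
      (hU.conn _) ((hF.blc _).union_nb (hF.tch _))
      (Set.disjoint_left.2 fun v hv hv' => (hKs hv).2 (Or.inr hv'))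
      (Set.disjoint_left.2 fun v hv => hA v (hKs hv).1)
      (Set.disjoint_left.2 fun v hv => hA v (up v hv)) hKp
      (fun v => (hF.utr0 hη _ v).1) (fun v => or_congr (hB v) (hF.utr0 hη _ v).2.1) hP2 hP3
      (Set.disjoint_left.2 fun v hv hv' => (hKs hv').2 (Or.inl (hP1 hv)))
      (Set.disjoint_left.2 fun v hv => (hP1 hv).2)
      (Set.disjoint_left.2 fun v hv => hA v (hF.l_u (hP1 hv)))
      ⟨y, hP4, p, hp, hpy.symm⟩ ⟨y, hP4, b, hb, eb⟩ ⟨_, hP5, p0, Or.inr hp0, hpq.symm⟩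

theorem WFrm.an_mem (h : WFrm F Pr) {j : ℤ} {x : Vx J} (hx : x ∈ F.L j) (hp : x ∈ Pr) :
    F.an x ∈ F.L (j - 1) := (h.aa j x hx hp).2

theorem WFrm.an_adj (h : WFrm F Pr) {j : ℤ} {x : Vx J} (hx : x ∈ F.L j) (hp : x ∈ Pr) :
    F.Γ.Adj x (F.an x) := (h.aa j x hx hp).1

theorem WFrm.sfin (h : WFrm F Pr) {j : ℤ} {E : Set (Vx J)} (hE : E ⊆ F.St j)
    (hc : IsConn F.Γ E) : E.Finite := by
  obtain ⟨x, hx, hp⟩ := h.pne j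
  exact h.toRows.sf (h.an_mem hx hp) hx (h.an_adj hx hp).symm hE hc

theorem WFrm.ncp (h : WFrm F Pr) {j : ℤ} {s : Vx J} (hs : s ∈ F.L j) (hp : s ∈ Pr)
    {E : Set (Vx J)} (hE : E ⊆ F.St j) (hc : IsConn F.Γ E) {x y : Vx J} (hx : Lt F j s x)
    (hy : Gt F j s y) : ¬ F.Γ.Adj x y ∧ ¬ (x ∈ Nb F.Γ E ∧ y ∈ Nb F.Γ E) :=
  h.toRows.nc (h.an_mem hs hp) hs (h.an_adj hs hp).symm hE hc hx hy

theorem Rows.mid (h : Rows F) {j : ℤ} {s s' z : Vx J} (hs : s ∈ F.L j)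
    (hz : z ∈ F.L (j - 1) ∨ z ∈ F.L j) (h1 : ¬ Lt F j s z) (h2 : ¬ Gt F j s' z) :
    z ∈ F.Bot s s' ∨ z ∈ F.Top s s' := by
  unfold Lt at h1
  unfold Gt at h2
  unfold FD.Bot FD.Top
  rw [h.uw.lf j s hs]
  push Not at h1 h2
  rcases hz with hz | hz
  · exact Or.inl ⟨hz, h1.1 hz, h2.1 hz⟩
  · exact Or.inr ⟨hz, h1.2 hz, h2.2 hz⟩

theorem WFrm.mono (h : WFrm F Pr) {j : ℤ} {s t : Vx J} (hs : s ∈ F.L j) (ps : s ∈ Pr)
    (ht : t ∈ F.L j) (pt : t ∈ Pr) (hst : F.ρ s ≤ F.ρ t) : F.ρ (F.an s) ≤ F.ρ (F.an t) := by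
  by_contra hc
  push Not at hc
  rcases hst.eq_or_lt with e | e
  · rw [h.toRows.inj hs ht e] at hc
    exact lt_irrefl _ hc
  · exact (h.ncp hs ps (Set.empty_subset _) isConn_empty
      (Or.inl ⟨h.an_mem ht pt, hc⟩) (Or.inr ⟨ht, e⟩)).1 (h.an_adj ht pt).symm

/-- translates of a rung along the line -/
theorem WFrm.shift (h : WFrm F Pr) {j : ℤ} {s : Vx J} (hs : s ∈ F.L j) (ps : s ∈ Pr) (k : ℤ) :
    tr (k • F.w) s ∈ F.L j ∧ tr (k • F.w) s ∈ Pr ∧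
      F.ρ (tr (k • F.w) s) = F.ρ s + k * F.nn j ∧
      F.ρ (F.an (tr (k • F.w) s)) = F.ρ (F.an s) + k * F.nn (j - 1) :=
  ⟨(h.toRows.rho_lw k hs).1, h.ptr _ _ ps, (h.toRows.rho_lw k hs).2, by
    rw [h.atr, (h.toRows.rho_lw k (h.an_mem hs ps)).2]⟩

theorem WFrm.far_hi (h : WFrm F Pr) (j m : ℤ) :
    ∃ s ∈ F.L j, s ∈ Pr ∧ m < F.ρ s ∧ m < F.ρ (F.an s) := by
  obtain ⟨s, hs, ps⟩ := h.pne j
  obtain ⟨k, hk⟩ : ∃ k : ℕ, m - F.ρ s < k ∧ m - F.ρ (F.an s) < k :=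
    ⟨(m - F.ρ s).natAbs + (m - F.ρ (F.an s)).natAbs + 1, by omega, by omega⟩
  obtain ⟨h1, h2, h3, h4⟩ := h.shift hs ps k
  refine ⟨_, h1, h2, ?_, ?_⟩
  · nlinarith [h.n2 j, (Nat.cast_nonneg k : (0 : ℤ) ≤ k)]
  · nlinarith [h.n2 (j - 1), (Nat.cast_nonneg k : (0 : ℤ) ≤ k)]

theorem WFrm.far_lo (h : WFrm F Pr) (j m : ℤ) :
    ∃ s ∈ F.L j, s ∈ Pr ∧ F.ρ s < m ∧ F.ρ (F.an s) < m := by
  obtain ⟨s, hs, ps⟩ := h.pne j
  obtain ⟨k, hk⟩ : ∃ k : ℕ, F.ρ s - m < k ∧ F.ρ (F.an s) - m < k :=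
    ⟨(m - F.ρ s).natAbs + (m - F.ρ (F.an s)).natAbs + 1, by omega, by omega⟩
  obtain ⟨h1, h2, h3, h4⟩ := h.shift hs ps (-k)
  refine ⟨_, h1, h2, ?_, ?_⟩
  · nlinarith [h.n2 j, (Nat.cast_nonneg k : (0 : ℤ) ≤ k)]
  · nlinarith [h.n2 (j - 1), (Nat.cast_nonneg k : (0 : ℤ) ≤ k)]

/-- the next rung to the right of a position -/
theorem WFrm.next (h : WFrm F Pr) (j m : ℤ) : ∃ s ∈ F.L j, s ∈ Pr ∧ m < F.ρ s ∧
    ∀ t ∈ F.L j, t ∈ Pr → m < F.ρ t → F.ρ s ≤ F.ρ t := by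
  obtain ⟨s, hs, ps, ls, -⟩ := h.far_hi j m
  obtain ⟨i, ⟨h1, h2⟩, h3⟩ := Int.exists_least_of_bdd (P := fun i => F.l j i ∈ Pr ∧ m < i)
    ⟨m, fun z hz => hz.2.le⟩ ⟨F.ρ s, by rwa [h.toRows.l_rho hs], ls⟩
  refine ⟨_, h.toRows.l_mem j i, h1, by rwa [h.rho], fun t ht pt lt => ?_⟩
  rw [h.rho]
  exact h3 _ ⟨by rwa [h.toRows.l_rho ht], lt⟩

/-- the last rung to the left of a position -/
theorem WFrm.prev (h : WFrm F Pr) (j m : ℤ) : ∃ s ∈ F.L j, s ∈ Pr ∧ F.ρ s ≤ m ∧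
    ∀ t ∈ F.L j, t ∈ Pr → F.ρ t ≤ m → F.ρ t ≤ F.ρ s := by
  obtain ⟨s, hs, ps, ls, -⟩ := h.far_lo j m
  obtain ⟨i, ⟨h1, h2⟩, h3⟩ := Int.exists_greatest_of_bdd (P := fun i => F.l j i ∈ Pr ∧ i ≤ m)
    ⟨m, fun z hz => hz.2⟩ ⟨F.ρ s, by rwa [h.toRows.l_rho hs], ls.le⟩
  refine ⟨_, h.toRows.l_mem j i, h1, by rwa [h.rho], fun t ht pt lt => ?_⟩
  rw [h.rho]
  exact h3 _ ⟨by rwa [h.toRows.l_rho ht], lt⟩

theorem Rows.memSI (h : Rows F) {j : ℤ} {s s' v : Vx J} (hs : s ∈ F.L j) (hv : v ∈ F.St j)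
    (H : ∀ z, z ∈ Nb F.Γ (Cp F j v) → ¬ Lt F j s z ∧ ¬ Gt F j s' z) : v ∈ F.SI s s' := by
  unfold FD.SI
  rw [h.uw.lf j s hs]
  refine ⟨hv, fun y z hy a => ?_⟩
  rcases h.att (cp_sub (F := F) ⟨hv, hy⟩) a with h1 | h1
  · exact Or.inl h1
  · have := H z ⟨y, ⟨hv, hy⟩, a.symm⟩
    exact Or.inr (h.mid hs h1 this.1 this.2)

/-- every vertex of a strip lies between two consecutive rungs -/
theorem WFrm.ex (h : WFrm F Pr) {j : ℤ} {v : Vx J} (hv : v ∈ F.St j) :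
    ∃ s ∈ F.L j, ∃ s' ∈ F.L j, s ∈ Pr ∧ s' ∈ Pr ∧ F.ρ s < F.ρ s' ∧
      (∀ t ∈ F.L j, t ∈ Pr → F.ρ t ≤ F.ρ s ∨ F.ρ s' ≤ F.ρ t) ∧ v ∈ F.SI s s' := by
  have hC := h.sfin (cp_sub (v := v) (j := j)) cp_conn
  have hfin : (Nb F.Γ (Cp F j v)).Finite := by
    have := hC.biUnion (t := fun b => {y | F.Γ.Adj b y}) (fun b _ => h.wp.fine.lf b)
    refine this.subset ?_
    rintro x ⟨b, hb, a⟩
    exact Set.mem_biUnion hb a.symm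
  obtain ⟨m, hm⟩ := (hfin.image F.ρ).bddBelow
  obtain ⟨M, hM⟩ := (hfin.image F.ρ).bddAbove
  obtain ⟨s0, hs0, p0, h0, h0'⟩ := h.far_lo j m
  obtain ⟨s1, hs1, p1, h1, h1'⟩ := h.far_hi j M
  obtain ⟨z0, hz0, hz0'⟩ := Set.not_subset.1
    (h.nj (Cp F j v) (Set.subset_univ _) hC ⟨v, hv, .refl⟩ v v (Or.inl rfl))
  have hz1 : z0 ∈ F.L (j - 1) ∨ z0 ∈ F.L j := by
    obtain ⟨y, hy, e⟩ := hz0
    exact (h.toRows.att (cp_sub hy) e.symm).resolve_left fun k =>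
      hz0' (Or.inl (cp_step hy k e.symm))
  obtain ⟨i, ⟨hi1, hi2⟩, hi3⟩ := Int.exists_greatest_of_bdd
    (P := fun i => F.l j i ∈ Pr ∧ ∀ z ∈ Nb F.Γ (Cp F j v), ¬ Lt F j (F.l j i) z)
    ⟨F.ρ s1, fun i hi => by
      by_contra c
      have a1 := h.mono hs1 p1 (h.toRows.l_mem j i) hi.1 (by rw [h.rho]; omega)
      have a2 := hM ⟨z0, hz0, rfl⟩
      refine hi.2 z0 hz0 (hz1.imp (fun k => ⟨k, by omega⟩) fun k => ⟨k, ?_⟩)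
      rw [h.rho]
      omega⟩
    ⟨F.ρ s0, by
      rw [h.toRows.l_rho hs0]
      refine ⟨p0, fun z hz => ?_⟩
      have := hm ⟨z, hz, rfl⟩
      rintro (h2 | h2) <;> omega⟩
  obtain ⟨s', hs', ps', l1, l2⟩ := h.next j i
  refine ⟨F.l j i, h.toRows.l_mem j i, s', hs', hi1, ps', by rwa [h.rho], fun t ht pt => ?_,
    h.toRows.memSI (h.toRows.l_mem j i) hv fun z hz => ⟨hi2 z hz, fun hg => ?_⟩⟩
  · have := l2 t ht pt
    rw [h.rho]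
    omega
  · by_cases h3 : ∀ z ∈ Nb F.Γ (Cp F j v), ¬ Lt F j s' z
    · have := hi3 (F.ρ s') (by rw [h.toRows.l_rho hs']; exact ⟨ps', h3⟩)
      omega
    · push Not at h3
      obtain ⟨x, hx1, hx2⟩ := h3
      exact (h.ncp hs' ps' cp_sub cp_conn hx2 hg).2 ⟨hx1, hz⟩

theorem Rows.nb_SI (h : Rows F) {j : ℤ} {s s' v : Vx J} (hs : s ∈ F.L j) (hv : v ∈ F.SI s s') :
    v ∈ F.St j ∧ ∀ z ∈ Nb F.Γ (Cp F j v), z ∈ Cp F j v ∨ z ∈ F.Bot s s' ∨ z ∈ F.Top s s' := by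
  unfold FD.SI at hv
  rw [h.uw.lf j s hs] at hv
  refine ⟨hv.1, ?_⟩
  rintro z ⟨y, hy, a⟩
  rcases hv.2 y z hy.2 a.symm with h1 | h1
  · exact Or.inl (cp_step hy h1 a.symm)
  · exact Or.inr h1

theorem WFrm.dis (h : WFrm F Pr) {j : ℤ} {s s' t t' : Vx J} (hs : s ∈ F.L j) (hs' : s' ∈ F.L j)
    (ps' : s' ∈ Pr) (ht : t ∈ F.L j) (pt : t ∈ Pr) (hst : F.ρ s' ≤ F.ρ t) :
    Disjoint (F.SI s s') (F.SI t t') := by
  rw [Set.disjoint_left]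
  intro v h1 h2
  obtain ⟨hv, h1⟩ := h.toRows.nb_SI hs h1
  obtain ⟨-, h2⟩ := h.toRows.nb_SI ht h2
  refine h.nj (Cp F j v) (Set.subset_univ _) (h.sfin cp_sub cp_conn) ⟨v, hv, .refl⟩
    t (F.an t) (Or.inr (h.an_adj ht pt)) ?_
  intro z hz
  have hm := h.mono hs' ps' ht pt hst
  have e1 := h1 z hz
  have e2 := h2 z hz
  unfold FD.Bot FD.Top at e1 e2
  rw [h.uw.lf j s hs] at e1
  rw [h.uw.lf j t ht] at e2
  rcases e1 with e1 | e1 | e1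
  · exact Or.inl e1
  · rcases e2 with e2 | e2 | e2
    · exact Or.inl e2
    · exact Or.inr (Or.inr (h.toRows.inj e1.1 (h.an_mem ht pt)
        (by have := e1.2.2; have := e2.2.1; omega)))
    · exact absurd (h.toRows.l_u e2.1) (l_not_u' e1.1)
  · rcases e2 with e2 | e2 | e2
    · exact Or.inl e2
    · exact absurd (h.toRows.l_u e1.1) (l_not_u' e2.1)
    · exact Or.inr (Or.inl (h.toRows.inj e1.1 ht (by have := e1.2.2; have := e2.2.1; omega)))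

theorem WFrm.fin (h : WFrm F Pr) {j : ℤ} {s : Vx J} (hs : s ∈ F.L j) (s' : Vx J) :
    (F.SI s s').Finite := by
  have h1 : (F.Bot s s' ∪ F.Top s s').Finite :=
    (h.toRows.seg_fin _ _ _).union (h.toRows.seg_fin _ _ _)
  have h2 := h1.biUnion (t := fun b => {y | F.Γ.Adj b y}) (fun b _ => h.wp.fine.lf b)
  have h3 := h2.biUnion (t := fun y => Cp F j y) (fun y _ => h.sfin cp_sub cp_conn)
  refine h3.subset ?_
  intro v hv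
  obtain ⟨hv, h4⟩ := h.toRows.nb_SI hs hv
  obtain ⟨z, hz, hz'⟩ := Set.not_subset.1 (h.nj (Cp F j v) (Set.subset_univ _)
    (h.sfin cp_sub cp_conn) ⟨v, hv, .refl⟩ v v (Or.inl rfl))
  rcases h4 z hz with h6 | h6
  · exact (hz' (Or.inl h6)).elim
  · obtain ⟨y, hy, a⟩ := hz
    exact Set.mem_biUnion (Set.mem_biUnion (x := z) h6 a) ⟨cp_sub hy, Conn.symm hy.2⟩

theorem WFrm.sub (h : WFrm F Pr) {j : ℤ} {s s' t t' : Vx J} (hs : s ∈ F.L j) (ps : s ∈ Pr)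
    (hs' : s' ∈ F.L j) (ps' : s' ∈ Pr) (ht : t ∈ F.L j) (pt : t ∈ Pr) (ht' : t' ∈ F.L j)
    (pt' : t' ∈ Pr) (h1 : F.ρ s ≤ F.ρ t) (h2 : F.ρ t' ≤ F.ρ s') : F.SI t t' ⊆ F.SI s s' := by
  intro v hv
  have m1 := h.mono hs ps ht pt h1
  have m2 := h.mono ht' pt' hs' ps' h2
  unfold FD.SI FD.Bot FD.Top at hv ⊢
  rw [h.uw.lf j t ht] at hv
  rw [h.uw.lf j s hs]
  refine ⟨hv.1, fun y z hy a => ?_⟩
  rcases hv.2 y z hy a with e | e | e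
  · exact Or.inl e
  · exact Or.inr (Or.inl ⟨e.1, m1.trans e.2.1, e.2.2.trans m2⟩)
  · exact Or.inr (Or.inr ⟨e.1, h1.trans e.2.1, e.2.2.trans h2⟩)

theorem WFrm.inner (h : WFrm F Pr) {j : ℤ} {s s' x z : Vx J} (hs : s ∈ F.L j) (ps : s ∈ Pr)
    (hs' : s' ∈ F.L j) (ps' : s' ∈ Pr) (h1 : Gt F j s x) (h2 : Lt F j s' x) (a : F.Γ.Adj x z) :
    (z ∈ F.St j → z ∈ F.SI s s') ∧
      (z ∈ F.L (j - 1) ∨ z ∈ F.L j → z ∈ F.Bot s s' ∨ z ∈ F.Top s s') := by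
  refine ⟨fun hz => h.toRows.memSI hs hz fun y hy => ⟨fun e => ?_, fun e => ?_⟩, fun hz => ?_⟩
  · exact (h.ncp hs ps cp_sub cp_conn e h1).2 ⟨hy, z, ⟨hz, .refl⟩, a⟩
  · exact (h.ncp hs' ps' cp_sub cp_conn h2 e).2 ⟨⟨z, ⟨hz, .refl⟩, a⟩, hy⟩
  · exact h.toRows.mid hs hz
      (fun e => (h.ncp hs ps (Set.empty_subset _) isConn_empty e h1).1 a.symm)
      (fun e => (h.ncp hs' ps' (Set.empty_subset _) isConn_empty h2 e).1 a)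

theorem WFrm.top (h : WFrm F Pr) {j : ℤ} {s s' x z : Vx J} (hs : s ∈ F.L j) (ps : s ∈ Pr)
    (hs' : s' ∈ F.L j) (ps' : s' ∈ Pr) (hx : x ∈ F.L j) (h1 : F.ρ s < F.ρ x) (h2 : F.ρ x < F.ρ s')
    (a : F.Γ.Adj x z) : (z ∈ F.St j → z ∈ F.SI s s') ∧ (z ∈ F.L (j - 1) → z ∈ F.Bot s s') := by
  have := h.inner hs ps hs' ps' (Or.inr ⟨hx, h1⟩) (Or.inr ⟨hx, h2⟩) a
  refine ⟨this.1, fun hz => (this.2 (Or.inl hz)).resolve_right fun e => ?_⟩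
  have h3 := h.uw.lf _ _ e.1
  have h4 := h.uw.lf _ _ hz
  have h5 := h.uw.lf _ _ hs
  omega

theorem WFrm.bot (h : WFrm F Pr) {j : ℤ} {s s' x z : Vx J} (hs : s ∈ F.L j) (ps : s ∈ Pr)
    (hs' : s' ∈ F.L j) (ps' : s' ∈ Pr) (hx : x ∈ F.L (j - 1)) (h1 : F.ρ (F.an s) < F.ρ x)
    (h2 : F.ρ x < F.ρ (F.an s')) (a : F.Γ.Adj x z) :
    (z ∈ F.St j → z ∈ F.SI s s') ∧ (z ∈ F.L j → z ∈ F.Top s s') := by
  have := h.inner hs ps hs' ps' (Or.inl ⟨hx, h1⟩) (Or.inl ⟨hx, h2⟩) a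
  refine ⟨this.1, fun hz => (this.2 (Or.inr hz)).resolve_left fun e => ?_⟩
  have h3 := h.uw.lf _ _ e.1
  have h4 := h.uw.lf _ _ hz
  have h5 := h.uw.lf _ _ hs
  omega

end Pool.Agent.P.MP_08fd93_co.FZ
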