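import Pool.Agent.P.MP_08fd93_co.FZ.SI

/-! The static cell between two rungs of a weak frame is a disc. -/

set_option autoImplicit false

namespace Pool.Agent.P.MP_08fd93_co.FZ

open OV

variable {J : Type} {F : FD J} {Pr : Set (Vx J)}

theorem siStep {s s' v z : Vx J} (hv : v ∈ F.SI s s') (hz : z ∈ F.St (F.f s))
    (h : F.Γ.Adj v z) : z ∈ F.SI s s' :=
  ⟨hz, fun y z' c a => hv.2 y z' (Relation.ReflTransGen.head ⟨hv.1, hz, h⟩ c) a⟩

theorem si_nb {s s' v z : Vx J} (hv : v ∈ F.SI s s') (h : F.Γ.Adj v z) :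
    z ∈ F.SI s s' ∨ z ∈ F.Bot s s' ∨ z ∈ F.Top s s' :=
  (hv.2 v z Conn.rfl' h).imp_left fun k => siStep hv k h

/-- The static cell between the rungs at `s` and `s'`. -/
def scell (F : FD J) (s s' : Vx J) : DD (Vx J) :=
  ⟨(F.Bot s s' ∪ F.Top s s' ∪ F.SI s s')ᶜ, F.Bot s s', F.Top s s', F.ρ, F.an s, F.an s', s, s'⟩

/-- The outside of the static cell without the part above the top line. -/
def sout (F : FD J) (s s' : Vx J) : Set (Vx J) := (scell F s s').Z \ F.U (F.f s + 1)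

theorem sout_bl (h : Rows F) {s s' v : Vx J} (hv : v ∈ BL F.Γ F.f (F.f s - 1)) :
    v ∈ sout F s s' := by
  refine ⟨?_, fun k => u_not_bl (h.uw.mono _ _ (by omega) k) hv⟩
  rintro ((k | k) | k)
  exacts [hv (Or.inr k.1), u_not_bl (h.l_u k.1) hv, u_not_bl k.1.1 hv]

theorem sout_lo (h : Rows F) {s s' v : Vx J} (hv : v ∈ F.L (F.f s - 1)) (hn : v ∉ F.Bot s s') :
    v ∈ sout F s s' := by
  refine ⟨?_, fun k => l_not_u' hv (h.uw.mono _ _ (by omega) k)⟩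
  rintro ((k | k) | k)
  exacts [hn k, l_not_u' hv (h.l_u k.1), l_not_u' hv k.1.1]

theorem sout_hi (h : Rows F) {s s' v : Vx J} (hv : v ∈ F.L (F.f s)) (hn : v ∉ F.Top s s') :
    v ∈ sout F s s' := by
  refine ⟨?_, hv.2⟩
  rintro ((k | k) | k)
  exacts [l_not_u' k.1 (h.l_u hv), hn k, k.1.2 (Or.inl hv)]

theorem sout_st {s s' v : Vx J} (hv : v ∈ F.St (F.f s)) (hn : v ∉ F.SI s s') :
    v ∈ sout F s s' := by
  refine ⟨?_, fun k => hv.2 (Or.inr k)⟩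
  rintro ((k | k) | k)
  exacts [l_not_u' k.1 hv.1, hv.2 (Or.inl k.1), hn k]

theorem scell_up (h : Rows F) {s s' v : Vx J} (hv : v ∈ F.U (F.f s + 1)) :
    v ∈ (scell F s s').Z := by
  rintro ((k | k) | k)
  exacts [l_not_u' k.1 (h.uw.mono _ _ (by omega) hv), k.1.2 hv, k.1.2 (Or.inr hv)]

theorem sout_conn (h : WFrm F Pr) {s s' : Vx J} (hs : s ∈ F.L (F.f s)) (ps : s ∈ Pr)
    (hs' : s' ∈ F.L (F.f s)) (ps' : s' ∈ Pr) : IsConn F.Γ (sout F s s') := by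
  have hR := h.toRows
  have n1 := h.n2 (F.f s)
  have n2 := h.n2 (F.f s - 1)
  have g1 : ∀ v ∈ F.L (F.f s - 1), v ∉ F.Bot s s' →
      ∃ y ∈ BL F.Γ F.f (F.f s - 1), Conn F.Γ (sout F s s') v y := by
    intro v hv hn
    obtain ⟨b, hb, e⟩ := h.tch _ hv
    exact ⟨b, hb, Conn.step (sout_lo hR hv hn) (sout_bl hR hb) e⟩
  have g2 : ∀ v ∈ F.L (F.f s), v ∉ F.Top s s' →
      ∃ y ∈ BL F.Γ F.f (F.f s - 1), Conn F.Γ (sout F s s') v y := by
    intro v hv hn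
    have key : ∀ (p : ℤ → Prop) (t : Vx J), (∀ a b c, p a → p c → a ≤ b → b ≤ c → p b) →
        (∀ i, p i → ¬ (F.ρ s ≤ i ∧ i ≤ F.ρ s')) → p (F.ρ v) → t ∈ F.L (F.f s) → t ∈ Pr →
        p (F.ρ t) → F.an t ∉ F.Bot s s' →
        ∃ y ∈ BL F.Γ F.f (F.f s - 1), Conn F.Γ (sout F s s') v y := by
      intro p t hp ho pv ht pt pt' hb
      have sub : {x | x ∈ F.L (F.f s) ∧ p (F.ρ x)} ⊆ sout F s s' := fun x hx =>
        sout_hi hR hx.1 fun k => ho _ hx.2 k.2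
      obtain ⟨y, hy, c⟩ := g1 _ (h.an_mem ht pt) hb
      exact ⟨y, hy, (((hR.seg_conn _ hp v ⟨hv, pv⟩ t ⟨ht, pt'⟩).up sub).snoc (sub ⟨ht, pt'⟩)
        (sout_lo hR (h.an_mem ht pt) hb) (h.an_adj ht pt)).trans c⟩
    by_cases c : F.ρ v < F.ρ s
    · obtain ⟨h1, h2, h3, h4⟩ := h.shift hs ps (-1)
      exact key (fun i => i < F.ρ s) _ (fun _ _ _ _ _ _ _ => by omega) (fun _ _ => by omega) c h1 h2
        (by omega) fun k => by have := k.2.1; omega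
    · obtain ⟨h1, h2, h3, h4⟩ := h.shift hs' ps' 1
      refine key (fun i => F.ρ s' < i) _ (fun _ _ _ _ _ _ _ => by omega) (fun _ _ => by omega) ?_
        h1 h2 (by omega) fun k => by have := k.2.2; omega
      by_contra c'
      exact hn ⟨hv, by omega, by omega⟩
  refine isConn_base (h.blc _) (fun v hv => sout_bl hR hv) fun v hv => ?_
  rcases parts F (F.f s) v with k | k | k | k | k
  · exact ⟨v, k, Conn.rfl'⟩
  · exact g1 v k fun e => hv.1 (Or.inl (Or.inl e))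
  · have h2 : v ∉ F.SI s s' := fun e => hv.1 (Or.inr e)
    have h3 : ¬ ∀ y w, Conn F.Γ (F.St (F.f s)) v y → F.Γ.Adj y w →
        w ∈ F.St (F.f s) ∨ w ∈ F.Bot s s' ∨ w ∈ F.Top s s' := fun e => h2 ⟨k, e⟩
    push Not at h3
    obtain ⟨y, w, c, e, w1, w2, w3⟩ := h3
    have out : ∀ y, Conn F.Γ (F.St (F.f s)) v y → y ∈ sout F s s' := fun y c =>
      sout_st (c.mem k) (c.ind (p := fun z => z ∉ F.SI s s') h2
        fun a b ha _ e hn hb => hn (siStep hb ha e.symm))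
    rcases hR.att (c.mem k) e with k1 | k1 | k1
    · exact absurd k1 w1
    · obtain ⟨b, hb, c'⟩ := g1 w k1 w2
      exact ⟨b, hb, ((c.sub out).snoc (out y c) (sout_lo hR k1 w2) e).trans c'⟩
    · obtain ⟨b, hb, c'⟩ := g2 w k1 w3
      exact ⟨b, hb, ((c.sub out).snoc (out y c) (sout_hi hR k1 w3) e).trans c'⟩
  · exact g2 v k fun e => hv.1 (Or.inl (Or.inr e))
  · exact absurd k hv.2

theorem scell_I (_ : Rows F) (s s' : Vx J) : (scell F s s').I = F.SI s s' := by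
  ext v
  constructor
  · intro hv
    by_contra hc
    exact hv (by
      by_cases h1 : v ∈ F.Bot s s' ∪ F.Top s s'
      exacts [Or.inr h1, Or.inl fun h2 => h2.elim h1 hc])
  · rintro hv (k | k | k)
    exacts [k (Or.inr hv), l_not_u' k.1 hv.1.1, hv.1.2 (Or.inl k.1)]

/-- the neighbour of an end of the top on the line outside the cell -/
theorem ray_nb (h : Rows F) {s s' : Vx J} (hs : s ∈ F.L (F.f s)) (hs' : s' ∈ F.L (F.f s)) :
    (∃ z ∈ F.L (F.f s), z ∉ F.Top s s' ∧ F.Γ.Adj s z) ∧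
      ∃ z ∈ F.L (F.f s), z ∉ F.Top s s' ∧ F.Γ.Adj s' z := by
  refine ⟨⟨F.l (F.f s) (F.ρ s - 1), h.l_mem _ _, fun k => ?_, ?_⟩,
    ⟨F.l (F.f s) (F.ρ s' + 1), h.l_mem _ _, fun k => ?_, ?_⟩⟩
  · have := k.2.1
    rw [h.rho] at this
    omega
  · rw [h.adj_iff hs (h.l_mem _ _), h.rho]
    omega
  · have := k.2.2
    rw [h.rho] at this
    omega
  · rw [h.adj_iff hs' (h.l_mem _ _), h.rho]
    omega

theorem scell_disc (h : WFrm F Pr) {j : ℤ} {s s' : Vx J} (hs : s ∈ F.L j) (ps : s ∈ Pr)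
    (hs' : s' ∈ F.L j) (ps' : s' ∈ Pr) (l : F.ρ s ≤ F.ρ s') : Disc F.Γ (scell F s s') := by
  have hR := h.toRows
  obtain rfl := h.uw.lf j s hs
  have hI := scell_I hR s s'
  refine ⟨hR.seg_pth (h.an_mem hs ps) (h.an_mem hs' ps') (h.mono hs ps hs' ps' l),
    hR.seg_pth hs hs' l, Set.disjoint_left.2 fun v hv k => l_not_u' hv.1 (hR.l_u k.1),
    (h.an_adj hs ps).symm, (h.an_adj hs' ps').symm, ?_,
    Set.disjoint_left.2 fun v hv k => hv (Or.inl k), ?_, ?_, hI ▸ h.fin hs s',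
    h.nj.mono (Set.subset_univ _)⟩
  · have e : (scell F s s').Z = sout F s s' ∪ F.U (F.f s + 1) := by
      ext v
      refine ⟨fun hv => ?_, fun hv => hv.elim And.left (scell_up hR)⟩
      by_cases k : v ∈ F.U (F.f s + 1)
      exacts [Or.inr k, Or.inl ⟨hv, k⟩]
    obtain ⟨z, hz, hn, -⟩ := (ray_nb hR hs hs').1
    obtain ⟨b, hb, eb⟩ := hz.1
    rw [e]
    exact (sout_conn h hs ps hs' ps').union (h.uw.conn _) ⟨z, sout_hi hR hz hn, b, hb, eb⟩
  · rintro v ⟨z, hz, e⟩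
    by_contra k
    have hv : v ∈ F.SI s s' := hI ▸ k
    rcases si_nb hv e with k1 | k1 | k1
    exacts [hz (Or.inr k1), hz (Or.inl (Or.inl k1)), hz (Or.inl (Or.inr k1))]
  · rintro v (hv | hv)
    · obtain ⟨b, hb, e⟩ := h.tch _ hv.1
      exact ⟨b, (sout_bl hR hb).1, e⟩
    · obtain ⟨b, hb, e⟩ := hv.1.1
      exact ⟨b, scell_up hR hb, e⟩

end Pool.Agent.P.MP_08fd93_co.FZ
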