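import Pool.Agent.P.MP_08fd93_co.FZ.Row
import Pool.Agent.P.MP_08fd93_co.OV.PkNC

/-! Toolbox for level lines without parents; nothing crosses a rung. -/

set_option autoImplicit false

namespace Pool.Agent.P.MP_08fd93_co.FZ

open OV

variable {J : Type} {F : FD J}

theorem Rows.fine (h : Rows F) : Fine F.Γ := h.wp.fine

theorem Rows.pl (h : Rows F) : Pl F.Γ Set.univ := h.wp.fine.pl

theorem Rows.l_mem (h : Rows F) (j i : ℤ) : F.l j i ∈ F.L j := (h.mem j _).2 ⟨i, rfl⟩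

theorem Rows.f_l (h : Rows F) (j i : ℤ) : F.f (F.l j i) = j := h.uw.lf j _ (h.l_mem j i)

theorem Rows.l_rho (h : Rows F) {j : ℤ} {x : Vx J} (hx : x ∈ F.L j) : F.l j (F.ρ x) = x := by
  obtain ⟨i, rfl⟩ := (h.mem j x).1 hx
  rw [h.rho]

theorem Rows.inj (h : Rows F) {j : ℤ} {x y : Vx J} (hx : x ∈ F.L j) (hy : y ∈ F.L j)
    (e : F.ρ x = F.ρ y) : x = y := by
  rw [← h.l_rho hx, ← h.l_rho hy, e]

theorem Rows.adj_iff (h : Rows F) {j : ℤ} {x y : Vx J} (hx : x ∈ F.L j) (hy : y ∈ F.L j) :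
    F.Γ.Adj x y ↔ F.ρ y = F.ρ x + 1 ∨ F.ρ x = F.ρ y + 1 := by
  rw [← h.adj j, h.l_rho hx, h.l_rho hy]

theorem Rows.la (h : Rows F) {j : ℤ} {x : Vx J} (hx : x ∈ F.L j) : x ∈ F.LA := by
  show x ∈ F.L (F.f x)
  rwa [h.uw.lf j x hx]

theorem Rows.nx_l (h : Rows F) (j i : ℤ) : F.nx (F.l j i) = F.l j (i + 1) := by
  rw [FD.nx, h.f_l, h.rho]

theorem Rows.nx_mem (h : Rows F) {j : ℤ} {x : Vx J} (hx : x ∈ F.L j) :
    F.nx x ∈ F.L j ∧ F.ρ (F.nx x) = F.ρ x + 1 ∧ F.Γ.Adj x (F.nx x) := by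
  obtain ⟨i, rfl⟩ := (h.mem j x).1 hx
  rw [h.nx_l, h.rho, h.rho]
  exact ⟨h.l_mem _ _, rfl, (h.adj j _ _).2 (Or.inl rfl)⟩

/-- a translation shifts the order of a level by a constant -/
theorem Rows.rho_tr (h : Rows F) (a : ℤ × ℤ) (j : ℤ) :
    ∃ κ, ∀ x ∈ F.L j, tr a x ∈ F.L (j + F.η a) ∧ F.ρ (tr a x) = F.ρ x + κ := by
  obtain ⟨κ, hκ⟩ := h.ltr a j
  refine ⟨κ, fun x hx => ?_⟩
  obtain ⟨i, rfl⟩ := (h.mem j x).1 hx
  rw [hκ, h.rho, h.rho]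
  exact ⟨h.l_mem _ _, rfl⟩

theorem Rows.nx_tr (h : Rows F) (a : ℤ × ℤ) {j : ℤ} {x : Vx J} (hx : x ∈ F.L j) :
    F.nx (tr a x) = tr a (F.nx x) := by
  obtain ⟨κ, hκ⟩ := h.ltr a j
  obtain ⟨i, rfl⟩ := (h.mem j x).1 hx
  rw [h.nx_l, hκ, hκ, h.nx_l, add_right_comm]

theorem Rows.eta_w (h : Rows F) (k : ℤ) : F.η (k • F.w) = 0 := h.wp.eta_w k

theorem Rows.lw_int (h : Rows F) (k j i : ℤ) :
    tr (k • F.w) (F.l j i) = F.l j (i + k * F.nn j) := by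
  induction k using Int.induction_on generalizing i with
  | zero => simp [tr_zero]
  | succ k ih => rw [add_smul, one_smul, ← tr_tr, ih, h.lw]; congr 1; ring
  | pred k ih =>
    apply tr_inj F.w
    rw [tr_tr, sub_smul, one_smul, sub_add_cancel, ih, h.lw]
    congr 1
    ring

/-- an interval of a level line is connected -/
theorem Rows.seg_conn (h : Rows F) (j : ℤ) {p : ℤ → Prop}
    (hp : ∀ a b c, p a → p c → a ≤ b → b ≤ c → p b) :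
    IsConn F.Γ {x | x ∈ F.L j ∧ p (F.ρ x)} := by
  have key : ∀ (n : ℕ) (i : ℤ), p i → p (i + n) →
      Conn F.Γ {x | x ∈ F.L j ∧ p (F.ρ x)} (F.l j i) (F.l j (i + n)) := by
    intro n
    induction n with
    | zero => intro i _ _; simpa using Conn.rfl'
    | succ n ih =>
      intro i h1 h2
      have h3 : p (i + n) := hp _ _ _ h1 h2 (by omega) (by push_cast; omega)
      refine (ih i h1 h3).snoc ⟨h.l_mem _ _, by rwa [h.rho]⟩ ⟨h.l_mem _ _, by rwa [h.rho]⟩ ?_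
      exact (h.adj j _ _).2 (Or.inl (by push_cast; ring))
  intro x hx y hy
  rw [← h.l_rho hx.1, ← h.l_rho hy.1]
  rcases le_total (F.ρ x) (F.ρ y) with l | l
  · have := key (F.ρ y - F.ρ x).toNat (F.ρ x) hx.2 (by convert hy.2 using 1; omega)
    rwa [show F.ρ x + ((F.ρ y - F.ρ x).toNat : ℤ) = F.ρ y by omega] at this
  · have := key (F.ρ x - F.ρ y).toNat (F.ρ y) hy.2 (by convert hx.2 using 1; omega)
    rw [show F.ρ y + ((F.ρ x - F.ρ y).toNat : ℤ) = F.ρ x by omega] at this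
    exact this.symm

/-- a level vertex is not in the part above its level -/
theorem Rows.l_not_u (_ : Rows F) {j : ℤ} {x : Vx J} (hx : x ∈ F.L j) : x ∉ F.U (j + 1) := hx.2

theorem Rows.img_conn (h : Rows F) (j : ℤ) {I : Set ℤ} (hI : I.OrdConnected) :
    IsConn F.Γ (F.l j '' I) := by
  have e : F.l j '' I = {x | x ∈ F.L j ∧ F.ρ x ∈ I} := by
    ext x
    constructor
    · rintro ⟨i, hi, rfl⟩
      exact ⟨h.l_mem j i, by rwa [h.rho]⟩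
    · rintro ⟨h1, h2⟩
      exact ⟨_, h2, h.l_rho h1⟩
  rw [e]
  exact h.seg_conn j (p := fun i => i ∈ I) fun a b c ha hc l1 l2 => hI.out ha hc ⟨l1, l2⟩

theorem Rows.line_conn (h : Rows F) (j : ℤ) : IsConn F.Γ (F.L j) := by
  have := h.seg_conn j (p := fun _ => True) fun _ _ _ _ _ _ _ => trivial
  simpa using this

theorem Rows.rho_lw (h : Rows F) (k : ℤ) {j : ℤ} {x : Vx J} (hx : x ∈ F.L j) :
    tr (k • F.w) x ∈ F.L j ∧ F.ρ (tr (k • F.w) x) = F.ρ x + k * F.nn j := by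
  obtain ⟨i, rfl⟩ := (h.mem j x).1 hx
  rw [h.lw_int, h.rho, h.rho]
  exact ⟨h.l_mem _ _, rfl⟩

theorem Rows.seg_fin (h : Rows F) (j a b : ℤ) :
    {z | z ∈ F.L j ∧ a ≤ F.ρ z ∧ F.ρ z ≤ b}.Finite := by
  refine ((Set.finite_Icc a b).image (F.l j)).subset ?_
  rintro z ⟨h1, h2⟩
  exact ⟨F.ρ z, h2, h.l_rho h1⟩

/-- a segment of a level line is a path -/
theorem Rows.seg_pth (h : Rows F) {j : ℤ} {s t : Vx J} (hs : s ∈ F.L j) (ht : t ∈ F.L j)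
    (l : F.ρ s ≤ F.ρ t) : Pth F.Γ {z | z ∈ F.L j ∧ F.ρ s ≤ F.ρ z ∧ F.ρ z ≤ F.ρ t} F.ρ s t := by
  refine ⟨h.seg_fin _ _ _, ⟨hs, le_rfl, l⟩, ⟨ht, l, le_rfl⟩, fun v hv => hv.2.1,
    fun v hv => hv.2.2, fun u hu v hv e => h.inj hu.1 hv.1 e, fun u hu v hv lt => ?_⟩
  rw [h.adj_iff hu.1 hv.1]
  refine ⟨fun e x _ => by omega, fun e => ?_⟩
  have b1 := hu.2.1
  have b2 := hv.2.2
  have := e (F.l j (F.ρ u + 1)) ⟨h.l_mem _ _, by rw [h.rho]; omega, by rw [h.rho]; omega⟩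
  rw [h.rho] at this
  omega

theorem Rows.l_u (h : Rows F) {j : ℤ} {x : Vx J} (hx : x ∈ F.L j) : x ∈ F.U j := h.uw.lu j hx

theorem l_not_u' {j : ℤ} {x : Vx J} (hx : x ∈ F.L (j - 1)) : x ∉ F.U j := by
  have := hx.2
  rwa [sub_add_cancel] at this

theorem u_not_bl {j : ℤ} {x : Vx J} (hx : x ∈ F.U j) : x ∉ BL F.Γ F.f (j - 1) := fun h =>
  h (Or.inl (by rwa [sub_add_cancel]))

/-- the five parts of the graph around the strip `j` -/
theorem parts (F : FD J) (j : ℤ) (x : Vx J) : x ∈ BL F.Γ F.f (j - 1) ∨ x ∈ F.L (j - 1) ∨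
    x ∈ F.St j ∨ x ∈ F.L j ∨ x ∈ F.U (j + 1) := by
  by_cases h1 : x ∈ F.U j
  · by_cases h2 : x ∈ F.L j ∪ F.U (j + 1)
    · exact Or.inr (Or.inr (Or.inr h2))
    · exact Or.inr (Or.inr (Or.inl ⟨h1, h2⟩))
  · by_cases h2 : x ∈ F.L (j - 1)
    · exact Or.inr (Or.inl h2)
    · refine Or.inl ?_
      rintro (h | h)
      · exact h1 (by rwa [sub_add_cancel] at h)
      · exact h2 h

/-- the neighbours of a vertex of a strip -/
theorem Rows.att (h : Rows F) {j : ℤ} {y z : Vx J} (hy : y ∈ F.St j) (a : F.Γ.Adj y z) :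
    z ∈ F.St j ∨ z ∈ F.L (j - 1) ∨ z ∈ F.L j := by
  rcases h.uw.bd j y hy.1 z a with h1 | h1
  · by_cases h2 : z ∈ F.L j
    · exact Or.inr (Or.inr h2)
    · refine Or.inl ⟨h1, ?_⟩
      rintro (h3 | h3)
      · exact h2 h3
      · by_cases h4 : y ∈ UU F.Γ F.f (j + 1)
        · exact hy.2 (Or.inr h4)
        · exact hy.2 (Or.inl ⟨⟨z, h3, a⟩, h4⟩)
  · exact Or.inr (Or.inl h1)

/-- the neighbours of a level vertex -/
theorem Rows.l_nb (h : Rows F) {j : ℤ} {y z : Vx J} (hy : y ∈ F.L j) (a : F.Γ.Adj y z) :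
    z ∈ F.L (j - 1) ∨ z ∈ F.St j ∨ z ∈ F.L j ∨ z ∈ F.U (j + 1) := by
  rcases h.uw.bd j y (h.l_u hy) z a with h1 | h1
  · by_cases h2 : z ∈ F.L j ∪ F.U (j + 1)
    · exact Or.inr (Or.inr h2)
    · exact Or.inr (Or.inl ⟨h1, h2⟩)
  · exact Or.inl h1

/-- the neighbours of a vertex above a level line -/
theorem Rows.u_nb (h : Rows F) {j : ℤ} {y z : Vx J} (hy : y ∈ F.U (j + 1)) (a : F.Γ.Adj y z) :
    z ∈ F.L j ∨ z ∈ F.U (j + 1) := by
  rcases h.uw.bd _ y hy z a with h1 | h1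
  · exact Or.inr h1
  · exact Or.inl (by rwa [add_sub_cancel_right] at h1)

theorem Rows.utr0 (h : Rows F) {g : ℤ × ℤ} (hg : F.η g = 0) (j : ℤ) (y : Vx J) :
    (tr g y ∈ F.U j ↔ y ∈ F.U j) ∧ (tr g y ∈ F.L j ↔ y ∈ F.L j) ∧
      (tr g y ∈ F.St j ↔ y ∈ F.St j) := by
  have h1 := h.uw.utr g j y
  have h2 := h.uw.ltr g j y
  have h3 := h.uw.str g j y
  rw [hg, add_zero] at h1 h2 h3
  exact ⟨h1, h2, h3⟩

theorem Rows.bl_tr (h : Rows F) (a : ℤ × ℤ) (j : ℤ) (y : Vx J) :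
    tr a y ∈ BL F.Γ F.f (j + F.η a) ↔ y ∈ BL F.Γ F.f j := by
  have e : j + F.η a + 1 = j + 1 + F.η a := by ring
  simp only [BL, Set.mem_compl_iff, Set.mem_union, e, h.uw.utr, h.uw.ltr]

theorem nc_main (hF : Rows F) (j ip iq k : ℤ) (hk : 2 ≤ k)
    (hpq : F.Γ.Adj (F.l (j - 1) ip) (F.l j iq)) (E : Set (Vx J)) (hE : E ⊆ F.St j)
    (hc : IsConn F.Γ ((F.l (j - 1) '' Set.Ioo (ip - k * F.nn (j - 1)) ip ∪
      F.l j '' Set.Ioo (iq - k * F.nn j) iq) ∪ E))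
    (ht : Touch F.Γ ((F.l (j - 1) '' Set.Ioo (ip - k * F.nn (j - 1)) ip ∪
      F.l j '' Set.Ioo (iq - k * F.nn j) iq) ∪ E)
      (F.l (j - 1) '' Set.Ioi ip ∪ F.l j '' Set.Ioi iq)) : False := by
  have hP := hF.wp
  have hU := hF.uw
  have hm : ∀ j i, F.l j i ∈ F.L j := fun j i => (hF.mem j _).2 ⟨i, rfl⟩
  have hf : ∀ j i, F.f (F.l j i) = j := fun j i => hU.lf j _ (hm j i)
  have hinj : ∀ j i j' i', F.l j i = F.l j' i' → j = j' ∧ i = i' := by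
    intro j i j' i' h
    have h1 := hf j i
    have h2 := hF.rho j i
    rw [h] at h1 h2
    rw [hf] at h1
    rw [hF.rho] at h2
    exact ⟨h1.symm, h2.symm⟩
  have hrung : ∀ t : ℤ, F.Γ.Adj (F.l (j - 1) (ip + t * F.nn (j - 1))) (F.l j (iq + t * F.nn j)) := by
    intro t
    rw [← hF.lw_int, ← hF.lw_int]
    exact hP.fine.inv _ _ _ hpq
  have n0 := hF.n2 (j - 1)
  have n1 := hF.n2 j
  have k0 : 2 * F.nn (j - 1) ≤ k * F.nn (j - 1) := by nlinarith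
  have k1 : 2 * F.nn j ≤ k * F.nn j := by nlinarith
  have hEl : ∀ i, F.l j i ∉ E := fun i h => (hE h).2 (Or.inl (hm j i))
  have hEf : ∀ v ∈ E, j ≤ F.f v := fun v hv => hU.ge j v (hE hv).1
  have hEl' : ∀ i, F.l (j - 1) i ∉ E := fun i h => by
    have := hEf _ h
    rw [hf] at this
    omega
  have hlow : ∀ i, F.l (j - 1) i ∈ Nb F.Γ (BL F.Γ F.f (j - 1)) := fun i => hF.tch _ (hm _ i)
  have hub : ∀ v ∈ F.U j, v ∉ BL F.Γ F.f (j - 1) := fun v hv h =>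
    h (Or.inl (by rwa [sub_add_cancel]))
  set Z : Set (Vx J) := (BL F.Γ F.f (j - 1) ∪ {F.l (j - 1) (ip - k * F.nn (j - 1))}) ∪
    (F.U (j + 1) ∪ {F.l j (iq - k * F.nn j)}) with hZ
  have hZ0 : ∀ i, F.l (j - 1) i ∈ Z → i = ip - k * F.nn (j - 1) := by
    rintro i ((h | h) | (h | h))
    · exact absurd (Or.inr (hm _ i)) h
    · exact (hinj _ _ _ _ h).2
    · have := hU.ge _ _ h
      rw [hf] at this
      omega
    · have := (hinj _ _ _ _ h).1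
      omega
  have hZ1 : ∀ i, F.l j i ∈ Z → i = iq - k * F.nn j := by
    rintro i ((h | h) | (h | h))
    · exact absurd h (hub _ (hU.lu j (hm j i)))
    · have := (hinj _ _ _ _ h).1
      omega
    · exact absurd h (hm j i).2
    · exact (hinj _ _ _ _ h).2
  have hZE : ∀ v ∈ E, v ∉ Z := by
    rintro v hv ((h | h) | (h | h))
    · exact hub v (hE hv).1 h
    · exact hEl' _ (h ▸ hv)
    · exact (hE hv).2 (Or.inr h)
    · exact hEl _ (h ▸ hv)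
  have tZ0 : ∀ (i : ℤ) (A : Set (Vx J)), F.l (j - 1) i ∈ A → Touch F.Γ Z A := by
    intro i A hA
    obtain ⟨v, hv, h⟩ := hlow i
    exact ⟨v, Or.inl (Or.inl hv), _, hA, h.symm⟩
  refine PkNCP.k5 hP.fine.pl.k5 Z {F.l (j - 1) ip} {F.l j iq} _ _ ?_ (isConn_single _)
    (isConn_single _) hc ?_ ?_ ?_ ?_ ?_ ?_ ?_ ?_ ?_ ?_ ?_ (tZ0 ip _ rfl) ?_
    (tZ0 (ip - 1) _ ?_) (tZ0 (ip + 1) _ ?_) ⟨_, rfl, _, rfl, hpq⟩ ?_ ?_ ?_ ?_ ht
  · refine IsConn.union ((hF.blc _).union_nb ?_) ((hU.conn _).union_nb ?_) ?_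
    · rintro v rfl
      exact hlow _
    · rintro v rfl
      exact (hm j _).1
    · refine ⟨_, Or.inr rfl, _, Or.inr rfl, ?_⟩
      have := hrung (-k)
      simpa [sub_eq_add_neg] using this
  · refine IsConn.union (hF.img_conn _ Set.ordConnected_Ioi) (hF.img_conn _ Set.ordConnected_Ioi)
      ⟨_, ⟨_, ?_, rfl⟩, _, ⟨_, ?_, rfl⟩, hrung 1⟩
    · simp only [Set.mem_Ioi]; omega
    · simp only [Set.mem_Ioi]; omega
  · refine Set.disjoint_singleton_right.2 fun h => ?_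
    have := hZ0 _ h
    omega
  · refine Set.disjoint_singleton_right.2 fun h => ?_
    have := hZ1 _ h
    omega
  · refine Set.disjoint_right.2 ?_
    rintro v ((⟨i, hi, rfl⟩ | ⟨i, hi, rfl⟩) | hv) h
    · have := hZ0 _ h
      have := hi.1
      omega
    · have := hZ1 _ h
      have := hi.1
      omega
    · exact hZE v hv h
  · refine Set.disjoint_right.2 ?_
    rintro v (⟨i, hi, rfl⟩ | ⟨i, hi, rfl⟩) h
    · have := hZ0 _ h
      simp only [Set.mem_Ioi] at hi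
      omega
    · have := hZ1 _ h
      simp only [Set.mem_Ioi] at hi
      omega
  · refine Set.disjoint_singleton.2 fun h => ?_
    have := (hinj _ _ _ _ h).1
    omega
  · refine Set.disjoint_singleton_left.2 ?_
    rintro ((⟨i, hi, h⟩ | ⟨i, hi, h⟩) | hv)
    · have := (hinj _ _ _ _ h).2
      have := hi.2
      omega
    · have := (hinj _ _ _ _ h).1
      omega
    · exact hEl' _ hv
  · refine Set.disjoint_singleton_left.2 ?_
    rintro (⟨i, hi, h⟩ | ⟨i, hi, h⟩)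
    · have := (hinj _ _ _ _ h).2
      simp only [Set.mem_Ioi] at hi
      omega
    · have := (hinj _ _ _ _ h).1
      omega
  · refine Set.disjoint_singleton_left.2 ?_
    rintro ((⟨i, hi, h⟩ | ⟨i, hi, h⟩) | hv)
    · have := (hinj _ _ _ _ h).1
      omega
    · have := (hinj _ _ _ _ h).2
      have := hi.2
      omega
    · exact hEl _ hv
  · refine Set.disjoint_singleton_left.2 ?_
    rintro (⟨i, hi, h⟩ | ⟨i, hi, h⟩)
    · have := (hinj _ _ _ _ h).1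
      omega
    · have := (hinj _ _ _ _ h).2
      simp only [Set.mem_Ioi] at hi
      omega
  · refine Set.disjoint_right.2 ?_
    rintro v (⟨i, hi, rfl⟩ | ⟨i, hi, rfl⟩) ((⟨i', hi', h⟩ | ⟨i', hi', h⟩) | hv)
    · have := (hinj _ _ _ _ h).2
      have := hi'.2
      simp only [Set.mem_Ioi] at hi
      omega
    · have := (hinj _ _ _ _ h).1
      omega
    · exact hEl' _ hv
    · have := (hinj _ _ _ _ h).1
      omega
    · have := (hinj _ _ _ _ h).2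
      have := hi'.2
      simp only [Set.mem_Ioi] at hi
      omega
    · exact hEl _ hv
  · obtain ⟨v, hv, h⟩ := (hm j iq).1
    exact ⟨v, Or.inr (Or.inl hv), _, rfl, h.symm⟩
  · exact Or.inl (Or.inl ⟨_, ⟨by omega, by omega⟩, rfl⟩)
  · exact Or.inl ⟨_, by simp only [Set.mem_Ioi]; omega, rfl⟩
  · exact ⟨_, rfl, F.l (j - 1) (ip - 1), Or.inl (Or.inl ⟨_, ⟨by omega, by omega⟩, rfl⟩),
      (hF.adj _ _ _).2 (Or.inr (by ring))⟩
  · exact ⟨_, rfl, F.l (j - 1) (ip + 1), Or.inl ⟨_, by simp only [Set.mem_Ioi]; omega, rfl⟩,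
      (hF.adj _ _ _).2 (Or.inl rfl)⟩
  · exact ⟨_, rfl, F.l j (iq - 1), Or.inl (Or.inr ⟨_, ⟨by omega, by omega⟩, rfl⟩),
      (hF.adj _ _ _).2 (Or.inr (by ring))⟩
  · exact ⟨_, rfl, F.l j (iq + 1), Or.inr ⟨_, by simp only [Set.mem_Ioi]; omega, rfl⟩,
      (hF.adj _ _ _).2 (Or.inl rfl)⟩

/-- nothing crosses a rung of a strip -/
theorem Rows.nc (hF : Rows F) {j : ℤ} {p q : Vx J} (hp : p ∈ F.L (j - 1)) (hq : q ∈ F.L j)
    (hpq : F.Γ.Adj p q) {E : Set (Vx J)} (hE : E ⊆ F.St j) (hEc : IsConn F.Γ E) {x y : Vx J}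
    (hx : (x ∈ F.L (j - 1) ∧ F.ρ x < F.ρ p) ∨ (x ∈ F.L j ∧ F.ρ x < F.ρ q))
    (hy : (y ∈ F.L (j - 1) ∧ F.ρ p < F.ρ y) ∨ (y ∈ F.L j ∧ F.ρ q < F.ρ y)) :
    ¬ F.Γ.Adj x y ∧ ¬ (x ∈ Nb F.Γ E ∧ y ∈ Nb F.Γ E) := by
  obtain ⟨ip, rfl⟩ := (hF.mem _ p).1 hp
  obtain ⟨iq, rfl⟩ := (hF.mem _ q).1 hq
  rw [hF.rho, hF.rho] at hx hy
  have n0 := hF.n2 (j - 1)
  have n1 := hF.n2 j
  set k : ℤ := 2 + |ip - F.ρ x| + |iq - F.ρ x| with hk
  have a0 := le_abs_self (ip - F.ρ x)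
  have a1 := le_abs_self (iq - F.ρ x)
  have a2 := abs_nonneg (ip - F.ρ x)
  have a3 := abs_nonneg (iq - F.ρ x)
  have hk2 : 2 ≤ k := by omega
  have k0 : k ≤ k * F.nn (j - 1) := by nlinarith
  have k1 : k ≤ k * F.nn j := by nlinarith
  have k0' : 2 * F.nn (j - 1) ≤ k * F.nn (j - 1) := by nlinarith
  have k1' : 2 * F.nn j ≤ k * F.nn j := by nlinarith
  have hxL : x ∈ F.l (j - 1) '' Set.Ioo (ip - k * F.nn (j - 1)) ip ∪
      F.l j '' Set.Ioo (iq - k * F.nn j) iq := by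
    rcases hx with ⟨h1, h2⟩ | ⟨h1, h2⟩
    · obtain ⟨i, hi⟩ := (hF.mem _ x).1 h1
      have : F.ρ x = i := by rw [hi, hF.rho]
      exact Or.inl ⟨i, ⟨by omega, by omega⟩, hi.symm⟩
    · obtain ⟨i, hi⟩ := (hF.mem _ x).1 h1
      have : F.ρ x = i := by rw [hi, hF.rho]
      exact Or.inr ⟨i, ⟨by omega, by omega⟩, hi.symm⟩
  have hyR : y ∈ F.l (j - 1) '' Set.Ioi ip ∪ F.l j '' Set.Ioi iq := by
    rcases hy with ⟨h1, h2⟩ | ⟨h1, h2⟩
    · obtain ⟨i, rfl⟩ := (hF.mem _ y).1 h1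
      rw [hF.rho] at h2
      exact Or.inl ⟨i, h2, rfl⟩
    · obtain ⟨i, rfl⟩ := (hF.mem _ y).1 h1
      rw [hF.rho] at h2
      exact Or.inr ⟨i, h2, rfl⟩
  have hLc : IsConn F.Γ (F.l (j - 1) '' Set.Ioo (ip - k * F.nn (j - 1)) ip ∪
      F.l j '' Set.Ioo (iq - k * F.nn j) iq) := by
    have hr : F.Γ.Adj (F.l (j - 1) (ip + (-1) * F.nn (j - 1))) (F.l j (iq + (-1) * F.nn j)) := by
      rw [← hF.lw_int, ← hF.lw_int]
      exact hF.wp.fine.inv _ _ _ hpq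
    exact IsConn.union (hF.img_conn _ Set.ordConnected_Ioo) (hF.img_conn _ Set.ordConnected_Ioo)
      ⟨_, ⟨_, ⟨by omega, by omega⟩, rfl⟩, _, ⟨_, ⟨by omega, by omega⟩, rfl⟩, hr⟩
  constructor
  · intro hxy
    refine nc_main hF j ip iq k hk2 hpq ∅ (Set.empty_subset _) ?_ ⟨x, Or.inl hxL, y, hyR, hxy⟩
    rwa [Set.union_empty]
  · rintro ⟨⟨a, ha, hxa⟩, ⟨b, hb, hyb⟩⟩
    exact nc_main hF j ip iq k hk2 hpq E hE (IsConn.union hLc hEc ⟨x, hxL, a, ha, hxa⟩)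
      ⟨b, Or.inr hb, y, hyR, hyb.symm⟩

end Pool.Agent.P.MP_08fd93_co.FZ
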