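import Pool.Agent.P.MP_08fd93_co.FK.K7
import Pool.Agent.P.MP_08fd93_co.FA.F2
import Pool.Agent.P.MP_08fd93_co.FA.Sp0

/-! Spikes with a funnel: the plans with one merge. -/

set_option autoImplicit false

namespace Pool.Agent.P.MP_08fd93_co.FZ

open OV FN FE FB FK FA FR

variable {J : Type} {G : VD J} {v l r e g x y : Vx J} {φ : Vx J → Vx J} {j : ℤ} {E : EJ J}
  {b : ℤ × ℤ}

theorem sv_und (h : SV G) (hφ : PH (FL G) G.Pr φ) (hg : g ∈ G.L (j - 1)) (he : e ∈ G.L j)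
    (l1 : G.ρ (G.xl (G.an e)) ≤ G.ρ g) (l2 : G.ρ g < G.ρ (G.xl (G.an (G.nx e)))) : φ g = e := by
  have R := h.vf.toRows
  have fg : G.f g + 1 = j := by rw [R.uw.lf _ _ hg, sub_add_cancel]
  obtain ⟨n1, n2, -⟩ := R.nx_mem he
  refine (hφ.uni g (R.la hg) e ⟨fg ▸ he, h.pr e, l1, fun t ht _ c => ?_⟩).symm
  have ht : t ∈ G.L j := fg ▸ ht
  have c : G.ρ e < G.ρ t := c
  exact l2.trans_le (h.vf.mono' n1 (h.pr _) ht (h.pr _) (by omega)).1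

theorem sv_phi (h : SV G) (hφ : PH (FL G) G.Pr φ) (hg : g ∈ G.L j) : φ g ∈ G.L (j + 1) ∧
    G.ρ (G.xl (G.an (φ g))) ≤ G.ρ g ∧ G.ρ g < G.ρ (G.xl (G.an (G.nx (φ g)))) := by
  have R := h.vf.toRows
  obtain ⟨a, -, b, c⟩ := hφ.und g (R.la hg)
  obtain ⟨n1, n2, -⟩ := R.nx_mem (F := G.toFD) a
  refine ⟨R.uw.lf _ _ hg ▸ a, b, c _ n1 (h.pr _) ?_⟩
  show G.ρ _ < G.ρ _
  omega

theorem fu_lr (h : SR G v l r) (u : Funnel G) : r.1 = l.1 := by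
  obtain ⟨a, e, -⟩ := h.isL (e := r) ⟨h.hr.1.1, u _ (h.rows.nx_mem h.r1).1, h.hr.1.2.2.symm⟩
  rw [e]
  rfl

theorem fu_of (h : SR G v l r) (e : r.1 = l.1) : Funnel G := by
  intro x hx
  have H := h.sv.lay
  have lt := (side_lev h.sv h.hl.1 h.hr.1 h.hl.2 h.hr.2).2.2
  obtain ⟨k, -, q⟩ := same_cls H h.l1 h.r1 e.symm
  have q : G.ρ r = G.ρ l + k * G.nn 1 := q
  obtain ⟨m, a, c⟩ := window H hx (G.ρ l + 1)
  have a : G.ρ l + 1 ≤ G.ρ (tr (m • G.w) x) := a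
  have c : G.ρ (tr (m • G.w) x) < G.ρ l + 1 + G.nn 1 := c
  have n3 := h.n3 1
  have k1 : G.nn 1 ≤ k * G.nn 1 := by rcases le_or_gt k 0 with c | c <;> nlinarith
  obtain ⟨n1, n2, -⟩ := h.rows.nx_mem h.l1
  have := h.sv.vf.btw n1 (h.sv.pr _) (H.w_mem m hx).1 (h.sv.pr _) h.r1 (h.sv.pr _)
    (show G.ρ _ ≤ G.ρ (tr (m • G.w) x) by omega) (show G.ρ (tr (m • G.w) x) ≤ G.ρ _ by omega)
    (h.hl.2.trans h.hr.2.symm) (h.hl.2.symm ▸ h.vk)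
  rw [h.hl.2] at this
  have this : G.an (tr (m • G.w) x) = v := this
  rw [h.sv.vf.atr] at this
  exact (h.eK _).2 (congrArg Prod.fst this :)

theorem fu_phi (h : SR G v l r) (hφ : PH (FL G) G.Pr φ) (u : Funnel G) (hg : g ∈ G.L 0) :
    (φ g).1 = l.1 := by
  obtain ⟨a1, a2, a3⟩ := sv_phi h.sv hφ hg
  have a1 : φ g ∈ G.L 1 := by simpa using a1
  obtain ⟨a, e, -⟩ := h.isL (e := φ g) ⟨h.rows.la a1, u _ (h.rows.nx_mem a1).1, fun c => by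
    rw [c] at a2
    omega⟩
  rw [e]
  rfl

theorem pair_pe {W : Type} {S T : Set (Sym2 W)} {a c f : Sym2 W} (h : S ⊆ {a, c}) (t : S ⊆ T)
    (m : f ∈ S) : ∃ a ∈ T, ∃ c ∈ T, S ⊆ {a, c} := by
  by_cases k : ∃ f' ∈ S, f' ≠ f
  · obtain ⟨f', m', n⟩ := k
    refine ⟨f, t m, f', t m', fun z hz => ?_⟩
    rcases h m with q | q <;> rcases h m' with q' | q' <;> rcases h hz with k | k
    exacts [absurd (q'.trans q.symm) n, absurd (q'.trans q.symm) n, Or.inl (k.trans q.symm),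
      Or.inr (k.trans q'.symm), Or.inr (k.trans q'.symm), Or.inl (k.trans q.symm),
      absurd (q'.trans q.symm) n, absurd (q'.trans q.symm) n]
  · exact ⟨f, t m, f, t m, fun z hz => Or.inl (not_not.1 fun n => k ⟨z, hz, n⟩)⟩

/-- The edge may be the pin of the row zero. -/
def Lg (G : VD J) (v g : Vx J) : Prop :=
  (g.1 = (G.xl v).1 ∨ HR G) ∨ g.1 = (pv (FL G) (G.xl v)).1 ∨ HL G

/-- A sink that can pay twice. -/
def Mg (G : VD J) (φ : Vx J → Vx J) (E : EJ J) (e : Vx J) : Prop :=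
  e ∈ St0 G E ∨ (Odd (G.nn (G.f e)) ∧ G.nx e ∈ Vis G (P0 E) ∧ NW G φ E e)

/-- The system of the sources `s` and sinks `t`; the rows in `N` have a neutral pin only. -/
def EF (q : ℕ) (s t : ℕ → Vx J) (N : ℕ → Prop) (Y : Prop) (l : Vx J) : EJ J :=
  ⟨{i | ∃ k < q, ¬ N k ∧ i = (s k).1}, {i | ∃ k < q, ¬ N k ∧ i = (t k).1},
    {i | (∃ k < q, N k ∧ i = (s k).1) ∨ (Y ∧ i = l.1)}, ∅⟩

theorem ef_pn {q : ℕ} {s t : ℕ → Vx J} {N : ℕ → Prop} {Y : Prop} {i : J} :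
    i ∈ (EF q s t N Y l).Pn ↔ (∃ k < q, i = (s k).1) ∨ (Y ∧ i = l.1) := by
  constructor
  · rintro (⟨k, a, -, c⟩ | ⟨k, a, -, c⟩ | c)
    exacts [Or.inl ⟨k, a, c⟩, Or.inl ⟨k, a, c⟩, Or.inr c]
  · rintro (⟨k, a, c⟩ | c)
    · by_cases n : N k
      exacts [Or.inr (Or.inl ⟨k, a, n, c⟩), Or.inl ⟨k, a, n, c⟩]
    · exact Or.inr (Or.inr c)

/-- One flow through the rows `1, …, q` with a merge at `t m`. -/
structure FQ (G : VD J) (φ : Vx J → Vx J) (v l : Vx J) (q m : ℕ) (s t : ℕ → Vx J)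
    (N : ℕ → Prop) (Y : Prop) : Prop where
  ls : ∀ k < q, s k ∈ G.L (k + 1 : ℕ)
  lt : ∀ k < q, t k ∈ G.L (k + 1 : ℕ)
  dis : ∀ k < q, ¬ N k → (s k).1 ≠ (t k).1
  ev : ∀ k < q, N k → k = m ∧ Even (G.nn (k + 1 : ℕ)) ∧ (s k).1 = (t k).1
  arr : ∀ k, t (k + 1) = φ (s k)
  t0 : t 0 = l
  ym : (¬ Y ∧ m = 0) ∨ (Y ∧ m = 1 ∧ (φ l).1 = (t 1).1)
  lg : ∀ k, k + 1 = q → Lg G v (s k)
  mg : ¬ N m → Mg G φ (EF q s t N Y l) (t m)

section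

variable (H : LB (FL G) (XL G) G.Pr φ b) {q : ℕ} (hq : G.η b = q)
include H hq

theorem lev_uni {k k' : ℕ} (hx : x ∈ G.L (k + 1 : ℕ)) (hy : y ∈ G.L (k' + 1 : ℕ)) (a : k < q)
    (a' : k' < q) (e : x.1 = y.1) : k = k' := by
  have p := H.lay.per (y.2 - x.2) x
  rw [← FK.eq_tr e, H.lay.lf _ _ hx, H.lay.lf _ _ hy] at p
  obtain ⟨c, hc⟩ := H.bd (y.2 - x.2)
  rw [hc, show (FL G).η b = q from hq] at p
  push_cast at p
  rcases lt_trichotomy c 0 with n | n | n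
  · nlinarith
  · subst n
    omega
  · nlinarith

theorem lev_ex (j : ℤ) : ∃ k < q, ∃ a, (k + 1 : ℕ) + G.η a = j := by
  obtain ⟨k, a, c, hc⟩ := H.lv_of (j - 1)
  rw [show (FL G).η b = q from hq] at a hc
  refine ⟨k, by omega, c • b, ?_⟩
  rw [map_zsmul, smul_eq_mul, hq]
  push_cast
  linear_combination -hc

theorem FQ.sk (h : SR G v l r) (u : Funnel G) {m : ℕ} {s t : ℕ → Vx J} {N : ℕ → Prop} {Y : Prop}
    (Q : FQ G φ v l q m s t N Y) : ∃ E m0 pL pR, SK G φ v E m0 pL pR := by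
  have hF := H.lay
  have hφ := H.ph
  have R := h.rows
  have q2 : 2 ≤ q := by
    have : 2 ≤ G.η b := H.b2
    omega
  have mq : m < q := by rcases Q.ym with k | k <;> omega
  have l1 : l ∈ G.L (0 + 1 : ℕ) := h.l1
  set E := EF q s t N Y l with hE
  have mv : ∀ {k : ℕ} {j : ℤ} {a : ℤ × ℤ} {x : Vx J}, (k + 1 : ℕ) + G.η a = j →
      x ∈ G.L (k + 1 : ℕ) → tr a x ∈ G.L j := fun e hx => e ▸ (R.uw.ltr _ _ _).2 hx
  have bk : ∀ {k : ℕ} {j : ℤ} {a : ℤ × ℤ} {x : Vx J}, (k + 1 : ℕ) + G.η a = j →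
      x ∈ G.L j → tr (-a) x ∈ G.L (k + 1 : ℕ) := fun {k j a x} e hx => by
    rwa [← R.uw.ltr a, tr_neg', e]
  have n0 : Y → ¬ N 0 := fun y n => by
    have := (Q.ev 0 (by omega) n).1
    rcases Q.ym with k | k
    exacts [k.1 y, by omega]
  have key : ∀ σ : Prop, (σ ∨ HL G ∨ (pv (FL G) (G.xl v)).1 ∈ E.Pn) →
      (¬ σ ∨ HR G ∨ (G.xl v).1 ∈ E.Pn) → SK G φ v E (t m).1 σ (¬ σ) := by
    intro σ vL vR
    have sub : ∀ e ∈ G.LA, SS G (P0 E) σ (¬ σ) e ⊆ PE G.Γ (Bc G e).X := fun _ _ _ k => k.1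
    have pin : ∀ e ∈ G.LA, ∀ g ∈ P0 E, g ∈ G.LA → φ g = e → ∀ g' ∈ P0 E, g' ∈ G.LA → φ g' = e →
        g = g' ∨ (Y ∧ (g.1 = l.1 ∨ g'.1 = l.1)) := by
      intro e _ g m1 g1 e1 g' m2 g2 e2
      rcases ef_pn.1 m1 with ⟨k, a, c⟩ | c
      swap
      · exact Or.inr ⟨c.1, Or.inl c.2⟩
      rcases ef_pn.1 m2 with ⟨k', a', c'⟩ | c'
      swap
      · exact Or.inr ⟨c'.1, Or.inr c'.2⟩
      have lv : G.f g' = G.f g := by
        have := hφ.lev hF g1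
        have := hφ.lev hF g2
        rw [e1] at *
        rw [e2] at this
        have z : (FL G).f g' = (FL G).f g := by omega
        exact z
      obtain ⟨i, i1, a0, i2⟩ := lev_ex H hq (G.f g)
      obtain rfl := lev_uni H hq (bk i2 g1) (Q.ls k a) i1 a c
      obtain rfl := lev_uni H hq (bk i2 (lv ▸ g2)) (Q.ls k' a') i1 a' c'
      exact Or.inl (hφ.inj1 g1 (c.trans c'.symm) (e1.trans e2.symm))
    have side : ∀ e, IsL G e ∨ IsR G e → e.1 = l.1 := by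
      rintro e (i | i)
      · obtain ⟨a, k, -⟩ := h.isL i
        rw [k]
        rfl
      · obtain ⟨a, k, -⟩ := h.isR i
        rw [k]
        exact (fu_lr h u :)
    have up : ∀ g ∈ G.LA, g.1 = l.1 → (φ g).1 ≠ l.1 := fun g hg k c =>
      odd_orb R (hφ.lev hF (R.la h.l1)) ((hφ.fst hg k).symm.trans c)
    have lp : ∀ e ∈ G.LA, e.1 = l.1 →
        ∃ f f', SS G (P0 E) σ (¬ σ) e ⊆ {f, f'} ∧ f ∈ SS G (P0 E) σ (¬ σ) e := by
      intro e he el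
      have ir : IsR G e := orb_eq (el.trans (fu_lr h u).symm) ▸ h.sv.isR_tr _ h.hr.1
      have il : IsL G e := orb_eq el ▸ h.sv.isL_tr _ h.hl.1
      obtain ⟨f, m, c1, c2⟩ : ∃ f ∈ SS G (P0 E) σ (¬ σ) e,
          (σ → s(G.an (G.nx e), G.xl (G.an (G.nx e))) = f) ∧
          (¬ σ → s(G.an e, G.xr (G.an e)) = f) := by
        by_cases c : σ
        exacts [⟨_, h.sv.ssL il c, fun _ => rfl, fun n => absurd c n⟩,
          ⟨_, h.sv.ssR ir c, fun n => absurd n c, fun _ => rfl⟩]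
      by_cases c : ∃ g ∈ P0 E, g ∈ G.LA ∧ φ g = e
      · obtain ⟨g, g1, g2, g3⟩ := c
        refine ⟨f, s(g, G.nx g), h.sv.ss_sub hφ he (fun y y1 y2 y3 _ => Or.inr ?_)
          (fun a _ => Or.inl (c1 a)) fun a _ => Or.inl (c2 a), m⟩
        rcases pin e he g g1 g2 g3 y y1 y2 y3 with k | ⟨-, k | k⟩
        exacts [k ▸ rfl, absurd (g3 ▸ el) (up g g2 k), absurd (y3 ▸ el) (up y y2 k)]
      · exact ⟨f, f, h.sv.ss_sub hφ he (fun y y1 y2 y3 _ => absurd ⟨y, y1, y2, y3⟩ c)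
          (fun a _ => Or.inl (c1 a)) fun a _ => Or.inl (c2 a), m⟩
    have spe : ∀ {S}, (∃ f ∈ PE G.Γ (Bc G (t m)).X, ∃ f' ∈ PE G.Γ (Bc G (t m)).X, S ⊆ {f, f'}) →
        Spe G φ E (t m).1 S (t m) := fun k => by
      have ft : G.f (t m) = (m + 1 : ℕ) := R.uw.lf _ _ (Q.lt m mq)
      have only : ∀ y ∈ G.L (G.f (t m)), y.1 ∈ E.Sk → ¬ N m ∧ y.1 = (t m).1 := by
        rintro y hy ⟨k, a, n, c⟩
        obtain rfl := lev_uni H hq (ft ▸ hy) (Q.lt k a) mq a c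
        exact ⟨n, c⟩
      refine Or.inr (Or.inr (Or.inr ⟨k, ?_⟩))
      by_cases n : N m
      · exact Or.inr (Or.inl ⟨Or.inl ⟨m, mq, n, (Q.ev m mq n).2.2.symm⟩, rfl,
          fun y hy c => (only y hy c).1 n⟩)
      · exact (Q.mg n).imp (fun c => ⟨⟨m, mq, n, rfl⟩, c⟩) fun c =>
          Or.inr ⟨⟨m, mq, n, rfl⟩, c.1, fun y hy k => (only y hy k).2, c.2⟩
    refine ⟨?_, fun j => ?_, ?_, em σ, vL, vR, fun e he => ?_⟩
    · rintro _ ⟨k, a, n, rfl⟩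
      constructor
      · rintro ⟨k', a', -, c⟩
        obtain rfl := lev_uni H hq (Q.ls k a) (Q.lt k' a') a a' c
        exact Q.dis k a n c
      · rintro (⟨k', a', n', c⟩ | ⟨-, c⟩)
        · obtain rfl := lev_uni H hq (Q.ls k a) (Q.ls k' a') a a' c
          exact n n'
        · obtain rfl := lev_uni H hq (Q.ls k a) l1 a (by omega) c
          exact Q.dis 0 a n (Q.t0.symm ▸ c)
    · obtain ⟨k, a, a0, c⟩ := lev_ex H hq j
      by_cases n : N k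
      · refine Or.inr ?_
        rw [← c, show G.nn (_ + G.η a0) = G.nn _ from nn_tr hF a0 _]
        exact (Q.ev k a n).2.1
      · exact Or.inl ⟨_, mv c (Q.lt k a), k, a, n, rfl⟩
    · rintro j x hx y hy ⟨k, a, n, c⟩ ⟨k', a', -, c'⟩ lt
      obtain ⟨i, i1, a0, i2⟩ := lev_ex H hq j
      obtain rfl := lev_uni H hq (bk i2 hx) (Q.lt k a) i1 a c
      obtain rfl := lev_uni H hq (bk i2 hy) (Q.lt k' a') i1 a' c'
      obtain ⟨z, hz, e2, k1⟩ := H.btw hx hy (mv i2 (Q.ls i a)) (c.trans c'.symm)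
        (fun o => Q.dis i a n (o.trans c)) lt
      exact ⟨z, hz, ⟨i, a, n, e2⟩, k1⟩
    by_cases c : e.1 = l.1
    · rcases Q.ym with ⟨-, rfl⟩ | ⟨y, -⟩
      · obtain ⟨f, f', k, mf⟩ := lp l (R.la h.l1) rfl
        refine Or.inr (Or.inr (Or.inr ⟨l.2 - e.2, ?_⟩))
        rw [← FK.eq_tr c]
        have := spe (S := SS G (P0 E) σ (¬ σ) l)
        rw [Q.t0] at this ⊢
        exact this (pair_pe k (sub l (R.la h.l1)) mf)
      · obtain ⟨f, f', k, -⟩ := lp e he c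
        exact Or.inr (Or.inr (Or.inl ⟨f, f', k, ⟨0, by omega, n0 y, Q.t0.symm ▸ c⟩, Or.inr ⟨y, c⟩⟩))
    have ns : ∀ {T : Set (Sym2 (Vx J))} {e : Vx J}, e ∈ G.LA → e.1 ≠ l.1 →
        (∀ g ∈ P0 E, g ∈ G.LA → φ g = e → s(g, G.nx g) ∈ T) → SS G (P0 E) σ (¬ σ) e ⊆ T :=
      fun he c k => h.sv.ss_sub hφ he (fun g a1 a2 a3 _ => k g a1 a2 a3)
        (fun _ i => absurd (side _ (Or.inl i)) c) fun _ i => absurd (side _ (Or.inr i)) c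
    by_cases c' : Y ∧ e.1 = (t 1).1
    · obtain ⟨-, rfl, c1⟩ := Q.ym.resolve_left fun k => k.1 c'.1
      refine Or.inr (Or.inr (Or.inr ⟨(t 1).2 - e.2, ?_⟩))
      rw [← FK.eq_tr c'.2]
      have tl := R.la (Q.lt 1 mq)
      have s0 := R.la (Q.ls 0 (by omega))
      have ps : s 0 ∈ P0 E := ef_pn.2 (Or.inl ⟨0, by omega, rfl⟩)
      let l' := tr ((t 1).2 - (φ l).2) l
      have l2 : φ l' = t 1 := (hφ.eqv _ _ (R.la h.l1)).trans (FK.eq_tr c1).symm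
      have l3 : l' ∈ G.LA := (hF.la_tr _ _).2 (R.la h.l1)
      refine spe (pair_pe (a := s(s 0, G.nx (s 0))) (c := s(l', G.nx l')) (ns tl (c'.2 ▸ c) ?_)
        (sub _ tl) ((h.sv.ss_iff hφ tl).2 (Or.inl ⟨_, ps, s0, (Q.arr 0).symm, h.nc _, rfl⟩)))
      intro g g1 g2 g3
      rcases pin _ tl g g1 g2 g3 _ ps s0 (Q.arr 0).symm with k | ⟨y, k | k⟩
      exacts [Or.inl (k ▸ rfl), Or.inr (by rw [hφ.inj1 g2 (y' := l') k (g3.trans l2.symm)]; rfl),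
        absurd (Q.t0.symm ▸ k) (Q.dis 0 (by omega) (n0 y))]
    by_cases ex : ∃ g ∈ P0 E, g ∈ G.LA ∧ φ g = e
    swap
    · exact Or.inl (ns he c fun g a1 a2 a3 => absurd ⟨g, a1, a2, a3⟩ ex)
    have nl : ∀ g ∈ G.LA, φ g = e → Y → g.1 ≠ l.1 := fun g a1 a2 y k => c' ⟨y, by
      rw [← a2, hφ.fst a1 k]
      exact (Q.ym.resolve_left fun k => k.1 y).2.2⟩
    obtain ⟨g, g1, g2, g3⟩ := ex
    refine Or.inr (Or.inl ⟨s(g, G.nx g), ns he c fun y y1 y2 y3 => ?_, ?_⟩)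
    · rcases pin e he g g1 g2 g3 y y1 y2 y3 with k | ⟨z, k | k⟩
      exacts [k ▸ rfl, absurd k (nl g g2 g3 z), absurd k (nl y y2 y3 z)]
    obtain ⟨k, a, c1⟩ := (ef_pn.1 g1).resolve_right fun k => nl g g2 g3 k.1 k.2
    have e1 : e.1 = (t (k + 1)).1 := by rw [← g3, Q.arr, hφ.fst g2 c1]
    by_cases a' : k + 1 < q
    · by_cases n : N (k + 1)
      exacts [Or.inr (Or.inl ⟨_, a', n, e1.trans (Q.ev _ a' n).2.2.symm⟩), Or.inl ⟨_, a', n, e1⟩]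
    · have z : tr (-b) (s k) ∈ G.L 0 := by
        have := (R.uw.ltr (-b) _ _).2 (Q.ls k a)
        rwa [map_neg, hq, show ((k + 1 : ℕ) : ℤ) + -(q : ℤ) = 0 by omega] at this
      rw [Q.arr, ← hφ.fst (y' := s k) (R.la z) rfl] at e1
      exact absurd (e1.trans (fu_phi h hφ u z)) c
  have pl : (s (q - 1)).1 ∈ E.Pn := ef_pn.2 (Or.inl ⟨_, by omega, rfl⟩)
  rcases Q.lg (q - 1) (by omega) with k | k
  · exact ⟨_, _, _, _, key True (Or.inl trivial) (Or.inr (k.symm.imp_right fun k => by rw [← k]; exact pl))⟩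
  · exact ⟨_, _, _, _, key False (Or.inr (k.symm.imp_right fun k => by rw [← k]; exact pl)) (Or.inl id)⟩

omit H hq in
theorem pv_ne (h : SR G v l r) (hx : x ∈ G.L j) : (pv (FL G) x).1 ≠ x.1 := by
  have := h.n3 j
  have k := l_ne h.sv.lay j (i := G.ρ x - 1) (i' := G.ρ x) (by omega) (by
    show _ < _ + G.nn j
    omega)
  rwa [show (FL G).l j (G.ρ x) = x from h.sv.lay.l_rho hx, ← h.rows.uw.lf _ _ hx] at k

omit H hq in
theorem nx_ne (h : SR G v l r) (hx : x ∈ G.L j) : (G.nx x).1 ≠ x.1 := by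
  have := pv_ne h (h.rows.nx_mem hx).1
  rw [show G.nx x = (FL G).nx x from rfl, pv_nx h.sv.lay hx] at this
  exact this.symm

theorem cand (h : SR G v l r) (j : ℤ) (c : Vx J) :
    ∃ y ∈ G.L j, y.1 ≠ c.1 ∧ (j = q → Lg G v y) := by
  by_cases e : j = q
  · have m : ∀ x ∈ G.L 0, tr b x ∈ G.L j := fun x hx => by
      have := (h.rows.uw.ltr b _ _).2 hx
      rwa [zero_add, hq, ← e] at this
    by_cases k : (G.xl v).1 = c.1
    · exact ⟨_, m _ (pv_mem H.lay h.u0.1).1, k ▸ pv_ne h h.u0.1, fun _ => Or.inr (Or.inl rfl)⟩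
    · exact ⟨_, m _ h.u0.1, k, fun _ => Or.inl (Or.inl rfl)⟩
  · obtain ⟨y, a, c, -⟩ := H.off j c c
    exact ⟨y, a, c, fun k => absurd k e⟩

theorem flow (h : SR G v l r) {g0 g1 : Vx J} (h0 : g0 ∈ G.L 1) (h1 : g1 ∈ G.L 2)
    (lg : q = 2 → Lg G v g1) : ∃ s : ℕ → Vx J, s 0 = g0 ∧ s 1 = g1 ∧ (∀ k, s k ∈ G.L (k + 1 : ℕ)) ∧
      (∀ k, (s (k + 2)).1 ≠ (φ (s (k + 1))).1) ∧ ∀ k, k + 1 = q → Lg G v (s k) := by
  obtain ⟨g, e0, hg⟩ := FL.seq_ex (fun k x => x ∈ G.L (k + 1 + 1 : ℕ) ∧ (k + 1 + 1 = q → Lg G v x))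
    (fun x y => y.1 ≠ (φ x).1) g1 ⟨h1, fun e => lg e.symm⟩ fun k x _ =>
      let ⟨y, a, c, d⟩ := cand H hq h (k + 1 + 1 + 1 : ℕ) (φ x)
      ⟨y, ⟨a, fun e => d (congrArg _ e)⟩, c⟩
  refine ⟨fun k => Nat.casesOn k g0 g, rfl, e0, ?_, fun k => (hg k).2, ?_⟩
  · rintro (_ | k)
    exacts [h0, (hg k).1.1]
  · rintro (_ | k) e
    · have : 2 ≤ G.η b := H.b2
      omega
    · exact (hg k).1.2 e

/-- the merge at the side edge -/
theorem planX (h : SR G v l r) (u : Funnel G) {g0 g1 : Vx J} (h0 : g0 ∈ G.L 1) (h1 : g1 ∈ G.L 2)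
    (n1 : g1.1 ≠ (φ g0).1) (lg : q = 2 → Lg G v g1) (c : (Even (G.nn 1) ∧ g0.1 = l.1) ∨
      (g0.1 ≠ l.1 ∧ ∀ E : EJ J, g0.1 ∈ E.Pn → g1.1 ∈ E.Pn → Mg G φ E l)) :
    ∃ E m0 pL pR, SK G φ v E m0 pL pR := by
  obtain ⟨s, rfl, rfl, a1, a2, a3⟩ := flow H hq h h0 h1 lg
  have q2 : 2 ≤ G.η b := H.b2
  refine FQ.sk H hq h u (m := 0) (s := s) (t := fun k => Nat.casesOn k l fun k => φ (s k))
    (N := fun k => k = 0 ∧ (s 0).1 = l.1) (Y := False) ⟨fun k _ => a1 k, ?_, ?_, ?_,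
      fun _ => rfl, rfl, Or.inl ⟨id, rfl⟩, a3, fun n => ?_⟩
  · rintro (_ | k) -
    exacts [h.l1, H.up (a1 k)]
  · rintro (_ | _ | k) - n
    exacts [fun e => n ⟨rfl, e⟩, n1, a2 k]
  · rintro _ - ⟨rfl, e⟩
    exact ⟨rfl, (c.resolve_right fun k => k.1 e).1, e⟩
  · exact (c.resolve_left fun k => n ⟨rfl, k.2⟩).2 _ (ef_pn.2 (Or.inl ⟨0, by omega, rfl⟩))
      (ef_pn.2 (Or.inl ⟨1, by omega, rfl⟩))

/-- the merge over the side edge -/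
theorem planY (h : SR G v l r) (u : Funnel G) {g0 g1 : Vx J} (h0 : g0 ∈ G.L 1) (h1 : g1 ∈ G.L 2)
    (n0 : g0.1 ≠ l.1) (e : (φ l).1 = (φ g0).1) (lg : q = 2 → Lg G v g1)
    (c : (Even (G.nn 2) ∧ g1.1 = (φ g0).1) ∨
      (g1.1 ≠ (φ g0).1 ∧ ∀ E : EJ J, l.1 ∈ E.Pn → g1.1 ∈ E.Pn → Mg G φ E (φ g0))) :
    ∃ E m0 pL pR, SK G φ v E m0 pL pR := by
  obtain ⟨s, rfl, rfl, a1, a2, a3⟩ := flow H hq h h0 h1 lg
  have q2 : 2 ≤ G.η b := H.b2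
  refine FQ.sk H hq h u (m := 1) (s := s) (t := fun k => Nat.casesOn k l fun k => φ (s k))
    (N := fun k => k = 1 ∧ (s 1).1 = (φ (s 0)).1) (Y := True) ⟨fun k _ => a1 k, ?_, ?_, ?_,
      fun _ => rfl, rfl, Or.inr ⟨trivial, rfl, e⟩, a3, fun n => ?_⟩
  · rintro (_ | k) -
    exacts [h.l1, H.up (a1 k)]
  · rintro (_ | _ | k) - n
    exacts [n0, fun e => n ⟨rfl, e⟩, a2 k]
  · rintro _ - ⟨rfl, e⟩
    exact ⟨rfl, (c.resolve_right fun k => k.1 e).1, e⟩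
  · exact (c.resolve_left fun k => n ⟨rfl, k.2⟩).2 _ (ef_pn.2 (Or.inr ⟨trivial, rfl⟩))
      (ef_pn.2 (Or.inl ⟨1, by omega, rfl⟩))

end

end Pool.Agent.P.MP_08fd93_co.FZ
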