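import Pool.Agent.P.MP_08fd93_co.FZ.Brg2
import Pool.Agent.P.MP_08fd93_co.OV.PkBri

/-! Frames with stems: a level vertex may be joined to the line below by a path in the strip. -/

set_option autoImplicit false

namespace Pool.Agent.P.MP_08fd93_co.FZ

open OV

/-- Data of a frame with stems. `K` is the union of the stems, `ch u` is a chosen child of the top
of the stem of `u`; a stem with top `v` is ordered by `hg`, has the bottom `bt v`, and `xl v`,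
`xr v` are the extreme neighbours of `bt v` on the line below. -/
structure VD (J : Type) extends FD J where
  Pr : Set (Vx J)
  K : Set (Vx J)
  ch : Vx J → Vx J
  bt : Vx J → Vx J
  xl : Vx J → Vx J
  xr : Vx J → Vx J
  hg : Vx J → ℤ

variable {J : Type}

/-- The stem of `p`; empty if `p` is not on a stem. -/
def VD.T (G : VD J) (p : Vx J) : Set (Vx J) := {u | u ∈ G.K ∧ p ∈ G.K ∧ G.ch u = G.ch p}

/-- The tops of the stems. -/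
def VD.V (G : VD J) : Set (Vx J) := {v | v ∈ G.K ∧ G.an (G.ch v) = v}

/-- A frame with stems. -/
structure VFrm (G : VD J) : Prop extends Rows G.toFD where
  atr : ∀ a x, G.an (tr a x) = tr a (G.an x)
  ptr : ∀ a, ∀ x ∈ G.Pr, tr a x ∈ G.Pr
  ktr : ∀ a, ∀ v ∈ G.K, tr a v ∈ G.K
  xtr : ∀ a x, G.xl (tr a x) = tr a (G.xl x) ∧ G.xr (tr a x) = tr a (G.xr x) ∧
    G.ch (tr a x) = tr a (G.ch x)
  kst : ∀ u ∈ G.K, u ∈ G.St (G.f u)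
  kn : ∀ u ∈ G.K, ∀ u' ∈ G.K, G.Γ.Adj u u' → G.ch u = G.ch u'
  kc : ∀ u ∈ G.K, G.ch u ∈ G.L (G.f u) ∧ G.ch u ∈ G.Pr ∧ G.an (G.ch u) ∈ G.T u
  kp : ∀ v ∈ G.V, Pth G.Γ (G.T v) G.hg v (G.bt v)
  xo : ∀ p, p ∉ G.K → G.xl p = p ∧ G.xr p = p
  vl : ∀ v ∈ G.V, G.xl v ∈ G.L (G.f v - 1) ∧ G.Γ.Adj (G.bt v) (G.xl v)
  vr : ∀ v ∈ G.V, G.xr v ∈ G.L (G.f v - 1) ∧ G.Γ.Adj (G.bt v) (G.xr v)
  vx : ∀ v ∈ G.V, ∀ u ∈ G.T v, ∀ z ∈ G.L (G.f v - 1), G.Γ.Adj u z →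
    u = G.bt v ∧ G.ρ (G.xl v) ≤ G.ρ z ∧ G.ρ z ≤ G.ρ (G.xr v)
  aa : ∀ j, ∀ x ∈ G.L j, x ∈ G.Pr → G.Γ.Adj x (G.an x) ∧
    (G.an x ∈ G.L (j - 1) ∨ (G.an x ∈ G.V ∧ G.f (G.an x) = j))
  pure : ∀ j, ∀ x ∈ G.L j, x ∈ G.Pr → G.an x ∈ G.K → ¬ G.Γ.Adj x (G.xl (G.an x)) ∧
    ¬ G.Γ.Adj x (G.xr (G.an x)) ∧ ∀ u ∈ G.T (G.an x), G.Γ.Adj x u → u = G.an x
  pne : ∀ j, ∃ x ∈ G.L j, x ∈ G.Pr

/-- The strip without the stems. -/
def VD.S (G : VD J) (j : ℤ) : Set (Vx J) := G.St j \ G.K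

/-- Left of the cut from `p` to `s`. -/
def VD.Lf (G : VD J) (j : ℤ) (p s u : Vx J) : Prop :=
  (u ∈ G.L (j - 1) ∧ G.ρ u < G.ρ p) ∨ (u ∈ G.L j ∧ G.ρ u < G.ρ s) ∨
    (u ∈ G.K ∧ G.f u = j ∧ u ∉ G.T (G.an s) ∧ G.ρ (G.ch u) < G.ρ s)

/-- Right of the cut from `p` to `s`. -/
def VD.Rg (G : VD J) (j : ℤ) (p s u : Vx J) : Prop :=
  (u ∈ G.L (j - 1) ∧ G.ρ p < G.ρ u) ∨ (u ∈ G.L j ∧ G.ρ s < G.ρ u) ∨
    (u ∈ G.K ∧ G.f u = j ∧ u ∉ G.T (G.an s) ∧ G.ρ s < G.ρ (G.ch u))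

variable {G : VD J} {j : ℤ} {s t : Vx J}

theorem Rows.st_lev {F : FD J} (h : Rows F) {i j : ℤ} {x : Vx J} (h1 : x ∈ F.St i)
    (h2 : x ∈ F.St j) : i = j := by
  by_contra hne
  rcases lt_or_gt_of_ne hne with l | l
  exacts [h1.2 (Or.inr (h.uw.mono _ _ (by omega) h2.1)),
    h2.2 (Or.inr (h.uw.mono _ _ (by omega) h1.1))]

theorem VFrm.k_st (h : VFrm G) {v : Vx J} (hv : v ∈ G.K) (e : G.f v = j) : v ∈ G.St j :=
  e ▸ h.kst v hv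

theorem VFrm.l_nk (h : VFrm G) {x : Vx J} (hx : x ∈ G.L j) : x ∉ G.K := fun hv =>
  (h.k_st hv (h.uw.lf j x hx)).2 (Or.inl hx)

theorem t_self {v : Vx J} (hv : v ∈ G.K) : v ∈ G.T v := ⟨hv, hv, rfl⟩

theorem t_eq {u v : Vx J} (hu : u ∈ G.T v) : G.T u = G.T v := by
  ext x
  exact ⟨fun k => ⟨k.1, hu.2.1, k.2.2.trans hu.2.2⟩, fun k => ⟨k.1, hu.1, k.2.2.trans hu.2.2.symm⟩⟩

theorem t_empty {p : Vx J} (hp : p ∉ G.K) : G.T p = ∅ :=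
  Set.eq_empty_of_forall_notMem fun _ k => hp k.2.1

theorem VFrm.t_f (h : VFrm G) {u v : Vx J} (hu : u ∈ G.T v) : G.f u = G.f v := by
  rw [← h.uw.lf _ _ (h.kc u hu.1).1, hu.2.2, h.uw.lf _ _ (h.kc v hu.2.1).1]

theorem VFrm.t_st (h : VFrm G) {v : Vx J} (e : v ∈ G.K → G.f v = j) : G.T v ⊆ G.St j :=
  fun _ hu => h.k_st hu.1 ((h.t_f hu).trans (e hu.2.1))

theorem VFrm.an_v (h : VFrm G) (hs : s ∈ G.L j) (ps : s ∈ G.Pr) (hv : G.an s ∈ G.K) :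
    G.an s ∈ G.V ∧ G.f (G.an s) = j :=
  (h.aa j s hs ps).2.resolve_left fun k => h.l_nk k hv

theorem VFrm.an_l (h : VFrm G) (hs : s ∈ G.L j) (ps : s ∈ G.Pr) (hv : G.an s ∉ G.K) :
    G.an s ∈ G.L (j - 1) := (h.aa j s hs ps).2.resolve_right fun k => hv k.1.1

theorem VFrm.an_st (h : VFrm G) (hs : s ∈ G.L j) (ps : s ∈ G.Pr) : G.T (G.an s) ⊆ G.St j :=
  h.t_st fun k => (h.an_v hs ps k).2

/-- the top of the stem of `u` -/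
theorem VFrm.tp (h : VFrm G) {u : Vx J} (hu : u ∈ G.K) :
    G.an (G.ch u) ∈ G.V ∧ G.T (G.an (G.ch u)) = G.T u :=
  ⟨(h.an_v (h.kc u hu).1 (h.kc u hu).2.1 (h.kc u hu).2.2.1).1, t_eq (h.kc u hu).2.2⟩

theorem VFrm.t_fc (h : VFrm G) (p : Vx J) : (G.T p).Finite ∧ IsConn G.Γ (G.T p) := by
  by_cases hp : p ∈ G.K
  · have := h.kp _ (h.tp hp).1
    rw [(h.tp hp).2] at this
    exact ⟨this.fin, this.conn⟩
  · rw [t_empty hp]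
    exact ⟨Set.finite_empty, isConn_empty⟩

theorem VFrm.ch_nb (h : VFrm G) {u : Vx J} (hu : u ∈ G.K) : G.ch u ∈ Nb G.Γ (G.T u) :=
  ⟨_, (h.kc u hu).2.2, (h.aa _ _ (h.kc u hu).1 (h.kc u hu).2.1).1⟩

/-- the top of the stem of a cut -/
theorem VFrm.an_ch (h : VFrm G) (hs : s ∈ G.L j) (ps : s ∈ G.Pr) {u : Vx J}
    (hu : u ∈ G.T (G.an s)) : G.an (G.ch u) = G.an s := by
  rw [hu.2.2]
  exact (h.an_v hs ps hu.2.1).1.2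

/-- cuts with different parents have disjoint stems -/
theorem VFrm.t_dis (h : VFrm G) (hs : s ∈ G.L j) (ps : s ∈ G.Pr) (ht : t ∈ G.L j) (pt : t ∈ G.Pr)
    (ne : G.an s ≠ G.an t) : Disjoint (G.T (G.an s)) (G.T (G.an t)) :=
  Set.disjoint_left.2 fun _ a b => ne ((h.an_ch hs ps a).symm.trans (h.an_ch ht pt b))

/-- the feet of the cut at `s` -/
theorem VFrm.feet (h : VFrm G) (hs : s ∈ G.L j) (ps : s ∈ G.Pr) :
    G.xl (G.an s) ∈ G.L (j - 1) ∧ G.xr (G.an s) ∈ G.L (j - 1) ∧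
      G.ρ (G.xl (G.an s)) ≤ G.ρ (G.xr (G.an s)) := by
  by_cases hv : G.an s ∈ G.K
  · obtain ⟨hV, e⟩ := h.an_v hs ps hv
    exact ⟨e ▸ (h.vl _ hV).1, e ▸ (h.vr _ hV).1,
      (h.vx _ hV _ (h.kp _ hV).hb _ (h.vl _ hV).1 (h.vl _ hV).2).2.2⟩
  · rw [(h.xo _ hv).1, (h.xo _ hv).2]
    exact ⟨h.an_l hs ps hv, h.an_l hs ps hv, le_rfl⟩

theorem VFrm.foot (h : VFrm G) (hs : s ∈ G.L j) (ps : s ∈ G.Pr) {p : Vx J}
    (hp : p = G.xl (G.an s) ∨ p = G.xr (G.an s)) : p ∈ G.L (j - 1) ∧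
      G.ρ (G.xl (G.an s)) ≤ G.ρ p ∧ G.ρ p ≤ G.ρ (G.xr (G.an s)) ∧
      (G.an s ∈ G.K → G.Γ.Adj (G.bt (G.an s)) p ∧ ¬ G.Γ.Adj s p) ∧ (G.an s ∉ G.K → p = G.an s) := by
  have hf := h.feet hs ps
  rcases hp with rfl | rfl
  exacts [⟨hf.1, le_rfl, hf.2.2, fun k => ⟨(h.vl _ (h.an_v hs ps k).1).2, (h.pure j s hs ps k).1⟩,
    fun k => (h.xo _ k).1⟩, ⟨hf.2.1, hf.2.2, le_rfl,
      fun k => ⟨(h.vr _ (h.an_v hs ps k).1).2, (h.pure j s hs ps k).2.1⟩, fun k => (h.xo _ k).2⟩]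

/-- the cut at `s` is a bridge -/
theorem VFrm.brg (h : VFrm G) (hs : s ∈ G.L j) (ps : s ∈ G.Pr) {p : Vx J}
    (hp : p = G.xl (G.an s) ∨ p = G.xr (G.an s)) : Brg G.toFD j p s (G.T (G.an s)) := by
  have hf := h.foot hs ps hp
  by_cases hv : G.an s ∈ G.K
  · exact Brg.of hf.1 hs (h.an_st hs ps) (h.t_fc _).1 (h.t_fc _).2
      ⟨_, (h.kp _ (h.an_v hs ps hv).1).hb, (hf.2.2.2.1 hv).1.symm⟩
      ⟨_, t_self hv, (h.aa j s hs ps).1⟩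
  · rw [t_empty hv, hf.2.2.2.2 hv]
    exact Brg.rung (h.an_l hs ps hv) hs (h.aa j s hs ps).1.symm

/-- the cut at `s` is an induced path -/
theorem VFrm.cutP (h : VFrm G) (hs : s ∈ G.L j) (ps : s ∈ G.Pr) {p : Vx J}
    (hp : p = G.xl (G.an s) ∨ p = G.xr (G.an s)) :
    ∃ σ, Pth G.Γ ({s} ∪ G.T (G.an s) ∪ {p}) σ s p := by
  classical
  have hf := h.foot hs ps hp
  have ne : p ≠ s := fun e => l_not_u' hf.1 (e ▸ h.toRows.l_u hs)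
  by_cases hv : G.an s ∈ G.K
  · obtain ⟨hV, e⟩ := h.an_v hs ps hv
    have hT := h.kp _ hV
    refine ⟨fun x => if x = s then G.hg (G.an s) - 1 else if x = p then
      G.hg (G.bt (G.an s)) + 1 else G.hg x, ?_⟩
    have old : ∀ x ∈ G.T (G.an s), (if x = s then G.hg (G.an s) - 1 else if x = p then
        G.hg (G.bt (G.an s)) + 1 else G.hg x) = G.hg x := fun x hx => by
      rw [if_neg (by rintro rfl; exact h.l_nk hs hx.1), if_neg (by rintro rfl; exact h.l_nk hf.1 hx.1)]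
    refine ((Pth.single s _).join (hT.congr old) (Or.inr ⟨?_, (h.aa j s hs ps).1⟩) ?_).join
      (Pth.single p _) (Or.inr ⟨?_, (hf.2.2.2.1 hv).1⟩) ?_
    · rw [old _ hT.ha, if_pos rfl]
      omega
    · rintro _ rfl y hy a
      exact Or.inl ⟨rfl, (h.pure j _ hs ps hv).2.2 y hy a⟩
    · rw [old _ hT.hb, if_neg ne, if_pos rfl]
      omega
    · rintro x (rfl | hx) _ rfl a
      exacts [absurd a (hf.2.2.2.1 hv).2, Or.inl ⟨(h.vx _ hV x hx _ (e ▸ hf.1) a).1, rfl⟩]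
  · rw [t_empty hv, Set.union_empty]
    refine ⟨fun x => if x = s then 0 else 1, Pth.pair ?_ ?_⟩
    · rw [hf.2.2.2.2 hv]
      exact (h.aa j s hs ps).1
    · rw [if_pos rfl, if_neg ne]
      omega

/-- nothing crosses a cut -/
theorem VFrm.ncv (h : VFrm G) {p : Vx J} (hb : Brg G.toFD j p s (G.T (G.an s)))
    {E : Set (Vx J)} (hE : E ⊆ G.S j) (fE : E.Finite) (cE : IsConn G.Γ E) {x y : Vx J}
    (hx : G.Lf j p s x) (hy : G.Rg j p s y) :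
    ¬ G.Γ.Adj x y ∧ ¬ (x ∈ Nb G.Γ E ∧ y ∈ Nb G.Γ E) := by
  have hR := h.toRows
  have st : ∀ z ∈ G.K, G.f z = j → z ∉ G.T (G.an s) →
      G.T z ⊆ G.St j ∧ Disjoint (G.T z) (G.T (G.an s)) := fun z hz e hn =>
    ⟨h.t_st fun _ => e, Set.disjoint_left.2 fun u a b => hn (t_eq b ▸ (t_eq a).symm ▸ t_self hz)⟩
  obtain ⟨x', hx', rx, sx⟩ : ∃ x', ((x' ∈ G.L (j - 1) ∧ G.ρ x' < G.ρ p) ∨
      (x' ∈ G.L j ∧ G.ρ x' < G.ρ s)) ∧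
      ((x' = x ∧ x ∉ G.K) ∨ (x ∈ G.K ∧ x' = G.ch x ∧ G.ρ x' < G.ρ s)) ∧
      G.T x ⊆ G.St j ∧ Disjoint (G.T x) (G.T (G.an s)) := by
    rcases hx with a | a | a
    exacts [⟨x, Or.inl a, Or.inl ⟨rfl, h.l_nk a.1⟩, by simp [t_empty (h.l_nk a.1)]⟩,
      ⟨x, Or.inr a, Or.inl ⟨rfl, h.l_nk a.1⟩, by simp [t_empty (h.l_nk a.1)]⟩,
      ⟨_, Or.inr ⟨a.2.1 ▸ (h.kc x a.1).1, a.2.2.2⟩, Or.inr ⟨a.1, rfl, a.2.2.2⟩,
        st x a.1 a.2.1 a.2.2.1⟩]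
  obtain ⟨y', hy', ry, sy⟩ : ∃ y', ((y' ∈ G.L (j - 1) ∧ G.ρ p < G.ρ y') ∨
      (y' ∈ G.L j ∧ G.ρ s < G.ρ y')) ∧
      ((y' = y ∧ y ∉ G.K) ∨ (y ∈ G.K ∧ y' = G.ch y ∧ G.ρ s < G.ρ y')) ∧
      G.T y ⊆ G.St j ∧ Disjoint (G.T y) (G.T (G.an s)) := by
    rcases hy with a | a | a
    exacts [⟨y, Or.inl a, Or.inl ⟨rfl, h.l_nk a.1⟩, by simp [t_empty (h.l_nk a.1)]⟩,
      ⟨y, Or.inr a, Or.inl ⟨rfl, h.l_nk a.1⟩, by simp [t_empty (h.l_nk a.1)]⟩,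
      ⟨_, Or.inr ⟨a.2.1 ▸ (h.kc y a.1).1, a.2.2.2⟩, Or.inr ⟨a.1, rfl, a.2.2.2⟩,
        st y a.1 a.2.1 a.2.2.1⟩]
  constructor
  · intro e
    rcases rx with ⟨rfl, -⟩ | ⟨kx, rfl, lx⟩ <;> rcases ry with ⟨rfl, -⟩ | ⟨ky, rfl, ly⟩
    · exact (hb.nc hR (Set.empty_subset _) Set.finite_empty isConn_empty (Set.empty_disjoint _)
        hx' hy').1 e
    · exact (hb.nc hR sy.1 (h.t_fc _).1 (h.t_fc _).2 sy.2 hx' hy').2
        ⟨⟨y, t_self ky, e⟩, h.ch_nb ky⟩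
    · exact (hb.nc hR sx.1 (h.t_fc _).1 (h.t_fc _).2 sx.2 hx' hy').2
        ⟨h.ch_nb kx, ⟨x, t_self kx, e.symm⟩⟩
    · rw [h.kn x kx y ky e] at lx
      omega
  · rintro ⟨nx, ny⟩
    have add : ∀ {A : Set (Vx J)} {z}, IsConn G.Γ A → z ∈ Nb G.Γ A → IsConn G.Γ (A ∪ G.T z) := by
      intro A z cA ⟨a, ha, e⟩
      by_cases hz : z ∈ G.K
      · exact cA.union (h.t_fc z).2 ⟨a, ha, z, t_self hz, e.symm⟩
      · rwa [t_empty hz, Set.union_empty]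
    have up : ∀ {z z'}, z ∈ Nb G.Γ E → G.T z ⊆ E ∪ G.T x ∪ G.T y →
        (z' = z ∨ (z ∈ G.K ∧ z' = G.ch z)) → z' ∈ Nb G.Γ (E ∪ G.T x ∪ G.T y) := by
      rintro z z' ⟨a, ha, e⟩ hs (rfl | ⟨hz, rfl⟩)
      · exact ⟨a, Or.inl (Or.inl ha), e⟩
      · obtain ⟨b, hb, e'⟩ := h.ch_nb hz
        exact ⟨b, hs hb, e'⟩
    refine (hb.nc hR (E := E ∪ G.T x ∪ G.T y)
      (Set.union_subset (Set.union_subset (fun z hz => (hE hz).1) sx.1) sy.1)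
      ((fE.union (h.t_fc _).1).union (h.t_fc _).1)
      (add (add cE nx) (let ⟨a, ha, e⟩ := ny; ⟨a, Or.inl ha, e⟩))
      (Set.disjoint_union_left.2 ⟨Set.disjoint_union_left.2
        ⟨Set.disjoint_left.2 fun z hz k => (hE hz).2 k.1, sx.2⟩, sy.2⟩) hx' hy').2
      ⟨up nx (fun z hz => Or.inl (Or.inr hz)) (rx.imp And.left fun k => ⟨k.1, k.2.1⟩),
        up ny (fun z hz => Or.inr hz) (ry.imp And.left fun k => ⟨k.1, k.2.1⟩)⟩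

/-- the neighbours of a vertex of the strip without stems -/
theorem VFrm.att (h : VFrm G) {y z : Vx J} (hy : y ∈ G.St j) (a : G.Γ.Adj y z) :
    z ∈ G.S j ∨ z ∈ G.L (j - 1) ∨ z ∈ G.L j ∨ (z ∈ G.K ∧ G.f z = j) := by
  rcases h.toRows.att hy a with k | k | k
  · by_cases hv : z ∈ G.K
    exacts [Or.inr (Or.inr (Or.inr ⟨hv, h.toRows.st_lev (h.kst z hv) k⟩)), Or.inl ⟨k, hv⟩]
  · exact Or.inr (Or.inl k)
  · exact Or.inr (Or.inr (Or.inl k))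

/-- connected parts of a strip without stems are finite -/
theorem VFrm.sfin (h : VFrm G) {E : Set (Vx J)} (hE : E ⊆ G.S j) (hEc : IsConn G.Γ E) :
    E.Finite := by
  by_contra hinf
  have hF := h.toRows
  have hP := h.wp
  have hU := h.uw
  obtain ⟨q0, hq0, pq0⟩ := h.pne j
  have hb := h.brg hq0 pq0 (Or.inl rfl)
  set p0 := G.xl (G.an q0)
  set T : Set (Vx J) := G.T (G.an q0)
  obtain ⟨M, hM0, hM⟩ := hU.big
  obtain ⟨F0, hF0, hband⟩ := hU.band j (j + 1 + M)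
  have hk : ∀ x : Vx J, ∃ k : ℤ, x ∈ G.S j → tr (k • G.w) x ∈ F0 := by
    intro x
    by_cases hx : x ∈ G.S j
    · obtain ⟨k, hk⟩ := hband x (hU.ge j x hx.1.1) (by
        by_contra h
        exact hx.1.2 (Or.inr (hM (j + 1) x (by omega))))
      exact ⟨k, fun _ => hk⟩
    · exact ⟨0, fun h => absurd h hx⟩
  choose k hk using hk
  obtain ⟨x, hx, x', hx', hne, heq⟩ := Set.Infinite.exists_ne_map_eq_of_mapsTo
    (f := fun x => tr (k x • G.w) x) hinf (fun x hx => hk x (hE hx)) hF0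
  set g : ℤ × ℤ := (k x - k x') • G.w with hg
  have hgx : tr g x = x' := by
    have h1 : tr (k x • G.w) x = tr (k x' • G.w) x' := heq
    have h2 := congrArg (tr (-(k x' • G.w))) h1
    rw [tr_neg, tr_tr] at h2
    rw [← h2, hg, sub_smul, sub_eq_add_neg]
  have hg0 : g ≠ 0 := by
    intro h
    rw [h, tr_zero] at hgx
    exact hne hgx
  have hη : G.η g = 0 := hP.eta_w _
  have hηn : G.η (-g) = 0 := by rw [map_neg, hη, neg_zero]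
  have hS : ∀ c, G.η c = 0 → ∀ y ∈ G.S j, tr c y ∈ G.S j := fun c hc y hy =>
    ⟨(hF.utr0 hc j y).2.2.2 hy.1, fun k => hy.2 (by simpa only [tr_neg] using h.ktr (-c) _ k)⟩
  set K : Set (Vx J) := {y | Conn G.Γ (G.S j) x y} with hK
  have hKs : K ⊆ G.S j := fun y hy => Conn.mem hy (hE hx)
  have hKc : IsConn G.Γ K := isConn_comp _ _
  have hxx' : Conn G.Γ (G.S j) x x' := (hEc x hx x' hx').up hE
  have hKp : ∀ y, tr g y ∈ K ↔ y ∈ K := by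
    intro y
    constructor
    · intro hy
      have h1 := hP.fine.conn_tr (-g) (hS _ hηn) (hxx'.symm.trans hy)
      rw [← hgx, tr_neg, tr_neg] at h1
      exact h1
    · intro hy
      have h1 := hP.fine.conn_tr g (hS _ hη) hy
      rw [hgx] at h1
      exact hxx'.trans h1
  have hB : ∀ y, tr g y ∈ BL G.Γ G.f (j - 1) ↔ y ∈ BL G.Γ G.f (j - 1) := by
    intro y
    have := hF.bl_tr g (j - 1) y
    rwa [hη, add_zero] at this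
  have up : ∀ v ∈ G.U (j + 1), v ∈ G.U j := fun v hv => hU.mono _ _ (by omega) hv
  have main : ∀ {p q : Vx J} {T : Set (Vx J)}, Brg G.toFD j p q T → T ⊆ G.K →
      ∀ (a b c d : ℤ), a ≤ G.ρ p → G.ρ p ≤ b → c ≤ G.ρ q → G.ρ q ≤ d →
      ¬ Touch G.Γ (Zn G.toFD j (fun i => a ≤ i ∧ i ≤ b) (fun i => c ≤ i ∧ i ≤ d) T) K := by
    intro p q T hb hT a b c d l1 l2 l3 l4 t
    have o := zn_out hF (P := fun i => a ≤ i ∧ i ≤ b) (Q := fun i => c ≤ i ∧ i ≤ d) hb.sub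
    obtain ⟨b1, hb1, e1⟩ := hF.tch _ hb.hp
    obtain ⟨b2, hb2, e2⟩ := hb.hq.1
    refine pk_Bri J G.Γ hP.fine g hg0 K (G.U (j + 1)) (BL G.Γ G.f (j - 1)) _ hKc (hU.conn _)
      (hF.blc _) (Set.disjoint_left.2 fun v hv hv' => (hKs hv).1.2 (Or.inr hv'))
      (Set.disjoint_left.2 fun v hv => u_not_bl (hKs hv).1.1)
      (Set.disjoint_left.2 fun v hv => u_not_bl (up v hv)) hKp (fun v => (hF.utr0 hη _ v).1) hB
      ?_ (zn_conn hF hb (fun _ _ _ _ _ _ _ => by omega) (fun _ _ _ _ _ _ _ => by omega) ⟨l1, l2⟩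
        ⟨l3, l4⟩) (Set.disjoint_left.2 ?_) (o.mono_left Set.subset_union_right).symm
      (o.mono_left Set.subset_union_left).symm t
      ⟨q, Or.inr (Or.inl ⟨hb.hq, l3, l4⟩), b2, hb2, e2⟩ ⟨p, Or.inl ⟨hb.hp, l1, l2⟩, b1, hb1, e1⟩
    · exact (hF.seg_fin _ a b).union ((hF.seg_fin _ c d).union hb.fin)
    · rintro v (k | k | k) hv
      exacts [l_not_u' k.1 (hKs hv).1.1, (hKs hv).1.2 (Or.inl k.1), (hKs hv).2 (hT k)]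
  obtain ⟨p, y, -, -, hp, hpy, -, hy⟩ := (hP.fine.pl.conn x trivial q0 trivial).exit (R := K)
    Conn.rfl' fun h => (hKs h).1.2 (Or.inl hq0)
  rcases h.att (hKs hp).1 hpy with k | k | k | k
  · exact hy (Conn.snoc hp (hKs hp) k hpy)
  · exact main hb (fun _ k => k.1) (min (G.ρ y) (G.ρ p0)) (max (G.ρ y) (G.ρ p0)) _ _
      (min_le_right _ _) (le_max_right _ _) le_rfl le_rfl
      ⟨y, Or.inl ⟨k, min_le_left _ _, le_max_left _ _⟩, p, hp, hpy.symm⟩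
  · exact main hb (fun _ k => k.1) _ _ (min (G.ρ y) (G.ρ q0)) (max (G.ρ y) (G.ρ q0))
      le_rfl le_rfl (min_le_right _ _) (le_max_right _ _)
      ⟨y, Or.inr (Or.inl ⟨k, min_le_left _ _, le_max_left _ _⟩), p, hp, hpy.symm⟩
  · have hc := h.kc y k.1
    exact main (h.brg (k.2 ▸ hc.1) hc.2.1 (Or.inl rfl)) (fun _ k => k.1) _ _ _ _
      le_rfl le_rfl le_rfl le_rfl
      ⟨y, Or.inr (Or.inr ((h.tp k.1).2 ▸ t_self k.1)), p, hp, hpy.symm⟩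

theorem VFrm.mono (h : VFrm G) (hs : s ∈ G.L j) (ps : s ∈ G.Pr) (ht : t ∈ G.L j) (pt : t ∈ G.Pr)
    (l : G.ρ s ≤ G.ρ t) : G.an s = G.an t ∨ G.ρ (G.xr (G.an s)) ≤ G.ρ (G.xl (G.an t)) := by
  by_contra hc
  push Not at hc
  have lt : G.ρ s < G.ρ t := lt_of_le_of_ne l fun e => hc.1 (by rw [h.toRows.inj hs ht e])
  have hb := h.brg hs ps (Or.inr rfl)
  have hx := h.foot ht pt (Or.inl rfl)
  by_cases hv : G.an t ∈ G.K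
  · exact (hb.nc h.toRows (h.an_st ht pt) (h.t_fc _).1 (h.t_fc _).2
      (h.t_dis hs ps ht pt hc.1).symm (Or.inl ⟨hx.1, hc.2⟩) (Or.inr ⟨ht, lt⟩)).2
      ⟨⟨_, (h.kp _ (h.an_v ht pt hv).1).hb, (hx.2.2.2.1 hv).1.symm⟩,
        ⟨_, t_self hv, (h.aa j t ht pt).1⟩⟩
  · refine (hb.nc h.toRows (Set.empty_subset _) Set.finite_empty isConn_empty
      (Set.empty_disjoint _) (Or.inl ⟨hx.1, hc.2⟩) (Or.inr ⟨ht, lt⟩)).1 ?_
    rw [(h.xo _ hv).1]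
    exact (h.aa j t ht pt).1.symm

theorem VFrm.mono' (h : VFrm G) (hs : s ∈ G.L j) (ps : s ∈ G.Pr) (ht : t ∈ G.L j) (pt : t ∈ G.Pr)
    (l : G.ρ s ≤ G.ρ t) : G.ρ (G.xl (G.an s)) ≤ G.ρ (G.xl (G.an t)) ∧
      G.ρ (G.xr (G.an s)) ≤ G.ρ (G.xr (G.an t)) := by
  have a := (h.feet hs ps).2.2
  have b := (h.feet ht pt).2.2
  rcases h.mono hs ps ht pt l with e | e
  · rw [e]; omega
  · omega

/-- between two children of the top of a stem all cuts use this stem -/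
theorem VFrm.btw (h : VFrm G) {s' : Vx J} (hs : s ∈ G.L j) (ps : s ∈ G.Pr) (ht : t ∈ G.L j)
    (pt : t ∈ G.Pr) (hs' : s' ∈ G.L j) (ps' : s' ∈ G.Pr) (l : G.ρ s ≤ G.ρ t)
    (l' : G.ρ t ≤ G.ρ s') (e : G.an s = G.an s') (hv : G.an s ∈ G.K) : G.an t = G.an s := by
  by_contra hc
  have lt : G.ρ s < G.ρ t := lt_of_le_of_ne l fun k => hc (by rw [h.toRows.inj hs ht k])
  have lt' : G.ρ t < G.ρ s' := lt_of_le_of_ne l' fun k => hc (by rw [h.toRows.inj ht hs' k, e])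
  exact ((h.brg ht pt (Or.inl rfl)).nc h.toRows (h.an_st hs ps) (h.t_fc _).1 (h.t_fc _).2
    (h.t_dis ht pt hs ps hc).symm (Or.inr ⟨hs, lt⟩) (Or.inr ⟨hs', lt'⟩)).2
    ⟨⟨_, t_self hv, (h.aa j s hs ps).1⟩, ⟨_, t_self hv, e ▸ (h.aa j s' hs' ps').1⟩⟩

theorem VFrm.shift (h : VFrm G) (hs : s ∈ G.L j) (ps : s ∈ G.Pr) (k : ℤ) :
    tr (k • G.w) s ∈ G.L j ∧ tr (k • G.w) s ∈ G.Pr ∧
      G.ρ (tr (k • G.w) s) = G.ρ s + k * G.nn j ∧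
      G.ρ (G.xl (G.an (tr (k • G.w) s))) = G.ρ (G.xl (G.an s)) + k * G.nn (j - 1) ∧
      G.ρ (G.xr (G.an (tr (k • G.w) s))) = G.ρ (G.xr (G.an s)) + k * G.nn (j - 1) :=
  ⟨(h.toRows.rho_lw k hs).1, h.ptr _ _ ps, (h.toRows.rho_lw k hs).2, by
    rw [h.atr, (h.xtr _ _).1, (h.toRows.rho_lw k (h.feet hs ps).1).2], by
    rw [h.atr, (h.xtr _ _).2.1, (h.toRows.rho_lw k (h.feet hs ps).2.1).2]⟩

theorem VFrm.far_hi (h : VFrm G) (j m : ℤ) :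
    ∃ s ∈ G.L j, s ∈ G.Pr ∧ m < G.ρ s ∧ m < G.ρ (G.xl (G.an s)) := by
  obtain ⟨s, hs, ps⟩ := h.pne j
  obtain ⟨k, hk⟩ : ∃ k : ℕ, m - G.ρ s < k ∧ m - G.ρ (G.xl (G.an s)) < k :=
    ⟨(m - G.ρ s).natAbs + (m - G.ρ (G.xl (G.an s))).natAbs + 1, by omega, by omega⟩
  obtain ⟨h1, h2, h3, h4, -⟩ := h.shift hs ps k
  refine ⟨_, h1, h2, ?_, ?_⟩
  · nlinarith [h.n2 j, (Nat.cast_nonneg k : (0 : ℤ) ≤ k)]
  · nlinarith [h.n2 (j - 1), (Nat.cast_nonneg k : (0 : ℤ) ≤ k)]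

theorem VFrm.far_lo (h : VFrm G) (j m : ℤ) :
    ∃ s ∈ G.L j, s ∈ G.Pr ∧ G.ρ s < m ∧ G.ρ (G.xr (G.an s)) < m := by
  obtain ⟨s, hs, ps⟩ := h.pne j
  obtain ⟨k, hk⟩ : ∃ k : ℕ, G.ρ s - m < k ∧ G.ρ (G.xr (G.an s)) - m < k :=
    ⟨(m - G.ρ s).natAbs + (m - G.ρ (G.xr (G.an s))).natAbs + 1, by omega, by omega⟩
  obtain ⟨h1, h2, h3, -, h4⟩ := h.shift hs ps (-k)
  refine ⟨_, h1, h2, ?_, ?_⟩
  · nlinarith [h.n2 j, (Nat.cast_nonneg k : (0 : ℤ) ≤ k)]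
  · nlinarith [h.n2 (j - 1), (Nat.cast_nonneg k : (0 : ℤ) ≤ k)]

theorem VFrm.next (h : VFrm G) (j m : ℤ) : ∃ s ∈ G.L j, s ∈ G.Pr ∧ m < G.ρ s ∧
    ∀ t ∈ G.L j, t ∈ G.Pr → m < G.ρ t → G.ρ s ≤ G.ρ t := by
  obtain ⟨s, hs, ps, ls, -⟩ := h.far_hi j m
  obtain ⟨i, ⟨h1, h2⟩, h3⟩ := Int.exists_least_of_bdd (P := fun i => G.l j i ∈ G.Pr ∧ m < i)
    ⟨m, fun z hz => hz.2.le⟩ ⟨G.ρ s, by rwa [h.toRows.l_rho hs], ls⟩
  refine ⟨_, h.toRows.l_mem j i, h1, by rwa [h.rho], fun t ht pt lt => ?_⟩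
  rw [h.rho]
  exact h3 _ ⟨by rwa [h.toRows.l_rho ht], lt⟩

end Pool.Agent.P.MP_08fd93_co.FZ
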