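import Pool.Agent.P.MP_08fd93_co.FZ.VF

/-! Static cells of a frame with stems. -/

set_option autoImplicit false

namespace Pool.Agent.P.MP_08fd93_co.FZ

open OV

variable {J : Type} {G : VD J} {j : ℤ} {s s' t t' p p' q q' : Vx J}

/-- The component of `v` in the strip without stems. -/
def VD.Cp (G : VD J) (j : ℤ) (v : Vx J) : Set (Vx J) := {y | Conn G.Γ (G.S j) v y}

/-- The part of the strip between the cut from `p` to `s` and the cut from `p'` to `s'`. -/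
def VD.Cl (G : VD J) (j : ℤ) (p s p' s' : Vx J) : Set (Vx J) :=
  {v | v ∈ G.S j ∧ ∀ z ∈ Nb G.Γ (G.Cp j v), ¬ G.Lf j p s z ∧ ¬ G.Rg j p' s' z}

/-- The interior of the cell under the interval from `s` to `s'`. -/
def VD.In (G : VD J) (s s' : Vx J) : Set (Vx J) :=
  G.Cl (G.f s) (G.xr (G.an s)) s (G.xl (G.an s')) s'

/-- The bottom path of the cell under the interval from `s` to `s'`. -/
def VD.Bt (G : VD J) (s s' : Vx J) : Set (Vx J) :=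
  {z | z = G.an s ∨ (G.an s ≠ G.an s' ∧ (z ∈ G.T (G.an s) ∨ z ∈ G.T (G.an s') ∨
    (z ∈ G.L (G.f s - 1) ∧ G.ρ (G.xr (G.an s)) ≤ G.ρ z ∧ G.ρ z ≤ G.ρ (G.xl (G.an s')))))}

/-- The part of the strip under the stem with top `v`. -/
def VD.Uv (G : VD J) (v : Vx J) : Set (Vx J) :=
  {u | u ∈ G.S (G.f v) ∧ ∀ z ∈ Nb G.Γ (G.Cp (G.f v) u), z ∈ G.S (G.f v) ∨ z = G.bt v ∨
    (z ∈ G.L (G.f v - 1) ∧ G.ρ (G.xl v) ≤ G.ρ z ∧ G.ρ z ≤ G.ρ (G.xr v))}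

/-- No stem lies inside the cell under the interval from `s` to `s'`. -/
def VD.NoV (G : VD J) (s s' : Vx J) : Prop :=
  ∀ u ∈ G.K, G.ch u ∈ G.Top s s' → u ∈ G.T (G.an s) ∨ u ∈ G.T (G.an s')

/-- `p` is a foot of the cut at `s`. -/
def VD.Ft (G : VD J) (s p : Vx J) : Prop := p = G.xl (G.an s) ∨ p = G.xr (G.an s)

theorem cpv_sub {v : Vx J} (hv : v ∈ G.S j) : G.Cp j v ⊆ G.S j := fun _ hy => Conn.mem hy hv

theorem cpv_conn (v : Vx J) : IsConn G.Γ (G.Cp j v) := isConn_comp _ v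

theorem cpv_eq {v y : Vx J} (hy : y ∈ G.Cp j v) : G.Cp j y = G.Cp j v := by
  ext z
  exact ⟨fun k => Conn.trans hy k, fun k => Conn.trans (Conn.symm hy) k⟩

theorem cpv_nb {v z : Vx J} (e : G.Γ.Adj v z) : z ∈ Nb G.Γ (G.Cp j v) := ⟨v, Conn.rfl', e.symm⟩

theorem cl_cp {v y : Vx J} (hv : v ∈ G.Cl j p s p' s') (hy : y ∈ G.Cp j v) :
    y ∈ G.Cl j p s p' s' := ⟨cpv_sub hv.1 hy, by rw [cpv_eq hy]; exact hv.2⟩

theorem cl_step {v z : Vx J} (hv : v ∈ G.Cl j p s p' s') (hz : z ∈ G.S j) (e : G.Γ.Adj v z) :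
    z ∈ G.Cl j p s p' s' := cl_cp hv (Conn.step hv.1 hz e)

theorem uv_cp {b v y : Vx J} (hv : v ∈ G.Uv b) (hy : y ∈ G.Cp (G.f b) v) : y ∈ G.Uv b :=
  ⟨cpv_sub hv.1 hy, by rw [cpv_eq hy]; exact hv.2⟩

/-- the neighbours of the part under a stem -/
theorem uv_nb {b v z : Vx J} (hv : v ∈ G.Uv b) (e : G.Γ.Adj v z) : z ∈ G.Uv b ∨ z = G.bt b ∨
    (z ∈ G.L (G.f b - 1) ∧ G.ρ (G.xl b) ≤ G.ρ z ∧ G.ρ z ≤ G.ρ (G.xr b)) :=
  (hv.2 z (cpv_nb e)).imp_left fun k => uv_cp hv (Conn.step hv.1 k e)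

theorem VFrm.cp_fin (h : VFrm G) {v : Vx J} (hv : v ∈ G.S j) : (G.Cp j v).Finite :=
  h.sfin (cpv_sub hv) (cpv_conn v)

theorem VFrm.cp_nb (h : VFrm G) {v z : Vx J} (hv : v ∈ G.S j) (hz : z ∈ Nb G.Γ (G.Cp j v)) :
    z ∈ G.Cp j v ∨ z ∈ G.L (j - 1) ∨ z ∈ G.L j ∨ (z ∈ G.K ∧ G.f z = j) := by
  obtain ⟨y, hy, e⟩ := id hz
  exact (h.att (cpv_sub hv hy).1 e.symm).imp_left fun k => comp_nb hv hz k

theorem s_side {z : Vx J} (hz : z ∈ G.S j) :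
    ¬ G.Lf j p s z ∧ ¬ G.Rg j p' s' z := by
  constructor <;> rintro (a | a | a)
  exacts [l_not_u' a.1 hz.1.1, hz.1.2 (Or.inl a.1), hz.2 a.1,
    l_not_u' a.1 hz.1.1, hz.1.2 (Or.inl a.1), hz.2 a.1]

/-- a component does not attach on both sides of a cut -/
theorem VFrm.side (h : VFrm G) (hs : s ∈ G.L j) (ps : s ∈ G.Pr) (hp : G.Ft s p) {v x y : Vx J}
    (hv : v ∈ G.S j) (nx : x ∈ Nb G.Γ (G.Cp j v)) (ny : y ∈ Nb G.Γ (G.Cp j v))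
    (hx : G.Lf j p s x) (hy : G.Rg j p s y) : False :=
  (h.ncv (h.brg hs ps hp) (cpv_sub hv) (h.cp_fin hv) (cpv_conn v) hx hy).2 ⟨nx, ny⟩

theorem VFrm.lf_mono (h : VFrm G) (hs : s ∈ G.L j) (ps : s ∈ G.Pr) (ht : t ∈ G.L j)
    (pt : t ∈ G.Pr) (l : G.ρ s ≤ G.ρ t) (l' : G.ρ p ≤ G.ρ q) {z : Vx J} (hz : G.Lf j p s z) :
    G.Lf j q t z := by
  rcases hz with a | a | ⟨a, b, c, d⟩
  · exact Or.inl ⟨a.1, by omega⟩
  · exact Or.inr (Or.inl ⟨a.1, by omega⟩)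
  · refine Or.inr (Or.inr ⟨a, b, fun k => c ?_, by omega⟩)
    have hc := h.kc z a
    rw [h.btw (b ▸ hc.1) hc.2.1 hs ps ht pt d.le l (h.an_ch ht pt k) hc.2.2.1, (h.tp a).2]
    exact t_self a

theorem VFrm.rg_mono (h : VFrm G) (hs : s ∈ G.L j) (ps : s ∈ G.Pr) (ht : t ∈ G.L j)
    (pt : t ∈ G.Pr) (l : G.ρ s ≤ G.ρ t) (l' : G.ρ p ≤ G.ρ q) {z : Vx J} (hz : G.Rg j q t z) :
    G.Rg j p s z := by
  rcases hz with a | a | ⟨a, b, c, d⟩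
  · exact Or.inl ⟨a.1, by omega⟩
  · exact Or.inr (Or.inl ⟨a.1, by omega⟩)
  · refine Or.inr (Or.inr ⟨a, b, fun k => c ?_, by omega⟩)
    have hc := h.kc z a
    rw [h.btw hs ps ht pt (b ▸ hc.1) hc.2.1 l d.le (h.an_ch hs ps k).symm k.2.1]
    exact k

/-- a vertex on neither side of a cut lies on the cut -/
theorem VFrm.on_k (h : VFrm G) (hs : s ∈ G.L j) {z : Vx J} (hz : z ∈ G.K) (e : G.f z = j)
    (h1 : ¬ G.Lf j p s z) (h2 : ¬ G.Rg j q s z) : z ∈ G.T (G.an s) := by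
  by_contra c
  have e1 : G.ch z = s := h.toRows.inj (e ▸ (h.kc z hz).1) hs (le_antisymm
    (not_lt.1 fun c' => h2 (Or.inr (Or.inr ⟨hz, e, c, c'⟩)))
    (not_lt.1 fun c' => h1 (Or.inr (Or.inr ⟨hz, e, c, c'⟩))))
  exact c (by rw [← e1, (h.tp hz).2]; exact t_self hz)

theorem VFrm.on_l (h : VFrm G) (hs : s ∈ G.L j) {z : Vx J} (hz : z ∈ G.L j)
    (h1 : ¬ G.Lf j p s z) (h2 : ¬ G.Rg j q s z) : z = s :=
  h.toRows.inj hz hs (le_antisymm (not_lt.1 fun c => h2 (Or.inr (Or.inl ⟨hz, c⟩)))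
    (not_lt.1 fun c => h1 (Or.inr (Or.inl ⟨hz, c⟩))))

/-- nothing hangs on a cut -/
theorem VFrm.hang (h : VFrm G) (hs : s ∈ G.L j) (ps : s ∈ G.Pr) (hp : G.Ft s p) {v : Vx J}
    (hv : v ∈ G.S j)
    (hn : ∀ z ∈ Nb G.Γ (G.Cp j v), z ∈ G.Cp j v ∨ z = s ∨ z ∈ G.T (G.an s) ∨ z = p) : False := by
  obtain ⟨σ, hP⟩ := h.cutP hs ps hp
  have hL := (h.foot hs ps hp).1
  refine hangP h.toRows hP hs hL ?_ (fun u hu => (cpv_sub hv hu).1) (h.cp_fin hv) (cpv_conn v)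
    ⟨v, Conn.rfl'⟩ (Set.disjoint_left.2 ?_) fun z hz => (hn z hz).imp_right ?_
  · rintro x ((k | k) | k) n1 n2
    exacts [absurd k n1, h.an_st hs ps k, absurd k n2]
  · rintro x hx ((rfl | k) | rfl)
    exacts [(cpv_sub hv hx).1.2 (Or.inl hs), (cpv_sub hv hx).2 k.1, l_not_u' hL (cpv_sub hv hx).1.1]
  · rintro (k | k | k)
    exacts [Or.inl (Or.inl k), Or.inl (Or.inr k), Or.inr k]

theorem VFrm.thin (h : VFrm G) (hs : s ∈ G.L j) (ps : s ∈ G.Pr) (hp : G.Ft s p) {v : Vx J} :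
    v ∉ G.Cl j p s p s := by
  intro hv
  refine h.hang hs ps hp hv.1 fun z hz => ?_
  obtain ⟨h1, h2⟩ := hv.2 z hz
  rcases h.cp_nb hv.1 hz with k | k | k | k
  · exact Or.inl k
  · exact Or.inr (Or.inr (Or.inr (h.toRows.inj k (h.foot hs ps hp).1 (le_antisymm
      (not_lt.1 fun c => h2 (Or.inl ⟨k, c⟩)) (not_lt.1 fun c => h1 (Or.inl ⟨k, c⟩))))))
  · exact Or.inr (Or.inl (h.on_l hs k h1 h2))
  · exact Or.inr (Or.inr (Or.inl (h.on_k hs k.1 k.2 h1 h2)))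

theorem VFrm.cl_dis (h : VFrm G) (hs' : s' ∈ G.L j) (ps' : s' ∈ G.Pr) (ht : t ∈ G.L j)
    (pt : t ∈ G.Pr) (hq : G.Ft t q) (l : G.ρ s' ≤ G.ρ t) (l' : G.ρ p' ≤ G.ρ q) :
    Disjoint (G.Cl j p s p' s') (G.Cl j q t q' t') :=
  Set.disjoint_left.2 fun _ a b => h.thin ht pt hq ⟨a.1, fun z hz => ⟨(b.2 z hz).1,
    fun k => (a.2 z hz).2 (h.rg_mono hs' ps' ht pt l l' k)⟩⟩

theorem VFrm.cl_mono (h : VFrm G) (hs : s ∈ G.L j) (ps : s ∈ G.Pr) (hs' : s' ∈ G.L j)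
    (ps' : s' ∈ G.Pr) (ht : t ∈ G.L j) (pt : t ∈ G.Pr) (ht' : t' ∈ G.L j) (pt' : t' ∈ G.Pr)
    (l : G.ρ s ≤ G.ρ t) (l' : G.ρ t' ≤ G.ρ s') (m : G.ρ p ≤ G.ρ q) (m' : G.ρ q' ≤ G.ρ p') :
    G.Cl j q t q' t' ⊆ G.Cl j p s p' s' := fun _ a => ⟨a.1, fun z hz =>
  ⟨fun k => (a.2 z hz).1 (h.lf_mono hs ps ht pt l m k),
    fun k => (a.2 z hz).2 (h.rg_mono ht' pt' hs' ps' l' m' k)⟩⟩

/-- the neighbours of a vertex strictly between two cuts -/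
theorem VFrm.cl_btw (h : VFrm G) (hs : s ∈ G.L j) (ps : s ∈ G.Pr) (hs' : s' ∈ G.L j)
    (ps' : s' ∈ G.Pr) (hp : G.Ft s p) (hp' : G.Ft s' p') {x z : Vx J} (h1 : G.Rg j p s x)
    (h2 : G.Lf j p' s' x) (e : G.Γ.Adj x z) :
    (z ∈ G.S j → z ∈ G.Cl j p s p' s') ∧ ¬ G.Lf j p s z ∧ ¬ G.Rg j p' s' z :=
  ⟨fun hz => ⟨hz, fun _ hy => ⟨fun k => h.side hs ps hp hz hy (cpv_nb e.symm) k h1,
      fun k => h.side hs' ps' hp' hz (cpv_nb e.symm) hy h2 k⟩⟩,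
    fun k => (h.ncv (h.brg hs ps hp) (Set.empty_subset _) Set.finite_empty isConn_empty k h1).1
      e.symm,
    fun k => (h.ncv (h.brg hs' ps' hp') (Set.empty_subset _) Set.finite_empty isConn_empty h2 k).1
      e⟩

/-- every vertex of a strip lies between two consecutive cuts -/
theorem VFrm.cl_ex (h : VFrm G) {ft : Vx J → Vx J} (hft : ∀ s ∈ G.L j, s ∈ G.Pr → G.Ft s (ft s))
    {v : Vx J} (hv : v ∈ G.S j) :
    ∃ s ∈ G.L j, ∃ s' ∈ G.L j, s ∈ G.Pr ∧ s' ∈ G.Pr ∧ G.ρ s < G.ρ s' ∧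
      (∀ t ∈ G.L j, t ∈ G.Pr → G.ρ t ≤ G.ρ s ∨ G.ρ s' ≤ G.ρ t) ∧
      v ∈ G.Cl j (ft s) s (ft s') s' := by
  classical
  have hR := h.toRows
  have hC := h.cp_fin hv
  have hfin : (Nb G.Γ (G.Cp j v)).Finite := by
    have := hC.biUnion (t := fun b => {y | G.Γ.Adj b y}) (fun b _ => h.wp.fine.lf b)
    refine this.subset ?_
    rintro x ⟨b, hb, a⟩
    exact Set.mem_biUnion hb a.symm
  set pos : Vx J → ℤ := fun z => if z ∈ G.K then G.ρ (G.ch z) else G.ρ z with hpos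
  obtain ⟨m, hm⟩ := (hfin.image pos).bddBelow
  obtain ⟨m', hm'⟩ := (hfin.image pos).bddAbove
  obtain ⟨s0, hs0, p0, h0, h0'⟩ := h.far_lo j m
  obtain ⟨s1, hs1, p1, h1, h1'⟩ := h.far_hi j m'
  obtain ⟨i, ⟨hi1, hi2⟩, hi3⟩ := Int.exists_greatest_of_bdd
    (P := fun i => G.l j i ∈ G.Pr ∧
      ∀ z ∈ Nb G.Γ (G.Cp j v), ¬ G.Lf j (ft (G.l j i)) (G.l j i) z)
    ⟨G.ρ s1, fun i hi => by
      by_contra c
      have l1 : G.ρ s1 ≤ G.ρ (G.l j i) := by rw [h.rho]; omega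
      have a1 := (h.mono' hs1 p1 (hR.l_mem j i) hi.1 l1).1
      have a2 := (h.foot (hR.l_mem j i) hi.1 (hft _ (hR.l_mem j i) hi.1)).2.1
      refine h.thin (hR.l_mem j i) hi.1 (hft _ (hR.l_mem j i) hi.1) ⟨hv, fun z hz =>
        ⟨hi.2 z hz, ?_⟩⟩
      have := hm' ⟨z, hz, rfl⟩
      rintro (h2 | h2 | h2)
      · simp only [hpos, if_neg (h.l_nk h2.1)] at this
        omega
      · simp only [hpos, if_neg (h.l_nk h2.1)] at this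
        omega
      · simp only [hpos, if_pos h2.1] at this
        omega⟩
    ⟨G.ρ s0, by
      rw [hR.l_rho hs0]
      refine ⟨p0, fun z hz => ?_⟩
      have := hm ⟨z, hz, rfl⟩
      have a2 := (h.foot hs0 p0 (hft _ hs0 p0)).2.2.1
      rintro (h2 | h2 | h2)
      · simp only [hpos, if_neg (h.l_nk h2.1)] at this
        omega
      · simp only [hpos, if_neg (h.l_nk h2.1)] at this
        omega
      · simp only [hpos, if_pos h2.1] at this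
        omega⟩
  obtain ⟨s', hs', ps', l1, l2⟩ := h.next j i
  refine ⟨G.l j i, hR.l_mem j i, s', hs', hi1, ps', by rwa [h.rho], fun t ht pt => ?_,
    hv, fun z hz => ⟨hi2 z hz, fun hg => ?_⟩⟩
  · have := l2 t ht pt
    rw [h.rho]
    omega
  · by_cases h3 : ∀ z ∈ Nb G.Γ (G.Cp j v), ¬ G.Lf j (ft s') s' z
    · have := hi3 (G.ρ s') (by rw [hR.l_rho hs']; exact ⟨ps', h3⟩)
      omega
    · push Not at h3
      obtain ⟨x, hx1, hx2⟩ := h3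
      exact h.side hs' ps' (hft _ hs' ps') hv hx1 hz hx2 hg

/-- the upper part of a cut -/
theorem VFrm.upP (h : VFrm G) (hs : s ∈ G.L j) (ps : s ∈ G.Pr) (hv : G.an s ∈ G.K) :
    IsConn G.Γ (G.T (G.an s) \ {G.bt (G.an s)} ∪ {s}) ∧
      G.bt (G.an s) ∈ Nb G.Γ (G.T (G.an s) \ {G.bt (G.an s)} ∪ {s}) := by
  have hT := h.kp _ (h.an_v hs ps hv).1
  have c : IsConn G.Γ (G.T (G.an s) \ {G.bt (G.an s)}) :=
    hT.seg_conn (fun _ hw => hw.1) fun _ _ y hy x hx _ l => ⟨hx, by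
      rintro rfl
      have := hT.hi y hy.1
      omega⟩
  by_cases e : G.an s = G.bt (G.an s)
  · refine ⟨?_, s, Or.inr rfl, e ▸ (h.aa j s hs ps).1.symm⟩
    have : G.T (G.an s) = {G.bt (G.an s)} := by
      rw [← e] at hT ⊢
      exact hT.eq_single
    rw [this, Set.sdiff_self, Set.empty_union]
    exact isConn_single s
  · refine ⟨c.union_nb (by rintro _ rfl; exact ⟨_, ⟨hT.ha, e⟩, (h.aa j _ hs ps).1⟩), ?_⟩
    obtain ⟨u, hu, -, eu, -⟩ := hT.pred hT.hb (Ne.symm e)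
    exact ⟨u, Or.inl ⟨hu, eu.ne⟩, eu.symm⟩

/-- the part between the two feet of a cut lies under the stem -/
theorem VFrm.under (h : VFrm G) (hs : s ∈ G.L j) (ps : s ∈ G.Pr) {v : Vx J}
    (hv : v ∈ G.Cl j (G.xl (G.an s)) s (G.xr (G.an s)) s) : G.an s ∈ G.K ∧ v ∈ G.Uv (G.an s) := by
  have hR := h.toRows
  have fC := h.cp_fin hv.1
  have ft := h.feet hs ps
  obtain ⟨x, nx, hx⟩ : ∃ x ∈ Nb G.Γ (G.Cp j v), G.Lf j (G.xr (G.an s)) s x := by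
    by_contra c
    exact h.thin hs ps (Or.inr rfl) ⟨hv.1, fun z hz => ⟨fun k => c ⟨z, hz, k⟩, (hv.2 z hz).2⟩⟩
  obtain ⟨y, ny, hy⟩ : ∃ y ∈ Nb G.Γ (G.Cp j v), G.Rg j (G.xl (G.an s)) s y := by
    by_contra c
    exact h.thin hs ps (Or.inl rfl) ⟨hv.1, fun z hz => ⟨(hv.2 z hz).1, fun k => c ⟨z, hz, k⟩⟩⟩
  have hx' : x ∈ G.L (j - 1) ∧ G.ρ (G.xl (G.an s)) ≤ G.ρ x ∧ G.ρ x < G.ρ (G.xr (G.an s)) := by
    rcases hx with a | a
    exacts [⟨a.1, not_lt.1 fun k => (hv.2 x nx).1 (Or.inl ⟨a.1, k⟩), a.2⟩,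
      ((hv.2 x nx).1 (Or.inr a)).elim]
  have hy' : y ∈ G.L (j - 1) ∧ G.ρ (G.xl (G.an s)) < G.ρ y ∧ G.ρ y ≤ G.ρ (G.xr (G.an s)) := by
    rcases hy with a | a
    exacts [⟨a.1, a.2, not_lt.1 fun k => (hv.2 y ny).2 (Or.inl ⟨a.1, k⟩)⟩,
      ((hv.2 y ny).2 (Or.inr a)).elim]
  have hK : G.an s ∈ G.K := by
    by_contra c
    rw [(h.xo _ c).1, (h.xo _ c).2] at hx'
    omega
  obtain ⟨hV, fa⟩ := h.an_v hs ps hK
  have hT := h.kp _ hV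
  have sT := h.an_st hs ps
  have sC : G.Cp j v ⊆ G.St j := fun u hu => (cpv_sub hv.1 hu).1
  have key : ∀ z ∈ Nb G.Γ (G.Cp j v), z ∉ G.T (G.an s) \ {G.bt (G.an s)} ∪ {s} := by
    intro z hz hD
    obtain ⟨cD, nD⟩ := h.upP hs ps hK
    set D := G.T (G.an s) \ {G.bt (G.an s)} with hDd
    have tC : Touch G.Γ (G.Cp j v) (D ∪ {s}) := let ⟨a, ha, e⟩ := hz; ⟨a, ha, z, hD, e.symm⟩
    have sb : ({G.bt (G.an s)} : Set (Vx J)) ⊆ G.St j := by rintro _ rfl; exact sT hT.hb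
    have n1 : G.xl (G.an s) ∈ Nb G.Γ {G.bt (G.an s)} := ⟨_, rfl, (h.vl _ hV).2.symm⟩
    have n2 : G.xr (G.an s) ∈ Nb G.Γ {G.bt (G.an s)} := ⟨_, rfl, (h.vr _ hV).2.symm⟩
    have nC : ∀ u ∈ G.K, u ∉ G.Cp j v := fun u hu k => (cpv_sub hv.1 k).2 hu
    have br : ∀ p ∈ G.L (j - 1), p ∈ Nb G.Γ (G.Cp j v) → Brg G.toFD j p s (G.Cp j v ∪ D) :=
      fun p hp ⟨a, ha, e⟩ => ⟨hp, hs, Set.union_subset sC fun u hu => sT hu.1,
        fC.union (hT.fin.subset fun u hu => hu.1), by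
          rw [Set.union_assoc]; exact (cpv_conn v).union cD tC, a, Or.inl (Or.inl ha), e⟩
    have key : ∀ p ∈ G.L (j - 1), p ∈ Nb G.Γ (G.Cp j v) →
        ¬ (G.ρ (G.xl (G.an s)) < G.ρ p ∧ G.ρ p < G.ρ (G.xr (G.an s))) := fun p hp np c =>
      ((br p hp np).nc hR sb (Set.finite_singleton _) (isConn_single _)
        (Set.disjoint_singleton_left.2 fun k => k.elim (nC _ hT.hb.1) fun k => k.2 rfl)
        (Or.inl ⟨ft.1, c.1⟩) (Or.inl ⟨ft.2.1, c.2⟩)).2 ⟨n1, n2⟩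
    have a1 := key x hx'.1 nx
    have a2 := key y hy'.1 ny
    have e1 : x = G.xl (G.an s) := hR.inj hx'.1 ft.1 (by omega)
    have e2 : y = G.xr (G.an s) := hR.inj hy'.1 ft.2.1 (by omega)
    have lo : ∀ {A : Set (Vx J)} {p}, p ∈ G.L (j - 1) → A ⊆ G.U j → Disjoint A {p} :=
      fun hp hA => Set.disjoint_singleton_right.2 fun k => l_not_u' hp (hA k)
    have uD : D ∪ {s} ⊆ G.U j := by
      rintro u (k | rfl)
      exacts [(sT k.1).1, hR.l_u hs]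
    have tt : ∀ {A : Set (Vx J)} {p}, p ∈ Nb G.Γ A → Touch G.Γ A {p} :=
      fun ⟨a, ha, e⟩ => ⟨a, ha, _, rfl, e.symm⟩
    refine (h.brg hs ps (Or.inl rfl)).k33s hR (A := {x}) (B := {y}) (C := D ∪ {s})
      (T := G.Cp j v) (E := {G.bt (G.an s)})
      (((((Set.finite_singleton _).union (Set.finite_singleton _)).union
        ((hT.fin.subset fun u hu => hu.1).union (Set.finite_singleton _))).union fC).union
        (Set.finite_singleton _)) ?_ (isConn_single _) (isConn_single _) cD (cpv_conn v)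
      (isConn_single _) (Set.disjoint_singleton.2 (by rintro rfl; omega)) (lo hx'.1 uD).symm
      (lo hy'.1 uD).symm (Set.disjoint_singleton_right.2 (nC _ hT.hb.1))
      ⟨lo hx'.1 fun u hu => (sC hu).1, lo hy'.1 fun u hu => (sC hu).1, Set.disjoint_right.2 ?_⟩
      ⟨lo hx'.1 fun u hu => (sb hu).1, lo hy'.1 fun u hu => (sb hu).1,
        Set.disjoint_singleton_left.2 ?_⟩ ⟨tt nx, tt ny, tC⟩
      ⟨tt (e1 ▸ n1), tt (e2 ▸ n2), let ⟨a, ha, e⟩ := nD; ⟨_, rfl, a, ha, e⟩⟩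
      ⟨x, rfl, Or.inl hx'.1⟩ ⟨y, rfl, Or.inl hy'.1⟩ ⟨s, Or.inr rfl, Or.inr hs⟩
    · rintro u ((((rfl | rfl) | k | rfl) | k) | k)
      exacts [Or.inl hx'.1, Or.inl hy'.1, Or.inr (Or.inr (sT k.1)), Or.inr (Or.inl hs),
        Or.inr (Or.inr (sC k)), Or.inr (Or.inr (sb k))]
    · rintro u (k | rfl) c
      exacts [nC u k.1.1 c, (sC c).2 (Or.inl hs)]
    · rintro (k | k)
      exacts [k.2 rfl, h.l_nk hs (Set.mem_singleton_iff.1 k ▸ hT.hb.1)]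
  refine ⟨hK, by rw [fa]; exact hv.1, fun z hz => ?_⟩
  rw [fa] at hz ⊢
  obtain ⟨h1, h2⟩ := hv.2 z hz
  rcases h.cp_nb hv.1 hz with k | k | k | k
  · exact Or.inl (cpv_sub hv.1 k)
  · exact Or.inr (Or.inr ⟨k, not_lt.1 fun c => h1 (Or.inl ⟨k, c⟩),
      not_lt.1 fun c => h2 (Or.inl ⟨k, c⟩)⟩)
  · exact absurd (Or.inr (h.on_l hs k h1 h2)) (key z hz)
  · refine Or.inr (Or.inl ?_)
    by_contra c
    exact key z hz (Or.inl ⟨h.on_k hs k.1 k.2 h1 h2, c⟩)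

/-- the part between two cuts: the interior of the cell and the parts under the two stems -/
theorem VFrm.split (h : VFrm G) (hs : s ∈ G.L j) (ps : s ∈ G.Pr) (hs' : s' ∈ G.L j)
    (ps' : s' ∈ G.Pr) (hp : G.Ft s p) (hp' : G.Ft s' p') {v : Vx J}
    (hv : v ∈ G.Cl j p s p' s') : v ∈ G.In s s' ∨
      (G.an s ∈ G.K ∧ p ≠ G.xr (G.an s) ∧ v ∈ G.Uv (G.an s)) ∨
      (G.an s' ∈ G.K ∧ p' ≠ G.xl (G.an s') ∧ v ∈ G.Uv (G.an s')) := by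
  by_cases c1 : ∃ x ∈ Nb G.Γ (G.Cp j v), G.Lf j (G.xr (G.an s)) s x
  · obtain ⟨x, nx, hx⟩ := c1
    have ne : p ≠ G.xr (G.an s) := by
      rintro rfl
      exact (hv.2 x nx).1 hx
    obtain rfl := hp.resolve_right ne
    have := h.under hs ps ⟨hv.1, fun z hz => ⟨(hv.2 z hz).1,
      h.side hs ps (Or.inr rfl) hv.1 nx hz hx⟩⟩
    exact Or.inr (Or.inl ⟨this.1, ne, this.2⟩)
  by_cases c2 : ∃ y ∈ Nb G.Γ (G.Cp j v), G.Rg j (G.xl (G.an s')) s' y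
  · obtain ⟨y, ny, hy⟩ := c2
    have ne : p' ≠ G.xl (G.an s') := by
      rintro rfl
      exact (hv.2 y ny).2 hy
    obtain rfl := hp'.resolve_left ne
    have := h.under hs' ps' ⟨hv.1, fun z hz =>
      ⟨fun k => h.side hs' ps' (Or.inl rfl) hv.1 hz ny k hy, (hv.2 z hz).2⟩⟩
    exact Or.inr (Or.inr ⟨this.1, ne, this.2⟩)
  · refine Or.inl ?_
    rw [VD.In, h.uw.lf j s hs]
    exact ⟨hv.1, fun z hz => ⟨fun k => c1 ⟨z, hz, k⟩, fun k => c2 ⟨z, hz, k⟩⟩⟩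

theorem VFrm.in_sub (h : VFrm G) (hs : s ∈ G.L j) (ps : s ∈ G.Pr) (hs' : s' ∈ G.L j)
    (ps' : s' ∈ G.Pr) (hp : G.Ft s p) (hp' : G.Ft s' p') : G.In s s' ⊆ G.Cl j p s p' s' := by
  rw [VD.In, h.uw.lf j s hs]
  exact h.cl_mono hs ps hs' ps' hs ps hs' ps' le_rfl le_rfl (h.foot hs ps hp).2.2.1
    (h.foot hs' ps' hp').2.1

theorem VFrm.uv_cl (h : VFrm G) (ht : t ∈ G.L j) (pt : t ∈ G.Pr) (hK : G.an t ∈ G.K) :
    G.Uv (G.an t) ⊆ G.Cl j (G.xl (G.an t)) t (G.xr (G.an t)) t := by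
  intro v hv
  obtain ⟨hV, fa⟩ := h.an_v ht pt hK
  have hb := (h.kp _ hV).hb
  rw [VD.Uv, fa] at hv
  refine ⟨hv.1, fun z hz => ?_⟩
  rcases hv.2 z hz with k | rfl | k
  · exact s_side k
  · constructor <;> rintro (a | a | a)
    exacts [h.l_nk a.1 hb.1, h.l_nk a.1 hb.1, a.2.2.1 hb, h.l_nk a.1 hb.1, h.l_nk a.1 hb.1,
      a.2.2.1 hb]
  · constructor <;> rintro (a | a | a)
    exacts [by omega, l_not_u' k.1 (h.toRows.l_u a.1), h.l_nk k.1 a.1, by omega,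
      l_not_u' k.1 (h.toRows.l_u a.1), h.l_nk k.1 a.1]

/-- the interior of a cell misses the parts under its two stems -/
theorem VFrm.in_uv (h : VFrm G) (hs : s ∈ G.L j) (ps : s ∈ G.Pr) (hs' : s' ∈ G.L j)
    (ps' : s' ∈ G.Pr) : (G.an s ∈ G.K → Disjoint (G.In s s') (G.Uv (G.an s))) ∧
      (G.an s' ∈ G.K → Disjoint (G.In s s') (G.Uv (G.an s'))) := by
  rw [VD.In, h.uw.lf j s hs]
  exact ⟨fun k => ((h.cl_dis hs ps hs ps (Or.inr rfl) le_rfl le_rfl).mono_left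
      (h.uv_cl hs ps k)).symm,
    fun k => (h.cl_dis hs' ps' hs' ps' (Or.inl rfl) le_rfl le_rfl).mono_right (h.uv_cl hs' ps' k)⟩

theorem VFrm.uv_fin (h : VFrm G) (b : Vx J) : (G.Uv b).Finite := by
  refine fin_of_bd h.wp.fine.oe (((Set.finite_singleton (G.bt b)).union
    (h.toRows.seg_fin (G.f b - 1) (G.ρ (G.xl b)) (G.ρ (G.xr b)))).subset ?_)
    (h.uw.u_inf (G.f b + 1)) (Set.disjoint_left.2 fun v hv k => hv.1.1.2 (Or.inr k))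
  rintro z ⟨⟨v, hv, e⟩, hz⟩
  exact (uv_nb hv e.symm).resolve_left hz

/-- consecutive cuts enclose no stem -/
theorem VFrm.nov (h : VFrm G) (hs : s ∈ G.L j) (hs' : s' ∈ G.L j)
    (hc : ∀ t ∈ G.L j, t ∈ G.Pr → G.an t ∈ G.K → G.ρ s < G.ρ t → G.ρ t < G.ρ s' →
      G.an t = G.an s ∨ G.an t = G.an s') : G.NoV s s' := by
  intro v hv ht
  have c := h.kc v hv
  have hL : G.ch v ∈ G.L j := h.uw.lf j s hs ▸ ht.1
  have a1 := ht.2.1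
  have a2 := ht.2.2
  have m : v ∈ G.T (G.an (G.ch v)) := (h.tp hv).2 ▸ t_self hv
  by_cases e1 : G.ρ (G.ch v) = G.ρ s
  · exact Or.inl (h.toRows.inj hL hs e1 ▸ m)
  by_cases e2 : G.ρ (G.ch v) = G.ρ s'
  · exact Or.inr (h.toRows.inj hL hs' e2 ▸ m)
  rcases hc _ hL c.2.1 c.2.2.1 (by omega) (by omega) with k | k
  exacts [Or.inl (k ▸ m), Or.inr (k ▸ m)]

end Pool.Agent.P.MP_08fd93_co.FZ
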