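import Pool.Agent.P.MP_08fd93_co.FZ.VC

/-! The static cell between two cuts of a frame with stems is a disc. -/

set_option autoImplicit false

namespace Pool.Agent.P.MP_08fd93_co.FZ

open OV

variable {J : Type} {G : VD J} {j : ℤ} {s s' : Vx J}

open Classical in
/-- The order of the cell under the interval from `s` to `s'`. -/
noncomputable def VD.ord (G : VD J) (s s' : Vx J) (u : Vx J) : ℤ :=
  if u ∈ G.T (G.an s) then G.ρ (G.xr (G.an s)) - 1 - G.hg (G.bt (G.an s)) + G.hg u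
  else if u ∈ G.T (G.an s') then G.ρ (G.xl (G.an s')) + 1 + G.hg (G.bt (G.an s')) - G.hg u
  else G.ρ u

/-- The static cell between the cuts at `s` and `s'`. -/
noncomputable def vcell (G : VD J) (s s' : Vx J) : DD (Vx J) :=
  ⟨(G.Bt s s' ∪ G.Top s s' ∪ G.In s s')ᶜ, G.Bt s s', G.Top s s', G.ord s s', G.an s, G.an s',
    s, s'⟩

theorem ord_old {u : Vx J} (hu : u ∉ G.K) : G.ord s s' u = G.ρ u := by
  rw [VD.ord, if_neg fun k => hu k.1, if_neg fun k => hu k.1]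

theorem ord_lo {u : Vx J} (hu : u ∈ G.T (G.an s)) :
    G.ord s s' u = G.ρ (G.xr (G.an s)) - 1 - G.hg (G.bt (G.an s)) + G.hg u := if_pos hu

theorem ord_hi {u : Vx J} (hu : u ∈ G.T (G.an s')) (hn : u ∉ G.T (G.an s)) :
    G.ord s s' u = G.ρ (G.xl (G.an s')) + 1 + G.hg (G.bt (G.an s')) - G.hg u := by
  rw [VD.ord, if_neg hn, if_pos hu]

theorem bt_single (e : G.an s = G.an s') : G.Bt s s' = {G.an s} := by
  ext z
  exact ⟨fun k => k.resolve_right fun c => c.1 e, Or.inl⟩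

section

variable (h : VFrm G) (hs : s ∈ G.L j) (ps : s ∈ G.Pr) (hs' : s' ∈ G.L j) (ps' : s' ∈ G.Pr)
include h hs ps

theorem VFrm.bt_cases {z : Vx J} (hz : z ∈ G.Bt s s') : z ∈ G.T (G.an s) ∨ z ∈ G.T (G.an s') ∨
    (z ∈ G.L (j - 1) ∧ G.ρ (G.xr (G.an s)) ≤ G.ρ z ∧
      (z = G.an s ∨ G.ρ z ≤ G.ρ (G.xl (G.an s')))) := by
  rcases hz with rfl | ⟨-, k | k | k⟩
  · by_cases c : G.an s ∈ G.K
    · exact Or.inl (t_self c)
    · exact Or.inr (Or.inr ⟨h.an_l hs ps c, by rw [(h.xo _ c).2], Or.inl rfl⟩)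
  exacts [Or.inl k, Or.inr (Or.inl k),
    Or.inr (Or.inr ⟨h.uw.lf j s hs ▸ k.1, k.2.1, Or.inr k.2.2⟩)]

include hs' ps'

/-- the part of the bottom path on the line -/
theorem VFrm.bt_line (l : G.ρ s ≤ G.ρ s') {z : Vx J} (hz : z ∈ G.Bt s s') (hk : z ∉ G.K) :
    z ∈ G.L (j - 1) ∧ G.ρ (G.xr (G.an s)) ≤ G.ρ z ∧ G.ρ z ≤ G.ρ (G.xl (G.an s')) := by
  rcases h.bt_cases hs ps hz with k | k | ⟨k1, k2, rfl | k3⟩
  · exact absurd k.1 hk
  · exact absurd k.1 hk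
  · have := (h.mono' hs ps hs' ps' l).1
    rw [(h.xo _ hk).1] at this
    exact ⟨k1, k2, this⟩
  · exact ⟨k1, k2, k3⟩

theorem VFrm.bt_st {z : Vx J} (hz : z ∈ G.Bt s s') :
    (z ∈ G.K ∧ z ∈ G.St j) ∨ z ∈ G.L (j - 1) := by
  rcases h.bt_cases hs ps hz with k | k | k
  exacts [Or.inl ⟨k.1, h.an_st hs ps k⟩, Or.inl ⟨k.1, h.an_st hs' ps' k⟩, Or.inr k.1]

theorem VFrm.bt_eq (l : G.ρ s ≤ G.ρ s') (e : G.an s ≠ G.an s') : G.Bt s s' = G.T (G.an s) ∪
    {z | z ∈ G.L (j - 1) ∧ G.ρ (G.xr (G.an s)) ≤ G.ρ z ∧ G.ρ z ≤ G.ρ (G.xl (G.an s'))} ∪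
    G.T (G.an s') := by
  ext z
  constructor
  · intro hz
    by_cases c : z ∈ G.K
    · rcases h.bt_cases hs ps hz with k | k | k
      exacts [Or.inl (Or.inl k), Or.inr k, absurd c (h.l_nk k.1)]
    · exact Or.inl (Or.inr (h.bt_line hs ps hs' ps' l hz c))
  · rintro ((k | k) | k)
    exacts [Or.inr ⟨e, Or.inl k⟩, Or.inr ⟨e, Or.inr (Or.inr ⟨h.uw.lf j s hs ▸ k.1, k.2⟩)⟩,
      Or.inr ⟨e, Or.inr (Or.inl k)⟩]

/-- the bottom of a cell is an induced path -/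
theorem VFrm.bt_pth (l : G.ρ s ≤ G.ρ s') :
    Pth G.Γ (G.Bt s s') (G.ord s s') (G.an s) (G.an s') := by
  by_cases e : G.an s = G.an s'
  · rw [bt_single e, ← e]
    exact Pth.single _ _
  have hR := h.toRows
  have f1 := (h.feet hs ps).2.1
  have f2 := (h.feet hs' ps').1
  have m := (h.mono hs ps hs' ps' l).resolve_left e
  have dis := h.t_dis hs ps hs' ps' e
  have P0 := (hR.seg_pth f1 f2 m).congr (ρ' := G.ord s s') fun x hx => ord_old (h.l_nk hx.1)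
  rw [h.bt_eq hs ps hs' ps' l e]
  have P1 : Pth G.Γ (G.T (G.an s) ∪ {z | z ∈ G.L (j - 1) ∧ G.ρ (G.xr (G.an s)) ≤ G.ρ z ∧
      G.ρ z ≤ G.ρ (G.xl (G.an s'))}) (G.ord s s') (G.an s) (G.xl (G.an s')) := by
    by_cases c : G.an s ∈ G.K
    · obtain ⟨hV, fa⟩ := h.an_v hs ps c
      have hT := h.kp _ hV
      refine ((hT.shift _).congr fun x hx => ord_lo hx).join P0 (Or.inr ⟨?_, (h.vr _ hV).2⟩)
        fun x hx y hy a => Or.inl ?_
      · rw [ord_lo hT.hb, ord_old (h.l_nk f1)]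
        omega
      · have := h.vx _ hV x hx y (fa ▸ hy.1) a
        exact ⟨this.1, hR.inj hy.1 f1 (le_antisymm this.2.2 hy.2.1)⟩
    · rw [t_empty c, Set.empty_union]
      have e1 := (h.xo _ c).2
      rw [e1] at P0 ⊢
      exact P0
  by_cases c : G.an s' ∈ G.K
  · obtain ⟨hV, fa⟩ := h.an_v hs' ps' c
    have hT := h.kp _ hV
    refine P1.join ((hT.rev _).congr fun x hx => ord_hi hx (Set.disjoint_right.1 dis hx))
      (Or.inr ⟨?_, (h.vl _ hV).2.symm⟩) ?_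
    · rw [ord_hi hT.hb (Set.disjoint_right.1 dis hT.hb), ord_old (h.l_nk f2)]
      omega
    · rintro x (hx | hx) y hy a
      · exact absurd ⟨hy.1, hx.2.1, (h.kn x hx.1 y hy.1 a).symm.trans hx.2.2⟩
          (Set.disjoint_right.1 dis hy)
      · have := h.vx _ hV y hy x (fa ▸ hx.1) a.symm
        exact Or.inl ⟨hR.inj hx.1 f2 (le_antisymm hx.2.2 this.2.1), this.1⟩
  · rw [t_empty c, Set.union_empty]
    have e1 := (h.xo _ c).1
    rw [e1] at P1 ⊢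
    exact P1

theorem VFrm.in_fin (l : G.ρ s ≤ G.ρ s') (hN : G.NoV s s') : (G.In s s').Finite := by
  refine fin_of_bd h.wp.fine.oe (((h.bt_pth hs ps hs' ps' l).fin.union
    (h.toRows.seg_fin (G.f s) (G.ρ s) (G.ρ s'))).subset ?_) (h.uw.u_inf (G.f s + 1))
    (Set.disjoint_left.2 fun v hv k => hv.1.1.2 (Or.inr k))
  rintro z ⟨⟨v, hv, e⟩, hz⟩
  exact (h.in_adj hs ps hs' ps' hN hv e.symm).resolve_left hz

theorem VFrm.vcell_I : (vcell G s s').I = G.In s s' := by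
  have fs := h.uw.lf j s hs
  ext v
  constructor
  · intro hv
    by_contra hc
    exact hv (by
      by_cases h1 : v ∈ G.Bt s s' ∪ G.Top s s'
      exacts [Or.inr h1, Or.inl fun h2 => h2.elim h1 hc])
  · rintro hv (k | k | k)
    · exact k (Or.inr hv)
    · exact (h.bt_st hs ps hs' ps' k).elim (fun c => hv.1.2 c.1) fun c => l_not_u' c (fs ▸ hv.1.1.1)
    · exact hv.1.1.2 (Or.inl k.1)

theorem VFrm.vlow {v : Vx J} (hv : v ∈ G.Bt s s' ∨ v ∈ G.In s s') :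
    v ∈ G.St j ∨ v ∈ G.L (j - 1) :=
  hv.elim (fun k => (h.bt_st hs ps hs' ps' k).imp_left And.right)
    fun k => Or.inl (h.uw.lf j s hs ▸ k.1.1)

theorem VFrm.vZ {v : Vx J} (hv : v ∈ BL G.Γ G.f (j - 1) ∨ v ∈ G.U (j + 1)) :
    v ∈ (vcell G s s').Z := by
  have o := Set.disjoint_left.1 (zn_out h.toRows (P := fun _ => True) (Q := fun _ => True)
    (subset_refl (G.St j))) hv
  rintro ((k | k) | k)
  · exact (h.vlow hs ps hs' ps' (Or.inl k)).elim (fun c => o (Or.inr (Or.inr c)))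
      fun c => o (Or.inl ⟨c, trivial⟩)
  · exact o (Or.inr (Or.inl ⟨h.uw.lf j s hs ▸ k.1, trivial⟩))
  · exact o (Or.inr (Or.inr (h.uw.lf j s hs ▸ k.1.1)))

omit ps hs' ps' in
theorem VFrm.vZ_of {v : Vx J} (hv : v ∈ G.L (j - 1) ∨ v ∈ G.L j ∨ (v ∈ G.K ∧ G.f v = j))
    (h1 : v ∉ G.Bt s s') (h2 : v ∉ G.Top s s') : v ∈ (vcell G s s').Z \ G.U (j + 1) := by
  have fs := h.uw.lf j s hs
  constructor
  · rintro ((k | k) | k)
    · exact h1 k
    · exact h2 k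
    · have k' : v ∈ G.S j := fs ▸ k.1
      rcases hv with c | c | c
      exacts [l_not_u' c k'.1.1, k'.1.2 (Or.inl c), k'.2 c.1]
  · intro k
    rcases hv with c | c | c
    exacts [l_not_u' c (h.uw.mono _ _ (by omega) k), c.2 k, (h.k_st c.1 c.2).2 (Or.inr k)]

theorem VFrm.vout_conn (l : G.ρ s ≤ G.ρ s') (hN : G.NoV s s') :
    IsConn G.Γ ((vcell G s s').Z \ G.U (j + 1)) := by
  have hR := h.toRows
  have fs := h.uw.lf j s hs
  set O := (vcell G s s').Z \ G.U (j + 1) with hO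
  have bl : BL G.Γ G.f (j - 1) ⊆ O := fun v hv => ⟨h.vZ hs ps hs' ps' (Or.inl hv),
    fun k => u_not_bl (h.uw.mono _ _ (by omega) k) hv⟩
  have o1 : ∀ v ∈ G.L (j - 1), v ∉ G.Bt s s' → v ∈ O := fun v hv k =>
    h.vZ_of hs (Or.inl hv) k fun c => l_not_u' hv (hR.l_u (fs ▸ c.1))
  have o2 : ∀ v ∈ G.L j, v ∉ G.Top s s' → v ∈ O := fun v hv k =>
    h.vZ_of hs (Or.inr (Or.inl hv)) (fun c => (h.bt_st hs ps hs' ps' c).elim
      (fun c => h.l_nk hv c.1) fun c => l_not_u' c (hR.l_u hv)) k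
  have o3 : ∀ v ∈ G.K, G.f v = j → v ∉ G.Bt s s' → v ∈ O := fun v hv e k =>
    h.vZ_of hs (Or.inr (Or.inr ⟨hv, e⟩)) k fun c => h.l_nk c.1 hv
  have g1 : ∀ v ∈ G.L (j - 1), v ∉ G.Bt s s' → ∃ y ∈ BL G.Γ G.f (j - 1), Conn G.Γ O v y := by
    intro v hv hn
    obtain ⟨b, hb, e⟩ := h.tch _ hv
    exact ⟨b, hb, Conn.step (o1 v hv hn) (bl hb) e⟩
  have oT : ∀ u ∈ G.K, G.f u = j → u ∉ G.T (G.an s) → u ∉ G.T (G.an s') → G.T u ⊆ O := by
    intro u hu e n1 n2 x hx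
    refine o3 x hx.1 ((h.t_f hx).trans e) fun k => ?_
    rcases h.bt_cases hs ps k with c | c | c
    exacts [n1 (t_eq c ▸ (t_eq hx).symm ▸ t_self hu), n2 (t_eq c ▸ (t_eq hx).symm ▸ t_self hu),
      h.l_nk c.1 hx.1]
  have g2 : ∀ v ∈ G.L j, v ∉ G.Top s s' → ∃ y ∈ BL G.Γ G.f (j - 1), Conn G.Γ O v y := by
    intro v hv hn
    have key : ∀ (q : ℤ → Prop) (t p : Vx J), (∀ a b c, q a → q c → a ≤ b → b ≤ c → q b) →
        (∀ i, q i → ¬ (G.ρ s ≤ i ∧ i ≤ G.ρ s')) → q (G.ρ v) → t ∈ G.L j → t ∈ G.Pr →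
        q (G.ρ t) → G.Ft t p → G.an t ≠ G.an s → G.an t ≠ G.an s' → p ∉ G.Bt s s' →
        ∃ y ∈ BL G.Γ G.f (j - 1), Conn G.Γ O v y := by
      intro q t p hq ho qv ht pt qt hp n1 n2 hb
      have sub : {x | x ∈ G.L j ∧ q (G.ρ x)} ⊆ O := fun x hx =>
        o2 x hx.1 fun k => ho _ hx.2 k.2
      have br := h.brg ht pt hp
      have sT : G.T (G.an t) ∪ {t} ⊆ O := by
        rintro x (hx | rfl)
        · have := oT _ hx.2.1 (h.an_v ht pt hx.2.1).2
            (Set.disjoint_left.1 (h.t_dis ht pt hs ps n1) (t_self hx.2.1))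
            (Set.disjoint_left.1 (h.t_dis ht pt hs' ps' n2) (t_self hx.2.1))
          exact this hx
        · exact sub ⟨ht, qt⟩
      obtain ⟨y, hy, c⟩ := g1 _ br.hp hb
      obtain ⟨a, ha, e⟩ := br.tp
      exact ⟨y, hy, ((((hR.seg_conn _ hq v ⟨hv, qv⟩ t ⟨ht, qt⟩).up sub).trans
        ((br.conn t (Or.inr rfl) a ha).up sT)).snoc (sT ha) (o1 _ br.hp hb) e.symm).trans c⟩
    have a1 := (h.feet hs ps).2.2
    have a2 := (h.feet hs' ps').2.2
    have a3 := h.mono' hs ps hs' ps' l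
    by_cases c : G.ρ v < G.ρ s
    · obtain ⟨t, ht, pt, b1, b2⟩ := h.far_lo j (min (G.ρ s) (G.ρ (G.xl (G.an s))))
      have ft := (h.feet ht pt).2.1
      refine key (fun i => i < G.ρ s) t _ (fun _ _ _ _ _ _ _ => by omega) (fun _ _ => by omega) c
        ht pt (by omega) (Or.inr rfl) (fun k => by rw [k] at b2; omega)
        (fun k => by rw [k] at b2; omega) fun k => ?_
      have := h.bt_line hs ps hs' ps' l k (h.l_nk ft)
      omega
    · obtain ⟨t, ht, pt, b1, b2⟩ := h.far_hi j (max (G.ρ s') (G.ρ (G.xr (G.an s'))))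
      have ft := (h.feet ht pt).1
      refine key (fun i => G.ρ s' < i) t _ (fun _ _ _ _ _ _ _ => by omega) (fun _ _ => by omega) ?_
        ht pt (by omega) (Or.inl rfl) (fun k => by rw [k] at b2; omega)
        (fun k => by rw [k] at b2; omega) fun k => ?_
      · by_contra c'
        exact hn ⟨fs ▸ hv, by omega, by omega⟩
      · have := h.bt_line hs ps hs' ps' l k (h.l_nk ft)
        omega
  have g3 : ∀ v ∈ G.K, G.f v = j → v ∉ G.Bt s s' →
      ∃ y ∈ BL G.Γ G.f (j - 1), Conn G.Γ O v y := by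
    intro v hv e hn
    by_cases c : v ∈ G.T (G.an s) ∨ v ∈ G.T (G.an s')
    · have e1 : G.an s = G.an s' := by
        by_contra k
        exact hn (Or.inr ⟨k, c.imp_right Or.inl⟩)
      rw [← e1, or_self] at c
      have ft := (h.feet hs ps).1
      have nb : G.xl (G.an s) ∉ G.Bt s s' := by
        rw [bt_single e1]
        exact fun k => h.l_nk ft (by rw [Set.mem_singleton_iff.1 k]; exact c.2.1)
      obtain ⟨y, hy, c'⟩ := g1 _ ft nb
      refine ⟨y, hy, (((h.loP hs ps c.2.1).2.2.1 v (Or.inl ⟨c, fun k => hn (Or.inl k)⟩) _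
        (Or.inr rfl)).up ?_).trans c'⟩
      rintro x (hx | rfl)
      · exact o3 x hx.1.1 ((h.t_f hx.1).trans (h.an_v hs ps c.2.1).2) (bt_single e1 ▸ hx.2)
      · exact o1 _ ft nb
    · push Not at c
      have hc : G.ch v ∈ G.L j := e ▸ (h.kc v hv).1
      have nt : G.ch v ∉ G.Top s s' := fun k => (hN v hv k).elim c.1 c.2
      obtain ⟨y, hy, c'⟩ := g2 _ hc nt
      obtain ⟨a, ha, ea⟩ := h.ch_nb hv
      have sT := oT v hv e c.1 c.2
      exact ⟨y, hy, ((((h.t_fc v).2 v (t_self hv) a ha).up sT).snoc (sT ha) (o2 _ hc nt)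
        ea.symm).trans c'⟩
  refine isConn_base (h.blc _) bl fun v hv => ?_
  rcases parts G.toFD j v with k | k | k | k | k
  · exact ⟨v, k, Conn.rfl'⟩
  · exact g1 v k fun e => hv.1 (Or.inl (Or.inl e))
  · by_cases c : v ∈ G.K
    · exact g3 v c (hR.st_lev (h.kst v c) k) fun e => hv.1 (Or.inl (Or.inl e))
    have hS : v ∈ G.S j := ⟨k, c⟩
    have h2 : v ∉ G.In s s' := fun e => hv.1 (Or.inr e)
    obtain ⟨z, hz, hz'⟩ : ∃ z ∈ Nb G.Γ (G.Cp j v),
        G.Lf j (G.xr (G.an s)) s z ∨ G.Rg j (G.xl (G.an s')) s' z := by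
      by_contra c'
      rw [VD.In, fs] at h2
      exact h2 ⟨hS, fun z hz => ⟨fun a => c' ⟨z, hz, Or.inl a⟩, fun a => c' ⟨z, hz, Or.inr a⟩⟩⟩
    have out : G.Cp j v ⊆ O := by
      intro y hy
      have yS := cpv_sub hS hy
      refine ⟨?_, fun a => yS.1.2 (Or.inr a)⟩
      rintro ((a | a) | a)
      · exact (h.bt_st hs ps hs' ps' a).elim (fun a => yS.2 a.1) fun a => l_not_u' a yS.1.1
      · exact yS.1.2 (Or.inl (fs ▸ a.1))
      · exact h2 (cl_cp a (fs ▸ Conn.symm hy))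
    obtain ⟨n1, n2⟩ := h.side_out hs ps hs' ps' l hz'
    have kz : z ∈ G.L (j - 1) ∨ z ∈ G.L j ∨ (z ∈ G.K ∧ G.f z = j) := by
      rcases hz' with (a | a | a) | a | a | a
      exacts [Or.inl a.1, Or.inr (Or.inl a.1), Or.inr (Or.inr ⟨a.1, a.2.1⟩), Or.inl a.1,
        Or.inr (Or.inl a.1), Or.inr (Or.inr ⟨a.1, a.2.1⟩)]
    obtain ⟨b, hb, c'⟩ : ∃ y ∈ BL G.Γ G.f (j - 1), Conn G.Γ O z y := by
      rcases kz with a | a | a
      exacts [g1 z a n1, g2 z a n2, g3 z a.1 a.2 n1]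
    obtain ⟨y, hy, e⟩ := hz
    exact ⟨b, hb, (((cpv_conn v v Conn.rfl' y hy).up out).snoc (out hy)
      (h.vZ_of hs kz n1 n2) e.symm).trans c'⟩
  · exact g2 v k fun e => hv.1 (Or.inl (Or.inr e))
  · exact absurd k hv.2

/-- the static cell between two cuts is a disc -/
theorem VFrm.scell (lt : G.ρ s < G.ρ s') (hN : G.NoV s s') :
    SCell G.toFD j s s' (vcell G s s') := by
  have hR := h.toRows
  have l := lt.le
  have hI := h.vcell_I hs ps hs' ps'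
  have oc := h.vout_conn hs ps hs' ps' l hN
  have hX := h.bt_pth hs ps hs' ps' l
  have st := fun v => h.bt_st hs ps hs' ps' (z := v)
  have vZ := fun v => h.vZ hs ps hs' ps' (v := v)
  have nb := fun v z => h.in_nb hs ps hs' ps' hN (v := v) (z := z)
  obtain rfl := h.uw.lf j s hs
  have hY : Pth G.Γ (G.Top s s') (G.ord s s') s s' :=
    (hR.seg_pth hs hs' l).congr fun x hx => ord_old (h.l_nk hx.1)
  have dxy : Disjoint (G.Bt s s') (G.Top s s') := Set.disjoint_left.2 fun v hv k =>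
    (st v hv).elim (fun c => h.l_nk k.1 c.1) fun c => l_not_u' c (hR.l_u k.1)
  have cZ : IsConn G.Γ (vcell G s s').Z := by
    obtain ⟨z, hz, hn, -⟩ := (ray_nb hR hs hs').1
    obtain ⟨b, hb, eb⟩ := hz.1
    have e : (vcell G s s').Z = (vcell G s s').Z \ G.U (G.f s + 1) ∪ G.U (G.f s + 1) :=
      (Set.sdiff_union_of_subset fun v hv => vZ v (Or.inr hv)).symm
    rw [e]
    exact oc.union (h.uw.conn _) ⟨z, h.vZ_of hs (Or.inr (Or.inl hz))
      (fun k => (st z k).elim (fun c => h.l_nk hz c.1) fun c => l_not_u' c (hR.l_u hz)) hn,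
      b, hb, eb⟩
  have t1 : ∀ v ∈ G.L (G.f s - 1), v ∈ Nb G.Γ (vcell G s s').Z := fun v hv =>
    let ⟨b, hb, e⟩ := h.tch _ hv; ⟨b, vZ b (Or.inl hb), e⟩
  have t2 : ∀ v ∈ G.L (G.f s), v ∈ Nb G.Γ (vcell G s s').Z := fun v hv =>
    let ⟨b, hb, e⟩ := hv.1; ⟨b, vZ b (Or.inr hb), e⟩
  have stem : ∀ t ∈ G.L (G.f s), t ∈ G.Pr → ∀ p, G.Ft t p → ∀ A0 : Set (Vx J), IsConn G.Γ A0 →
      (∀ x, x ∈ A0 ↔ (x ∈ G.Bt s s' ∨ x ∈ G.Top s s') ∧ x ∉ {t} ∪ G.T (G.an t) ∪ {p}) →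
      {t} ∪ G.T (G.an t) ∪ {p} ⊆ G.Bt s s' ∪ G.Top s s' →
      G.T (G.an t) ⊆ Nb G.Γ (vcell G s s').Z := by
    intro t ht pt p hp A0 cA hA sP u hu
    obtain ⟨σ, hP⟩ := h.cutP ht pt hp
    have dI : ∀ x ∈ G.In s s', x ∉ G.Bt s s' ∪ G.Top s s' := fun x hx k =>
      (hI ▸ hx : x ∈ DD.I _) (Or.inr k)
    refine path_touch hR.pl hP (A := A0 ∪ G.In s s') ?_ cZ (Set.disjoint_left.2 ?_)
      (Set.disjoint_left.2 ?_) (fun x hx => ?_) (t2 t ht) (t1 p (h.foot ht pt hp).1)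
      (Or.inl (Or.inr hu))
    · refine isConn_base cA Set.subset_union_left ?_
      rintro v (hv | hv)
      · exact ⟨v, hv, Conn.rfl'⟩
      · by_contra c
        refine h.hang ht pt hp hv.1 fun z hz => ?_
        by_contra c'
        push Not at c'
        have m : z ∈ A0 := (hA z).2 ⟨(nb v z hv hz).resolve_left c'.1, by
          rintro ((k | k) | k)
          exacts [c'.2.1 k, c'.2.2.1 k, c'.2.2.2 k]⟩
        obtain ⟨y, hy, e⟩ := hz
        exact c ⟨z, m, ((cpv_conn v v Conn.rfl' y hy).up fun x hx => Or.inr (cl_cp hv hx)).snoc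
          (Or.inr (cl_cp hv hy)) (Or.inl m) e.symm⟩
    · rintro x (hx | hx) k
      exacts [((hA x).1 hx).2 k, dI x hx (sP k)]
    · rintro x hx ((k | k) | k)
      exacts [hx (Or.inl ((hA x).1 k).1), hx (Or.inr k), hx (Or.inl (sP k))]
    · by_cases k : x ∈ {t} ∪ G.T (G.an t) ∪ {p}
      · exact Or.inr k
      · rcases Set.notMem_compl_iff.1 hx with c | c
        exacts [Or.inl (Or.inl ((hA x).2 ⟨c, k⟩)), Or.inl (Or.inr c)]
  have ra := (h.aa _ s hs ps).1.symm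
  have rb := (h.aa _ s' hs' ps').1.symm
  refine ⟨hs, hs', ⟨hX, hY, dxy, ra, rb, cZ, Set.disjoint_left.2 fun v hv k => hv (Or.inl k), ?_,
    ?_, hI ▸ h.in_fin hs ps hs' ps' l hN, h.nj.mono (Set.subset_univ _)⟩, rfl, rfl, rfl,
    fun v hv => ord_old (h.l_nk hv), fun v hv => ?_, oc,
    fun x hx l1 l2 z e => hI ▸ h.top_nb hs ps hs' ps' hN hx l1 l2 e⟩
  · rintro v ⟨z, hz, e⟩
    by_contra k
    rcases h.in_adj hs ps hs' ps' hN (hI ▸ k) e with k1 | k1 | k1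
    exacts [hz (Or.inr k1), hz (Or.inl (Or.inl k1)), hz (Or.inl (Or.inr k1))]
  · rintro v (hv | hv)
    swap
    · exact t2 v hv.1
    have hv : v ∈ G.Bt s s' := hv
    by_cases c : v ∈ G.K
    swap
    · exact t1 v (h.bt_line hs ps hs' ps' l hv c).1
    by_cases e : G.an s = G.an s'
    · rw [bt_single e] at hv
      obtain rfl : v = G.an s := hv
      obtain ⟨z, hz, ez⟩ := (h.loP hs ps c).2.2.2
      have ft := (h.feet hs ps).1
      refine ⟨z, (h.vZ_of hs ?_ ?_ fun k => ?_).1, ez⟩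
      · rcases hz with k | rfl
        exacts [Or.inr (Or.inr ⟨k.1.1, (h.t_f k.1).trans (h.an_v hs ps c).2⟩), Or.inl ft]
      · rw [bt_single e]
        exact ez.ne'
      · rcases hz with k' | rfl
        exacts [h.l_nk k.1 k'.1.1, l_not_u' ft (hR.l_u k.1)]
    have eB := h.bt_eq hs ps hs' ps' l e
    have f1 := (h.feet hs ps).2.1
    have f2 := (h.feet hs' ps').1
    have m := (h.mono hs ps hs' ps' l).resolve_left e
    have dis := h.t_dis hs ps hs' ps' e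
    have b1 : ∀ x ∈ G.T (G.an s), G.ord s s' x < G.ρ (G.xr (G.an s)) := fun x hx => by
      have := (h.kp _ (h.an_v hs ps hx.2.1).1).hi x hx
      rw [ord_lo hx]
      omega
    have b2 : ∀ x ∈ G.T (G.an s'), G.ρ (G.xl (G.an s')) < G.ord s s' x := fun x hx => by
      have := (h.kp _ (h.an_v hs' ps' hx.2.1).1).hi x hx
      rw [ord_hi hx (Set.disjoint_right.1 dis hx)]
      omega
    have un : ∀ {A B : Set (Vx J)} {a b}, IsConn G.Γ A → IsConn G.Γ B → (A.Nonempty → a ∈ A) →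
        b ∈ B → G.Γ.Adj a b → IsConn G.Γ (A ∪ B) := by
      intro A B a b cA cB ha hb e
      rcases A.eq_empty_or_nonempty with rfl | ne
      · rwa [Set.empty_union]
      · exact cA.union cB ⟨a, ha ne, b, hb, e⟩
    have r1 := ord_old (s := s) (s' := s') (h.l_nk f1)
    have r2 := ord_old (s := s) (s' := s') (h.l_nk f2)
    have m1 : G.xr (G.an s) ∈ G.Bt s s' := eB ▸ Or.inl (Or.inr ⟨f1, le_rfl, m⟩)
    have m2 : G.xl (G.an s') ∈ G.Bt s s' := eB ▸ Or.inl (Or.inr ⟨f2, m, le_rfl⟩)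
    have tn : ∀ x ∈ G.Top s s', ∀ t p, p ∈ G.L (G.f s - 1) → x ≠ t →
        x ∉ {t} ∪ G.T (G.an t) ∪ {p} := by
      rintro x hx t p hp n ((k | k) | rfl)
      exacts [n k, h.l_nk hx.1 k.1, l_not_u' hp (hR.l_u hx.1)]
    rcases h.bt_cases hs ps hv with k | k | k
    · refine stem s hs ps _ (Or.inr rfl) ({x | x ∈ G.Bt s s' ∧ G.ρ (G.xr (G.an s)) < G.ord s s' x} ∪
        {x | x ∈ G.L (G.f s) ∧ G.ρ s < G.ρ x ∧ G.ρ x ≤ G.ρ s'}) (un (hX.seg_conn (fun _ hw => hw.1)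
          fun _ hy _ _ _ hw l _ => ⟨hw, lt_trans hy.2 l⟩)
        (hR.seg_conn _ (p := fun i => G.ρ s < i ∧ i ≤ G.ρ s') fun _ _ _ _ _ _ _ => by omega)
        (fun ⟨y, hy⟩ => ⟨hX.hb, lt_of_lt_of_le hy.2 (hX.hi y hy.1)⟩) ⟨hs', lt, le_rfl⟩ rb)
        (fun x => ⟨?_, ?_⟩) ?_ k
      · rintro (a | a)
        · refine ⟨Or.inl a.1, ?_⟩
          rintro ((rfl | b) | rfl)
          exacts [Set.disjoint_left.1 dxy a.1 hY.ha, lt_asymm a.2 (b1 x b), by
            have := a.2; omega]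
        · exact ⟨Or.inr ⟨a.1, a.2.1.le, a.2.2⟩, tn x ⟨a.1, a.2.1.le, a.2.2⟩ _ _ f1
            (by rintro rfl; exact lt_irrefl _ a.2.1)⟩
      · rintro ⟨a | a, b⟩
        · refine Or.inl ⟨a, ?_⟩
          rw [eB] at a
          rcases a with (a | a) | a
          · exact absurd (Or.inl (Or.inr a)) b
          · rw [ord_old (h.l_nk a.1)]
            exact lt_of_le_of_ne a.2.1 fun c => b (Or.inr (hR.inj a.1 f1 c.symm))
          · exact lt_of_le_of_lt m (b2 x a)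
        · exact Or.inr ⟨a.1, lt_of_le_of_ne a.2.1 fun c =>
            b (Or.inl (Or.inl (hR.inj a.1 hs c.symm))), a.2.2⟩
      · rintro x ((rfl | a) | rfl)
        exacts [Or.inr hY.ha, Or.inl (eB ▸ Or.inl (Or.inl a)), Or.inl m1]
    · refine stem s' hs' ps' _ (Or.inl rfl)
        ({x | x ∈ G.Bt s s' ∧ G.ord s s' x < G.ρ (G.xl (G.an s'))} ∪
        {x | x ∈ G.L (G.f s) ∧ G.ρ s ≤ G.ρ x ∧ G.ρ x < G.ρ s'}) (un (hX.seg_conn (fun _ hw => hw.1)
          fun _ _ _ hy _ hw _ l => ⟨hw, lt_trans l hy.2⟩)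
        (hR.seg_conn _ (p := fun i => G.ρ s ≤ i ∧ i < G.ρ s') fun _ _ _ _ _ _ _ => by omega)
        (fun ⟨y, hy⟩ => ⟨hX.ha, lt_of_le_of_lt (hX.lo y hy.1) hy.2⟩) ⟨hs, le_rfl, lt⟩ ra)
        (fun x => ⟨?_, ?_⟩) ?_ k
      · rintro (a | a)
        · refine ⟨Or.inl a.1, ?_⟩
          rintro ((rfl | b) | rfl)
          exacts [Set.disjoint_left.1 dxy a.1 hY.hb, lt_asymm a.2 (b2 x b), by
            have := a.2; omega]
        · exact ⟨Or.inr ⟨a.1, a.2.1, a.2.2.le⟩, tn x ⟨a.1, a.2.1, a.2.2.le⟩ _ _ f2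
            (by rintro rfl; exact lt_irrefl _ a.2.2)⟩
      · rintro ⟨a | a, b⟩
        · refine Or.inl ⟨a, ?_⟩
          rw [eB] at a
          rcases a with (a | a) | a
          · exact lt_of_lt_of_le (b1 x a) m
          · rw [ord_old (h.l_nk a.1)]
            exact lt_of_le_of_ne a.2.2 fun c => b (Or.inr (hR.inj a.1 f2 c))
          · exact absurd (Or.inl (Or.inr a)) b
        · exact Or.inr ⟨a.1, a.2.1, lt_of_le_of_ne a.2.2 fun c =>
            b (Or.inl (Or.inl (hR.inj a.1 hs' c)))⟩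
      · rintro x ((rfl | a) | rfl)
        exacts [Or.inr hY.hb, Or.inl (eB ▸ Or.inr a), Or.inl m2]
    · exact absurd c (h.l_nk k.1)
  · rintro (k | k)
    · rcases h.vlow hs ps hs' ps' (hI ▸ hv) with c | c
      exacts [c.2 (Or.inr k), l_not_u' c (h.uw.mono _ _ (by omega) k)]
    · rcases h.vlow hs ps hs' ps' (hI ▸ hv) with c | c
      exacts [c.2 (Or.inl k), l_not_u' c (hR.l_u k)]

end

end Pool.Agent.P.MP_08fd93_co.FZ
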