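import Pool.Agent.P.MP_08fd93_co.FE.LZ4

/-! The frame of a long second root: a system of pins with one special top edge. -/

set_option autoImplicit false

namespace Pool.Agent.P.MP_08fd93_co.FZ

open OV PkPrtP FB FN FK FE

variable {J : Type} {G : VD J} {v z l r : Vx J} {P Src Snk : Set (Vx J)} {pL pR : Prop}
  {φ : Vx J → Vx J} {A A' : Set (Sym2 (Vx J))}

/-- The cells over the edge `e` whose unit ends at the right end of `e`. -/
def Dy1 (G : VD J) (e : Vx J) (A : Set (Sym2 (Vx J))) : Prop :=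
  ∀ M d u, VC G M d → M.us = {u} → (FL G).Cov u e → u.s' = G.nx e →
    (u.x = u.s → ∃ X' Q, OutX G.Γ d A X' Q fun c B => c d.a' = c d.b' ∨ d.b' ∈ B) ∧
    (u.x ≠ u.s → ∃ X' Q, OutX G.Γ d A X' Q fun c B => c u.x = c d.a' ∨ u.x ∈ B ∨ d.a' ∈ B)

/-- The special top edge: free, paid by its right end, or a sink before a pin. -/
def Tb2 (G : VD J) (φ : Vx J → Vx J) (P Src Snk : Set (Vx J)) (e : Vx J)
    (A : Set (Sym2 (Vx J))) : Prop :=
  (e ∈ P ∧ St1 G e A fun _ _ => True) ∨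
    (e ∈ P ∧ e ∉ Snk ∧ G.nx e ∈ Src ∧ St1 G e A fun _ B => G.nx e ∈ B) ∨
    (e ∈ Snk ∧ G.nx e ∈ P ∧ (∃ n, φ^[n] e ∈ P) ∧ Dy1 G e A)

/-- A system of pins `P` with sources and sinks; the translates of `r` are left out. -/
structure ZT (G : VD J) (φ : Vx J → Vx J) (z r : Vx J) (P Src Snk : Set (Vx J)) (pL pR : Prop) :
    Prop where
  ig : ∀ a, ∀ x ∈ P, tr a x ∈ P
  is : ∀ a, ∀ x ∈ Src, tr a x ∈ Src
  ik : ∀ a, ∀ x ∈ Snk, tr a x ∈ Snk
  la : P ⊆ G.LA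
  sg : Src ⊆ P
  dis : ∀ x ∈ Src, x ∉ Snk
  exs : ∀ j, ∃ g ∈ G.L j, g ∈ Src
  exk : ∀ j, ∃ g ∈ G.L j, g ∈ Snk
  uni : ∀ j, ∀ s ∈ G.L j, ∀ t ∈ G.L j, s ∈ Snk → t ∈ Snk → s.1 = t.1
  fl : pL ∨ pR
  z1 : pv (FL G) z ∈ Src
  z2 : z ∈ P
  z3 : z ∉ Snk
  root : ∀ g ∈ P, ∀ g' ∈ P, φ g = pv (FL G) z → φ g' = pv (FL G) z → g = g'
  top : ∀ e ∈ G.LA, e ∈ G.Pr → G.nx e ∈ G.Pr → e.1 ≠ r.1 → SS2 G P pL pR e = ∅ ∨
    ((SS2 G P pL pR e).Subsingleton ∧ (e ∈ Snk ∨ (e ∈ P ∧ e ∉ Src))) ∨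
    (e ∈ Snk ∧ e ∈ P ∧ ∃ f f', SS2 G P pL pR e ⊆ {f, f'})

theorem ZT.col [Fintype J] (h : ZR G v z l r) (hφ : PH (FL G) G.Pr φ)
    (H : ZT G φ z r P Src Snk pL pR) (sp : Tb2 G φ P Src Snk r (SS2 G P pL pR r)) :
    ∃ c, Col1 G.Γ ∅ c := by
  classical
  have hF := h.sw.lay
  have R := h.rows
  have V := h.sw.vf
  have zl := R.la h.z0.1
  obtain ⟨y1, -, y3⟩ := pv_mem hF h.z0.1
  obtain ⟨W, rk, N, hw⟩ := pw_ex (fun a x k => (hF.la_tr a x).2 k) H.ig hφ.eqv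
  have hE : EOk (FL G) ⟨Src, Snk, Snk, ∅, P ∪ W, ∅⟩ := by
    refine ⟨H.is, H.ik, H.ik, fun _ _ k => k, fun a x k => k.imp (H.ig a x) (hw.inv a x).2,
      fun _ _ k => k, H.dis, fun _ k => k, fun _ k => k.elim, H.exk, fun j x hx y hy a b l => ?_⟩
    obtain ⟨k, -, e⟩ := same_cls hF hx hy (H.uni j x hx y hy a b)
    obtain ⟨g, hg, m⟩ := H.exs j
    obtain ⟨t, t1, t2⟩ := window hF hg ((FL G).ρ x)
    have m1 := (hF.w_mem t hg).1
    have m2 := H.is (t • (FL G).w) g m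
    have n2 := hF.n2 j
    refine ⟨_, m1, m2, lt_of_le_of_ne t1 fun q => H.dis _ m2 (hF.inj hx m1 q ▸ a), ?_⟩
    rcases le_or_gt k 0 with c | c <;> nlinarith
  obtain ⟨p, hR, pl, kc, pay⟩ := h.plan hE (if pL then r else l)
  let En : Set (Vx J) := {x | ∃ g ∈ P, x = g ∨ x = G.nx g}
  let Vs : Set (Vx J) :=
    {x | ∃ n : ℕ, ∃ y ∈ En, (∀ i < n, (ftL G)^[i] y ∈ G.Pr) ∧ x = (ftL G)^[n] y}
  have ie : ∀ a, ∀ x ∈ En, tr a x ∈ En := by
    rintro a x ⟨g, hg, e⟩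
    refine ⟨_, H.ig a g hg, ?_⟩
    rw [R.nx_tr a (H.la hg)]
    exact e.imp (congrArg _) (congrArg _)
  have itr : ∀ a y (n : ℕ), (ftL G)^[n] (tr a y) = tr a ((ftL G)^[n] y) := fun a y n =>
    (Function.Semiconj.iterate_right (f := tr a) (ga := ftL G) (gb := ftL G) (fun x => by
      rw [ftL, ftL, V.atr, (V.xtr a _).1]) n y).symm
  have ila : ∀ y ∈ G.LA, ∀ n : ℕ, (∀ i < n, (ftL G)^[i] y ∈ G.Pr) → (ftL G)^[n] y ∈ G.LA := by
    intro y hy n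
    induction n with
    | zero => exact fun _ => hy
    | succ n ih =>
      intro k
      rw [Function.iterate_succ_apply']
      exact hF.la (hF.anL _ _ (ih fun i l => k i (by omega)) (k n (by omega)))
  have le : ∀ x ∈ En, x ∈ G.LA := by
    rintro x ⟨g, hg, rfl | rfl⟩
    exacts [H.la hg, nx_la hF (H.la hg)]
  have iv : ∀ a, ∀ x ∈ Vs, tr a x ∈ Vs := by
    rintro a x ⟨n, y, hy, k, rfl⟩
    exact ⟨n, _, ie a y hy, fun i l => by rw [itr]; exact V.ptr a _ (k i l), (itr a y n).symm⟩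
  have np : ∀ y ∈ G.LA, y ∉ G.Pr → ∃ a, y = tr a z := fun y _ n =>
    ⟨_, orb_eq (not_not.1 fun c => n ((h.eP y).2 c))⟩
  have np' : ∀ y ∈ G.LA, G.nx y ∉ G.Pr → ∃ a, y = tr a (pv (FL G) z) := fun y hy n => by
    obtain ⟨a, e⟩ := np _ (nx_la hF hy) n
    exact ⟨a, by rw [← pv_tr hF a zl, ← e]; exact (pv_nx hF (j := G.f y) hy).symm⟩
  have hp : PS (FL G) (XL G) G.Pr p (PQ2 G (P ∪ W) Vs pL pR) := by
    refine ⟨pl, inv_iff hE.ipin, inv_iff iv, fun _ _ => Iff.rfl, fun _ _ k => k,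
      fun y hy m => Or.inr (hR.up hF hE hy (fun k => m (Or.inl (H.sg k))) m), fun _ _ k => k.elim,
      ?_, fun j => ?_, fun y hy k => st2.2 (Or.inl (Or.inl ?_))⟩
    · rintro x ⟨_ | n, y, hy, k, rfl⟩ -
      · obtain ⟨g, hg, e⟩ := hy
        exact Or.inl ⟨g, Or.inl hg, H.la hg, e⟩
      · exact Or.inr (Or.inl ⟨_, ⟨n, y, hy, fun i l => k i (by omega), rfl⟩,
          ila y (le y hy) n fun i l => k i (by omega), k n (by omega),
          (Function.iterate_succ_apply' _ _ _).symm⟩)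
    · obtain ⟨g, hg, m⟩ := H.exs j
      rcases h.sw.iso g (R.la hg) with c | c
      exacts [⟨g, hg, c, 0, g, ⟨g, H.sg m, Or.inl rfl⟩, fun _ l => absurd l (Nat.not_lt_zero _), rfl⟩,
        ⟨_, (R.nx_mem hg).1, c, 0, _, ⟨g, H.sg m, Or.inr rfl⟩,
          fun _ l => absurd l (Nat.not_lt_zero _), rfl⟩]
    · rcases k with k | k
      · obtain ⟨a, rfl⟩ := np y hy k
        exact H.ig a _ H.z2
      · obtain ⟨a, rfl⟩ := np' y hy k
        exact H.ig a _ (H.sg H.z1)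
  have st : StC2 G p Vs pL pR := by
    refine ⟨fun k hk => ?_, kc, fun e i => ?_, fun e i => ?_⟩
    · obtain ⟨n, k1, k2⟩ := h.kid
      have k3 : ∀ i < n, (ftL G)^[i] (pv (FL G) z) ∈ G.Pr := fun i l => k1 i l.le
      refine ⟨tr (k.2 - (G.an ((ftL G)^[n] (pv (FL G) z))).2) ((ftL G)^[n] (pv (FL G) z)),
        (hF.la_tr _ _).2 (ila _ (hF.la y1) n k3), V.ptr _ _ (k1 n le_rfl),
        iv _ _ ⟨n, _, ⟨_, H.sg H.z1, Or.inl rfl⟩, k3, rfl⟩, ?_⟩
      rw [V.atr]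
      exact (orb_eq (((h.eK k).1 hk).trans ((h.eK _).1 k2).symm)).symm
    · by_cases c : pL
      · obtain ⟨a, rfl, e⟩ := h.isR i
        rw [if_pos c] at pay
        exact Or.inr (Or.inr (Or.inl (e ▸ pay a)))
      · exact Or.inl (H.fl.resolve_left c)
    · by_cases c : pL
      · exact Or.inl c
      · obtain ⟨a, rfl, e⟩ := h.isL i
        rw [if_neg c] at pay
        exact Or.inr (Or.inr (Or.inl (e ▸ pay a)))
  have hv : VisZ G (P ∪ W) pL pR := fun k hk => by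
    obtain ⟨a, -, e⟩ := h.k_tr hk
    rw [e]
    exact ⟨Or.inr (Or.inl (H.ig a _ H.z2)), Or.inr ⟨_, Or.inl (H.ig a _ (H.sg H.z1)),
      (hF.la_tr a _).2 (hF.la y1), (hF.nx_tr a y1).trans (congrArg _ y3)⟩⟩
  have ss : ∀ e ∈ G.LA, ∀ f ∈ SS2 G (P ∪ W) pL pR e, f ∈ SS2 G P pL pR e ∨
      ∃ g ∈ W, φ g = e ∧ f = s(g, G.nx g) := by
    rintro e he f ⟨pe, m, ⟨g, g1 | g1, g2, rfl⟩ | k⟩
    exacts [Or.inl ⟨pe, m, Or.inl ⟨g, g1, g2, rfl⟩⟩,
      Or.inr ⟨g, g1, (h.sw.und_iff hφ he pe g2).1 m, rfl⟩, Or.inl ⟨pe, m, Or.inr k⟩]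
  have nw : ∀ e ∈ G.LA, e ∉ W → SS2 G (P ∪ W) pL pR e ⊆ SS2 G P pL pR e := fun e he n f m =>
    (ss e he f m).resolve_right fun ⟨g, a, b, _⟩ => n (b ▸ hw.up g a)
  have pd : ∀ e ∈ G.LA, e ∈ Snk ∨ (e ∈ P ∧ e ∉ Src) → p.Dn (FL G) e := fun e he k =>
    Or.inr (k.elim (hR.snk_down hF hE he) fun k => hR.down hF he k.2 (Or.inl k.1))
  have t2 : ∀ e ∈ G.LA, e ∈ Snk → e ∈ P ∪ W → (∃ f f', SS2 G (P ∪ W) pL pR e ⊆ {f, f'}) →
      ∃ a, Sp1 G p (PQ2 G (P ∪ W) Vs pL pR) (tr a e) := fun e he s m two =>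
    have a := hR.snk hF hE he s
    have b := hR.snk_dn hF hE he s
    ⟨0, (tr_zero e).symm ▸ h.sw.sp1_st hp (st2.2 (Or.inl m)) fun M d hd c k =>
      c.eb hF hd.hM hd.mc k two (Or.inr ⟨a.1, b.1.2 (Or.inl m), a.2, b.2.2 (Or.inl m)⟩)⟩
  have wn : ∀ e ∈ W, ∀ n : ℕ, φ^[n] e ∈ W := fun e he n => by
    induction n with
    | zero => exact he
    | succ n ih =>
      rw [Function.iterate_succ_apply']
      exact hw.up _ ih
  have dn : ∀ y ∈ G.LA, y ∉ P ∪ W → (SS2 G (P ∪ W) pL pR y).Nonempty → p.Dn (FL G) y := by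
    rintro y hy n ⟨f, m⟩
    have m' := nw y hy (fun k => n (Or.inr k)) m
    have pn : G.nx y ∈ G.Pr := by
      by_contra c
      obtain ⟨a, rfl⟩ := np' y hy c
      exact n (Or.inl (H.ig a _ (H.sg H.z1)))
    by_cases c : y.1 = r.1
    · rw [orb_eq c] at n hy ⊢
      rcases sp with k | k | k
      exacts [absurd (Or.inl (H.ig _ _ k.1)) n, absurd (Or.inl (H.ig _ _ k.1)) n,
        pd _ hy (Or.inl (H.ik _ _ k.1))]
    rcases H.top y hy m.1 pn c with k | k | k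
    exacts [(k ▸ m').elim, pd y hy k.2, absurd (Or.inl k.2.1) n]
  have he' := R.la h.hr.1
  have rs : Sp1 G p (PQ2 G (P ∪ W) Vs pL pR) r := by
    have sub := nw r he' fun q => by
      rcases sp with k | k | ⟨-, -, ⟨n, k⟩, -⟩
      exacts [hw.ng _ q k.1, hw.ng _ q k.1, hw.ng _ (wn _ q n) k]
    rcases sp with k | k | k
    · refine h.sw.sp1_st hp (st2.2 (Or.inl (Or.inl k.1))) fun M d hd c _ => ?_
      obtain ⟨X', Q, o⟩ := k.2 M d hd c
      exact sl_true (o.mono sub) (Set.empty_subset _)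
    · refine h.sw.sp1_st hp (st2.2 (Or.inl (Or.inl k.1))) fun M d hd c _ => ?_
      obtain ⟨X', Q, o⟩ := k.2.2.2 M d hd c
      have na := as_src hF hE (nx_la hF he') k.2.2.1
      exact ⟨X', Q, _, o.mono sub, Set.empty_subset _, fun _ σ c' hc _ =>
        Or.inl ⟨Tv (FL G) r, c.us ▸ rfl, rfl, fun m => k.2.1 (hR.mono_snk hE he' m.symm),
          Or.inr ⟨rfl, hR.lt hF (nx_la hF he') na⟩, (hR.dL _ he' na).2 (Or.inl (Or.inl k.1))⟩⟩
    intro M d u hd hu o c _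
    have mu : u ∈ M.us := hu ▸ rfl
    obtain ⟨vu, e1, e2⟩ := one_ends hF hd.hM hu
    have ea : d.a' = u.s := hd.mc.ea'.trans e1.symm
    have eb : d.b' = u.s' := hd.mc.eb'.trans e2.symm
    have os := o.resolve_right fun k => k.2
    have es : u.s' = G.nx r := by
      obtain ⟨n1, n2, -⟩ := hF.nx_mem c.1
      have c1 := c.2.1
      have c2 := c.2.2
      by_contra ne
      rcases cov_mem hF vu (z := (FL G).nx r) ⟨n1, by omega, lt_of_le_of_ne (by omega)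
        fun q => ne (hF.inj vu.hs' n1 q.symm)⟩ with q | q
      · rw [← q] at c1
        omega
      · exact os.1 _ ⟨0, _, ⟨_, k.2.1, Or.inl rfl⟩, fun _ l => absurd l (Nat.not_lt_zero _), rfl⟩
          n1 q
    obtain ⟨k1, k2⟩ := k.2.2.2 M d u hd hu c es
    have mem : (∀ y, (FL G).Cov u y → (SS2 G (P ∪ W) pL pR y).Nonempty → y = r) →
        (PQ2 G (P ∪ W) Vs pL pR).SU (FL G) M ⊆ SS2 G P pL pR r := by
      rintro one f ⟨t, ht, y, m, k⟩
      rw [hu] at ht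
      subst ht
      exact sub (one y m ⟨f, k⟩ ▸ k)
    have sk := hR.snk hF hE he' k.1
    by_cases n : u.x = u.s
    · have one : ∀ y, (FL G).Cov u y → y = u.s := fun y c => hF.tv_cov vu.hs (hF.eq_tv vu n ▸ c)
      obtain ⟨X', Q, O⟩ := k1 n
      refine ⟨X', Q, _, O.mono (mem fun y m _ => (one y m).trans (one r c).symm),
        Set.empty_subset _, fun _ σ c' hc _ => ?_⟩
      obtain ⟨c1, c2, -⟩ := hc u mu
      rw [ea, eb]
      by_cases m : p.c u.s.1 = p.c u.s'.1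
      · exact Or.inl (congrArg σ (c1.trans (m.trans c2.symm)))
      · exact Or.inr (Or.inl ⟨u, mu, n, m, Or.inr ⟨rfl, es ▸ sk.2⟩,
          es ▸ (hR.snk_dn hF hE he' k.1).2.2 (Or.inr id)⟩)
    · have pt := hp.pt hF os n
      have db := fun y (m : (FL G).Cov u y) =>
        hp.pl.up_dn hF (hF.la m.1) (hp.up y (hF.la m.1) (os.2 n y m))
      obtain ⟨X', Q, O⟩ := k2 n
      refine ⟨X', Q, _, O.mono (mem fun y m s => chain_uni hF pt m c
        (db y m (dn y (hF.la m.1) (os.2 n y m) s)) sk), Set.empty_subset _, fun _ σ c' hc _ => ?_⟩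
      obtain ⟨c1, -, c3⟩ := hc u mu
      rw [ea]
      by_cases m : p.cx u = p.c u.s.1
      · exact Or.inl (congrArg σ ((c3 n).trans (m.trans c1.symm)))
      · exact Or.inr (Or.inr (Or.inr (Or.inl
          ⟨u, mu, n, Or.inl ⟨Or.inl ⟨rfl, (chain_dbl hF vu pt c sk).1⟩, m⟩⟩)))
  refine h.sw.master hp st hv hφ (fun y hy => ?_) (fun e he pe pn => ?_) fun e he pe pn => ?_
  · induction hn : rk y using Nat.strong_induction_on generalizing y with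
    | _ n ih =>
      by_cases k : y ∈ P ∪ W
      · exact ⟨0, st2.2 (Or.inl k)⟩
      · obtain ⟨m, hm⟩ := ih _ (hn ▸ hw.lt y hy (fun g => k (Or.inl g)) fun g => k (Or.inr g)) _
          (hφ.la hF hy) rfl
        exact ⟨m + 1, hm⟩
  · by_cases er : e.1 = r.1
    · exact Or.inr ⟨r.2 - e.2, orb_eq er.symm ▸ rs⟩
    by_cases ew : e ∈ W
    · obtain ⟨w, w1, w2⟩ := hw.dn e ew
      have one : ∀ f ∈ SS2 G (P ∪ W) pL pR e, f ∈ SS2 G P pL pR e ∨ f = s(w, G.nx w) :=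
        fun f m => (ss e he f m).imp_right fun ⟨g, a, b, c⟩ => hw.inj g a w w1 (b.trans w2.symm) ▸ c
      have nP := hw.ng e ew
      rcases H.top e he pe pn er with k | k | k
      · rw [k] at one
        exact Or.inl ⟨fun a ha b hb => ((one a ha).resolve_left id).trans
          ((one b hb).resolve_left id).symm,
          fun _ => ⟨Or.inr (hR.down hF he (fun s => nP (H.sg s)) (Or.inr ew)), id⟩⟩
      · refine Or.inr (t2 e he (k.2.resolve_right fun q => nP q.1) (Or.inr ew) ?_)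
        rcases k.1.eq_empty_or_singleton with q | ⟨a, q⟩ <;> rw [q] at one
        exacts [⟨_, s(w, G.nx w), fun f m => Or.inl ((one f m).resolve_left id)⟩, ⟨a, _, one⟩]
      · exact absurd k.2.1 nP
    have sub := nw e he ew
    rcases H.top e he pe pn er with k | k | k
    · rw [k] at sub
      exact Or.inl ⟨fun _ m => (sub m).elim, fun ⟨_, m⟩ => (sub m).elim⟩
    · exact Or.inl ⟨k.1.anti sub, fun _ => ⟨pd e he k.2, id⟩⟩
    · obtain ⟨f, f', q⟩ := k.2.2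
      exact Or.inr (t2 e he k.1 (Or.inl k.2.1) ⟨f, f', sub.trans q⟩)
  · obtain ⟨a, rfl⟩ := np' e he pn
    refine ⟨-a, ?_⟩
    rw [tr_neg]
    have yl := hF.la y1
    have yp : pv (FL G) z ∈ G.Pr := (hF.p_tr a _).1 pe
    have c1 : p.c z.1 ≠ p.c (pv (FL G) z).1 := fun k =>
      H.dis _ H.z1 (hR.mono_snk hE yl (y3.symm ▸ k))
    refine h.sw.sp2_da (fun f m f' m' => ?_) ?_
    · have key : ∀ f ∈ SS2 G (P ∪ W) pL pR (pv (FL G) z), ∃ g ∈ P, φ g = pv (FL G) z ∧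
          f = s(g, G.nx g) := fun f m => by
        rcases (h.sw.ss_iff hφ yl yp).1 (nw _ yl (fun q => hw.ng _ q (H.sg H.z1)) m) with
          ⟨g, g1, -, g2⟩ | ⟨-, i, -⟩ | ⟨-, i, -⟩
        · exact ⟨g, g1, g2⟩
        · obtain ⟨b, q, -⟩ := h.isL i
          exact (FR.odd_orb R ((R.uw.lf _ _ h.hl.1).trans (by rw [R.uw.lf _ _ y1]; rfl))
            (by rw [q]; rfl)).elim
        · obtain ⟨b, q, -⟩ := h.isR i
          exact (FR.odd_orb R ((R.uw.lf _ _ h.hr.1).trans (by rw [R.uw.lf _ _ y1]; rfl))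
            (by rw [q]; rfl)).elim
      obtain ⟨g, g1, g2, rfl⟩ := key f m
      obtain ⟨g', g3, g4, rfl⟩ := key f' m'
      rw [H.root g g1 g' g3 g2 g4]
    · unfold DAp
      rw [y3]
      refine ⟨col3 _ _ _ (by rw [hR.cl _ yl, hR.cl _ zl, hF.lf _ _ y1, hF.lf _ _ h.z0.1])
        (by rw [hR.cl _ zl, hR.cl _ (nx_la hF zl), f_nx hF]) c1
        fun k => H.z3 (hR.mono_snk hE zl k), c1, ?_⟩
      by_cases k : z ∈ AS (FL G) Src Snk
      exacts [⟨Or.inl (hR.oR _ zl k), (hR.dR _ zl k).2 (Or.inl (Or.inl H.z2))⟩,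
        ⟨Or.inr (hR.lt hF zl k), y3 ▸ (hR.dL _ yl (y3.symm ▸ k)).2 (Or.inl (Or.inl (H.sg H.z1)))⟩]

end Pool.Agent.P.MP_08fd93_co.FZ
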