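import Pool.Agent.P.MP_08fd93_co.FZ.W1
import Pool.Agent.P.MP_08fd93_co.FZ.U1

/-! The frame of a long second root when the row zero lies under one edge: the flows. -/

set_option autoImplicit false

namespace Pool.Agent.P.MP_08fd93_co.FZ

open OV FB FN FK FE FA

variable {J : Type} {G : VD J} {v z l r : Vx J} {pL pR : Prop} {φ : Vx J → Vx J} {b : ℤ × ℤ}

theorem zt_ex (H : LB (FL G) (XL G) G.Pr φ b) {m : ℕ} (hq : G.η b = (m + 2 : ℕ))
    (h : ZR G v z l r) (all : ∀ g ∈ G.L 0, (φ g).1 = r.1) {s0 t0 : Vx J} {β : Prop}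
    (hs : s0 ∈ G.L 1) (ht : t0 ∈ G.L 1) (st0 : s0.1 ≠ t0.1)
    (hb : β → s0.1 ≠ r.1 ∧ (φ^[m + 1] r).1 ≠ (pv (FL G) z).1) (fl : pL ∨ pR)
    (hl : pL → t0.1 = l.1) :
    ∃ P Src Snk, ZT G φ z r P Src Snk pL pR ∧ s0 ∈ Src ∧ t0 ∈ Snk ∧ (β → r ∈ P) ∧
      (∀ x ∈ G.L 1, x ∈ Snk → x.1 = t0.1) ∧ ∀ g ∈ G.L 0, g ∈ P →
        g.1 = (pv (FL G) z).1 ∨ g.1 = z.1 ∨ (β ∧ g.1 = (φ^[m + 1] r).1) := by
  classical
  have hF := H.lay
  have hφ := H.ph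
  have R := h.rows
  obtain ⟨y0, -, y3⟩ := pv_mem hF h.z0.1
  set y := pv (FL G) z with hy
  have top : ∀ x ∈ G.L 0, tr b x ∈ G.L (m + 1 + 1 : ℕ) := fun x hx => by
    have := (R.uw.ltr b _ _).2 hx
    rwa [zero_add, hq] at this
  have lu : ∀ {k k' : ℕ} {x x' : Vx J}, x ∈ G.L (k + 1 : ℕ) → x' ∈ G.L (k' + 1 : ℕ) → k < m + 2 →
      k' < m + 2 → x.1 = x'.1 → k = k' := fun a a' c c' e => lev_uni H hq a a' c c' e
  have nl : ∀ k : ℕ, φ^[k] r ∈ G.L (k + 1 : ℕ) := fun k => by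
    induction k with
    | zero => exact h.hr.1
    | succ k ih =>
      rw [Function.iterate_succ_apply']
      exact H.up ih
  obtain ⟨s, e0, hs'⟩ := FL.seq_ex (fun k x => x ∈ G.L (k + 1 : ℕ) ∧ (β → x.1 ≠ (φ^[k] r).1) ∧
      (k = m + 1 → x.1 = y.1)) (fun x x' => x'.1 ≠ (φ x).1 ∨ x'.1 = y.1) s0
    ⟨hs, fun c => (hb c).1, fun c => absurd c (by omega)⟩ fun k x _ => by
      by_cases c : k = m
      · subst c
        exact ⟨_, ⟨top y y0, fun c => (hb c).2.symm, fun _ => rfl⟩, Or.inr rfl⟩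
      · obtain ⟨x', a, a1, a2⟩ := H.off (k + 1 + 1 : ℕ) (φ x) (φ^[k + 1] r)
        exact ⟨x', ⟨a, fun _ => a2, fun e => absurd e (by omega)⟩, Or.inl a1⟩
  have sl : ∀ k, s k ∈ G.L (k + 1 : ℕ) := fun k => (hs' k).1.1
  obtain ⟨τ, τ0, τ1, τ2⟩ := H.off (m + 1 + 1 : ℕ) y z
  obtain ⟨t, t00, tl, ts, tz, tf⟩ : ∃ t : ℕ → Vx J, t 0 = t0 ∧
      (∀ k < m + 2, t k ∈ G.L (k + 1 : ℕ)) ∧ (∀ k, (s k).1 ≠ (t k).1) ∧ (∀ k, (t k).1 ≠ z.1) ∧
      ∀ k, (φ (s k)).1 = (t (k + 1)).1 ∨ (φ (s k)).1 = y.1 := by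
    have sy : ∀ k, (φ (s k)).1 = (s (k + 1)).1 → (s (k + 1)).1 = y.1 := fun k c =>
      (hs' k).2.resolve_left fun n => n c.symm
    refine ⟨fun k => Nat.casesOn k t0 fun k => if (φ (s k)).1 = (s (k + 1)).1 then τ else φ (s k),
      rfl, ?_, ?_, ?_, fun k => ?_⟩
    · rintro (_ | k) a
      · exact ht
      show ite _ _ _ ∈ _
      split_ifs with c
      · rwa [lu (sl (k + 1)) (top y y0) a (by omega) (sy k c)]
      · exact H.up (sl k)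
    · rintro (_ | k)
      · rwa [e0]
      show _ ≠ (ite _ _ _ : Vx J).1
      split_ifs with c
      exacts [sy k c ▸ τ1.symm, fun e => c e.symm]
    · rintro (_ | k)
      · exact (h.eP _).1 (h.pr ht odd_one)
      show (ite _ _ _ : Vx J).1 ≠ _
      split_ifs with c
      exacts [τ2, (h.eP _).1 (hφ.und _ (R.la (sl k))).2.1]
    · show _ = (ite _ _ _ : Vx J).1 ∨ _
      split_ifs with c
      exacts [Or.inr (c.trans (sy k c)), Or.inl rfl]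
  have la : ∀ {x x' : Vx J} {j : ℤ}, x' ∈ G.L j → x.1 = x'.1 → x ∈ G.LA := fun a e =>
    orb_eq e ▸ (hF.la_tr _ _).2 (R.la a)
  have bk : ∀ {j : ℤ}, ∃ k < m + 2, ∀ x ∈ G.L j, ∀ {k' : ℕ} {x' : Vx J}, x' ∈ G.L (k' + 1 : ℕ) →
      k' < m + 2 → x.1 = x'.1 → k = k' := fun {j} => by
    obtain ⟨k, c, a, e⟩ := lev_ex H hq j
    refine ⟨k, c, fun x hx k' x' hx' c' e' => lu (x := tr (-a) x) ?_ hx' c c' e'⟩
    have := (R.uw.ltr (-a) _ _).2 hx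
    rwa [map_neg, ← e, add_neg_cancel_right] at this
  have mv : ∀ σ : ℕ → Vx J, (∀ k < m + 2, σ k ∈ G.L (k + 1 : ℕ)) → ∀ j, ∃ g ∈ G.L j,
      ∃ k < m + 2, g.1 = (σ k).1 := fun σ hσ j => by
    obtain ⟨k, c, a, e⟩ := lev_ex H hq j
    exact ⟨tr a (σ k), e ▸ (R.uw.ltr _ _ _).2 (hσ k c), k, c, rfl⟩
  let P : Set (Vx J) := {x | (∃ k < m + 2, x.1 = (s k).1) ∨ x.1 = z.1 ∨
    (β ∧ ∃ k < m + 2, x.1 = (φ^[k] r).1)}
  have pla : P ⊆ G.LA := by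
    rintro x (⟨k, -, e⟩ | e | ⟨-, k, -, e⟩)
    exacts [la (sl k) e, la h.z0.1 e, la (nl k) e]
  have r0 : ∀ x x', x' ∈ G.L (m + 1 + 1 : ℕ) → x.1 = x'.1 → (φ x).1 = r.1 := fun x x' a e => by
    have := (R.uw.ltr (-b) _ _).2 a
    rw [map_neg, hq, add_neg_cancel] at this
    exact (hφ.fst (la a e) (y' := tr (-b) x') e).trans (all _ this)
  have cls : ∀ g ∈ P, (φ g).1 = r.1 ∨ ∃ k < m + 1, g.1 = (s k).1 ∨ (β ∧ g.1 = (φ^[k] r).1) := by
    rintro g (⟨k, a, e⟩ | e | ⟨c, k, a, e⟩)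
    · by_cases q : k = m + 1
      exacts [Or.inl (r0 g _ (q ▸ sl k) e), Or.inr ⟨k, by omega, Or.inl e⟩]
    · exact Or.inl (r0 g _ (top z h.z0.1) e)
    · by_cases q : k = m + 1
      exacts [Or.inl (r0 g _ (q ▸ nl k) e), Or.inr ⟨k, by omega, Or.inr ⟨c, e⟩⟩]
  have uq : ∀ σ : ℕ → Vx J, (∀ k, σ k ∈ G.L (k + 1 : ℕ)) → ∀ g g' k k', k < m + 1 → k' < m + 1 →
      g.1 = (σ k).1 → g'.1 = (σ k').1 → φ g = φ g' → g = g' := fun σ hσ g g' k k' a a' e e' c => by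
    have := lu (H.up (hσ k)) (H.up (hσ k')) (by omega) (by omega)
      ((hφ.fst (la (hσ k) e) e).symm.trans (c ▸ hφ.fst (la (hσ k') e') e'))
    obtain rfl : k = k' := by omega
    exact hφ.inj1 (la (hσ k) e) (e.trans e'.symm) c
  have nx : ∀ g k, g.1 = (φ^[k] r).1 → (φ g).1 = (φ^[k + 1] r).1 := fun g k e => by
    rw [Function.iterate_succ_apply']
    exact hφ.fst (la (nl k) e) e
  refine ⟨P, {x | ∃ k < m + 2, x.1 = (s k).1}, {x | ∃ k < m + 2, x.1 = (t k).1},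
    ⟨fun _ _ k => k, fun _ _ k => k, fun _ _ k => k, pla, fun _ k => Or.inl k, ?_,
      mv s fun k _ => sl k, mv t tl, ?_, fl, ⟨m + 1, by omega, ((hs' _).1.2.2 rfl).symm⟩,
      Or.inr (Or.inl rfl), fun ⟨k, _, e⟩ => tz k e.symm, fun g hg g' hg' e e' => ?_,
      fun e he pe pn er => ?_⟩, ⟨0, by omega, by rw [e0]⟩, ⟨0, by omega, by rw [t00]⟩,
    fun c => Or.inr (Or.inr ⟨c, 0, by omega, rfl⟩), ?_, ?_⟩
  · rintro x ⟨k, a, e⟩ ⟨k', a', e'⟩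
    obtain rfl := lu (sl k) (tl k' a') a a' (e.symm.trans e')
    exact ts k (e.symm.trans e')
  · rintro j x hx x' hx' ⟨k, a, e⟩ ⟨k', a', e'⟩
    obtain ⟨k0, -, c⟩ := bk (j := j)
    rw [e, e', ← c x hx (tl k a) a e, ← c x' hx' (tl k' a') a' e']
  · have key : ∀ g ∈ P, φ g = y → ∃ k < m + 1, g.1 = (s k).1 := fun g hg e => by
      rcases cls g hg with c | ⟨k, a, c | c⟩
      · have := lu (top y y0) (nl 0) (by omega) (by omega) (e ▸ c)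
        omega
      · exact ⟨k, a, c⟩
      · have c' := nx g k c.2
        rw [e] at c'
        rw [← lu (top y y0) (nl (k + 1)) (by omega) (by omega) c'] at c'
        exact absurd c'.symm (hb c.1).2
    obtain ⟨k, a, c⟩ := key g hg e
    obtain ⟨k', a', c'⟩ := key g' hg' e'
    exact uq s sl g g' k k' a a' c c' (e.trans e'.symm)
  · have ey : e.1 ≠ y.1 := fun c => (h.eP _).1 pn
      (((R.nx_orb he (R.la y0)).2 c).trans (congrArg Prod.fst y3))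
    have mem : ∀ f ∈ SS2 G P pL pR e, (∃ g, φ g = e ∧ f = s(g, G.nx g) ∧ ∃ k < m + 1,
        g.1 = (s k).1 ∨ (β ∧ g.1 = (φ^[k] r).1)) ∨
        (pL ∧ IsL2 G e ∧ f = s(G.an (n2 G e), G.xl (G.an (n2 G e)))) := fun f hf => by
      rcases (h.sw.ss_iff hφ he pe).1 hf with ⟨g, g1, -, g2, g3⟩ | k | ⟨-, i, -⟩
      · exact Or.inl ⟨g, g2, g3, (cls g g1).resolve_left (g2 ▸ er)⟩
      · exact Or.inr k
      · obtain ⟨a, c, -⟩ := h.isR i
        exact absurd (by rw [c]; rfl) er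
    by_cases i : pL ∧ IsL2 G e
    · obtain ⟨a, c, -⟩ := h.isL i.2
      have el : e.1 = l.1 := by rw [c]; rfl
      refine Or.inr (Or.inl ⟨?_, Or.inl ⟨0, by omega, t00 ▸ el.trans (hl i.1).symm⟩⟩)
      have : ∀ f ∈ SS2 G P pL pR e, f = s(G.an (n2 G e), G.xl (G.an (n2 G e))) := fun f hf => by
        rcases mem f hf with ⟨g, g1, -, k, a, c | c⟩ | k
        · have := lu (H.up (sl k)) (k' := 0) h.hl.1 (by omega) (by omega)
            ((hφ.fst (la (sl k) c) c).symm.trans (g1 ▸ el))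
          omega
        · have := lu (nl (k + 1)) (k' := 0) h.hl.1 (by omega) (by omega)
            ((nx g k c.2).symm.trans (g1 ▸ el))
          omega
        · exact k.2.2
      exact fun f hf f' hf' => (this f hf).trans (this f' hf').symm
    let T : (ℕ → Vx J) → Set (Sym2 (Vx J)) := fun σ =>
      {f | ∃ g, φ g = e ∧ f = s(g, G.nx g) ∧ ∃ k < m + 1, g.1 = (σ k).1}
    have one : ∀ σ : ℕ → Vx J, (∀ k, σ k ∈ G.L (k + 1 : ℕ)) → (T σ).Subsingleton := by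
      rintro σ hσ _ ⟨g, g1, rfl, k, a, c⟩ _ ⟨g', g2, rfl, k', a', c'⟩
      rw [uq σ hσ g g' k k' a a' c c' (g1.trans g2.symm)]
    have sub : ∀ f ∈ SS2 G P pL pR e, f ∈ T s ∨ (β ∧ f ∈ T fun k => φ^[k] r) := fun f hf => by
      rcases mem f hf with ⟨g, g1, g2, k, a, c | c⟩ | k
      exacts [Or.inl ⟨g, g1, g2, k, a, c⟩, Or.inr ⟨c.1, g, g1, g2, k, a, c.2⟩,
        absurd ⟨k.1, k.2.1⟩ i]
    have k1 : ∀ f ∈ T s, ∃ k < m + 2, e.1 = (t k).1 := by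
      rintro _ ⟨g, g1, -, k, a, c⟩
      have := g1 ▸ hφ.fst (la (sl k) c) c
      exact ⟨k + 1, by omega, this.trans ((tf k).resolve_right fun q => ey (this.trans q))⟩
    have k2 : β → ∀ f ∈ T fun k => φ^[k] r, e ∈ P ∧ ¬ ∃ k < m + 2, e.1 = (s k).1 := by
      rintro c _ ⟨g, g1, -, k, a, q⟩
      have e1 := g1 ▸ nx g k q
      refine ⟨Or.inr (Or.inr ⟨c, k + 1, by omega, e1⟩), fun ⟨k', a', e'⟩ => ?_⟩
      obtain rfl := lu (nl (k + 1)) (sl k') (by omega) a' (e1.symm.trans e')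
      exact (hs' _).1.2.1 c (e'.symm.trans e1)
    by_cases c1 : ∃ f, f ∈ T s
    · obtain ⟨f, hf⟩ := c1
      by_cases c2 : ∃ f, β ∧ f ∈ T fun k => φ^[k] r
      · obtain ⟨f', c, hf'⟩ := c2
        exact Or.inr (Or.inr ⟨k1 f hf, (k2 c f' hf').1, f, f', fun x hx =>
          (sub x hx).imp (fun q => one s sl q hf) fun q => one _ nl q.2 hf'⟩)
      · exact Or.inr (Or.inl ⟨(one s sl).anti fun x hx =>
          (sub x hx).resolve_right fun q => c2 ⟨x, q⟩, Or.inl (k1 f hf)⟩)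
    rcases (SS2 G P pL pR e).eq_empty_or_nonempty with q | ⟨f, hf⟩
    · exact Or.inl q
    have two := fun x hx => (sub x hx).resolve_left fun q => c1 ⟨x, q⟩
    exact Or.inr (Or.inl ⟨(one _ nl).anti fun x hx => (two x hx).2,
      Or.inr (k2 (two f hf).1 f (two f hf).2)⟩)
  · rintro x hx ⟨k, a, e⟩
    rw [e, ← lu (k := 0) hx (tl k a) (by omega) a e, t00]
  · rintro g hg (⟨k, a, e⟩ | e | ⟨c, k, a, e⟩)
    · rw [← lu (top g hg) (sl k) (by omega) a e] at e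
      exact Or.inl (e.trans ((hs' _).1.2.2 rfl))
    · exact Or.inr (Or.inl e)
    · rw [← lu (top g hg) (nl k) (by omega) a e] at e
      exact Or.inr (Or.inr ⟨c, e⟩)

end Pool.Agent.P.MP_08fd93_co.FZ
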