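import Pool.Agent.P.MP_08fd93_co.FZ.W3
import Pool.Agent.P.MP_08fd93_co.FH.H3
import Pool.Agent.P.MP_08fd93_co.FR.Ear0

/-! A long second root and a hub under the top edge between two tails. -/

set_option autoImplicit false

namespace Pool.Agent.P.MP_08fd93_co.FZ

open OV FN FK FE FP2

variable {J : Type} {Γ : SimpleGraph (Vx J)} {η : ℤ × ℤ →+ ℤ} {v z p p' y h u f l r : Vx J}
  {g : Vx J → ℤ} {an : Vx J → Vx J} {G : VD J} {a : ℤ × ℤ}

theorem frz_mir (H : FrZ Γ η v z g an G) : FrZ Γ η v z g an (FR.mir G) :=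
  ⟨FR.mir_vf H.vf, H.eΓ, H.eη, H.ef, H.ea, H.eP, H.eK, H.eT, H.eV, H.eb,
    fun a => (H.ex a).symm, H.z0⟩

theorem frz_row (H : FrZ Γ η v z g an G) (t : TR Γ η v z p g) : G.L 1 = LL Γ (rz v z g) 1 := by
  rw [← ll_odd t (by decide), ← H.eΓ, ← H.ef]

theorem frz_zr [Fintype J] (H : FrZ Γ η v z g an G) (t : TR Γ η v z p g) (A : An2 Γ v z g an)
    (hl : l ∈ G.L 1 ∧ G.an (G.nx l) = v ∧ G.an l ≠ v)
    (hr : r ∈ G.L 1 ∧ G.an r = v ∧ G.an (G.nx r) ≠ v) : FE.ZR G v z l r := by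
  have S := H.sw t
  have R := H.vf.toRows
  refine ⟨S, H.eK, H.eP, by rw [H.ef, rf_v t], by simpa only [tr_zero] using (H.ex 0).1, hl, hr,
    fun j => by have := t.toSl.n4 R H.eΓ j; omega, ?_⟩
  obtain ⟨q0, -, q2⟩ := pv_mem S.lay H.z0
  set q := pv (FL G) z
  have e : Γ.Adj z q := by
    have := (S.lay.nx_mem q0).2.2
    rw [q2] at this
    exact H.eΓ ▸ this.symm
  have nv : q.1 ≠ v.1 := fun c => H.vf.l_nk q0 ((H.eK q).2 c)
  have g0 : g q = 0 := by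
    rw [← rais_n (f := g) nv, ← H.ef]
    exact R.uw.lf _ _ q0
  have T : TR Γ η v z q g := ⟨t.toSl, t.vz, e, fun c => nv (c ▸ rfl), t.ht, g0.le, t.nb⟩
  obtain ⟨n, c, -, -, h3, h4, h5, h6⟩ := T.chain (A.rp t)
  have it : ∀ i ≤ n, (ftL G)^[i] q = an^[i] q := fun i => by
    induction i with
    | zero => exact fun _ => rfl
    | succ i ih =>
      intro k
      have := (h3 _ k).2
      rw [Function.iterate_succ_apply'] at this
      rw [Function.iterate_succ_apply', Function.iterate_succ_apply', ih (by omega), ftL, H.ea]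
      exact (H.vf.xo _ fun m => this (Or.inl ((H.eK _).1 m))).1
  refine ⟨n, fun i k => ?_, ?_⟩
  · rw [it i k, H.eP]
    exact fun m => (h3 i k).2 (Or.inr m)
  · rw [it n le_rfl, H.ea, H.eK]
    obtain ⟨k1, k2⟩ := A.adj _ (h3 n le_rfl).2
    refine (show an (an^[n] q) ∈ Kt v z from by_contra fun m => h4 ⟨_, k1, k2, m⟩).resolve_right
      fun m => h6 ?_
    rwa [← t.toSl.near3 (y := tr c z) m k1.symm h5 (t.fine.inv c _ _ t.vz)]

/-- The data without a frame: `y`, `h` are adjacent on the first row, `y` is a child of `v`, `h`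
is a child of another translate of `z`; `u` sees `v`, `h` and the low vertex `f`. -/
structure HF0 (Γ : SimpleGraph (Vx J)) (v z : Vx J) (g : Vx J → ℤ) (an : Vx J → Vx J)
    (y h u f : Vx J) (a : ℤ × ℤ) : Prop where
  hy : y ∈ LL Γ (rz v z g) 1
  hh : h ∈ LL Γ (rz v z g) 1
  yh : Γ.Adj y h
  ay : an y = v
  ah : an h = tr a z
  a0 : a ≠ 0
  uv : Γ.Adj u v
  uh : Γ.Adj u h
  uL : u ∉ LL Γ (rz v z g) 1
  uz : u ≠ z
  uf : Γ.Adj u f
  gf : g f = 0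
  fk : f ∉ Kt v z
  k : ¬ Γ.Adj u y ∨ ∃ y' ∈ LL Γ (rz v z g) 1, Γ.Adj h y' ∧ y' ≠ y ∧ (an y').1 ≠ v.1

theorem HF0.core [Fintype J] (D : HF0 Γ v z g an y h u f a) (H : FrZ Γ η v z g an G)
    (t : TR Γ η v z p g) (A : An2 Γ v z g an) (e : G.nx y = h) : ∃ c, Col1 Γ ∅ c := by
  have S := H.sw t
  have V := H.vf
  have R := V.toRows
  have hF := S.lay
  have eL := frz_row H t
  obtain ⟨hy, hh, -, ay, ah, a0, uv, uh, uL, uz, uf, gf, fk, k⟩ := D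
  rw [← eL] at hy hh uL k
  obtain rfl := H.eΓ
  obtain rfl := H.ea
  have nv : ∀ c, tr c z ≠ v := fun c m => t.ne1 (by rw [← m]; rfl)
  have nk : ∀ c, tr c z ∉ G.K := fun c m => t.ne1 ((H.eK _).1 m).symm
  have vk := (H.eK v).2 rfl
  have fv : G.f v = 1 := by rw [H.ef, rf_v t]
  have pr : ∀ x ∈ G.L 1, x ∈ G.Pr := fun x hx => (H.eP x).2
    (FR.odd_orb R (by rw [R.uw.lf _ _ hx, R.uw.lf _ _ H.z0]; rfl))
  have xv : ∀ c, G.xl (tr c v) = tr c z := fun c => (H.ex c).1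
  have x0 : G.xl v = z := by simpa only [tr_zero] using xv 0
  have rh : G.ρ h = G.ρ y + 1 := e ▸ (R.nx_mem hy).2.1
  have wm : ∀ (c j : ℤ), ∀ x ∈ G.L j, tr (c • G.w) x ∈ G.L j ∧
      G.ρ (tr (c • G.w) x) = G.ρ x + c * G.nn j := fun c j x hx => hF.w_mem c hx
  have n0 := R.n2 0
  have n1 := R.n2 1
  have xh : G.xl (G.an h) = tr a z := by rw [ah, (V.xo _ (nk a)).1]
  obtain rfl : G.w = a := by
    have z1 : tr a z ∈ G.L 0 := ah ▸ V.an_l hh (pr h hh) (ah ▸ nk a)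
    obtain ⟨c, c1, c2⟩ := same_cls hF H.z0 z1 rfl
    have c2 : G.ρ (tr a z) = G.ρ z + c * G.nn 0 := c2
    have m1 := S.mono hy (pr y hy) hh (pr h hh) (by omega)
    obtain ⟨w1, w2⟩ := wm 1 1 y hy
    have m2 := S.mono hh (pr h hh) w1 (pr _ w1) (by omega)
    rw [ay, x0, xh] at m1
    rw [xh, V.atr, ay, xv, (wm 1 0 z H.z0).2] at m2
    have c3 : a = c • G.w := tr_eq_tr c1
    have : c ≠ 0 := fun m => a0 (by rw [c3, m, zero_smul])
    obtain rfl : c = 1 := by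
      rcases lt_trichotomy c 0 with m | m | m
      · nlinarith
      · exact absurd m this
      · nlinarith
    rw [c3, one_smul]
  obtain ⟨w1, w2⟩ := wm (-1) 1 h hh
  obtain ⟨i, -, -, i3, i4⟩ := switch (P := fun i => G.an (G.l 1 i) ≠ v)
    (m := G.ρ (tr ((-1 : ℤ) • G.w) h)) (n := G.ρ y) (by omega)
    (by rw [R.l_rho w1, V.atr, ah, tr_tr]; exact nv _) (by rw [R.l_rho hy]; exact fun m => m ay)
  have Z := frz_zr H t A (l := G.l 1 i) (r := y)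
    ⟨R.l_mem 1 i, by rw [R.nx_l]; exact not_not.1 i4, i3⟩ ⟨hy, ay, by rw [e, ah]; exact nv _⟩
  have us : u ∈ G.S 1 := by
    refine ⟨?_, fun m => t.toSl.nl _ _ uv ((H.eK u).1 m)⟩
    rcases R.att (V.k_st vk fv) uv.symm with m | m | m
    · exact m
    · exact absurd (((S.foot vk).2.2 u (fv ▸ m) uv.symm).trans x0) uz
    · exact absurd m uL
  have f0 : f ∈ G.L 0 := R.uw.lan 1 u us.1.1 f uf (by
    rw [H.ef, rais_n fun m => fk (Or.inl m), gf]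
    omega)
  obtain ⟨z1, z2⟩ := wm 1 0 z H.z0
  rw [one_smul] at z1 z2
  refine HZ.col (l := G.l 1 i) ⟨Z, e ▸ ah, uv, e ▸ uh, us, f0, uf, ?_, ?_, ?_⟩ (k.imp_right ?_)
  · refine lt_of_le_of_ne (not_lt.1 fun m => V.side hy (pr y hy) (Or.inl rfl) us (cpv_nb uf)
      (cpv_nb uh) (Or.inl ⟨f0, by rwa [ay, x0]⟩) (Or.inr (Or.inl ⟨hh, by omega⟩))) fun m => ?_
    exact fk (Or.inr (by rw [R.inj H.z0 f0 m]))
  · obtain ⟨c1, c2, c3⟩ := V.kc v vk
    rw [fv] at c1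
    have lt : G.ρ (G.ch v) < G.ρ h := by
      by_contra m
      have := V.btw hy (pr y hy) hh (pr h hh) c1 c2 (by omega) (by omega)
        (ay.trans (S.t_mem c3).symm) (ay ▸ vk)
      exact nv _ (ah.symm.trans (this.trans ay))
    rw [one_mul] at z2
    rw [← z2]
    refine lt_of_le_of_ne (not_lt.1 fun m => V.side hh (pr h hh) (Or.inl rfl) us (cpv_nb uv)
      (cpv_nb uf) (Or.inr (Or.inr ⟨vk, fv, fun c => nk _ (ah ▸ c.2.1), lt⟩))
      (Or.inl ⟨f0, by rwa [xh]⟩)) fun m => ?_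
    exact fk (Or.inr (by rw [R.inj f0 z1 m]; rfl))
  · rw [e]
    refine fun m => A.row h ⟨f, m.symm, ?_, fk⟩ (ah ▸ kt_z _)
    have := R.uw.lf _ _ hh
    rw [H.ef, rais_n (Z.la_nk (R.la hh))] at this
    omega
  · rintro ⟨y', y1, y2, y3, y4⟩ m
    obtain ⟨m1, m2, -⟩ := R.nx_mem hh
    obtain rfl : y' = G.nx h := by
      rcases (R.adj_iff hh y1).1 y2 with c | c
      exacts [R.inj y1 m1 (by omega), absurd (R.inj y1 hy (by omega)) y3]
    rw [e] at m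
    have := (R.nx_orb (R.la hh) (R.la Z.hl.1)).2 m.symm
    exact y4 (by rw [orb_eq this, V.atr, Z.hl.2.1]; rfl)

theorem HF0.col [Fintype J] (D : HF0 Γ v z g an y h u f a) (hN : NJ Γ Set.univ)
    (H : Lz Γ η v z p p' g) (A : An2 Γ v z g an) : ∃ c, Col1 Γ ∅ c := by
  obtain ⟨G, F⟩ := exists_frZ hN H A
  have R := F.vf.toRows
  have eL := frz_row F H.t1
  have hy : y ∈ G.L 1 := eL ▸ D.hy
  have hh : h ∈ G.L 1 := eL ▸ D.hh
  rcases (R.adj_iff hy hh).1 (F.eΓ ▸ D.yh) with c | c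
  · exact D.core F H.t1 A (R.inj (R.nx_mem hy).1 hh ((R.nx_mem hy).2.1.trans c.symm))
  · refine D.core (frz_mir F) H.t1 A ?_
    rw [FR.mir_nx, R.uw.lf _ _ hy, c, add_sub_cancel_right, R.l_rho hh]

theorem hc_long [Fintype J] {G : TD J} (D : FH.HC G v z u p r g)
    (lg : G.ρ (G.xl z) + 1 < G.ρ (G.xr z))
    (k : ¬ G.Γ.Adj u r ∨ G.an (G.nx (G.nx r)) = tr G.w z) : ∃ c, Col1 G.Γ ∅ c := by
  have T := D.F.tf
  have R := T.toRows
  have t := D.t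
  have eL : G.L 1 = LL G.Γ (rz v z g) 1 := by rw [← D.F.ef]
  have low : ∀ q ∈ G.L 0, q ∉ Kt v z ∧ g q = 0 := fun q hq =>
    have qk : q ∉ Kt v z := D.F.eV ▸ T.l_nv hq
    ⟨qk, by rw [← rz_n (g := g) qk, ← D.F.ef]; exact R.uw.lf _ _ hq⟩
  have tr' : ∀ q ∈ G.L 0, G.Γ.Adj z q → TR G.Γ G.η v z q g := fun q hq e =>
    ⟨t.toSl, t.vz, e, fun c => (low q hq).1 (Or.inl (c ▸ rfl)), t.ht, (low q hq).2.le, t.nb⟩
  obtain ⟨⟨a1, a2⟩, ⟨b1, b2⟩, -⟩ := D.feet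
  obtain ⟨f, f0, uf, -⟩ := D.ft
  obtain ⟨n1, n2, n3⟩ := R.nx_mem D.r1
  obtain ⟨m1, m2, m3⟩ := R.nx_mem n1
  refine HF0.col (f := f) ⟨eL ▸ D.r1, eL ▸ n1, n3, D.aR, D.ah, R.wp.w0, D.uv, D.uh,
    eL ▸ fun m => D.u_nl m rfl, fun m => D.uI.1.2 (m ▸ D.zV), uf, (low f f0).2, (low f f0).1,
    k.imp_right fun e => ⟨_, eL ▸ m1, m3, fun c => ?_, by rw [e]; exact t.ne1.symm⟩⟩ R.nj
    ⟨tr' _ a1 a2, tr' _ b1 b2, fun c => ?_, fun c => ?_⟩ D.a
  · rw [c] at m2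
    omega
  · rw [c] at lg
    omega
  · have := (R.adj_iff a1 b1).1 c
    omega

theorem l1 : FH.S_L1 := fun _ _ _ _ _ _ _ _ _ D lg k => hc_long D lg (Or.inl k)

theorem l3 : FH.S_L3 := fun _ _ _ _ _ _ _ _ _ D lg _ k _ => hc_long D lg (Or.inr k)

end Pool.Agent.P.MP_08fd93_co.FZ
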