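import Pool.Agent.P.MP_08fd93_co.FZ.Ht
import Pool.Agent.P.MP_08fd93_co.OV.PkUU
import Pool.Agent.P.MP_08fd93_co.OV.PkHP

/-! Potentials with weak parents: upper parts and level sets. -/

set_option autoImplicit false

namespace Pool.Agent.P.MP_08fd93_co.FZ

open OV

variable {J : Type} {Γ : SimpleGraph (Vx J)} {η : ℤ × ℤ →+ ℤ} {f : Vx J → ℤ} {w : ℤ × ℤ}

/-- A height function in which every vertex can descend without climbing. -/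
structure WP (Γ : SimpleGraph (Vx J)) (η : ℤ × ℤ →+ ℤ) (f : Vx J → ℤ) (w : ℤ × ℤ) : Prop where
  fine : Fine Γ
  ev : ∀ a, Even (η a)
  per : ∀ a x, f (tr a x) = f x + η a
  lip : ∀ x y, Γ.Adj x y → f y ≤ f x + 1
  w0 : w ≠ 0
  ker : ∀ a, η a = 0 ↔ ∃ k : ℤ, a = k • w
  gen : ∃ b, 0 < η b ∧ ∀ a, η b ∣ η a
  dn : ∀ x, ∃ y, f y < f x ∧ Conn Γ {z | f z ≤ f x} x y

/-- Facts about the upper parts and the level sets. -/
structure UW (Γ : SimpleGraph (Vx J)) (η : ℤ × ℤ →+ ℤ) (f : Vx J → ℤ) (w : ℤ × ℤ) : Prop where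
  ge : ∀ j, ∀ x ∈ UU Γ f j, j ≤ f x
  cl : ∀ j, ∀ x ∈ UU Γ f j, ∀ y, Γ.Adj x y → j ≤ f y → y ∈ UU Γ f j
  conn : ∀ j, IsConn Γ (UU Γ f j)
  low : ∀ j, IsConn Γ {x | f x ≤ j}
  big : ∃ M : ℤ, 0 ≤ M ∧ ∀ j x, j + M ≤ f x → x ∈ UU Γ f j
  mono : ∀ j j', j ≤ j' → UU Γ f j' ⊆ UU Γ f j
  utr : ∀ a j x, tr a x ∈ UU Γ f (j + η a) ↔ x ∈ UU Γ f j
  ltr : ∀ a j x, tr a x ∈ LL Γ f (j + η a) ↔ x ∈ LL Γ f j
  str : ∀ a j x, tr a x ∈ OV.ST Γ f (j + η a) ↔ x ∈ OV.ST Γ f j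
  lf : ∀ j, ∀ x ∈ LL Γ f j, f x = j
  lu : ∀ j, LL Γ f j ⊆ UU Γ f j
  bd : ∀ j, ∀ x ∈ UU Γ f j, ∀ y, Γ.Adj x y → y ∈ UU Γ f j ∨ y ∈ LL Γ f (j - 1)
  lan : ∀ j, ∀ x ∈ UU Γ f j, ∀ y, Γ.Adj x y → f y < j → y ∈ LL Γ f (j - 1)
  lne : ∀ j, (LL Γ f j).Nonempty
  lowne : ∀ j, ∃ x, f x ≤ j
  band : ∀ h h' : ℤ, ∃ F : Set (Vx J), F.Finite ∧
    ∀ x, h ≤ f x → f x ≤ h' → ∃ k : ℤ, tr (k • w) x ∈ F

theorem WP.of_pot {an : Vx J → Vx J} (h : Pot Γ η f an w) : WP Γ η f w :=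
  ⟨h.fine, h.ev, h.per, h.lip, h.w0, h.ker, h.gen, fun x =>
    ⟨an x, by rw [h.af]; omega, Conn.step (le_refl (f x))
      (by show f (an x) ≤ f x; rw [h.af]; omega) (h.aa x)⟩⟩

theorem WP.eta_w (h : WP Γ η f w) (k : ℤ) : η (k • w) = 0 := (h.ker _).2 ⟨k, rfl⟩

theorem WP.u_tr (hP : WP Γ η f w) (a : ℤ × ℤ) (j : ℤ) (x : Vx J) :
    tr a x ∈ UU Γ f (j + η a) ↔ x ∈ UU Γ f j := by
  have key : ∀ a j x, x ∈ UU Γ f j → tr a x ∈ UU Γ f (j + η a) := by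
    intro a j x hx h
    obtain ⟨y, hy, hc⟩ := hx (h - η a)
    refine ⟨tr a y, by rw [hP.per]; omega, hP.fine.conn_tr a (fun z hz => ?_) hc⟩
    simp only [Set.mem_ofPred_eq, hP.per] at hz ⊢
    omega
  refine ⟨fun h => ?_, key a j x⟩
  have := key (-a) _ _ h
  rwa [tr_neg, map_neg, add_neg_cancel_right] at this

theorem WP.l_tr (hP : WP Γ η f w) (a : ℤ × ℤ) (j : ℤ) (x : Vx J) :
    tr a x ∈ LL Γ f (j + η a) ↔ x ∈ LL Γ f j := by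
  have e : j + η a + 1 = j + 1 + η a := by ring
  simp only [LL, Set.mem_sdiff, e, hP.u_tr]
  refine and_congr_left fun _ => ⟨?_, ?_⟩
  · rintro ⟨b, hb, hxb⟩
    refine ⟨tr (-a) b, ?_, ?_⟩
    · rw [← hP.u_tr a, tr_neg']
      exact hb
    · have := hP.fine.inv (-a) _ _ hxb
      rwa [tr_neg] at this
  · rintro ⟨b, hb, hxb⟩
    exact ⟨tr a b, (hP.u_tr a _ _).2 hb, hP.fine.inv a _ _ hxb⟩

theorem WP.l_f (hP : WP Γ η f w) {j : ℤ} {x : Vx J} (hx : x ∈ LL Γ f j) : f x = j := by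
  obtain ⟨⟨b, hb, hxb⟩, hn⟩ := hx
  have h1 := PkUUP.u_ge hb
  have h2 := hP.lip _ _ hxb
  by_contra hne
  exact hn (PkUUP.u_cl hb hxb.symm (by omega))

theorem WP.down (hP : WP Γ η f w) {j : ℤ} {x : Vx J} (hx : f x ≤ j) (n : ℕ) :
    ∃ y, f y ≤ f x - n ∧ Conn Γ {z | f z ≤ j} x y := by
  induction n with
  | zero => exact ⟨x, by simp, Conn.rfl'⟩
  | succ n ih =>
    obtain ⟨y, hy, hc⟩ := ih
    obtain ⟨z, hz, hc'⟩ := hP.dn y
    refine ⟨z, by push_cast; omega, hc.trans (hc'.up fun u hu => ?_)⟩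
    simp only [Set.mem_ofPred_eq] at hu ⊢
    omega

theorem WP.bound [Fintype J] (hP : WP Γ η f w) :
    ∃ K : ℕ, ∀ x : Vx J, f x ≤ η x.2 + K ∧ η x.2 ≤ f x + K := by
  obtain ⟨K, hK⟩ := (Set.finite_range fun u : J => (f (u, 0)).natAbs).bddAbove
  refine ⟨K, fun x => ?_⟩
  have h1 : (f (x.1, 0)).natAbs ≤ K := hK ⟨x.1, rfl⟩
  have h2 := hP.per x.2 (x.1, 0)
  have e : tr x.2 ((x.1, 0) : Vx J) = x := by simp [tr]
  rw [e] at h2
  omega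

theorem WP.high (hP : WP Γ η f w) (x : Vx J) (h : ℤ) :
    ∃ y : Vx J, h ≤ f y ∧ η x.2 ≤ η y.2 := by
  obtain ⟨b, hb, _⟩ := hP.gen
  have h0 : (0 : ℤ) ≤ ((h - f x).natAbs : ℤ) := Int.natCast_nonneg _
  have h1 : ((h - f x).natAbs : ℤ) ≤ ((h - f x).natAbs : ℤ) * η b := by nlinarith
  refine ⟨tr (((h - f x).natAbs : ℤ) • b) x, ?_, ?_⟩
  · rw [hP.per, map_zsmul, smul_eq_mul]
    omega
  · simp only [tr, map_add, map_zsmul, smul_eq_mul]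
    omega

theorem WP.uw [Fintype J] (hJ : Nonempty J) (hP : WP Γ η f w) : UW Γ η f w := by
  obtain ⟨K, hK⟩ := hP.bound
  obtain ⟨M, hM0, hM⟩ := pk_HP J Γ hP.fine η
  obtain ⟨M', hM0', hM'⟩ := pk_HP J Γ hP.fine (-η)
  have up : ∀ (j : ℤ) (x y : Vx J), j + K + M ≤ η x.2 → j + K + M ≤ η y.2 →
      Conn Γ {z | j ≤ f z} x y := by
    intro j x y hx hy
    refine (hM (j + K) x y hx hy).up fun z hz => ?_
    have := hK z
    simp only [Set.mem_ofPred_eq] at *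
    omega
  have big : ∀ j x, j + (2 * K + M) ≤ f x → x ∈ UU Γ f j := by
    intro j x hx h
    obtain ⟨y, hy, hy'⟩ := hP.high x h
    have := hK x
    exact ⟨y, hy, up j x y (by omega) (by omega)⟩
  have bd : ∀ j, ∀ x ∈ UU Γ f j, ∀ y, Γ.Adj x y → y ∈ UU Γ f j ∨ y ∈ LL Γ f (j - 1) := by
    intro j x hx y hxy
    by_cases hy : y ∈ UU Γ f j
    · exact Or.inl hy
    · refine Or.inr ?_
      simp only [LL, sub_add_cancel]
      exact ⟨⟨x, hx, hxy.symm⟩, hy⟩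
  have lowne : ∀ j, ∃ x, f x ≤ j := by
    intro j
    obtain ⟨u⟩ := hJ
    obtain ⟨y, hy, -⟩ := hP.down (le_refl (f (u, 0))) (f (u, 0) - j).natAbs
    exact ⟨y, by omega⟩
  refine ⟨fun j x hx => PkUUP.u_ge hx, fun j x hx y hxy hy => PkUUP.u_cl hx hxy hy, ?_, ?_,
    ⟨2 * K + M, by omega, big⟩, fun j j' h => PkUUP.u_mono h, hP.u_tr, hP.l_tr, ?_,
    fun j x hx => hP.l_f hx, ?_, bd, ?_, ?_, lowne, ?_⟩
  · intro j x hx x' hx'
    obtain ⟨y, hy, hc⟩ := hx (j + (2 * K + M))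
    obtain ⟨y', hy', hc'⟩ := hx' (j + (2 * K + M))
    have h1 := hK y
    have h2 := hK y'
    have h3 := PkUUP.u_lift hx hc
    exact (h3.1.trans (PkUUP.u_lift h3.2 (up j y y' (by omega) (by omega))).1).trans
      (PkUUP.u_lift hx' hc').1.symm
  · intro j x hx x' hx'
    obtain ⟨n, hn⟩ := Int.eq_ofNat_of_zero_le (show (0 : ℤ) ≤ 2 * K + M' by omega)
    obtain ⟨y, hy, hc⟩ := hP.down hx n
    obtain ⟨y', hy', hc'⟩ := hP.down hx' n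
    have h1 := hK y
    have h2 := hK y'
    simp only [Set.mem_ofPred_eq] at hx hx'
    have h3 := hM' (K - j) y y' (by rw [AddMonoidHom.neg_apply]; omega)
      (by rw [AddMonoidHom.neg_apply]; omega)
    refine (hc.trans (h3.up fun z hz => ?_)).trans hc'.symm
    have := hK z
    simp only [Set.mem_ofPred_eq, AddMonoidHom.neg_apply] at *
    omega
  · intro a j x
    have e : j + η a + 1 = j + 1 + η a := by ring
    simp only [OV.ST, Set.mem_sdiff, Set.mem_union, e, hP.u_tr, hP.l_tr]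
  · intro j x hx
    have hf := hP.l_f hx
    obtain ⟨⟨b, hb, hxb⟩, _⟩ := hx
    exact PkUUP.u_cl (PkUUP.u_mono (by omega) hb) hxb.symm hf.ge
  · intro j x hx y e hy
    refine (bd j x hx y e).resolve_left fun h => ?_
    have := PkUUP.u_ge h
    omega
  · intro j
    obtain ⟨u⟩ := hJ
    obtain ⟨y, hy, -⟩ := hP.high (u, 0) (j + 1 + (2 * K + M))
    obtain ⟨z, hz⟩ := lowne j
    obtain ⟨p, q, -, -, hp, e, -, hq⟩ := (hP.fine.pl.conn y trivial z trivial).exit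
      (R := UU Γ f (j + 1)) (big _ _ hy) fun h => by
        have := PkUUP.u_ge h
        omega
    exact ⟨q, ⟨p, hp, e.symm⟩, hq⟩
  · intro h h'
    refine ⟨(fun p : J × ℤ => ((p.1, Function.invFun η p.2) : Vx J)) ''
      (Set.univ ×ˢ Set.Icc (h - K) (h' + K)),
      ((Set.finite_univ.prod (Set.finite_Icc _ _)).image _), ?_⟩
    intro x hx hx'
    have h1 := hK x
    have h2 : η (Function.invFun η (η x.2)) = η x.2 := Function.invFun_eq ⟨x.2, rfl⟩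
    obtain ⟨k, hk⟩ := (hP.ker (Function.invFun η (η x.2) - x.2)).1 (by rw [map_sub, h2, sub_self])
    refine ⟨k, (x.1, η x.2), ⟨Set.mem_univ _, ?_, ?_⟩, ?_⟩
    · show h - K ≤ η x.2
      omega
    · show η x.2 ≤ h' + K
      omega
    · simp only [tr, ← hk, add_sub_cancel]

end Pool.Agent.P.MP_08fd93_co.FZ
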